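import Mathlib

/-!
# Bases of small size for the actions of the symmetric groups

Case analysis on the point stabiliser: equivalence relations with a class of size at least three.
-/

set_option linter.unusedSectionVars false
set_option linter.unusedSimpArgs false

namespace Run7.h204.BaseSz

open Equiv Equiv.Perm MulAction

variable {α : Type*} [Fintype α] [DecidableEq α] {X : Type*} [MulAction (Perm α) X]

theorem fix_swap_iff (x₀ : X) (a b : α) (g : Perm α) :
    g • (swap a b • x₀) = swap a b • x₀ ↔ swap a b * g * swap a b ∈ stabilizer (Perm α) x₀ := by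
  rw [mem_stabilizer_iff, mul_smul, mul_smul]
  constructor
  · intro h
    rw [h, ← mul_smul, swap_mul_self, one_smul]
  · intro h
    have := congrArg (fun t => swap a b • t) h
    simp only [← mul_smul, swap_mul_self, one_mul] at this ⊢
    rw [← mul_assoc, ← mul_assoc, swap_mul_self, one_mul] at this
    exact this

/-- the basic element -/
theorem basic {H : Subgroup (Perm α)} {k : Perm α} {x y : α} (hk : k ∈ H)
    (hk' : swap x y * k * swap x y ∈ H) : swap x y * swap (k x) (k y) ∈ H := by
  have h := H.mul_mem hk' (H.inv_mem hk)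
  have e : swap x y * k * swap x y * k⁻¹ = swap x y * swap (k x) (k y) := by
    rw [Equiv.swap_apply_apply]
    group
  rwa [e] at h

/-- step three of the relation case -/
theorem greedyR {H : Subgroup (Perm α)} {R : α → α → Prop} (hR : Equivalence R)
    (hH : ∀ h ∈ H, ∀ a b, R a b → R (h a) (h b)) {k : Perm α} {x y : α} (hxy : ¬ R x y)
    (hc : (∃ z, z ≠ x ∧ R x z) ∨ (∃ z, z ≠ y ∧ R y z))
    (hk : k ∈ H) (hkx : k x = x) (hk' : swap x y * k * swap x y ∈ H) : k y = y := by
  by_contra hw
  have hne : x ≠ y := fun h => hxy (h ▸ hR.refl x)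
  have ht := basic hk hk'
  rw [hkx] at ht
  set w := k y with hwdef
  have hwx : w ≠ x := by
    intro h
    apply hne
    have : k y = k x := by rw [← hwdef, h, hkx]
    exact (k.injective this).symm
  have hxw : ¬ R x w := by
    intro h
    have h2 := hH _ (H.inv_mem hk) _ _ h
    have e1 : k⁻¹ x = x := by
      rw [Equiv.Perm.inv_eq_iff_eq]; exact hkx.symm
    have e2 : k⁻¹ w = y := by
      rw [Equiv.Perm.inv_eq_iff_eq]
    rw [e1, e2] at h2
    exact hxy h2
  have t1 : (swap x y * swap x w) x = w := by
    rw [Perm.mul_apply, swap_apply_left, swap_apply_of_ne_of_ne hwx hw]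
  have t2 : (swap x y * swap x w) w = y := by
    rw [Perm.mul_apply, swap_apply_right, swap_apply_left]
  have t3 : (swap x y * swap x w) y = x := by
    rw [Perm.mul_apply, swap_apply_of_ne_of_ne hne.symm (Ne.symm hw), swap_apply_right]
  have t4 : ∀ z, z ≠ x → z ≠ y → z ≠ w → (swap x y * swap x w) z = z := by
    intro z h1 h2 h3
    rw [Perm.mul_apply, swap_apply_of_ne_of_ne h1 h3, swap_apply_of_ne_of_ne h1 h2]
  rcases hc with ⟨z, hzx, hz⟩ | ⟨z, hzy, hz⟩
  · have hzy : z ≠ y := fun h => hxy (h ▸ hz)
    have hzw : z ≠ w := fun h => hxw (h ▸ hz)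
    have h := hH _ ht _ _ hz
    rw [t1, t4 z hzx hzy hzw] at h
    exact hxw (hR.trans hz (hR.symm h))
  · have hzx : z ≠ x := fun h => hxy (h ▸ hR.symm hz)
    by_cases hzw : z = w
    · subst hzw
      have h := hH _ ht _ _ hz
      rw [t3, t2] at h
      exact hxy h
    · have h := hH _ ht _ _ hz
      rw [t3, t4 z hzx hzy hzw] at h
      exact hxy (hR.trans h (hR.symm hz))

/-- step one of the relation case -/
theorem pairR {H : Subgroup (Perm α)} {R : α → α → Prop} (hR : Equivalence R)
    (hH : ∀ h ∈ H, ∀ a b, R a b → R (h a) (h b)) {k : Perm α} {x y : α} (hxy : ¬ R x y)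
    {z u : α} (hz : z ≠ x) (hu : u ≠ x) (hzu : z ≠ u) (Rz : R x z) (Ru : R x u)
    (hk : k ∈ H) (hk' : swap x y * k * swap x y ∈ H) :
    (k x = x ∧ k y = y) ∨ (k x = y ∧ k y = x) := by
  have hne : x ≠ y := fun h => hxy (h ▸ hR.refl x)
  have ht := basic hk hk'
  have hkne : k x ≠ k y := fun h => hne (k.injective h)
  have hkR : ¬ R (k x) (k y) := by
    intro h
    have h2 := hH _ (H.inv_mem hk) _ _ h
    have e : ∀ a, k⁻¹ (k a) = a := fun a => by simp
    rw [e, e] at h2
    exact hxy h2
  -- classmates of x are moved by t, hence among k x, k y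
  have key : ((swap x y * swap (k x) (k y)) x = y ∨ (swap x y * swap (k x) (k y)) y = x) →
      False := by
    intro hor
    have mv : ∀ c, c ≠ x → R x c → c = k x ∨ c = k y := by
      intro c hc Rc
      by_contra hcon
      push Not at hcon
      have hcy : c ≠ y := fun h => hxy (h ▸ Rc)
      have hfix : (swap x y * swap (k x) (k y)) c = c := by
        rw [Perm.mul_apply, swap_apply_of_ne_of_ne hcon.1 hcon.2, swap_apply_of_ne_of_ne hc hcy]
      rcases hor with h | h
      · have h2 := hH _ ht _ _ Rc
        rw [h, hfix] at h2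
        exact hxy (hR.trans Rc (hR.symm h2))
      · have h2 := hH _ (H.inv_mem ht) _ _ Rc
        have e1 : (swap x y * swap (k x) (k y))⁻¹ x = y := by
          rw [Equiv.Perm.inv_eq_iff_eq]; exact h.symm
        have e2 : (swap x y * swap (k x) (k y))⁻¹ c = c := by
          rw [Equiv.Perm.inv_eq_iff_eq]; exact hfix.symm
        rw [e1, e2] at h2
        exact hxy (hR.trans Rc (hR.symm h2))
    have hRzu : R z u := hR.trans (hR.symm Rz) Ru
    rcases mv z hz Rz with h1 | h1 <;> rcases mv u hu Ru with h2 | h2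
    · exact hzu (h1.trans h2.symm)
    · rw [h1, h2] at hRzu; exact hkR hRzu
    · rw [h1, h2] at hRzu; exact hkR (hR.symm hRzu)
    · exact hzu (h1.trans h2.symm)
  by_cases hx : x = k x ∨ x = k y
  · by_cases hy : y = k x ∨ y = k y
    · rcases hx with hx | hx <;> rcases hy with hy | hy
      · exact absurd (hx.trans hy.symm) hne
      · exact Or.inl ⟨hx.symm, hy.symm⟩
      · exact Or.inr ⟨hy.symm, hx.symm⟩
      · exact absurd (hx.trans hy.symm) hne
    · push Not at hy
      exfalso
      apply key
      right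
      rw [Perm.mul_apply, swap_apply_of_ne_of_ne hy.1 hy.2, swap_apply_right]
  · push Not at hx
    exfalso
    apply key
    left
    rw [Perm.mul_apply, swap_apply_of_ne_of_ne hx.1 hx.2, swap_apply_left]

/-- the cardinality of an image where two or no points agree -/
theorem card_image_le' (f : α → X) [DecidableEq X] :
    (Finset.univ.image f).card ≤ Fintype.card α := Finset.card_image_le

theorem caseB [DecidableEq X] (x₀ : X) {R : α → α → Prop} (hR : Equivalence R)
    (hH : ∀ h ∈ stabilizer (Perm α) x₀, ∀ a b, R a b → R (h a) (h b)) {x y z u : α}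
    (hxy : ¬ R x y) (hz : z ≠ x) (hu : u ≠ x) (hzu : z ≠ u) (Rz : R x z) (Ru : R x u) :
    ∃ B : Finset X, B.card ≤ Fintype.card α ∧ ∀ g : Perm α, (∀ b ∈ B, g • b = b) → g = 1 := by
  classical
  let f : α → X := fun w => if w = x then x₀ else if R x w then swap y w • x₀ else swap x w • x₀
  refine ⟨Finset.univ.image f, card_image_le' f, ?_⟩
  intro g hg
  have hf : ∀ w, g • f w = f w := fun w => hg _ (Finset.mem_image_of_mem f (Finset.mem_univ w))
  have hne : y ≠ x := fun h => hxy (h ▸ hR.refl x)
  have h0 : g ∈ stabilizer (Perm α) x₀ := by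
    have := hf x
    simp only [f, if_true] at this
    exact this
  have hyz : z ≠ y := fun h => hxy (h ▸ Rz)
  have h1 : swap x y * g * swap x y ∈ stabilizer (Perm α) x₀ := by
    have := hf y
    simp only [f, if_neg hne, if_neg hxy] at this
    exact (fix_swap_iff x₀ x y g).1 this
  have h2 : swap z y * g * swap z y ∈ stabilizer (Perm α) x₀ := by
    have := hf z
    simp only [f, if_neg hz, if_pos Rz] at this
    rw [swap_comm z y]
    exact (fix_swap_iff x₀ y z g).1 this
  have p1 := pairR hR hH hxy hz hu hzu Rz Ru h0 h1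
  have hzy : ¬ R z y := fun h => hxy (hR.trans Rz h)
  have p2 := pairR hR hH hzy (z := x) (u := u) hz.symm hzu.symm hu.symm (hR.symm Rz)
    (hR.trans (hR.symm Rz) Ru) h0 h2
  have gx : g x = x ∧ g y = y ∧ g z = z := by
    rcases p1 with ⟨a1, a2⟩ | ⟨a1, a2⟩ <;> rcases p2 with ⟨b1, b2⟩ | ⟨b1, b2⟩
    · exact ⟨a1, a2, b1⟩
    · exact absurd (a2.symm.trans b2) hyz.symm
    · exact absurd (a2.symm.trans b2) hne.symm
    · exact absurd (a2.symm.trans b2) hz.symm
  ext w
  rw [Perm.one_apply]
  by_cases hwx : w = x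
  · rw [hwx]; exact gx.1
  by_cases hw : R x w
  · have h3 : swap y w * g * swap y w ∈ stabilizer (Perm α) x₀ := by
      have := hf w
      simp only [f, if_neg hwx, if_pos hw] at this
      exact (fix_swap_iff x₀ y w g).1 this
    exact greedyR hR hH (fun h => hxy (hR.trans hw (hR.symm h)))
      (Or.inr ⟨x, Ne.symm hwx, hR.symm hw⟩) h0 gx.2.1 h3
  · have h3 : swap x w * g * swap x w ∈ stabilizer (Perm α) x₀ := by
      have := hf w
      simp only [f, if_neg hwx, if_neg hw] at this
      exact (fix_swap_iff x₀ x w g).1 this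
    exact greedyR hR hH hw (Or.inl ⟨z, hz, Rz⟩) h0 gx.1 h3

end Run7.h204.BaseSz
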