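import Pool.Agent.Run7.h204.BaseSzA

/-!
# Bases of small size for the actions of the symmetric groups

Chains of pointwise stabilisers, and point stabilisers without 3-cycles.
-/

set_option linter.unusedSectionVars false

namespace Run7.h204.BaseSz

open Equiv Equiv.Perm MulAction

/-- the pointwise stabiliser -/
def pst (G : Type*) [Group G] {X : Type*} [MulAction G X] (B : Finset X) : Subgroup G :=
  ⨅ x ∈ B, stabilizer G x

theorem mem_pst {G : Type*} [Group G] {X : Type*} [MulAction G X] {B : Finset X} {g : G} :
    g ∈ pst G B ↔ ∀ x ∈ B, g • x = x := by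
  simp [pst, Subgroup.mem_iInf, mem_stabilizer_iff]

theorem pst_anti {G : Type*} [Group G] {X : Type*} [MulAction G X] {B C : Finset X}
    (h : B ⊆ C) : pst G C ≤ pst G B := by
  intro g hg
  rw [mem_pst] at hg ⊢
  exact fun x hx => hg x (h hx)

/-- chains of pointwise stabilisers -/
theorem chain {G : Type*} [Group G] [Finite G] {X : Type*} [DecidableEq X] [MulAction G X]
    [FaithfulSMul G X] (f : ℕ → ℕ) (hf : ∀ a b, 0 < b → a ∣ b → a < b → f a < f b) :
    ∀ (m : ℕ) (B : Finset X), Nat.card (pst G B) = m →
      ∃ B' : Finset X, B'.card ≤ B.card + f m ∧ B ⊆ B' ∧ ∀ g : G, (∀ b ∈ B', g • b = b) → g = 1 := by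
  intro m
  induction m using Nat.strong_induction_on with
  | _ m ih =>
    intro B hB
    by_cases hall : ∀ g ∈ pst G B, g = 1
    · exact ⟨B, by omega, le_rfl, fun g hg => hall g (mem_pst.2 hg)⟩
    · push Not at hall
      obtain ⟨g, hg, hg1⟩ := hall
      obtain ⟨x, hx⟩ : ∃ x : X, g • x ≠ x := by
        by_contra hcon
        push Not at hcon
        exact hg1 (FaithfulSMul.eq_of_smul_eq_smul (α := X) fun x => by rw [hcon x, one_smul])
      have hle : pst G (insert x B) ≤ pst G B := pst_anti (Finset.subset_insert x B)
      have hnot : g ∉ pst G (insert x B) := by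
        intro h
        exact hx (mem_pst.1 h x (Finset.mem_insert_self x B))
      have hdvd : Nat.card (pst G (insert x B)) ∣ Nat.card (pst G B) := Subgroup.card_dvd_of_le hle
      have hpos : 0 < Nat.card (pst G B) := Nat.card_pos
      have hlt : Nat.card (pst G (insert x B)) < Nat.card (pst G B) := by
        refine lt_of_le_of_ne (Nat.le_of_dvd hpos hdvd) ?_
        intro heq
        have := Subgroup.eq_of_le_of_card_ge hle heq.ge
        exact hnot (this ▸ hg)
      rw [hB] at hdvd hpos hlt
      obtain ⟨B', h1, h2, h3⟩ := ih _ hlt (insert x B) rfl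
      have h4 := hf _ _ hpos hdvd hlt
      have h5 := Finset.card_insert_le x B
      exact ⟨B', by omega, (Finset.subset_insert x B).trans h2, h3⟩

theorem log_strict : ∀ a b : ℕ, 0 < b → a ∣ b → a < b → Nat.log 2 a < Nat.log 2 b := by
  intro a b hb hd hlt
  obtain ⟨c, rfl⟩ := hd
  have ha : a ≠ 0 := by rintro rfl; simp at hb
  have hc : 2 ≤ c := by
    rcases Nat.lt_or_ge c 2 with h | h
    · interval_cases c
      · simp at hb
      · simp at hlt
    · exact h
  calc Nat.log 2 a < Nat.log 2 a + 1 := Nat.lt_succ_self _
    _ = Nat.log 2 (a * 2) := (Nat.log_mul_base (by norm_num) ha).symm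
    _ ≤ Nat.log 2 (a * c) := Nat.log_mono_right (Nat.mul_le_mul_left a hc)

variable {α : Type*} [Fintype α] [DecidableEq α] {X : Type*} [MulAction (Perm α) X]

/-- `H` has no 3-cycles -/
def NoThree (H : Subgroup (Perm α)) : Prop := ∀ g ∈ H, ¬ g.IsThreeCycle

/-- the pair `x, y` has a partner -/
def Partner (H : Subgroup (Perm α)) (x y : α) : Prop :=
  ∃ p q, p ≠ q ∧ p ≠ x ∧ p ≠ y ∧ q ≠ x ∧ q ≠ y ∧ swap x y * swap p q ∈ H

/-- if the pair has no partner it is preserved -/
theorem pairA {H : Subgroup (Perm α)} (hH : NoThree H) {k : Perm α} {x y : α} (hne : x ≠ y)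
    (hp : ¬ Partner H x y) (hk : k ∈ H) (hk' : swap x y * k * swap x y ∈ H) :
    (k x = x ∧ k y = y) ∨ (k x = y ∧ k y = x) := by
  have ht := basic hk hk'
  have hkne : k x ≠ k y := fun h => hne (k.injective h)
  by_cases hx : k x = x
  · by_cases hy : k y = y
    · exact Or.inl ⟨hx, hy⟩
    · exfalso
      rw [hx] at ht hkne
      exact hH _ ht (isThreeCycle_swap_mul_swap_same hne hkne (Ne.symm hy))
  · by_cases hx' : k x = y
    · by_cases hy : k y = x
      · exact Or.inr ⟨hx', hy⟩
      · exfalso
        rw [hx', swap_comm x y] at ht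
        rw [hx'] at hkne
        exact hH _ ht (isThreeCycle_swap_mul_swap_same hne.symm hkne (Ne.symm hy))
    · by_cases hy : k y = x
      · exfalso
        rw [hy, swap_comm (k x) x] at ht
        exact hH _ ht (isThreeCycle_swap_mul_swap_same hne (Ne.symm hx) (Ne.symm hx'))
      · by_cases hy' : k y = y
        · exfalso
          rw [hy', swap_comm (k x) y, swap_comm x y] at ht
          exact hH _ ht (isThreeCycle_swap_mul_swap_same hne.symm (Ne.symm hx') (Ne.symm hx))
        · exact absurd ⟨k x, k y, hkne, hx, hx', hy, hy', ht⟩ hp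

/-- the greedy step -/
theorem greedyA {H : Subgroup (Perm α)} (hH : NoThree H) {k : Perm α} {x y : α}
    (hk : k ∈ H) (hkx : k x = x) (hk' : swap x y * k * swap x y ∈ H) : k y = y := by
  by_cases hne : x = y
  · rw [← hne]; exact hkx
  by_contra hy
  have ht := basic hk hk'
  have hkne : k x ≠ k y := fun h => hne (k.injective h)
  rw [hkx] at ht hkne
  exact hH _ ht (isThreeCycle_swap_mul_swap_same hne hkne (Ne.symm hy))

/-- if `k` fixes three of the points of a double transposition then it fixes the fourth -/
theorem fourth {H : Subgroup (Perm α)} (hH : NoThree H) {k : Perm α} {x w p q : α}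
    (hk : k ∈ H) (hxw : x ≠ w) (ht : swap x w * swap p q ∈ H)
    (h1 : k x = x) (h2 : k p = p) (h3 : k q = q) : k w = w := by
  by_contra hw
  have h := H.mul_mem ht (H.inv_mem (H.mul_mem (H.mul_mem hk ht) (H.inv_mem hk)))
  have e : k * (swap x w * swap p q) * k⁻¹ = swap x (k w) * swap p q := by
    have e1 : swap x (k w) = k * swap x w * k⁻¹ := by
      conv_lhs => rw [← h1]
      rw [Equiv.swap_apply_apply]
    have e2 : swap p q = k * swap p q * k⁻¹ := by
      conv_lhs => rw [← h2, ← h3]
      rw [Equiv.swap_apply_apply]
    rw [e1]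
    conv_rhs => rw [e2]
    group
  rw [e] at h
  have e' : swap x w * swap p q * (swap x (k w) * swap p q)⁻¹ = swap x w * swap x (k w) := by
    rw [mul_inv_rev, swap_inv, swap_inv, mul_assoc, ← mul_assoc (swap p q), swap_mul_self, one_mul]
  rw [e'] at h
  have hkw : x ≠ k w := by
    intro h4
    apply hxw
    apply k.injective
    rw [h1]; exact h4
  exact hH _ h (isThreeCycle_swap_mul_swap_same hxw hkw (Ne.symm hw))

/-- the points of `α` which are fixed by all the elements of `K` that fix `x` -/
noncomputable def Fx (K : Subgroup (Perm α)) (x : α) : Finset α := by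
  classical
  exact Finset.univ.filter fun y => ∀ k ∈ K, k x = x → k y = y

theorem mem_Fx {K : Subgroup (Perm α)} {x y : α} :
    y ∈ Fx K x ↔ ∀ k ∈ K, k x = x → k y = y := by
  classical
  simp [Fx]

/-- the growth of the set of fixed points -/
theorem growth [DecidableEq X] (x₀ : X) (hH : NoThree (stabilizer (Perm α) x₀)) (x : α) :
    ∀ (m : ℕ) (B : Finset X), x₀ ∈ B → Fintype.card α - (Fx (pst (Perm α) B) x).card = m →
      (∀ w, w ∉ Fx (pst (Perm α) B) x → Partner (stabilizer (Perm α) x₀) x w) →
      ∃ B' : Finset X, B ⊆ B' ∧ 3 * B'.card ≤ 3 * B.card + 2 * m ∧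
        ∀ g ∈ pst (Perm α) B', g x = x → g = 1 := by
  intro m
  induction m using Nat.strong_induction_on with
  | _ m ih =>
    intro B hB hm hw
    by_cases hall : ∀ w, w ∈ Fx (pst (Perm α) B) x
    · refine ⟨B, le_rfl, by omega, ?_⟩
      intro g hg hgx
      ext w
      exact mem_Fx.1 (hall w) g hg hgx
    · push Not at hall
      obtain ⟨w, hwF⟩ := hall
      obtain ⟨p, q, hpq, hpx, hpw, hqx, hqw, ht⟩ := hw w hwF
      have hxF : x ∈ Fx (pst (Perm α) B) x := mem_Fx.2 fun k _ h => h
      have hxw : x ≠ w := fun h => hwF (h ▸ hxF)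
      -- facts on enlarging B
      have mono : ∀ C : Finset X, B ⊆ C → Fx (pst (Perm α) B) x ⊆ Fx (pst (Perm α) C) x := by
        intro C hC y hy
        rw [mem_Fx] at hy ⊢
        exact fun k hk => hy k (pst_anti hC hk)
      have hsub : ∀ C : Finset X, B ⊆ C → pst (Perm α) C ≤ stabilizer (Perm α) x₀ := by
        intro C hC k hk
        exact mem_pst.1 hk _ (hC hB)
      have addp : ∀ (C : Finset X) (y : α), B ⊆ C → swap x y • x₀ ∈ C →
          y ∈ Fx (pst (Perm α) C) x := by
        intro C y hC hy
        rw [mem_Fx]
        intro k hk hkx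
        exact greedyA hH (hsub C hC hk) hkx ((fix_swap_iff x₀ x y k).1 (mem_pst.1 hk _ hy))
      have ht' : swap x w * swap q p ∈ stabilizer (Perm α) x₀ := by
        rw [swap_comm q p]; exact ht
      -- not both p and q are fixed
      have hnot : ¬ (p ∈ Fx (pst (Perm α) B) x ∧ q ∈ Fx (pst (Perm α) B) x) := by
        rintro ⟨h1, h2⟩
        apply hwF
        rw [mem_Fx] at h1 h2 ⊢
        intro k hk hkx
        exact fourth hH (hsub B le_rfl hk) hxw ht hkx (h1 k hk hkx) (h2 k hk hkx)
      -- if w and p are fixed then q is fixed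
      have hq : ∀ C : Finset X, B ⊆ C → w ∈ Fx (pst (Perm α) C) x → p ∈ Fx (pst (Perm α) C) x →
          q ∈ Fx (pst (Perm α) C) x := by
        intro C hC h1 h2
        rw [mem_Fx] at h1 h2 ⊢
        intro k hk hkx
        have hc : swap p q * swap x w ∈ stabilizer (Perm α) x₀ := by
          have hd : Disjoint (swap x w) (swap p q) := by
            rw [Equiv.Perm.disjoint_iff_eq_or_eq]
            intro a
            by_cases h3 : a = x
            · right; rw [h3, swap_apply_of_ne_of_ne hpx.symm hqx.symm]
            · by_cases h4 : a = w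
              · right; rw [h4, swap_apply_of_ne_of_ne hpw.symm hqw.symm]
              · left; exact swap_apply_of_ne_of_ne h3 h4
          rw [← hd.commute.eq]; exact ht
        exact fourth hH (hsub C hC hk) hpq hc (h2 k hk hkx) hkx (h1 k hk hkx)
      have hp : ∀ C : Finset X, B ⊆ C → w ∈ Fx (pst (Perm α) C) x → q ∈ Fx (pst (Perm α) C) x →
          p ∈ Fx (pst (Perm α) C) x := by
        intro C hC h1 h2
        rw [mem_Fx] at h1 h2 ⊢
        intro k hk hkx
        have hc : swap q p * swap x w ∈ stabilizer (Perm α) x₀ := by
          have hd : Disjoint (swap x w) (swap q p) := by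
            rw [Equiv.Perm.disjoint_iff_eq_or_eq]
            intro a
            by_cases h3 : a = x
            · right; rw [h3, swap_apply_of_ne_of_ne hqx.symm hpx.symm]
            · by_cases h4 : a = w
              · right; rw [h4, swap_apply_of_ne_of_ne hqw.symm hpw.symm]
              · left; exact swap_apply_of_ne_of_ne h3 h4
          rw [← hd.commute.eq]; exact ht'
        exact fourth hH (hsub C hC hk) hpq.symm hc (h2 k hk hkx) hkx (h1 k hk hkx)
      have hcardle : ∀ C : Finset X, (Fx (pst (Perm α) C) x).card ≤ Fintype.card α :=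
        fun C => Finset.card_le_univ _
      set F := Fx (pst (Perm α) B) x with hF
      -- the final step, common to both cases
      have fin : ∀ C : Finset X, B ⊆ C → ∀ c gain : ℕ, C.card ≤ B.card + c →
          F.card + gain ≤ (Fx (pst (Perm α) C) x).card → 3 * c ≤ 2 * gain → 0 < gain →
          ∃ B' : Finset X, B ⊆ B' ∧ 3 * B'.card ≤ 3 * B.card + 2 * m ∧
            ∀ g ∈ pst (Perm α) B', g x = x → g = 1 := by
        intro C hC c gain h1 h2 h3 h4
        have h5 := hcardle C
        have h6 := hcardle B
        obtain ⟨B', g1, g2, g3⟩ := ih (Fintype.card α - (Fx (pst (Perm α) C) x).card)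
          (by omega) C (hC hB) rfl (fun v hv => hw v fun hv' => hv (mono C hC hv'))
        exact ⟨B', hC.trans g1, by omega, g3⟩
      by_cases hone : p ∈ F ∨ q ∈ F
      · -- one new element
        set C := insert (swap x w • x₀) B with hCdef
        have hBC : B ⊆ C := Finset.subset_insert _ _
        have wC : w ∈ Fx (pst (Perm α) C) x := addp C w hBC (Finset.mem_insert_self _ _)
        have both : p ∈ Fx (pst (Perm α) C) x ∧ q ∈ Fx (pst (Perm α) C) x := by
          rcases hone with h | h
          · exact ⟨mono C hBC h, hq C hBC wC (mono C hBC h)⟩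
          · exact ⟨hp C hBC wC (mono C hBC h), mono C hBC h⟩
        have hsub2 : ∃ v, v ∉ F ∧ v ≠ w ∧ v ∈ Fx (pst (Perm α) C) x := by
          by_cases h : p ∈ F
          · exact ⟨q, fun h' => hnot ⟨h, h'⟩, hqw, both.2⟩
          · exact ⟨p, h, hpw, both.1⟩
        obtain ⟨v, hvF, hvw, hvC⟩ := hsub2
        have hcard : F.card + 2 ≤ (Fx (pst (Perm α) C) x).card := by
          have h1 : insert v (insert w F) ⊆ Fx (pst (Perm α) C) x := by
            intro a ha
            rw [Finset.mem_insert, Finset.mem_insert] at ha
            rcases ha with rfl | rfl | ha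
            · exact hvC
            · exact wC
            · exact mono C hBC ha
          have h2 := Finset.card_le_card h1
          rw [Finset.card_insert_of_notMem, Finset.card_insert_of_notMem hwF] at h2
          · omega
          · rw [Finset.mem_insert]; push Not; exact ⟨hvw, hvF⟩
        exact fin C hBC 1 2 (Finset.card_insert_le _ _) hcard (by norm_num) (by norm_num)
      · push Not at hone
        set C := insert (swap x p • x₀) (insert (swap x w • x₀) B) with hCdef
        have hBC : B ⊆ C := (Finset.subset_insert _ _).trans (Finset.subset_insert _ _)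
        have wC : w ∈ Fx (pst (Perm α) C) x :=
          addp C w hBC (Finset.mem_insert_of_mem (Finset.mem_insert_self _ _))
        have pC : p ∈ Fx (pst (Perm α) C) x := addp C p hBC (Finset.mem_insert_self _ _)
        have qC := hq C hBC wC pC
        have hcard : F.card + 3 ≤ (Fx (pst (Perm α) C) x).card := by
          have h1 : insert p (insert q (insert w F)) ⊆ Fx (pst (Perm α) C) x := by
            intro a ha
            rw [Finset.mem_insert, Finset.mem_insert, Finset.mem_insert] at ha
            rcases ha with rfl | rfl | rfl | ha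
            · exact pC
            · exact qC
            · exact wC
            · exact mono C hBC ha
          have h2 := Finset.card_le_card h1
          rw [Finset.card_insert_of_notMem, Finset.card_insert_of_notMem,
            Finset.card_insert_of_notMem hwF] at h2
          · omega
          · rw [Finset.mem_insert]; push Not; exact ⟨hqw, hone.2⟩
          · rw [Finset.mem_insert, Finset.mem_insert]; push Not; exact ⟨hpq, hpw, hone.1⟩
        have hc2 : C.card ≤ B.card + 2 := by
          have h1 := Finset.card_insert_le (swap x p • x₀) (insert (swap x w • x₀) B)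
          have h2 := Finset.card_insert_le (swap x w • x₀) B
          rw [hCdef]
          omega
        exact fin C hBC 2 3 hc2 hcard (by norm_num) (by norm_num)

end Run7.h204.BaseSz
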