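import Pool.Agent.Run7.h204.BaseSzB

/-!
# Bases of small size for the actions of the symmetric groups

The relation given by the 3-cycles of a subgroup, and the end of the proof.
-/

set_option linter.unusedSectionVars false

namespace Run7.h204.BaseSz

open Equiv Equiv.Perm MulAction
open scoped Pointwise

variable {α : Type*} [Fintype α] [DecidableEq α] {X : Type*} [MulAction (Perm α) X]

/-- `a`, `b` are equal or moved by a common 3-cycle in `H` -/
def RR (H : Subgroup (Perm α)) (a b : α) : Prop :=
  a = b ∨ ∃ σ ∈ H, σ.IsThreeCycle ∧ σ a ≠ a ∧ σ b ≠ b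

theorem conj3 {σ ρ : Perm α} (h : σ.IsThreeCycle) : (ρ * σ * ρ⁻¹).IsThreeCycle := by
  unfold IsThreeCycle at *
  rw [cycleType_conj, h]

theorem RR_equiv (H : Subgroup (Perm α)) : Equivalence (RR H) := by
  refine ⟨fun a => Or.inl rfl, ?_, ?_⟩
  · rintro a b (h | ⟨σ, h1, h2, h3, h4⟩)
    · exact Or.inl h.symm
    · exact Or.inr ⟨σ, h1, h2, h4, h3⟩
  · rintro a c d (h | ⟨σ, h1, h2, h3, h4⟩)
    · intro h'; rw [h]; exact h'
    · rintro (h' | ⟨τ, g1, g2, g3, g4⟩)
      · rw [← h']; exact Or.inr ⟨σ, h1, h2, h3, h4⟩
      · by_cases ha : τ a = a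
        · obtain ⟨i, hi⟩ := g2.isCycle.exists_pow_eq g3 g4
          right
          refine ⟨τ ^ i * σ * (τ ^ i)⁻¹, H.mul_mem (H.mul_mem (H.pow_mem g1 i) h1)
            (H.inv_mem (H.pow_mem g1 i)), conj3 h2, ?_, ?_⟩
          · have e : (τ ^ i) a = a := pow_apply_eq_self_of_apply_eq_self ha i
            have e' : (τ ^ i)⁻¹ a = a := by
              rw [Perm.inv_eq_iff_eq]; exact e.symm
            rw [Perm.mul_apply, Perm.mul_apply, e']
            intro h
            apply h3
            have : (τ ^ i) (σ a) = (τ ^ i) a := by rw [h, e]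
            exact (τ ^ i).injective this
          · have e' : (τ ^ i)⁻¹ d = c := by
              rw [Perm.inv_eq_iff_eq]; exact hi.symm
            rw [Perm.mul_apply, Perm.mul_apply, e']
            intro h
            apply h4
            have : (τ ^ i) (σ c) = (τ ^ i) c := by rw [h, hi]
            exact (τ ^ i).injective this
        · exact Or.inr ⟨τ, g1, g2, ha, g4⟩

theorem RR_inv (H : Subgroup (Perm α)) : ∀ h ∈ H, ∀ a b, RR H a b → RR H (h a) (h b) := by
  rintro h hh a b (hab | ⟨σ, h1, h2, h3, h4⟩)
  · left; rw [hab]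
  · right
    refine ⟨h * σ * h⁻¹, H.mul_mem (H.mul_mem hh h1) (H.inv_mem hh), conj3 h2, ?_, ?_⟩
    · simpa using h3
    · simpa using h4

/-- if the relation is universal, the group contains the alternating group -/
theorem alt_le (H : Subgroup (Perm α)) (h5 : 1 < Fintype.card α) (hu : ∀ a b, RR H a b) :
    alternatingGroup α ≤ H := by
  have htrans : ∀ a b : α, ∃ ρ ∈ H, ρ a = b := by
    intro a b
    rcases hu a b with h | ⟨σ, h1, h2, h3, h4⟩
    · exact ⟨1, H.one_mem, h⟩
    · obtain ⟨i, hi⟩ := h2.isCycle.exists_pow_eq h3 h4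
      exact ⟨σ ^ i, H.pow_mem h1 i, hi⟩
  have hpre : IsPretransitive H α := by
    constructor
    intro a b
    obtain ⟨ρ, h1, h2⟩ := htrans a b
    exact ⟨⟨ρ, h1⟩, h2⟩
  have hprim : IsPreprimitive H α := by
    refine { exists_smul_eq := hpre.exists_smul_eq, isTrivialBlock_of_isBlock := ?_ }
    intro B hB
    by_contra hnt
    unfold IsTrivialBlock at hnt
    push Not at hnt
    obtain ⟨hs, hun⟩ := hnt
    obtain ⟨a, ha, b, hb, hab⟩ := hs
    obtain ⟨c, hc⟩ : ∃ c, c ∉ B := by
      by_contra h
      push Not at h
      exact hun (Set.eq_univ_of_forall h)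
    have hinv : ∀ ρ ∈ H, ∀ e ∈ B, ρ e ∈ B → ∀ e' ∈ B, ρ e' ∈ B := by
      intro ρ hρ e he he' e' he''
      have h := hB.smul_eq_of_mem (g := ⟨ρ, hρ⟩) he he'
      rw [← h]
      exact Set.smul_mem_smul_set he''
    have hac : a ≠ c := fun h => hc (h ▸ ha)
    have hbc : b ≠ c := fun h => hc (h ▸ hb)
    rcases hu a c with h | ⟨σ, h1, h2, h3, h4⟩
    · exact hac h
    · by_cases hσb : σ b = b
      · obtain ⟨i, hi⟩ := h2.isCycle.exists_pow_eq h3 h4
        have := hinv (σ ^ i) (H.pow_mem h1 i) b hb
          (by rw [pow_apply_eq_self_of_apply_eq_self hσb i]; exact hb) a ha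
        rw [hi] at this
        exact hc this
      · -- the support is {a, b, c}
        have hcard := h2.card_support
        have hall : ∀ e, σ e ≠ e → e = a ∨ e = b ∨ e = c := by
          intro e he
          by_contra hcon
          push Not at hcon
          have hsub : ({a, b, c, e} : Finset α) ⊆ σ.support := by
            intro v hv
            simp only [Finset.mem_insert, Finset.mem_singleton] at hv
            rw [mem_support]
            rcases hv with rfl | rfl | rfl | rfl <;> assumption
          have h6 := Finset.card_le_card hsub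
          rw [Finset.card_insert_of_notMem, Finset.card_insert_of_notMem,
            Finset.card_insert_of_notMem, Finset.card_singleton, hcard] at h6
          · omega
          · simp only [Finset.mem_singleton]; exact fun h => hcon.2.2 h.symm
          · simp only [Finset.mem_insert, Finset.mem_singleton]; push Not
            exact ⟨hbc, hcon.2.1.symm⟩
          · simp only [Finset.mem_insert, Finset.mem_singleton]; push Not
            exact ⟨hab, hac, hcon.1.symm⟩
        have hmv : ∀ e, σ e ≠ e → σ (σ e) ≠ σ e := fun e he h => he (σ.injective h)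
        have h3' : ∀ e, σ (σ (σ e)) = e := by
          intro e
          have := h2.orderOf
          have h7 : σ ^ 3 = 1 := by rw [← this]; exact pow_orderOf_eq_one σ
          calc σ (σ (σ e)) = (σ ^ 3) e := by simp [pow_succ]
            _ = e := by rw [h7]; rfl
        rcases hall (σ a) (hmv a h3) with e1 | e1 | e1
        · exact h3 e1
        · -- σ a = b, σ b = c
          have e2 : σ b = c := by
            rcases hall (σ b) (hmv b hσb) with e | e | e
            · exfalso
              have := h3' a
              rw [e1, e, e1] at this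
              exact hab this.symm
            · exact absurd e hσb
            · exact e
          have := hinv σ h1 a ha (by rw [e1]; exact hb) b hb
          rw [e2] at this
          exact hc this
        · -- σ a = c, σ c = b, σ b = a
          have e2 : σ b = a := by
            rcases hall (σ b) (hmv b hσb) with e | e | e
            · exact e
            · exact absurd e hσb
            · exact absurd (σ.injective (e1.trans e.symm)) hab
          have := hinv σ h1 b hb (by rw [e2]; exact ha) a ha
          rw [e1] at this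
          exact hc this
  by_cases h3 : ∃ g ∈ H, IsThreeCycle g
  · obtain ⟨g, hg, hg3⟩ := h3
    exact alternatingGroup_le_of_isPreprimitive_of_isThreeCycle_mem hprim hg3 hg
  · exfalso
    push Not at h3
    obtain ⟨a, b, hab⟩ := Fintype.one_lt_card_iff.1 h5
    rcases hu a b with h | ⟨σ, h1, h2, -, -⟩
    · exact hab h
    · exact h3 σ h1 h2

theorem log_bound (n : ℕ) (h5 : 5 ≤ n) : 3 * Nat.log 2 n ≤ n + 1 := by
  have h1 : 2 ^ Nat.log 2 n ≤ n := Nat.pow_log_le_self 2 (by omega)
  have h2 : ∀ L : ℕ, 3 ≤ L → 3 * L ≤ 2 ^ L + 1 := by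
    intro L hL
    induction L, hL using Nat.le_induction with
    | base => norm_num
    | succ k hk ih =>
      have : 3 ≤ 2 ^ k := by
        calc 3 ≤ 2 ^ 3 := by norm_num
          _ ≤ 2 ^ k := Nat.pow_le_pow_right (by norm_num) hk
      rw [pow_succ]; omega
  rcases Nat.lt_or_ge (Nat.log 2 n) 3 with h | h
  · omega
  · have := h2 _ h; omega

theorem partner_symm {H : Subgroup (Perm α)} {x y : α} (h : Partner H x y) : Partner H y x := by
  obtain ⟨p, q, h1, h2, h3, h4, h5, h6⟩ := h
  exact ⟨p, q, h1, h3, h2, h5, h4, by rw [swap_comm y x]; exact h6⟩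

/-- point stabilisers without 3-cycles -/
theorem caseA [DecidableEq X] [FaithfulSMul (Perm α) X] (x₀ : X)
    (hH : NoThree (stabilizer (Perm α) x₀)) (h5 : 5 ≤ Fintype.card α) :
    ∃ B : Finset X, B.card ≤ Fintype.card α ∧ ∀ g : Perm α, (∀ b ∈ B, g • b = b) → g = 1 := by
  classical
  set H := stabilizer (Perm α) x₀ with hHdef
  by_cases h3 : ∃ x y z, x ≠ y ∧ y ≠ z ∧ x ≠ z ∧ ¬ Partner H x y ∧ ¬ Partner H y z
  · obtain ⟨x, y, z, hxy, hyz, hxz, p1, p2⟩ := h3
    let f : α → X := fun w => if w = z then swap y z • x₀ else swap x w • x₀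
    refine ⟨Finset.univ.image f, Finset.card_image_le, ?_⟩
    intro g hg
    have hf : ∀ w, g • f w = f w := fun w => hg _ (Finset.mem_image_of_mem f (Finset.mem_univ w))
    have h0 : g ∈ H := by
      have := hf x
      simp only [f, if_neg hxz] at this
      rw [show swap x x = (1 : Perm α) from Equiv.swap_self x, one_smul] at this
      exact this
    have h1 : swap x y * g * swap x y ∈ H := by
      have := hf y
      simp only [f, if_neg hyz] at this
      exact (fix_swap_iff x₀ x y g).1 this
    have h2 : swap y z * g * swap y z ∈ H := by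
      have := hf z
      simp only [f, if_true] at this
      exact (fix_swap_iff x₀ y z g).1 this
    have gx : g x = x ∧ g y = y ∧ g z = z := by
      rcases pairA hH hxy p1 h0 h1 with ⟨a1, a2⟩ | ⟨a1, a2⟩ <;>
        rcases pairA hH hyz p2 h0 h2 with ⟨b1, b2⟩ | ⟨b1, b2⟩
      · exact ⟨a1, a2, b2⟩
      · exact absurd (a2.symm.trans b1) hyz
      · exact absurd (a2.symm.trans b1) hxy
      · exact absurd (a2.symm.trans b1) hxz
    ext w
    rw [Perm.one_apply]
    by_cases hw : w = z
    · rw [hw]; exact gx.2.2
    · have h3 : swap x w * g * swap x w ∈ H := by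
        have := hf w
        simp only [f, if_neg hw] at this
        exact (fix_swap_iff x₀ x w g).1 this
      exact greedyA hH h0 gx.1 h3
  · push Not at h3
    by_cases hb : ∃ x, ∀ w, w ≠ x → Partner H x w
    · obtain ⟨x, hx⟩ := hb
      have hxF : ∀ C : Finset X, x ∈ Fx (pst (Perm α) C) x := fun C => mem_Fx.2 fun k _ h => h
      obtain ⟨B', g1, g2, g3⟩ := growth x₀ hH x _ {x₀} (Finset.mem_singleton_self _) rfl
        (fun w hw => hx w (fun h => hw (by rw [h]; exact hxF _)))
      have hpos : 1 ≤ (Fx (pst (Perm α) ({x₀} : Finset X)) x).card :=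
        Finset.card_pos.2 ⟨x, hxF _⟩
      have hcard : Nat.card (pst (Perm α) B') ≤ Fintype.card α := by
        rw [← Nat.card_eq_fintype_card]
        apply Nat.card_le_card_of_injective (fun g : pst (Perm α) B' => (g : Perm α) x)
        intro g h hgh
        have h1 : ((h : Perm α)⁻¹ * (g : Perm α)) x = x := by
          rw [Perm.mul_apply, Perm.inv_eq_iff_eq]; exact hgh
        have h2 := g3 ((h : Perm α)⁻¹ * g)
          ((pst (Perm α) B').mul_mem ((pst (Perm α) B').inv_mem h.2) g.2) h1
        exact Subtype.ext (inv_mul_eq_one.1 h2).symm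
      obtain ⟨C, c1, -, c3⟩ := chain (G := Perm α) (Nat.log 2) log_strict _ B' rfl
      refine ⟨C, ?_, c3⟩
      have l1 : Nat.log 2 (Nat.card (pst (Perm α) B')) ≤ Nat.log 2 (Fintype.card α) :=
        Nat.log_mono_right hcard
      have l2 := log_bound _ h5
      rw [Finset.card_singleton] at g2
      omega
    · push Not at hb
      obtain ⟨x⟩ : Nonempty α := Fintype.card_pos_iff.1 (by omega)
      obtain ⟨x', hx', hp⟩ := hb x
      have hxF : ∀ C : Finset X, x ∈ Fx (pst (Perm α) C) x := fun C => mem_Fx.2 fun k _ h => h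
      set B : Finset X := {x₀, swap x x' • x₀} with hBdef
      have hpres : ∀ k ∈ pst (Perm α) B, (k x = x ∧ k x' = x') ∨ (k x = x' ∧ k x' = x) := by
        intro k hk
        rw [mem_pst] at hk
        refine pairA hH hx'.symm hp (hk x₀ (by simp [hBdef])) ?_
        exact (fix_swap_iff x₀ x x' k).1 (hk _ (by simp [hBdef]))
      have hx'F : x' ∈ Fx (pst (Perm α) B) x := by
        rw [mem_Fx]
        intro k hk hkx
        rcases hpres k hk with h | h
        · exact h.2
        · exact absurd (h.1.symm.trans hkx) hx'
      have hpart : ∀ w, w ≠ x → w ≠ x' → Partner H x w := by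
        intro w hw hw'
        by_contra hcon
        exact hcon (h3 x' x w hx' (Ne.symm hw) (Ne.symm hw') (fun h => hp (partner_symm h)))
      obtain ⟨B', g1, g2, g3⟩ := growth x₀ hH x _ B (by simp [hBdef]) rfl
        (fun w hw => hpart w (fun h => hw (by rw [h]; exact hxF _))
          (fun h => hw (by rw [h]; exact hx'F)))
      have hpos : 2 ≤ (Fx (pst (Perm α) B) x).card := by
        have h1 : ({x, x'} : Finset α) ⊆ Fx (pst (Perm α) B) x := by
          intro a ha
          rw [Finset.mem_insert, Finset.mem_singleton] at ha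
          rcases ha with rfl | rfl
          · exact hxF _
          · exact hx'F
        have h2 := Finset.card_le_card h1
        rwa [Finset.card_pair hx'.symm] at h2
      have hB2 : B.card ≤ 2 := Finset.card_le_two
      have hcard : Nat.card (pst (Perm α) B') ≤ 2 := by
        have : Nat.card ({x, x'} : Finset α) = 2 := by
          rw [Nat.card_eq_fintype_card, Fintype.card_coe, Finset.card_pair hx'.symm]
        rw [← this]
        apply Nat.card_le_card_of_injective (fun g : pst (Perm α) B' =>
          (⟨(g : Perm α) x, by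
            rw [Finset.mem_insert, Finset.mem_singleton]
            rcases hpres _ (pst_anti g1 g.2) with h | h
            · exact Or.inl h.1
            · exact Or.inr h.1⟩ : ({x, x'} : Finset α)))
        intro g h hgh
        have hgh' : (g : Perm α) x = (h : Perm α) x := congrArg Subtype.val hgh
        have h1 : ((h : Perm α)⁻¹ * (g : Perm α)) x = x := by
          rw [Perm.mul_apply, Perm.inv_eq_iff_eq]; exact hgh'
        have h2 := g3 ((h : Perm α)⁻¹ * g)
          ((pst (Perm α) B').mul_mem ((pst (Perm α) B').inv_mem h.2) g.2) h1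
        exact Subtype.ext (inv_mul_eq_one.1 h2).symm
      obtain ⟨C, c1, -, c3⟩ := chain (G := Perm α) (Nat.log 2) log_strict _ B' rfl
      refine ⟨C, ?_, c3⟩
      have l1 : Nat.log 2 (Nat.card (pst (Perm α) B')) ≤ 1 := by
        calc Nat.log 2 (Nat.card (pst (Perm α) B')) ≤ Nat.log 2 2 := Nat.log_mono_right hcard
          _ = 1 := by norm_num
      omega

/-- the main theorem -/
theorem main [DecidableEq X] [FaithfulSMul (Perm α) X] :
    ∃ B : Finset X, B.card ≤ Fintype.card α ∧ ∀ g : Perm α, (∀ b ∈ B, g • b = b) → g = 1 := by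
  classical
  rcases Nat.lt_or_ge (Fintype.card α) 5 with h5 | h5
  · obtain ⟨C, c1, -, c3⟩ := chain (G := Perm α) (X := X) (Nat.log 2) log_strict _ ∅ rfl
    refine ⟨C, c1.trans ?_, c3⟩
    have h1 : Nat.card (pst (Perm α) (∅ : Finset X)) ≤ (Fintype.card α).factorial := by
      have h2 := Nat.card_le_card_of_injective _
        (Subtype.val_injective (p := fun g => g ∈ pst (Perm α) (∅ : Finset X)))
      rw [Nat.card_eq_fintype_card (α := Perm α), Fintype.card_perm] at h2
      exact h2
    have h2 := Nat.log_mono_right (b := 2) h1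
    rw [Finset.card_empty, zero_add]
    refine h2.trans ?_
    interval_cases (Fintype.card α) <;> simp [Nat.factorial] <;> norm_num
  · have hex : ∃ x₀ : X, ¬ alternatingGroup α ≤ stabilizer (Perm α) x₀ := by
      by_contra hcon
      push Not at hcon
      obtain ⟨a, b, c, hab, hac, hbc⟩ := Fintype.two_lt_card_iff.1 (by omega : 2 < Fintype.card α)
      have h3 := isThreeCycle_swap_mul_swap_same hab hac hbc
      have hmem : swap a b * swap a c ∈ alternatingGroup α := h3.mem_alternatingGroup
      have h1 : swap a b * swap a c = 1 :=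
        FaithfulSMul.eq_of_smul_eq_smul (α := X) fun x => by
          rw [one_smul]; exact hcon x hmem
      rw [h1] at h3
      have := h3.card_support
      simp at this
    obtain ⟨x₀, hx₀⟩ := hex
    by_cases hN : NoThree (stabilizer (Perm α) x₀)
    · exact caseA x₀ hN h5
    · unfold NoThree at hN
      push Not at hN
      obtain ⟨σ, hσ, hσ3⟩ := hN
      have hR := RR_equiv (stabilizer (Perm α) x₀)
      obtain ⟨a, b, hab⟩ : ∃ a b, ¬ RR (stabilizer (Perm α) x₀) a b := by
        by_contra hcon
        push Not at hcon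
        exact hx₀ (alt_le _ (by omega) hcon)
      have hc := hσ3.card_support
      obtain ⟨x, z, u, hxz, hxu, hzu, hs⟩ := Finset.card_eq_three.1 hc
      have mx : σ x ≠ x := by rw [← mem_support, hs]; simp
      have mz : σ z ≠ z := by rw [← mem_support, hs]; simp
      have mu : σ u ≠ u := by rw [← mem_support, hs]; simp
      have Rz : RR (stabilizer (Perm α) x₀) x z := Or.inr ⟨σ, hσ, hσ3, mx, mz⟩
      have Ru : RR (stabilizer (Perm α) x₀) x u := Or.inr ⟨σ, hσ, hσ3, mx, mu⟩
      obtain ⟨y, hy⟩ : ∃ y, ¬ RR (stabilizer (Perm α) x₀) x y := by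
        by_contra hcon
        push Not at hcon
        exact hab (hR.trans (hR.symm (hcon a)) (hcon b))
      exact caseB x₀ hR (RR_inv _) hy hxz.symm hxu.symm hzu Rz Ru

end Run7.h204.BaseSz
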