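import Pool.Agent.Run7.h204.BdmDefs

open scoped ENNReal NNReal

namespace Run7.h204.Bdm

variable {𝕜 : Type*} [RCLike 𝕜] {E : Type*} [NormedAddCommGroup E] [InnerProductSpace 𝕜 E]

noncomputable def cc (n : ℕ) : ℝ :=
  if (Nat.unpair n).2 ≤ (Nat.unpair n).1 then 1 / √(((Nat.unpair n).2 : ℝ) + 1) else 0

noncomputable def S (M : ℕ) : ℝ := ∑ i ∈ Finset.range (M + 1), 1 / ((i : ℝ) + 1)

lemma cc_nonneg (n : ℕ) : 0 ≤ cc n := by
  unfold cc; split_ifs <;> positivity

lemma cc_le_one (n : ℕ) : cc n ≤ 1 := by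
  unfold cc; split_ifs
  · rw [div_le_one (by positivity)]
    rw [Real.one_le_sqrt]
    have : (0 : ℝ) ≤ (Nat.unpair n).2 := by positivity
    linarith
  · norm_num

lemma cc_pair {M i : ℕ} (h : i ≤ M) : cc (Nat.pair M i) = 1 / √((i : ℝ) + 1) := by
  simp [cc, h]

lemma S_ge_one (M : ℕ) : 1 ≤ S M := by
  unfold S
  have : (1 : ℝ) / (((0 : ℕ) : ℝ) + 1) ≤ ∑ i ∈ Finset.range (M + 1), 1 / ((i : ℝ) + 1) :=
    Finset.single_le_sum (f := fun i : ℕ => 1 / ((i : ℝ) + 1)) (fun i _ => by positivity)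
      (by simp)
  simpa using this

lemma S_pos (M : ℕ) : 0 < S M := lt_of_lt_of_le one_pos (S_ge_one M)

lemma sqrtS_pos (M : ℕ) : 0 < √(S M) := Real.sqrt_pos.2 (S_pos M)

lemma sum_sq (M : ℕ) :
    ∑ i ∈ Finset.range (M + 1), cc (Nat.pair M i) * cc (Nat.pair M i) = S M := by
  unfold S
  refine Finset.sum_congr rfl fun i hi => ?_
  rw [cc_pair (by simpa [Nat.lt_succ_iff] using hi)]
  rw [div_mul_div_comm, Real.mul_self_sqrt (by positivity)]; norm_num

variable (b : HilbertBasis ℕ 𝕜 E)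

noncomputable def hh (M : ℕ) : E :=
  ∑ i ∈ Finset.range (M + 1), ((cc (Nat.pair M i) / √(S M) : ℝ) : 𝕜) • b (Nat.pair M i)

lemma inner_bb (n k : ℕ) : inner 𝕜 (b n) (b k) = if n = k then (1 : 𝕜) else 0 :=
  (orthonormal_iff_ite.1 b.orthonormal) n k

lemma inner_b_h (n M : ℕ) : inner 𝕜 (b n) (hh b M) =
    if (Nat.unpair n).1 = M then ((cc n / √(S M) : ℝ) : 𝕜) else 0 := by
  unfold hh
  rw [inner_sum]
  simp only [inner_smul_right, inner_bb]
  split_ifs with h
  · by_cases h2 : (Nat.unpair n).2 ≤ M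
    · rw [Finset.sum_eq_single (Nat.unpair n).2]
      · subst h; simp
      · intro i _ hi
        rw [if_neg, mul_zero]
        intro h3; apply hi; rw [h3]; simp
      · intro h3; simp at h3; omega
    · have : cc n = 0 := by unfold cc; rw [if_neg]; omega
      rw [this]
      rw [Finset.sum_eq_zero]
      · simp
      · intro i hi
        rw [if_neg, mul_zero]
        intro h3
        apply h2; rw [h3]; simp at hi ⊢; omega
  · rw [Finset.sum_eq_zero]
    intro i hi
    rw [if_neg, mul_zero]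
    intro h3; apply h; rw [h3]; simp

lemma inner_h_b (n M : ℕ) : inner 𝕜 (hh b M) (b n) =
    if (Nat.unpair n).1 = M then ((cc n / √(S M) : ℝ) : 𝕜) else 0 := by
  rw [← inner_conj_symm, inner_b_h]
  split_ifs <;> simp

lemma inner_h_left (M : ℕ) (f : E) : inner 𝕜 (hh b M) f =
    ∑ i ∈ Finset.range (M + 1), ((cc (Nat.pair M i) / √(S M) : ℝ) : 𝕜) *
      inner 𝕜 (b (Nat.pair M i)) f := by
  unfold hh
  rw [sum_inner]
  refine Finset.sum_congr rfl fun i _ => ?_
  rw [inner_smul_left]; simp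

lemma inner_hh (M M' : ℕ) : inner 𝕜 (hh b M) (hh b M') = if M = M' then (1 : 𝕜) else 0 := by
  rw [inner_h_left]
  simp only [inner_b_h, Nat.unpair_pair]
  split_ifs with h
  · subst h
    have h1 : ∀ i ∈ Finset.range (M + 1),
        ((cc (Nat.pair M i) / √(S M) : ℝ) : 𝕜) * ((cc (Nat.pair M i) / √(S M) : ℝ) : 𝕜) =
        (((cc (Nat.pair M i) * cc (Nat.pair M i)) / S M : ℝ) : 𝕜) := by
      intro i _
      rw [← RCLike.ofReal_mul, div_mul_div_comm, Real.mul_self_sqrt (S_pos M).le]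
    rw [Finset.sum_congr rfl h1, ← RCLike.ofReal_sum, ← Finset.sum_div, sum_sq,
      div_self (S_pos M).ne']
    simp
  · simp

lemma orth_h : Orthonormal 𝕜 (hh b) := by
  rw [orthonormal_iff_ite]; exact fun i j => inner_hh b i j

lemma norm_h (M : ℕ) : ‖hh b M‖ = 1 := (orth_h b).1 M

/-- the basis vectors -/
noncomputable def xx (τ : ℕ → ℝ) (n : ℕ) : E :=
  b n + ((τ (Nat.unpair n).1 * cc n : ℝ) : 𝕜) • hh b (Nat.unpair n).1

lemma inner_xx (τ τ' : ℕ → ℝ) (h : ∀ M, τ M + τ' M + τ M * τ' M * √(S M) = 0) (n k : ℕ) :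
    inner 𝕜 (xx b τ n) (xx b τ' k) = if n = k then (1 : 𝕜) else 0 := by
  unfold xx
  simp only [inner_add_left, inner_add_right, inner_smul_left, inner_smul_right, inner_bb,
    inner_b_h, inner_h_b, inner_hh, RCLike.conj_ofReal]
  by_cases hM : (Nat.unpair n).1 = (Nat.unpair k).1
  · rw [if_pos hM, if_pos hM.symm, if_pos hM, hM]
    have e := h (Nat.unpair k).1
    have hs := sqrtS_pos (Nat.unpair k).1
    rw [add_assoc]
    have key : τ (Nat.unpair k).1 * cc n * (cc k / √(S (Nat.unpair k).1)) +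
        τ' (Nat.unpair k).1 * cc k * ((cc n / √(S (Nat.unpair k).1)) +
          τ (Nat.unpair k).1 * cc n) = 0 := by
      have : τ (Nat.unpair k).1 * cc n * (cc k / √(S (Nat.unpair k).1)) +
        τ' (Nat.unpair k).1 * cc k * ((cc n / √(S (Nat.unpair k).1)) +
          τ (Nat.unpair k).1 * cc n) = cc n * cc k / √(S (Nat.unpair k).1) *
          (τ (Nat.unpair k).1 + τ' (Nat.unpair k).1 +
            τ (Nat.unpair k).1 * τ' (Nat.unpair k).1 * √(S (Nat.unpair k).1)) := by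
        field_simp
        ring
      rw [this, e, mul_zero]
    have key' : (((τ (Nat.unpair k).1 * cc n * (cc k / √(S (Nat.unpair k).1)) +
        τ' (Nat.unpair k).1 * cc k * ((cc n / √(S (Nat.unpair k).1)) +
          τ (Nat.unpair k).1 * cc n) : ℝ)) : 𝕜) = 0 := by rw [key]; simp
    have : (((τ (Nat.unpair k).1 * cc n * (cc k / √(S (Nat.unpair k).1)) +
        τ' (Nat.unpair k).1 * cc k * ((cc n / √(S (Nat.unpair k).1)) +
          τ (Nat.unpair k).1 * cc n) : ℝ)) : 𝕜) =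
        ((τ (Nat.unpair k).1 * cc n : ℝ) : 𝕜) * ((cc k / √(S (Nat.unpair k).1) : ℝ) : 𝕜) +
        ((τ' (Nat.unpair k).1 * cc k : ℝ) : 𝕜) * (((cc n / √(S (Nat.unpair k).1) : ℝ) : 𝕜) +
          ((τ (Nat.unpair k).1 * cc n : ℝ) : 𝕜)) := by push_cast; ring
    rw [this] at key'
    linear_combination key'
  · have hnk : n ≠ k := fun h => hM (by rw [h])
    rw [if_neg hM, if_neg (Ne.symm hM), if_neg hM, if_neg hnk]
    simp

lemma total_xx (τ : ℕ → ℝ) (h : ∀ M, 1 + τ M * √(S M) ≠ 0) (f : E)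
    (hf : ∀ n, inner 𝕜 (xx b τ n) f = 0) : f = 0 := by
  have h1 : ∀ n, inner 𝕜 (b n) f = -((τ (Nat.unpair n).1 * cc n : ℝ) : 𝕜) *
      inner 𝕜 (hh b (Nat.unpair n).1) f := by
    intro n
    have := hf n
    unfold xx at this
    rw [inner_add_left, inner_smul_left, RCLike.conj_ofReal] at this
    linear_combination this
  have h2 : ∀ M, inner 𝕜 (hh b M) f = 0 := by
    intro M
    have e := inner_h_left b M f
    have e2 : inner 𝕜 (hh b M) f = -((τ M * √(S M) : ℝ) : 𝕜) * inner 𝕜 (hh b M) f := by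
      conv_lhs => rw [e]
      have : ∀ i ∈ Finset.range (M + 1), ((cc (Nat.pair M i) / √(S M) : ℝ) : 𝕜) *
          inner 𝕜 (b (Nat.pair M i)) f =
          ((cc (Nat.pair M i) * cc (Nat.pair M i) : ℝ) : 𝕜) *
            (-((τ M / √(S M) : ℝ) : 𝕜) * inner 𝕜 (hh b M) f) := by
        intro i _
        rw [h1, Nat.unpair_pair]
        push_cast
        ring
      rw [Finset.sum_congr rfl this, ← Finset.sum_mul, ← RCLike.ofReal_sum, sum_sq]
      rw [← mul_assoc]
      congr 1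
      have : τ M * √(S M) = S M * (τ M / √(S M)) := by
        have hs := sqrtS_pos M
        rw [← mul_div_assoc, eq_div_iff hs.ne', mul_assoc, Real.mul_self_sqrt (S_pos M).le]
        ring
      rw [this]
      push_cast
      ring
    have h3 : ((1 + τ M * √(S M) : ℝ) : 𝕜) * inner 𝕜 (hh b M) f = 0 := by
      push_cast
      push_cast at e2
      linear_combination e2
    rcases mul_eq_zero.1 h3 with h4 | h4
    · exact absurd (by exact_mod_cast h4) (h M)
    · exact h4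
  have h5 : b.repr f = 0 := by
    ext n
    rw [b.repr_apply_apply, h1, h2]; simp
  simpa using h5

lemma norm_xx_le (τ : ℕ → ℝ) (h : ∀ M, |τ M| ≤ 1) (n : ℕ) : ‖xx b τ n‖ ≤ 2 := by
  unfold xx
  refine (norm_add_le _ _).trans ?_
  rw [norm_smul, norm_h, b.orthonormal.1 n, RCLike.norm_ofReal, abs_mul, abs_of_nonneg (cc_nonneg n)]
  have := mul_le_mul (h (Nat.unpair n).1) (cc_le_one n) (cc_nonneg n) zero_le_one
  linarith

lemma norm_sq_sum {ι : Type*} {v : ι → E} (hv : Orthonormal 𝕜 v) (s : Finset ι) (l : ι → 𝕜) :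
    ‖∑ i ∈ s, l i • v i‖ ^ 2 = ∑ i ∈ s, ‖l i‖ ^ 2 := by
  have h := hv.inner_sum l l s
  rw [inner_self_eq_norm_sq_to_K] at h
  have h2 : ∀ i ∈ s, (starRingEnd 𝕜) (l i) * l i = ((‖l i‖ ^ 2 : ℝ) : 𝕜) := by
    intro i _
    rw [RCLike.conj_mul]; push_cast; rfl
  rw [Finset.sum_congr rfl h2, ← RCLike.ofReal_sum, ← RCLike.ofReal_pow] at h
  exact_mod_cast h

lemma sum_sqrt_le (B : Finset ℕ) : ∑ i ∈ B, 1 / √((i : ℝ) + 1) ≤ 2 * √(B.card : ℝ) := by
  induction B using Finset.induction_on_max with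
  | empty => simp
  | insert a s ha ih =>
    have has : a ∉ s := fun h => lt_irrefl _ (ha a h)
    rw [Finset.sum_insert has, Finset.card_insert_of_notMem has]
    have hc : s.card ≤ a := by
      have : s ⊆ Finset.range a := fun x hx => Finset.mem_range.2 (ha x hx)
      simpa using Finset.card_le_card this
    set m : ℝ := (s.card : ℝ) with hm
    have hm0 : 0 ≤ m := by positivity
    have h1 : 1 / √((a : ℝ) + 1) ≤ 1 / √(m + 1) := by
      apply one_div_le_one_div_of_le (by positivity)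
      apply Real.sqrt_le_sqrt
      have : m ≤ a := by rw [hm]; exact_mod_cast hc
      linarith
    have h2 : 1 / √(m + 1) ≤ 2 * (√(m + 1) - √m) := by
      have hp : 0 < √(m + 1) := by positivity
      rw [div_le_iff₀ hp]
      have e1 : √(m + 1) * √(m + 1) = m + 1 := Real.mul_self_sqrt (by positivity)
      have e2 : √m * √m = m := Real.mul_self_sqrt hm0
      nlinarith [sq_nonneg (√(m + 1) - √m)]
    push_cast
    have : √((m : ℝ) + 1) = √((s.card : ℝ) + 1) := rfl
    linarith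

lemma block_sum_le (A : Finset ℕ) (M : ℕ) :
    ∑ n ∈ A with (Nat.unpair n).1 = M, cc n ≤
      2 * √((A.filter fun n => (Nat.unpair n).1 = M).card : ℝ) := by
  classical
  set B := A.filter fun n => (Nat.unpair n).1 = M with hB
  have hinj : Set.InjOn (fun n => (Nat.unpair n).2) (B : Set ℕ) := by
    intro n hn k hk e
    simp only [hB, Finset.coe_filter, Set.mem_setOf_eq] at hn hk
    have h1 : Nat.unpair n = Nat.unpair k := Prod.ext (hn.2.trans hk.2.symm) e
    have := congrArg (fun p : ℕ × ℕ => Nat.pair p.1 p.2) h1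
    simpa using this
  have h1 : ∑ n ∈ B, cc n ≤ ∑ n ∈ B, 1 / √(((Nat.unpair n).2 : ℝ) + 1) := by
    apply Finset.sum_le_sum
    intro n _
    unfold cc; split_ifs
    · exact le_rfl
    · positivity
  have h2 : ∑ n ∈ B, 1 / √(((Nat.unpair n).2 : ℝ) + 1) =
      ∑ i ∈ B.image (fun n => (Nat.unpair n).2), 1 / √((i : ℝ) + 1) := by
    rw [Finset.sum_image hinj]
  have h3 := sum_sqrt_le (B.image (fun n => (Nat.unpair n).2))
  rw [Finset.card_image_of_injOn hinj] at h3
  linarith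

lemma norm_sum_xx (τ : ℕ → ℝ) (h : ∀ M, |τ M| ≤ 1) (A : Finset ℕ) (ε : ℕ → 𝕜)
    (hε : ∀ n, ‖ε n‖ = 1) : ‖∑ n ∈ A, ε n • xx b τ n‖ ≤ 3 * √(A.card : ℝ) := by
  classical
  have e1 : ∑ n ∈ A, ε n • xx b τ n = ∑ n ∈ A, ε n • b n +
      ∑ n ∈ A, (ε n * ((τ (Nat.unpair n).1 * cc n : ℝ) : 𝕜)) • hh b (Nat.unpair n).1 := by
    rw [← Finset.sum_add_distrib]
    refine Finset.sum_congr rfl fun n _ => ?_
    unfold xx; rw [smul_add, smul_smul]
  have h1 : ‖∑ n ∈ A, ε n • b n‖ ≤ √(A.card : ℝ) := by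
    apply Real.le_sqrt_of_sq_le
    rw [norm_sq_sum b.orthonormal]
    simp [hε]
  have e2 : ∑ n ∈ A, (ε n * ((τ (Nat.unpair n).1 * cc n : ℝ) : 𝕜)) • hh b (Nat.unpair n).1 =
      ∑ M ∈ A.image (fun n => (Nat.unpair n).1),
        (∑ n ∈ A with (Nat.unpair n).1 = M, (ε n * ((τ M * cc n : ℝ) : 𝕜))) • hh b M := by
    rw [← Finset.sum_fiberwise_of_maps_to (g := fun n => (Nat.unpair n).1)
      (t := A.image (fun n => (Nat.unpair n).1)) (fun n hn => Finset.mem_image_of_mem _ hn)]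
    refine Finset.sum_congr rfl fun M _ => ?_
    rw [Finset.sum_smul]
    refine Finset.sum_congr rfl fun n hn => ?_
    rw [(Finset.mem_filter.1 hn).2]
  have h2 : ‖∑ M ∈ A.image (fun n => (Nat.unpair n).1),
        (∑ n ∈ A with (Nat.unpair n).1 = M, (ε n * ((τ M * cc n : ℝ) : 𝕜))) • hh b M‖ ≤
      2 * √(A.card : ℝ) := by
    have e3 : 2 * √(A.card : ℝ) = √(4 * (A.card : ℝ)) := by
      rw [Real.sqrt_mul (by norm_num), show √(4 : ℝ) = 2 by
        rw [show (4 : ℝ) = 2 ^ 2 by norm_num]; exact Real.sqrt_sq (by norm_num)]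
    rw [e3]
    apply Real.le_sqrt_of_sq_le
    rw [norm_sq_sum (orth_h b)]
    have h3 : ∀ M ∈ A.image (fun n => (Nat.unpair n).1),
        ‖∑ n ∈ A with (Nat.unpair n).1 = M, (ε n * ((τ M * cc n : ℝ) : 𝕜))‖ ^ 2 ≤
        4 * ((A.filter fun n => (Nat.unpair n).1 = M).card : ℝ) := by
      intro M _
      have h4 : ‖∑ n ∈ A with (Nat.unpair n).1 = M, (ε n * ((τ M * cc n : ℝ) : 𝕜))‖ ≤
          2 * √((A.filter fun n => (Nat.unpair n).1 = M).card : ℝ) := by
        refine (norm_sum_le _ _).trans (le_trans (Finset.sum_le_sum fun n _ => ?_)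
          (block_sum_le A M))
        rw [norm_mul, hε, one_mul, RCLike.norm_ofReal, abs_mul, abs_of_nonneg (cc_nonneg n)]
        have := mul_le_mul_of_nonneg_right (h M) (cc_nonneg n)
        linarith
      calc _ ≤ (2 * √((A.filter fun n => (Nat.unpair n).1 = M).card : ℝ)) ^ 2 := by
            gcongr
        _ = _ := by rw [mul_pow, Real.sq_sqrt (by positivity)]; norm_num
    refine (Finset.sum_le_sum h3).trans ?_
    rw [← Finset.mul_sum]
    have h5 : A.card = ∑ M ∈ A.image (fun n => (Nat.unpair n).1),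
        (A.filter fun n => (Nat.unpair n).1 = M).card :=
      Finset.card_eq_sum_card_image (fun n => (Nat.unpair n).1) A
    conv_rhs => rw [h5]
    push_cast
    exact le_rfl
  rw [e1, e2]
  refine (norm_add_le _ _).trans ?_
  linarith

end Run7.h204.Bdm
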