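import Pool.Agent.Run7.h204.BdmA

open scoped ENNReal NNReal
open Filter

namespace Run7.h204.Bdm

variable {𝕜 : Type*} [RCLike 𝕜] {E : Type*} [NormedAddCommGroup E] [InnerProductSpace 𝕜 E]

lemma phi_le {F : Type*} [NormedAddCommGroup F] [NormedSpace 𝕜 F] (x : ℕ → F) (m : ℕ) (K : ℝ)
    (hK : 0 ≤ K) (h : ∀ (A : Finset ℕ) (ε : ℕ → 𝕜), A.card ≤ m → (∀ n, ‖ε n‖ = 1) →
      ‖∑ n ∈ A, ε n • x n‖ ≤ K) : phi 𝕜 x m ≤ K := by
  unfold phi
  apply Real.sSup_le _ hK
  rintro r ⟨A, ε, h1, h2, rfl⟩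
  exact h A ε h1 h2

lemma phi_nonneg {F : Type*} [NormedAddCommGroup F] [NormedSpace 𝕜 F] (x : ℕ → F) (m : ℕ) :
    0 ≤ phi 𝕜 x m := by
  unfold phi
  apply Real.sSup_nonneg
  rintro r ⟨A, ε, h1, h2, rfl⟩
  exact norm_nonneg _

lemma dual_sum (y : ℕ → E) (A : Finset ℕ) (ε : ℕ → 𝕜) :
    ‖∑ n ∈ A, ε n • (innerSL 𝕜 (y n))‖ = ‖∑ n ∈ A, (starRingEnd 𝕜 (ε n)) • y n‖ := by
  rw [← innerSL_apply_norm (𝕜 := 𝕜) (∑ n ∈ A, (starRingEnd 𝕜 (ε n)) • y n), map_sum]
  congr 1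
  refine Finset.sum_congr rfl fun n _ => ?_
  rw [map_smulₛₗ]; simp

lemma rearr_nonneg (a : ℕ → 𝕜) (n : ℕ) : 0 ≤ rearr a n := by
  unfold rearr
  apply Real.sInf_nonneg
  rintro t ⟨h, _⟩; exact h

lemma rearr_le (a : ℕ → 𝕜) (n : ℕ) (t : ℝ) (ht : 0 ≤ t) (h : {k | t < ‖a k‖}.encard ≤ n) :
    rearr a n ≤ t := by
  unfold rearr
  exact csInf_le ⟨0, fun s hs => hs.1⟩ ⟨ht, h⟩

lemma le_rearr (a : ℕ → 𝕜) (n : ℕ) (s T : ℝ) (hT : 0 ≤ T) (hb : ∀ k, ‖a k‖ ≤ T)
    (h : ∀ t, 0 ≤ t → t < s → (n : ℕ∞) < {k | t < ‖a k‖}.encard) : s ≤ rearr a n := by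
  unfold rearr
  apply le_csInf
  · refine ⟨T, hT, ?_⟩
    have : {k | T < ‖a k‖} = ∅ := by
      ext k; simp [not_lt.2 (hb k)]
    rw [this]; simp
  · rintro t ⟨h1, h2⟩
    by_contra h3
    exact absurd h2 (not_le.2 (h t h1 (not_le.1 h3)))

lemma pair_inj (M : ℕ) : Function.Injective (Nat.pair M) := by
  intro i j h
  have := congrArg (fun n => (Nat.unpair n).2) h
  simpa using this

lemma pow_identity (n : ℕ) (q : ℝ) :
    (1 / √((n : ℝ) + 1)) ^ q * ((n : ℝ) + 1) ^ (q / 2 - 1) = 1 / ((n : ℝ) + 1) := by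
  have hp : (0 : ℝ) < (n : ℝ) + 1 := by positivity
  have e : -(1 / 2 : ℝ) * q + (q / 2 - 1) = -1 := by ring
  rw [Real.sqrt_eq_rpow, one_div, ← Real.rpow_neg hp.le, ← Real.rpow_mul hp.le,
    ← Real.rpow_add hp, e, Real.rpow_neg_one, one_div]

variable (b : HilbertBasis ℕ 𝕜 E)

lemma sum_block (τ : ℕ → ℝ) (M : ℕ) :
    ∑ i ∈ Finset.range (M + 1), ((cc (Nat.pair M i) : ℝ) : 𝕜) • xx b τ (Nat.pair M i) =
      ((√(S M) + τ M * S M : ℝ) : 𝕜) • hh b M := by
  have e1 : ∀ i ∈ Finset.range (M + 1),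
      ((cc (Nat.pair M i) : ℝ) : 𝕜) • xx b τ (Nat.pair M i) =
      ((√(S M) : ℝ) : 𝕜) • (((cc (Nat.pair M i) / √(S M) : ℝ) : 𝕜) • b (Nat.pair M i)) +
        ((τ M * (cc (Nat.pair M i) * cc (Nat.pair M i)) : ℝ) : 𝕜) • hh b M := by
    intro i _
    unfold xx
    rw [Nat.unpair_pair, smul_add, smul_smul, smul_smul]
    congr 2
    · rw [← RCLike.ofReal_mul]; congr 1
      have := sqrtS_pos M
      field_simp
    · push_cast; ring
  rw [Finset.sum_congr rfl e1, Finset.sum_add_distrib, ← Finset.smul_sum, ← Finset.sum_smul,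
    ← RCLike.ofReal_sum, ← Finset.mul_sum, sum_sq]
  have : ∑ i ∈ Finset.range (M + 1), ((cc (Nat.pair M i) / √(S M) : ℝ) : 𝕜) • b (Nat.pair M i) =
    hh b M := rfl
  rw [this, ← add_smul]
  push_cast; rfl

/-- the test vector -/
noncomputable def av (𝕜 : Type*) [RCLike 𝕜] (M : ℕ) : ℕ →₀ 𝕜 :=
  Finsupp.onFinset ((Finset.range (M + 1)).image (Nat.pair M))
    (fun n => if (Nat.unpair n).1 = M then ((cc n : ℝ) : 𝕜) else 0) (by
      intro n hn
      by_cases h : (Nat.unpair n).1 = M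
      · rw [if_pos h] at hn
        have h2 : (Nat.unpair n).2 ≤ M := by
          by_contra h3
          apply hn
          unfold cc
          rw [if_neg (by omega)]; simp
        rw [Finset.mem_image]
        refine ⟨(Nat.unpair n).2, by simp; omega, ?_⟩
        rw [← h]; simp
      · rw [if_neg h] at hn; exact absurd rfl hn)

lemma av_apply (M n : ℕ) : av 𝕜 M n = if (Nat.unpair n).1 = M then ((cc n : ℝ) : 𝕜) else 0 := rfl

lemma av_sum (τ : ℕ → ℝ) (M : ℕ) : ((av 𝕜 M).sum fun n c => c • xx b τ n) =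
    ((√(S M) + τ M * S M : ℝ) : 𝕜) • hh b M := by
  classical
  unfold av
  rw [Finsupp.onFinset_sum _ (by simp), Finset.sum_image (fun _ _ _ _ h => pair_inj M h),
    ← sum_block]
  refine Finset.sum_congr rfl fun i _ => ?_
  rw [Nat.unpair_pair]; simp

lemma norm_av (M n : ℕ) : ‖av 𝕜 M n‖ = if (Nat.unpair n).1 = M then cc n else 0 := by
  rw [av_apply]; split_ifs
  · rw [RCLike.norm_ofReal, abs_of_nonneg (cc_nonneg n)]
  · simp

lemma lt_cc {n k : ℕ} (h : 1 / √((n : ℝ) + 1) < cc k) : (Nat.unpair k).2 < n := by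
  unfold cc at h
  split_ifs at h with h1
  · by_contra h2
    have h3 : (n : ℝ) ≤ (Nat.unpair k).2 := by exact_mod_cast not_lt.1 h2
    have : 1 / √(((Nat.unpair k).2 : ℝ) + 1) ≤ 1 / √((n : ℝ) + 1) := by
      apply one_div_le_one_div_of_le (by positivity)
      exact Real.sqrt_le_sqrt (by linarith)
    linarith
  · exact absurd h (not_lt.2 (by positivity))

lemma rearr_av_le (M n : ℕ) : rearr (av 𝕜 M) n ≤ 1 / √((n : ℝ) + 1) := by
  classical
  apply rearr_le _ _ _ (by positivity)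
  have hsub : {k | 1 / √((n : ℝ) + 1) < ‖av 𝕜 M k‖} ⊆
      (((Finset.range n).image (Nat.pair M) : Finset ℕ) : Set ℕ) := by
    intro k hk
    simp only [Set.mem_setOf_eq, norm_av] at hk
    split_ifs at hk with h1
    · have h2 := lt_cc hk
      rw [Finset.mem_coe, Finset.mem_image]
      refine ⟨(Nat.unpair k).2, Finset.mem_range.2 h2, ?_⟩
      rw [← h1]; simp
    · exact absurd hk (not_lt.2 (by positivity))
  refine (Set.encard_le_encard hsub).trans ?_
  rw [Set.encard_coe_eq_coe_finsetCard]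
  have := Finset.card_image_le (s := Finset.range n) (f := Nat.pair M)
  rw [Finset.card_range] at this
  exact_mod_cast this

lemma rearr_av_zero {M n : ℕ} (h : M + 1 ≤ n) : rearr (av 𝕜 M) n = 0 := by
  classical
  apply le_antisymm _ (rearr_nonneg _ _)
  apply rearr_le _ _ _ le_rfl
  have hsub : {k | 0 < ‖av 𝕜 M k‖} ⊆
      (((Finset.range (M + 1)).image (Nat.pair M) : Finset ℕ) : Set ℕ) := by
    intro k hk
    simp only [Set.mem_setOf_eq, norm_av] at hk
    split_ifs at hk with h1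
    · have h2 : (Nat.unpair k).2 ≤ M := by
        by_contra h3
        unfold cc at hk
        rw [if_neg (by omega)] at hk
        exact lt_irrefl _ hk
      rw [Finset.mem_coe, Finset.mem_image]
      refine ⟨(Nat.unpair k).2, Finset.mem_range.2 (by omega), ?_⟩
      rw [← h1]; simp
    · exact absurd hk (lt_irrefl _)
  refine (Set.encard_le_encard hsub).trans ?_
  rw [Set.encard_coe_eq_coe_finsetCard]
  have := Finset.card_image_le (s := Finset.range (M + 1)) (f := Nat.pair M)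
  rw [Finset.card_range] at this
  exact_mod_cast this.trans h

lemma lorentz_av_le (M : ℕ) (q : ℝ) (hq : 0 < q) :
    lorentz q (av 𝕜 M) ≤ ENNReal.ofReal (S M) ^ (1 / q) := by
  unfold lorentz
  apply ENNReal.rpow_le_rpow _ (by positivity)
  rw [tsum_eq_sum (s := Finset.range (M + 1))]
  · unfold S
    rw [ENNReal.ofReal_sum_of_nonneg (fun i _ => by positivity)]
    refine Finset.sum_le_sum fun n _ => ?_
    apply ENNReal.ofReal_le_ofReal
    rw [← pow_identity n q]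
    apply mul_le_mul_of_nonneg_right _ (by positivity)
    exact Real.rpow_le_rpow (rearr_nonneg _ _) (rearr_av_le M n) hq.le
  · intro n hn
    have : M + 1 ≤ n := by simpa using hn
    rw [rearr_av_zero this, Real.zero_rpow hq.ne']; simp

lemma le_lorentz (a : ℕ → 𝕜) (M : ℕ) (r : ℝ) (hr : 0 < r)
    (h : ∀ n ≤ M, 1 / √((n : ℝ) + 1) ≤ rearr a n) :
    ENNReal.ofReal (S M) ^ (1 / r) ≤ lorentz r a := by
  unfold lorentz
  apply ENNReal.rpow_le_rpow _ (by positivity)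
  refine le_trans ?_ (ENNReal.sum_le_tsum (Finset.range (M + 1)))
  unfold S
  rw [ENNReal.ofReal_sum_of_nonneg (fun i _ => by positivity)]
  refine Finset.sum_le_sum fun n hn => ?_
  apply ENNReal.ofReal_le_ofReal
  rw [← pow_identity n r]
  apply mul_le_mul_of_nonneg_right _ (by positivity)
  exact Real.rpow_le_rpow (by positivity) (h n (by simpa [Nat.lt_succ_iff] using hn)) hr.le

lemma S_tendsto : Tendsto S atTop atTop := by
  have h := Real.tendsto_sum_range_one_div_nat_succ_atTop.comp (tendsto_add_atTop_nat 1)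
  exact h

lemma rearr_h_le (τ : ℕ → ℝ) (hτ : ∀ M, |τ M| ≤ 1) (M : ℕ) (hM : τ M = 1) (n : ℕ) (hn : n ≤ M) :
    1 / √((n : ℝ) + 1) ≤ rearr (fun k => innerSL 𝕜 (xx b τ k) (hh b M)) n := by
  classical
  apply le_rearr _ _ _ 2 (by norm_num)
  · intro k
    calc ‖innerSL 𝕜 (xx b τ k) (hh b M)‖ ≤ ‖xx b τ k‖ * ‖hh b M‖ := norm_inner_le_norm _ _
      _ ≤ 2 * 1 := by rw [norm_h]; linarith [norm_xx_le b τ hτ k]
      _ = 2 := by norm_num
  · intro t ht0 ht
    have hsub : (((Finset.range (n + 1)).image (Nat.pair M) : Finset ℕ) : Set ℕ) ⊆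
        {k | t < ‖innerSL 𝕜 (xx b τ k) (hh b M)‖} := by
      intro k hk
      rw [Finset.mem_coe, Finset.mem_image] at hk
      obtain ⟨i, hi, rfl⟩ := hk
      have hi' : i ≤ n := by simpa [Nat.lt_succ_iff] using hi
      have e : innerSL 𝕜 (xx b τ (Nat.pair M i)) (hh b M) =
          ((cc (Nat.pair M i) / √(S M) + cc (Nat.pair M i) : ℝ) : 𝕜) := by
        show inner 𝕜 (xx b τ (Nat.pair M i)) (hh b M) = _
        unfold xx
        rw [inner_add_left, inner_smul_left, inner_b_h, inner_hh, Nat.unpair_pair]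
        simp [hM]
      have hc : 0 < cc (Nat.pair M i) := by
        rw [cc_pair (hi'.trans hn)]; positivity
      have hs := sqrtS_pos M
      rw [Set.mem_setOf_eq, e, RCLike.norm_ofReal, abs_of_nonneg (by positivity)]
      have h1 : 1 / √((n : ℝ) + 1) ≤ cc (Nat.pair M i) := by
        rw [cc_pair (hi'.trans hn)]
        apply one_div_le_one_div_of_le (by positivity)
        apply Real.sqrt_le_sqrt
        have : (i : ℝ) ≤ n := by exact_mod_cast hi'
        linarith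
      have h2 : 0 < cc (Nat.pair M i) / √(S M) := by positivity
      linarith
    refine lt_of_lt_of_le ?_ (Set.encard_le_encard hsub)
    rw [Set.encard_coe_eq_coe_finsetCard, Finset.card_image_of_injective _ (pair_inj M),
      Finset.card_range]
    exact_mod_cast Nat.lt_succ_self n

/-- the parameter of the basis -/
noncomputable def tt (M : ℕ) : ℝ := if Even M then 1 else -1 / (1 + √(S M))
/-- the parameter of the dual basis -/
noncomputable def tt' (M : ℕ) : ℝ := if Even M then -1 / (1 + √(S M)) else 1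

lemma abs_aux (M : ℕ) : |(-1 : ℝ) / (1 + √(S M))| ≤ 1 := by
  have hs := sqrtS_pos M
  rw [abs_div, abs_neg, abs_one, abs_of_pos (by positivity), div_le_one (by positivity)]
  linarith

lemma tt_abs (M : ℕ) : |tt M| ≤ 1 := by
  unfold tt; split_ifs
  · simp
  · exact abs_aux M

lemma tt'_abs (M : ℕ) : |tt' M| ≤ 1 := by
  unfold tt'; split_ifs
  · exact abs_aux M
  · simp

lemma tt_rel (M : ℕ) : tt' M + tt M + tt' M * tt M * √(S M) = 0 := by
  have hs := sqrtS_pos M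
  unfold tt tt'; split_ifs <;> field_simp <;> ring

lemma tt_ne (M : ℕ) : 1 + tt M * √(S M) ≠ 0 := by
  have hs := sqrtS_pos M
  unfold tt; split_ifs
  · positivity
  · have : 1 + -1 / (1 + √(S M)) * √(S M) = 1 / (1 + √(S M)) := by field_simp; ring
    rw [this]; positivity

lemma tt'_ne (M : ℕ) : 1 + tt' M * √(S M) ≠ 0 := by
  have hs := sqrtS_pos M
  unfold tt'; split_ifs
  · have : 1 + -1 / (1 + √(S M)) * √(S M) = 1 / (1 + √(S M)) := by field_simp; ring
    rw [this]; positivity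
  · positivity

noncomputable def bb (𝕜 : Type*) [RCLike 𝕜] : HilbertBasis ℕ 𝕜 (L2 𝕜) :=
  HilbertBasis.ofRepr (LinearIsometryEquiv.refl 𝕜 _)

noncomputable def X (𝕜 : Type*) [RCLike 𝕜] (n : ℕ) : L2 𝕜 := xx (bb 𝕜) tt n
noncomputable def XS (𝕜 : Type*) [RCLike 𝕜] (n : ℕ) : L2 𝕜 →L[𝕜] 𝕜 :=
  innerSL 𝕜 (xx (bb 𝕜) tt' n)

lemma isBasis : IsBasis (X 𝕜) (XS 𝕜) where
  dense_span := by
    rw [Submodule.topologicalClosure_eq_top_iff, Submodule.eq_bot_iff]
    intro f hf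
    rw [Submodule.mem_orthogonal] at hf
    exact total_xx (bb 𝕜) tt tt_ne f fun n => hf _ (Submodule.subset_span ⟨n, rfl⟩)
  biorthogonal := fun n k => inner_xx (bb 𝕜) tt' tt tt_rel n k
  total := fun f hf => total_xx (bb 𝕜) tt' tt'_ne f hf
  bounded := ⟨2, fun n => ⟨norm_xx_le _ _ tt_abs n, by
    unfold XS; rw [innerSL_apply_norm]; exact norm_xx_le _ _ tt'_abs n⟩⟩

lemma bidem : Bidemocratic (X 𝕜) (XS 𝕜) := by
  refine ⟨9, fun m _ => ?_⟩
  have h1 : phi 𝕜 (X 𝕜) m ≤ 3 * √(m : ℝ) := by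
    apply phi_le _ _ _ (by positivity)
    intro A ε hA hε
    refine (norm_sum_xx (bb 𝕜) tt tt_abs A ε hε).trans ?_
    have : √(A.card : ℝ) ≤ √(m : ℝ) := Real.sqrt_le_sqrt (by exact_mod_cast hA)
    linarith
  have h2 : phi 𝕜 (XS 𝕜) m ≤ 3 * √(m : ℝ) := by
    apply phi_le _ _ _ (by positivity)
    intro A ε hA hε
    unfold XS
    rw [dual_sum]
    refine (norm_sum_xx (bb 𝕜) tt' tt'_abs A _ (fun n => by simp [hε])).trans ?_
    have : √(A.card : ℝ) ≤ √(m : ℝ) := Real.sqrt_le_sqrt (by exact_mod_cast hA)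
    linarith
  calc phi 𝕜 (X 𝕜) m * phi 𝕜 (XS 𝕜) m ≤ (3 * √(m : ℝ)) * (3 * √(m : ℝ)) :=
        mul_le_mul h1 h2 (phi_nonneg _ _) (by positivity)
    _ = 9 * (√(m : ℝ) * √(m : ℝ)) := by ring
    _ = 9 * m := by rw [Real.mul_self_sqrt (by positivity)]

lemma not_left (q : ℝ) (hq : 1 < q) : ¬ EmbedsLeft q (X 𝕜) := by
  rintro ⟨C, hC⟩
  have hpos : 0 < 1 - 1 / q := by
    have : 1 / q < 1 := by rw [div_lt_one (by linarith)]; exact hq
    linarith
  have ht : Tendsto (fun N : ℕ => S (2 * N) ^ (1 - 1 / q)) atTop atTop :=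
    (tendsto_rpow_atTop hpos).comp (S_tendsto.comp
      (tendsto_id.const_mul_atTop' (by norm_num : 0 < 2)))
  obtain ⟨N, hN⟩ := (ht.eventually_gt_atTop (C : ℝ)).exists
  have h := hC (av 𝕜 (2 * N))
  have e1 : ((av 𝕜 (2 * N)).sum fun n c => c • X 𝕜 n) =
      ((√(S (2 * N)) + tt (2 * N) * S (2 * N) : ℝ) : 𝕜) • hh (bb 𝕜) (2 * N) :=
    av_sum (bb 𝕜) tt (2 * N)
  have hS := S_pos (2 * N)
  have hs := sqrtS_pos (2 * N)
  rw [e1, norm_smul, norm_h, mul_one, RCLike.norm_ofReal,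
    show tt (2 * N) = 1 by simp [tt], one_mul, abs_of_pos (by positivity)] at h
  have h2 := h.trans (mul_le_mul_right (lorentz_av_le (𝕜 := 𝕜) (2 * N) q (by linarith)) (C : ℝ≥0∞))
  rw [ENNReal.ofReal_rpow_of_pos hS, ← ENNReal.ofReal_coe_nnreal,
    ← ENNReal.ofReal_mul (by positivity), ENNReal.ofReal_le_ofReal_iff (by positivity)] at h2
  have h3 : S (2 * N) = S (2 * N) ^ (1 / q) * S (2 * N) ^ (1 - 1 / q) := by
    rw [← Real.rpow_add hS]; simp
  have h4 : (C : ℝ) * S (2 * N) ^ (1 / q) < S (2 * N) ^ (1 / q) * S (2 * N) ^ (1 - 1 / q) := by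
    rw [mul_comm (C : ℝ)]
    exact mul_lt_mul_of_pos_left hN (by positivity)
  linarith

lemma not_right (r : ℝ) (hr : 0 < r) : ¬ EmbedsRight r (XS 𝕜) := by
  rintro ⟨C, hC⟩
  have ht : Tendsto (fun N : ℕ => S (2 * N + 1) ^ (1 / r)) atTop atTop :=
    (tendsto_rpow_atTop (by positivity)).comp (S_tendsto.comp
      ((tendsto_add_atTop_nat 1).comp (tendsto_id.const_mul_atTop' (by norm_num : 0 < 2))))
  obtain ⟨N, hN⟩ := (ht.eventually_gt_atTop (C : ℝ)).exists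
  have h := hC (hh (bb 𝕜) (2 * N + 1))
  rw [norm_h, ENNReal.ofReal_one, mul_one] at h
  have hodd : tt' (2 * N + 1) = 1 := by
    unfold tt'; rw [if_neg]; simp
  have h2 := (le_lorentz (𝕜 := 𝕜) (fun n => XS 𝕜 n (hh (bb 𝕜) (2 * N + 1))) (2 * N + 1) r hr
    (fun n hn => rearr_h_le (bb 𝕜) tt' tt'_abs (2 * N + 1) hodd n hn)).trans h
  have hS := S_pos (2 * N + 1)
  rw [ENNReal.ofReal_rpow_of_pos hS, ← ENNReal.ofReal_coe_nnreal,
    ENNReal.ofReal_le_ofReal_iff (by positivity)] at h2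
  linarith

/-- the main theorem -/
theorem main (𝕜 : Type*) [RCLike 𝕜] :
    ∃ (x : ℕ → L2 𝕜) (xs : ℕ → (L2 𝕜 →L[𝕜] 𝕜)), IsBasis x xs ∧ Bidemocratic x xs ∧
      (∀ q : ℝ, 1 < q → ¬ EmbedsLeft q x) ∧ (∀ r : ℝ, 0 < r → ¬ EmbedsRight r xs) :=
  ⟨X 𝕜, XS 𝕜, isBasis, bidem, not_left, not_right⟩

end Run7.h204.Bdm
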