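import Mathlib

/-!
Definitions for bidemocratic bases of `ℓ₂` and their squeezing between Lorentz spaces
(problem MP_c77635_an).
-/

open scoped ENNReal NNReal

namespace Run7.h204.Bdm

variable {𝕜 : Type*} [RCLike 𝕜]

/-- The Hilbert space `ℓ₂` over `𝕜` (real or complex scalars). -/
abbrev L2 (𝕜 : Type*) [RCLike 𝕜] : Type _ := lp (fun _ : ℕ => 𝕜) 2

/-- `x` is a basis of `ℓ₂` with biorthogonal functionals `xs`: the span of the `x n` is dense,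
the functionals separate the points, and both families are bounded. -/
structure IsBasis (x : ℕ → L2 𝕜) (xs : ℕ → (L2 𝕜 →L[𝕜] 𝕜)) : Prop where
  dense_span : (Submodule.span 𝕜 (Set.range x)).topologicalClosure = ⊤
  biorthogonal : ∀ n k, xs n (x k) = if n = k then 1 else 0
  total : ∀ f : L2 𝕜, (∀ n, xs n f = 0) → f = 0
  bounded : ∃ C : ℝ, ∀ n, ‖x n‖ ≤ C ∧ ‖xs n‖ ≤ C

/-- The fundamental function `φ_m` of a sequence in a normed space: the supremum of the norms of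
`∑_{n ∈ A} ε_n x_n`, `|A| ≤ m`, `|ε_n| = 1`. -/
noncomputable def phi (𝕜 : Type*) [RCLike 𝕜] {E : Type*} [NormedAddCommGroup E]
    [NormedSpace 𝕜 E] (x : ℕ → E) (m : ℕ) : ℝ :=
  sSup {r : ℝ | ∃ (A : Finset ℕ) (ε : ℕ → 𝕜), A.card ≤ m ∧ (∀ n, ‖ε n‖ = 1) ∧
    r = ‖∑ n ∈ A, ε n • x n‖}

/-- The basis `x` with functionals `xs` is bidemocratic: `sup_m φ_m φ_m^* / m < ∞`. -/
def Bidemocratic (x : ℕ → L2 𝕜) (xs : ℕ → (L2 𝕜 →L[𝕜] 𝕜)) : Prop :=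
  ∃ C : ℝ, ∀ m : ℕ, 1 ≤ m → phi 𝕜 x m * phi 𝕜 xs m ≤ C * m

/-- The non-increasing rearrangement of `(|a_k|)`; `rearr a n` is the `(n+1)`-st term. -/
noncomputable def rearr (a : ℕ → 𝕜) (n : ℕ) : ℝ :=
  sInf {t : ℝ | 0 ≤ t ∧ {k | t < ‖a k‖}.encard ≤ n}

/-- The Lorentz norm `‖a‖_{2,s} = (∑_{n≥1} (a_n^⋆)^s n^{s/2-1})^{1/s}`, with values in `[0,∞]`. -/
noncomputable def lorentz (s : ℝ) (a : ℕ → 𝕜) : ℝ≥0∞ :=
  (∑' n : ℕ, ENNReal.ofReal (rearr a n ^ s * ((n : ℝ) + 1) ^ (s / 2 - 1))) ^ (1 / s)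

/-- `ℓ_{2,q}` embeds in `ℓ₂` by means of `x`. -/
def EmbedsLeft (q : ℝ) (x : ℕ → L2 𝕜) : Prop :=
  ∃ C : ℝ≥0, ∀ a : ℕ →₀ 𝕜,
    ENNReal.ofReal ‖a.sum fun n c => c • x n‖ ≤ (C : ℝ≥0∞) * lorentz q a

/-- `ℓ₂` embeds in `ℓ_{2,r}` by means of the basis with coordinate functionals `xs`. -/
def EmbedsRight (r : ℝ) (xs : ℕ → (L2 𝕜 →L[𝕜] 𝕜)) : Prop :=
  ∃ C : ℝ≥0, ∀ f : L2 𝕜, lorentz r (fun n => xs n f) ≤ (C : ℝ≥0∞) * ENNReal.ofReal ‖f‖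

end Run7.h204.Bdm
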