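import Mathlib.Analysis.Fourier.AddCircle
import Mathlib.MeasureTheory.Function.Holder
import Mathlib.LinearAlgebra.Matrix.Symmetric

/-!
Truncated Toeplitz operators on finite dimensional model spaces and modified
Aleksandrov-Clark bases.  The unit circle is parametrised by `AddCircle 1` through
`t ↦ fourier 1 t = exp (2 π i t)`; the measure is normalised Haar measure.
-/

open MeasureTheory AddCircle ENNReal
open scoped ComplexConjugate

namespace Run7.h204.Clk

/-- The parameter circle. -/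
abbrev T1 : Type := AddCircle (1 : ℝ)

/-- Normalised Lebesgue measure on the circle. -/
noncomputable abbrev mm : Measure T1 := haarAddCircle

/-- The Hilbert space of square integrable functions on the circle. -/
abbrev L2 : Type := Lp ℂ 2 mm

/-- Essentially bounded functions on the circle. -/
abbrev Linf : Type := Lp ℂ ∞ mm

/-- The point `z = exp (2 π i t)` of the unit circle. -/
noncomputable def zc (t : T1) : ℂ := fourier 1 t

/-- The Hardy space `H^2`: the closed linear span of `1, z, z^2, ...` in `L^2`. -/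
noncomputable def H2 : Submodule ℂ L2 :=
  (Submodule.span ℂ (Set.range fun n : ℕ => (fourierLp 2 (n : ℤ) : L2))).topologicalClosure

/-- The finite Blaschke product `c * ∏ (z - a k) / (1 - conj (a k) z)`. -/
noncomputable def blaschke {n : ℕ} (c : ℂ) (a : Fin n → ℂ) (z : ℂ) : ℂ :=
  c * ∏ k, (z - a k) / (1 - conj (a k) * z)

/-- `(c, a)` are the parameters of a finite Blaschke product of degree `n`. -/
def IsParam {n : ℕ} (c : ℂ) (a : Fin n → ℂ) : Prop := ‖c‖ = 1 ∧ ∀ k, ‖a k‖ < 1

/-- The set `Θ H^2` for a function `Θ` on the circle. -/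
def thetaH2 (Θ : ℂ → ℂ) : Set L2 := {g | ∃ h ∈ H2, g =ᵐ[mm] fun t => Θ (zc t) * h t}

/-- The model space `K_Θ = H^2 ⊖ Θ H^2`. -/
noncomputable def modelSpace (Θ : ℂ → ℂ) : Submodule ℂ L2 :=
  H2 ⊓ (Submodule.span ℂ (thetaH2 Θ))ᗮ

theorem isClosed_modelSpace (Θ : ℂ → ℂ) : IsClosed (modelSpace Θ : Set L2) := by
  unfold modelSpace
  rw [Submodule.coe_inf]
  exact (Submodule.isClosed_topologicalClosure _).inter (Submodule.isClosed_orthogonal _)

instance (Θ : ℂ → ℂ) : CompleteSpace (modelSpace Θ) :=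
  (isClosed_modelSpace Θ).completeSpace_coe

/-- The truncated Toeplitz operator `A_φ f = P_Θ (φ f)` on `K_Θ`. -/
noncomputable def tto (Θ : ℂ → ℂ) (φ : Linf) (f : modelSpace Θ) : modelSpace Θ :=
  (modelSpace Θ).orthogonalProjection ((φ • (f : L2) : L2))

/-- The matrix `⟨A_φ e_j, e_i⟩` of the truncated Toeplitz operator with symbol `φ`
with respect to an orthonormal basis `e` of `K_Θ` (in Mathlib the first argument of
`inner` is the conjugate linear one). -/
noncomputable def ttoMatrix {n : ℕ} (Θ : ℂ → ℂ) (φ : Linf)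
    (e : OrthonormalBasis (Fin n) ℂ (modelSpace Θ)) : Matrix (Fin n) (Fin n) ℂ :=
  fun i j => inner ℂ (e i) (tto Θ φ (e j))

/-- `M` is unitarily equivalent to a truncated Toeplitz operator on some model space of
dimension `n`: it is the matrix of such an operator in some orthonormal basis. -/
def UnitarilyEquivTTO {n : ℕ} (M : Matrix (Fin n) (Fin n) ℂ) : Prop :=
  ∃ (c : ℂ) (a : Fin n → ℂ), IsParam c a ∧ ∃ (φ : Linf)
    (e : OrthonormalBasis (Fin n) ℂ (modelSpace (blaschke c a))),
      M = ttoMatrix (blaschke c a) φ e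

/-- The boundary kernel `k_ζ(z) = (1 - conj α Θ(z)) / (1 - conj ζ z)` as a function on
the circle. -/
noncomputable def bdKernel (Θ : ℂ → ℂ) (α ζ : ℂ) (t : T1) : ℂ :=
  (1 - conj α * Θ (zc t)) / (1 - conj ζ * zc t)

/-- The `L^2` norm of a function on the circle. -/
noncomputable def l2norm (f : T1 → ℂ) : ℝ := Real.sqrt (∫ t, ‖f t‖ ^ 2 ∂mm)

/-- `e` is a modified Aleksandrov-Clark basis of `K_Θ` for the Blaschke product
`Θ` of degree `n`: there are `α` on the circle, the `n` distinct solutions `ζ_j` on the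
circle of `Θ(ζ) = α` and unimodular `w_j` with `w_j^2 = α conj ζ_j` such that
`e_j = w_j k_{ζ_j} / ‖k_{ζ_j}‖`. -/
def IsModifiedClark {n : ℕ} (Θ : ℂ → ℂ) (e : OrthonormalBasis (Fin n) ℂ (modelSpace Θ)) :
    Prop :=
  ∃ (α : ℂ) (ζ w : Fin n → ℂ), ‖α‖ = 1 ∧ Function.Injective ζ ∧
    (∀ j, ‖ζ j‖ = 1 ∧ Θ (ζ j) = α ∧ ‖w j‖ = 1 ∧ w j ^ 2 = α * conj (ζ j)) ∧
    ∀ j, ((e j : L2) : T1 → ℂ) =ᵐ[mm]
      fun t => w j * (bdKernel Θ α (ζ j) t / (l2norm (bdKernel Θ α (ζ j)) : ℂ))

/-- `M` is the matrix of a truncated Toeplitz operator in a modified Aleksandrov-Clark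
basis. -/
def IsClarkMatrix {n : ℕ} (M : Matrix (Fin n) (Fin n) ℂ) : Prop :=
  ∃ (c : ℂ) (a : Fin n → ℂ), IsParam c a ∧ ∃ (φ : Linf)
    (e : OrthonormalBasis (Fin n) ℂ (modelSpace (blaschke c a))),
      IsModifiedClark (blaschke c a) e ∧ M = ttoMatrix (blaschke c a) φ e

end Run7.h204.Clk
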