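import Mathlib
import Pool.Agent.Run7.h204.ClkDefs

open MeasureTheory AddCircle ENNReal
open scoped ComplexConjugate

namespace Run7.h204.Clk

theorem inner_tto (Θ : ℂ → ℂ) (φ : Linf) (f g : modelSpace Θ) :
    inner ℂ f (tto Θ φ g) = ∫ t, φ t * (g : L2) t * conj ((f : L2) t) ∂mm := by
  unfold tto
  rw [Submodule.coe_inner, ← Submodule.starProjection_apply,
    ← Submodule.inner_starProjection_left_eq_right, Submodule.starProjection_apply,
    Submodule.orthogonalProjection_mem_subspace_eq_self, L2.inner_def]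
  apply integral_congr_ae
  filter_upwards [Lp.coeFn_lpSMul (r := 2) φ (g : L2)] with t ht
  rw [ht]
  simp only [RCLike.inner_apply, Pi.smul_apply', smul_eq_mul]

/-- pointwise partial fraction identity -/
theorem pf_identity (A z α ζi ζj : ℂ) (hz : ‖z‖ = 1) (hα : ‖α‖ = 1) (hi : ‖ζi‖ = 1)
    (hj : ‖ζj‖ = 1) (hij : ζi ≠ ζj) (hAi : z = ζi → A = α) (hAj : z = ζj → A = α) :
    (1 - conj α * A) / (1 - conj ζj * z) * conj ((1 - conj α * A) / (1 - conj ζi * z)) =
      (- conj ζi / (conj ζj - conj ζi)) *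
        (conj (1 - conj α * A) * ((1 - conj α * A) / (1 - conj ζj * z)) -
          conj (1 - conj α * A) * ((1 - conj α * A) / (1 - conj ζi * z))) := by
  have hn : ∀ w : ℂ, ‖w‖ = 1 → conj w * w = 1 := by
    intro w hw
    rw [mul_comm, Complex.mul_conj, Complex.normSq_eq_norm_sq, hw]
    simp
  by_cases h1 : z = ζi
  · have hA : 1 - conj α * A = 0 := by
      rw [hAi h1, hn α hα]; ring
    simp [hA]
  by_cases h2 : z = ζj
  · have hA : 1 - conj α * A = 0 := by
      rw [hAj h2, hn α hα]; ring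
    simp [hA]
  have e1 : 1 - conj ζj * z ≠ 0 := by
    intro h
    apply h2
    have : ζj * (1 - conj ζj * z) = 0 := by rw [h, mul_zero]
    have h3 := hn ζj hj
    linear_combination (-1 : ℂ) * this - z * h3
  have e2 : 1 - conj ζi * z ≠ 0 := by
    intro h
    apply h1
    have : ζi * (1 - conj ζi * z) = 0 := by rw [h, mul_zero]
    have h3 := hn ζi hi
    linear_combination (-1 : ℂ) * this - z * h3
  have e3 : conj (1 - conj ζi * z) ≠ 0 := by
    intro h
    apply e2
    have := congrArg (starRingEnd ℂ) h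
    simpa using this
  have e4 : conj ζj - conj ζi ≠ 0 := by
    intro h
    apply hij
    have := congrArg (starRingEnd ℂ) h
    simp only [map_sub, Complex.conj_conj, map_zero] at this
    exact (sub_eq_zero.mp this).symm
  -- conj (1 - conj ζi z) = 1 - ζi conj z ; multiply by conj ζi z
  have e5 : conj ζi * z * conj (1 - conj ζi * z) = - (1 - conj ζi * z) := by
    have h3 := hn ζi hi
    have h4 := hn z hz
    simp only [map_sub, map_one, map_mul, Complex.conj_conj]
    have : conj ζi * z * (1 - ζi * conj z) = conj ζi * z - (conj ζi * ζi) * (conj z * z) := by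
      ring
    rw [this, h3, h4]; ring
  have hz0 : z ≠ 0 := by
    intro h; rw [h] at hz; simp at hz
  have hi0 : conj ζi ≠ 0 := by
    intro h
    have := hn ζi hi
    rw [h] at this; simp at this
  rw [map_div₀]
  generalize hB : (1 - conj α * A) = B
  have hDv : conj (1 - conj ζi * z) = - (1 - conj ζi * z) / (conj ζi * z) := by
    have hz1 : conj ζi * z ≠ 0 := mul_ne_zero hi0 hz0
    rw [eq_div_iff hz1]
    linear_combination e5
  rw [hDv]
  clear hDv e5 e3 hAi hAj h1 h2
  generalize conj B = B'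
  generalize hp : conj ζi = p at *
  generalize hq : conj ζj = q at *
  obtain ⟨u, hu⟩ : ∃ u, u = 1 - q * z := ⟨_, rfl⟩
  obtain ⟨v, hv⟩ : ∃ v, v = 1 - p * z := ⟨_, rfl⟩
  rw [← hu, ← hv]
  rw [← hu] at e1
  rw [← hv] at e2
  field_simp
  linear_combination (B * B') * (hv - hu)

theorem norm_zc (t : T1) : ‖zc t‖ = 1 := by
  unfold zc
  rw [fourier_apply]
  exact Circle.norm_coe _

theorem continuous_zc : Continuous zc := by
  unfold zc
  exact (fourier 1).continuous

theorem continuous_blaschke {n : ℕ} (c : ℂ) (a : Fin n → ℂ) (h : IsParam c a) :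
    Continuous fun t => blaschke c a (zc t) := by
  unfold blaschke
  refine continuous_const.mul (continuous_finset_prod _ fun k _ => ?_)
  refine (continuous_zc.sub continuous_const).div
    (continuous_const.sub (continuous_const.mul continuous_zc)) ?_
  intro t h0
  have h1 : conj (a k) * zc t = 1 := by
    rw [sub_eq_zero] at h0; exact h0.symm
  have h2 := congrArg norm h1
  rw [norm_mul, norm_zc, mul_one, RCLike.norm_conj, norm_one] at h2
  exact absurd h2 (ne_of_lt (h.2 k))

/-- In a modified Clark basis the off diagonal entries are nonzero multiples of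
differences. -/
theorem clark_entries {n : ℕ} {Θ : ℂ → ℂ} (hΘc : Continuous fun t => Θ (zc t)) (φ : Linf)
    (e : OrthonormalBasis (Fin n) ℂ (modelSpace Θ))
    (he : IsModifiedClark Θ e) :
    ∃ (Y : Fin n → ℂ) (r : Fin n → Fin n → ℂ), ∀ i j, i ≠ j → r i j ≠ 0 ∧
      ttoMatrix Θ φ e i j = r i j * (Y j - Y i) := by
  obtain ⟨α, ζ, w, hα, hinj, hζ, hrep⟩ := he
  set k : Fin n → T1 → ℂ := fun j => bdKernel Θ α (ζ j) with hk
  set N : Fin n → ℝ := fun j => l2norm (k j) with hN
  have hN0 : ∀ j, N j ≠ 0 := by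
    intro j h0
    have h1 : ((e j : L2) : T1 → ℂ) =ᵐ[mm] 0 := by
      filter_upwards [hrep j] with t ht
      rw [ht]
      have : (l2norm (bdKernel Θ α (ζ j)) : ℂ) = 0 := by exact_mod_cast h0
      rw [this]; simp
    have h2 : (e j : L2) = 0 := by
      rw [← Lp.eq_zero_iff_ae_eq_zero] at h1
      exact h1
    have h3 := e.orthonormal.1 j
    have h4 : e j = 0 := by exact_mod_cast h2
    rw [h4, norm_zero] at h3
    exact zero_ne_one h3
  set cc : Fin n → ℂ := fun j => w j / (N j : ℂ) with hcc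
  have hcc0 : ∀ j, cc j ≠ 0 := by
    intro j
    simp only [hcc]
    apply div_ne_zero
    · intro h
      have := (hζ j).2.2.1
      rw [h, norm_zero] at this
      exact zero_ne_one this
    · exact_mod_cast hN0 j
  have hrep' : ∀ j, ((e j : L2) : T1 → ℂ) =ᵐ[mm] fun t => cc j * k j t := by
    intro j
    filter_upwards [hrep j] with t ht
    rw [ht]
    simp only [hcc, hk, hN]
    ring
  have hkL2 : ∀ j, MemLp (k j) 2 mm := by
    intro j
    have h1 : MemLp (fun t => (cc j)⁻¹ * (e j : L2) t) 2 mm :=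
      (Lp.memLp (e j : L2)).const_mul _
    refine (memLp_congr_ae ?_).mp h1
    filter_upwards [hrep' j] with t ht
    rw [ht, ← mul_assoc, inv_mul_cancel₀ (hcc0 j), one_mul]
  set G : T1 → ℂ := fun t => conj (1 - conj α * Θ (zc t)) with hG
  have hGc : Continuous G := by
    refine Complex.continuous_conj.comp ?_
    exact continuous_const.sub (continuous_const.mul hΘc)
  have hint : ∀ j, Integrable (fun t => φ t * (G t * k j t)) mm := by
    intro j
    have h1 : MemLp (fun t => G t) ∞ mm := by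
      have := (hGc.bounded_above_of_compact_support ?_)
      · obtain ⟨C, hC⟩ := this
        exact memLp_top_of_bound hGc.aestronglyMeasurable C (Filter.Eventually.of_forall hC)
      · exact HasCompactSupport.of_compactSpace _
    have h2 : MemLp (fun t => G t * k j t) 2 mm := (hkL2 j).mul h1
    have h3 : MemLp (fun t => φ t * (G t * k j t)) 2 mm := h2.mul (Lp.memLp φ)
    exact h3.integrable (by norm_num)
  refine ⟨fun j => ∫ t, φ t * (G t * k j t) ∂mm,
    fun i j => (cc j * conj (cc i)) * (- conj (ζ i) / (conj (ζ j) - conj (ζ i))), ?_⟩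
  intro i j hij
  have hζij : ζ i ≠ ζ j := fun h => hij (hinj h)
  have hsub : conj (ζ j) - conj (ζ i) ≠ 0 := by
    intro h
    apply hζij
    have := congrArg (starRingEnd ℂ) h
    simp only [map_sub, Complex.conj_conj, map_zero] at this
    exact (sub_eq_zero.mp this).symm
  constructor
  · refine mul_ne_zero (mul_ne_zero (hcc0 j) ?_) (div_ne_zero ?_ hsub)
    · intro h
      exact hcc0 i ((map_eq_zero _).mp h)
    · intro h
      have h1 : ζ i = 0 := (map_eq_zero _).mp (neg_eq_zero.mp h)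
      have h2 := (hζ i).1
      rw [h1, norm_zero] at h2
      exact zero_ne_one h2
  · unfold ttoMatrix
    rw [inner_tto]
    have h1 : ∫ t, φ t * (e j : L2) t * conj ((e i : L2) t) ∂mm =
        ∫ t, ((cc j * conj (cc i)) * (- conj (ζ i) / (conj (ζ j) - conj (ζ i)))) *
          (φ t * (G t * k j t) - φ t * (G t * k i t)) ∂mm := by
      apply integral_congr_ae
      filter_upwards [hrep' i, hrep' j] with t hi hj
      rw [hi, hj, map_mul]
      have := pf_identity (Θ (zc t)) (zc t) α (ζ i) (ζ j) (norm_zc t) hα (hζ i).1 (hζ j).1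
        hζij (fun h => by rw [h]; exact (hζ i).2.1) (fun h => by rw [h]; exact (hζ j).2.1)
      have h5 : k j t * conj (k i t) = (- conj (ζ i) / (conj (ζ j) - conj (ζ i))) *
          (G t * k j t - G t * k i t) := this
      linear_combination (φ t * cc j * conj (cc i)) * h5
    rw [h1, integral_const_mul, integral_sub (hint j) (hint i)]

/-- **No-go lemma**: in a modified Clark basis, if two of the three off diagonal
differences vanish so does the third. -/
theorem not_clark {n : ℕ} {M : Matrix (Fin n) (Fin n) ℂ} {p q s : Fin n} (hpq : p ≠ q)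
    (hqs : q ≠ s) (hps : p ≠ s) (h01 : M p q = 0) (h12 : M q s = 0)
    (h02 : M p s ≠ 0) : ¬ IsClarkMatrix M := by
  rintro ⟨c, a, hp, φ, e, he, rfl⟩
  obtain ⟨Y, r, hY⟩ := clark_entries (continuous_blaschke c a hp) φ e he
  obtain ⟨r01, e01⟩ := hY p q hpq
  obtain ⟨r12, e12⟩ := hY q s hqs
  obtain ⟨r02, e02⟩ := hY p s hps
  rw [h01] at e01
  rw [h12] at e12
  apply h02
  rw [e02]
  have a1 : Y q - Y p = 0 := by
    rcases mul_eq_zero.mp e01.symm with h | h
    · exact absurd h r01
    · exact h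
  have a2 : Y s - Y q = 0 := by
    rcases mul_eq_zero.mp e12.symm with h | h
    · exact absurd h r12
    · exact h
  have : Y s - Y p = 0 := by linear_combination a1 + a2
  rw [this, mul_zero]

/-! ### The model space of `z^3` -/

/-- the monomials -/
noncomputable def E (n : ℤ) : L2 := fourierLp 2 n

theorem E_coe (n : ℤ) : ((E n : L2) : T1 → ℂ) =ᵐ[mm] fun t => fourier n t :=
  coeFn_fourierLp 2 n

theorem E_orth (i j : ℤ) : inner ℂ (E i) (E j) = if i = j then (1 : ℂ) else 0 := by
  have h := orthonormal_iff_ite.mp (orthonormal_fourier (T := (1 : ℝ))) i j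
  exact h

theorem E_mem_H2 (n : ℕ) : E (n : ℤ) ∈ H2 :=
  Submodule.le_topologicalClosure _ (Submodule.subset_span ⟨n, rfl⟩)

theorem H2_neg {f : L2} (hf : f ∈ H2) {m : ℤ} (hm : m < 0) : inner ℂ (E m) f = (0 : ℂ) := by
  have h1 : H2 ≤ (Submodule.span ℂ {E m})ᗮ := by
    apply Submodule.topologicalClosure_minimal
    · rw [Submodule.span_le]
      rintro _ ⟨n, rfl⟩
      rw [SetLike.mem_coe, Submodule.mem_orthogonal_singleton_iff_inner_right]
      have := E_orth m (n : ℤ)
      rw [if_neg (by omega)] at this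
      exact this
    · exact Submodule.isClosed_orthogonal _
  exact Submodule.mem_orthogonal_singleton_iff_inner_right.mp (h1 hf)

theorem E_total {f : L2} (h : ∀ m, inner ℂ (E m) f = (0 : ℂ)) : f = 0 := by
  have h1 : (fourierBasis (T := (1 : ℝ))).repr f = 0 := by
    ext i
    rw [HilbertBasis.repr_apply_apply]
    have := h i
    rw [coe_fourierBasis]
    exact this
  exact (LinearIsometryEquiv.map_eq_zero_iff _).mp h1

/-- the Blaschke product `z^n` -/
noncomputable abbrev Θ0 (n : ℕ) : ℂ → ℂ := blaschke 1 (fun _ : Fin n => (0 : ℂ))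

theorem Θ0_apply (n : ℕ) (z : ℂ) : Θ0 n z = z ^ n := by
  simp [Θ0, blaschke]

theorem fourier_nat (n : ℕ) (t : T1) : (fourier (n : ℤ) t : ℂ) = (fourier 1 t : ℂ) ^ n := by
  induction n with
  | zero => simp
  | succ n ih =>
    rw [Nat.cast_succ, fourier_add, ih, pow_succ]

theorem Θ0_zc (n : ℕ) (t : T1) : Θ0 n (zc t) = fourier (n : ℤ) t := by
  rw [Θ0_apply, fourier_nat]
  rfl

theorem isParam0 (n : ℕ) : IsParam 1 (fun _ : Fin n => (0 : ℂ)) := ⟨by simp, by simp⟩

theorem theta_inner {n : ℕ} {g : L2} (hg : g ∈ thetaH2 (Θ0 n)) {j : ℤ} (hj : j < n) :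
    inner ℂ (E j) g = (0 : ℂ) := by
  obtain ⟨h, hh, hgh⟩ := hg
  have h1 : inner ℂ (E j) g = (inner ℂ (E (j - n)) h : ℂ) := by
    rw [L2.inner_def, L2.inner_def]
    apply integral_congr_ae
    filter_upwards [E_coe j, E_coe (j - n), hgh] with t h1 h2 h3
    rw [h1, h2, h3, Θ0_zc]
    simp only [RCLike.inner_apply]
    have h4 : (fourier (j - n) t : ℂ) = fourier j t * fourier (-(n : ℤ)) t := by
      rw [← fourier_add]; rfl
    have h5 : (fourier (-(n : ℤ)) t : ℂ) = conj (fourier (n : ℤ) t) := fourier_neg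
    rw [h4, h5, map_mul, Complex.conj_conj]
    ring
  rw [h1]
  exact H2_neg hh (by omega)

theorem E_mem_theta (n m : ℕ) : E ((m : ℤ) + n) ∈ thetaH2 (Θ0 n) := by
  refine ⟨E m, E_mem_H2 m, ?_⟩
  filter_upwards [E_coe ((m : ℤ) + n), E_coe m] with t h1 h2
  rw [h1, h2, Θ0_zc, fourier_add]
  ring

theorem E_mem_model {n : ℕ} (j : Fin n) : E ((j : ℕ) : ℤ) ∈ modelSpace (Θ0 n) := by
  refine ⟨E_mem_H2 _, ?_⟩
  rw [SetLike.mem_coe, Submodule.mem_orthogonal]
  intro u hu
  have h1 : Submodule.span ℂ (thetaH2 (Θ0 n)) ≤ (Submodule.span ℂ {E ((j : ℕ) : ℤ)})ᗮ := by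
    rw [Submodule.span_le]
    intro g hg
    rw [SetLike.mem_coe, Submodule.mem_orthogonal_singleton_iff_inner_right]
    exact theta_inner hg (by have := j.2; omega)
  have h2 := h1 hu
  rw [Submodule.mem_orthogonal_singleton_iff_inner_left] at h2
  exact h2

/-- the monomial basis vectors -/
noncomputable def v {n : ℕ} (j : Fin n) : modelSpace (Θ0 n) :=
  ⟨E ((j : ℕ) : ℤ), E_mem_model j⟩

theorem v_orthonormal (n : ℕ) : Orthonormal ℂ (v (n := n)) := by
  rw [orthonormal_iff_ite]
  intro i j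
  rw [Submodule.coe_inner]
  have := E_orth ((i : ℕ) : ℤ) ((j : ℕ) : ℤ)
  unfold v
  rw [this]
  congr 1
  simp [Fin.ext_iff]

theorem v_span (n : ℕ) : (Submodule.span ℂ (Set.range (v (n := n))))ᗮ = ⊥ := by
  rw [eq_bot_iff]
  intro f hf
  rw [Submodule.mem_bot]
  have h0 : ∀ j : Fin n, inner ℂ (E ((j : ℕ) : ℤ)) (f : L2) = (0 : ℂ) := by
    intro j
    have := (Submodule.mem_orthogonal _ _).mp hf (v j) (Submodule.subset_span ⟨j, rfl⟩)
    rw [Submodule.coe_inner] at this
    exact this
  have h1 : (f : L2) = 0 := by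
    apply E_total
    intro m
    by_cases hm : m < 0
    · exact H2_neg f.2.1 hm
    by_cases hm3 : m < n
    · have := h0 ⟨m.toNat, by omega⟩
      simp only at this
      rwa [Int.toNat_of_nonneg (by omega)] at this
    · have h2 := (Submodule.mem_orthogonal _ _).mp f.2.2 (E (((m - n).toNat : ℤ) + n))
        (Submodule.subset_span (E_mem_theta _ _))
      rw [Int.toNat_of_nonneg (by omega)] at h2
      simpa using h2
  exact_mod_cast h1

/-- the monomial orthonormal basis of the model space of `z^n` -/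
noncomputable def eb (n : ℕ) : OrthonormalBasis (Fin n) ℂ (modelSpace (Θ0 n)) :=
  OrthonormalBasis.mkOfOrthogonalEqBot (v_orthonormal n) (v_span n)

theorem eb_apply {n : ℕ} (j : Fin n) : (eb n j : L2) = E ((j : ℕ) : ℤ) := by
  unfold eb
  rw [OrthonormalBasis.coe_of_orthogonal_eq_bot_mk]
  rfl

/-- the symbol `z^m + conj z^m` -/
noncomputable def φ0 (m : ℕ) : Linf := fourierLp ∞ (m : ℤ) + fourierLp ∞ (-(m : ℤ))

theorem φ0_coe (m : ℕ) :
    (φ0 m : T1 → ℂ) =ᵐ[mm] fun t => fourier (m : ℤ) t + fourier (-(m : ℤ)) t := by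
  unfold φ0
  filter_upwards [Lp.coeFn_add (fourierLp (T := (1:ℝ)) ∞ (m : ℤ)) (fourierLp ∞ (-(m : ℤ))),
    coeFn_fourierLp (T := (1:ℝ)) ∞ (m : ℤ), coeFn_fourierLp (T := (1:ℝ)) ∞ (-(m : ℤ))]
    with t h1 h2 h3
  rw [h1, Pi.add_apply, h2, h3]

theorem entry {n : ℕ} (m : ℕ) (i j : Fin n) : ttoMatrix (Θ0 n) (φ0 m) (eb n) i j =
    (if ((i : ℕ) : ℤ) = ((j : ℕ) : ℤ) + m then (1 : ℂ) else 0) +
      (if ((i : ℕ) : ℤ) = ((j : ℕ) : ℤ) - m then 1 else 0) := by
  unfold ttoMatrix
  rw [inner_tto, eb_apply, eb_apply, ← E_orth, ← E_orth, ← inner_add_right, L2.inner_def]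
  apply integral_congr_ae
  filter_upwards [φ0_coe m, E_coe ((i : ℕ) : ℤ), E_coe ((j : ℕ) : ℤ),
    Lp.coeFn_add (E (((j : ℕ) : ℤ) + m)) (E (((j : ℕ) : ℤ) - m)),
    E_coe (((j : ℕ) : ℤ) + m), E_coe (((j : ℕ) : ℤ) - m)] with t h1 h2 h3 h4 h5 h6
  rw [h1, h2, h3, h4, Pi.add_apply, h5, h6]
  simp only [RCLike.inner_apply]
  rw [fourier_add, sub_eq_add_neg, fourier_add]
  ring

/-- the counterexample: the only nonzero entries are the two corners off the diagonal -/
def cornerMatrix (n : ℕ) : Matrix (Fin n) (Fin n) ℂ := fun i j =>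
  if (i : ℕ) = (j : ℕ) + (n - 1) ∨ (j : ℕ) = (i : ℕ) + (n - 1) then 1 else 0

theorem corner_symm (n : ℕ) : (cornerMatrix n).transpose = cornerMatrix n := by
  ext i j
  simp only [Matrix.transpose_apply, cornerMatrix, or_comm]

theorem corner_unitary {n : ℕ} (hn : 3 ≤ n) : UnitarilyEquivTTO (cornerMatrix n) := by
  refine ⟨1, fun _ => 0, isParam0 n, φ0 (n - 1), eb n, ?_⟩
  ext i j
  rw [entry]
  unfold cornerMatrix
  by_cases h1 : (i : ℕ) = (j : ℕ) + (n - 1)
  · rw [if_pos (Or.inl h1), if_pos (by omega), if_neg (by omega), add_zero]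
  · by_cases h2 : (j : ℕ) = (i : ℕ) + (n - 1)
    · rw [if_pos (Or.inr h2), if_neg (by omega), if_pos (by omega), zero_add]
    · rw [if_neg (by tauto), if_neg (by omega), if_neg (by omega), add_zero]

theorem corner_not_clark {n : ℕ} (hn : 3 ≤ n) : ¬ IsClarkMatrix (cornerMatrix n) := by
  refine not_clark (p := ⟨0, by omega⟩) (q := ⟨1, by omega⟩) (s := ⟨n - 1, by omega⟩)
    ?_ ?_ ?_ ?_ ?_ ?_
  · simp [Fin.ext_iff]
  · simp only [ne_eq, Fin.ext_iff]; omega
  · simp only [ne_eq, Fin.ext_iff]; omega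
  · unfold cornerMatrix
    simp only
    rw [if_neg (by omega)]
  · unfold cornerMatrix
    simp only
    rw [if_neg (by omega)]
  · unfold cornerMatrix
    simp only
    rw [if_pos (by omega)]
    exact one_ne_zero

end Run7.h204.Clk
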