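import Mathlib

set_option autoImplicit false

open Finset

namespace Run7.h204.Erd

/-- cubic lower Taylor bound for `exp (-y)` -/
theorem exp_neg_lower (y : ℝ) (hy : 0 ≤ y) :
    1 - y + y ^ 2 / 2 - y ^ 3 / 6 ≤ Real.exp (-y) := by
  -- f(y) = exp(-y) - (...) ; f''' ≥ 0 chain
  have h1 : ∀ t : ℝ, 0 ≤ t → 1 - t ≤ Real.exp (-t) := by
    intro t _
    have := Real.add_one_le_exp (-t)
    linarith
  have h2 : ∀ t : ℝ, 0 ≤ t → Real.exp (-t) ≤ 1 - t + t ^ 2 / 2 := by
    have hm : MonotoneOn (fun t : ℝ => 1 - t + t ^ 2 / 2 - Real.exp (-t)) (Set.Ici 0) := by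
      apply monotoneOn_of_deriv_nonneg (convex_Ici 0)
      · fun_prop
      · fun_prop
      · intro x hx
        rw [interior_Ici] at hx
        have hd : HasDerivAt (fun t : ℝ => 1 - t + t ^ 2 / 2 - Real.exp (-t))
            (0 - 1 + (2 * x) / 2 - Real.exp (-x) * (-1)) x := by
          have hE : HasDerivAt (fun t : ℝ => Real.exp (-t)) (Real.exp (-x) * (-1)) x :=
            (Real.hasDerivAt_exp (-x)).comp x (hasDerivAt_neg x)
          have hp : HasDerivAt (fun t : ℝ => t ^ 2 / 2) ((2 * x) / 2) x := by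
            have := (hasDerivAt_pow 2 x).div_const 2
            simpa using this
          exact (((hasDerivAt_const x (1 : ℝ)).sub (hasDerivAt_id' x)).add hp).sub hE
        rw [hd.deriv]
        have := h1 x hx.le
        linarith
    intro t ht
    have := hm (Set.mem_Ici.mpr le_rfl) (Set.mem_Ici.mpr ht) ht
    simp only [neg_zero, Real.exp_zero] at this
    linarith
  have hm : MonotoneOn (fun t : ℝ => Real.exp (-t) - (1 - t + t ^ 2 / 2 - t ^ 3 / 6))
      (Set.Ici 0) := by
    apply monotoneOn_of_deriv_nonneg (convex_Ici 0)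
    · fun_prop
    · fun_prop
    · intro x hx
      rw [interior_Ici] at hx
      have hd : HasDerivAt (fun t : ℝ => Real.exp (-t) - (1 - t + t ^ 2 / 2 - t ^ 3 / 6))
          (Real.exp (-x) * (-1) - (0 - 1 + (2 * x) / 2 - (3 * x ^ 2) / 6)) x := by
        have hE : HasDerivAt (fun t : ℝ => Real.exp (-t)) (Real.exp (-x) * (-1)) x :=
          (Real.hasDerivAt_exp (-x)).comp x (hasDerivAt_neg x)
        have hp : HasDerivAt (fun t : ℝ => t ^ 2 / 2) ((2 * x) / 2) x := by
          have := (hasDerivAt_pow 2 x).div_const 2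
          simpa using this
        have hq : HasDerivAt (fun t : ℝ => t ^ 3 / 6) ((3 * x ^ 2) / 6) x := by
          have := (hasDerivAt_pow 3 x).div_const 6
          simpa using this
        exact hE.sub ((((hasDerivAt_const x (1 : ℝ)).sub (hasDerivAt_id' x)).add hp).sub hq)
      rw [hd.deriv]
      have := h2 x hx.le
      linarith
  have := hm (Set.mem_Ici.mpr le_rfl) (Set.mem_Ici.mpr hy) hy
  simp only [neg_zero, Real.exp_zero] at this
  linarith

/-- quadratic upper Taylor bound for `exp (-y)` -/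
theorem exp_neg_upper (y : ℝ) (hy : 0 ≤ y) :
    Real.exp (-y) ≤ 1 - y + y ^ 2 / 2 := by
  have h1 : ∀ t : ℝ, 0 ≤ t → 1 - t ≤ Real.exp (-t) := by
    intro t _
    have := Real.add_one_le_exp (-t)
    linarith
  have hm : MonotoneOn (fun t : ℝ => 1 - t + t ^ 2 / 2 - Real.exp (-t)) (Set.Ici 0) := by
    apply monotoneOn_of_deriv_nonneg (convex_Ici 0)
    · fun_prop
    · fun_prop
    · intro x hx
      rw [interior_Ici] at hx
      have hd : HasDerivAt (fun t : ℝ => 1 - t + t ^ 2 / 2 - Real.exp (-t))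
          (0 - 1 + (2 * x) / 2 - Real.exp (-x) * (-1)) x := by
        have hE : HasDerivAt (fun t : ℝ => Real.exp (-t)) (Real.exp (-x) * (-1)) x :=
          (Real.hasDerivAt_exp (-x)).comp x (hasDerivAt_neg x)
        have hp : HasDerivAt (fun t : ℝ => t ^ 2 / 2) ((2 * x) / 2) x := by
          have := (hasDerivAt_pow 2 x).div_const 2
          simpa using this
        exact (((hasDerivAt_const x (1 : ℝ)).sub (hasDerivAt_id' x)).add hp).sub hE
      rw [hd.deriv]
      have := h1 x hx.le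
      linarith
  have := hm (Set.mem_Ici.mpr le_rfl) (Set.mem_Ici.mpr hy) hy
  simp only [neg_zero, Real.exp_zero] at this
  linarith

/-- upper bound of `-log (1-x)` on `[0, 1/10]` -/
theorem neg_log_upper (x : ℝ) (h0 : 0 ≤ x) (h1 : x ≤ 1 / 10) :
    -Real.log (1 - x) ≤ x + x ^ 2 / 2 + x ^ 3 / 3 + 37 / 100 * x ^ 4 := by
  have habs : |x| < 1 := by rw [abs_of_nonneg h0]; linarith
  have h := Real.abs_log_sub_add_sum_range_le habs 4
  simp only [Finset.sum_range_succ, Finset.sum_range_zero] at h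
  rw [abs_of_nonneg h0] at h
  have h2 := (abs_le.mp h).1
  have h3 : x ^ (4 + 1) / (1 - x) ≤ 12 / 100 * x ^ 4 := by
    rw [div_le_iff₀ (by linarith)]
    have hx4 : 0 ≤ x ^ 4 := by positivity
    have : x ^ (4 + 1) = x ^ 4 * x := by ring
    rw [this]
    nlinarith
  norm_num at h2 h3
  linarith

/-- lower bound of `-log (1-s)` on `[0,1)` -/
theorem neg_log_lower (s : ℝ) (h0 : 0 ≤ s) (h1 : s ≤ 1 / 10) :
    s + s ^ 2 / 2 + s ^ 3 / 3 ≤ -Real.log (1 - s) := by
  have habs : |s| < 1 := by rw [abs_of_nonneg h0]; linarith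
  have h := Real.hasSum_pow_div_log_of_abs_lt_one habs
  have h2 := sum_le_hasSum (Finset.range 3) (fun i _ => by positivity) h
  simp only [Finset.sum_range_succ, Finset.sum_range_zero] at h2
  norm_num at h2
  linarith

/-- upper bound of `log (1+s)` on `[0,1/10]` -/
theorem log_one_add_upper (s : ℝ) (h0 : 0 ≤ s) (h1 : s ≤ 1 / 10) :
    Real.log (1 + s) ≤ s - s ^ 2 / 2 + s ^ 3 / 3 + 12 / 10 * s ^ 4 := by
  have habs : |(-s)| < 1 := by rw [abs_neg, abs_of_nonneg h0]; linarith
  have h := Real.abs_log_sub_add_sum_range_le habs 3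
  simp only [Finset.sum_range_succ, Finset.sum_range_zero] at h
  rw [abs_neg, abs_of_nonneg h0] at h
  have h2 := (abs_le.mp h).2
  have h3 : s ^ (3 + 1) / (1 - s) ≤ 12 / 10 * s ^ 4 := by
    rw [div_le_iff₀ (by linarith)]
    have hx4 : 0 ≤ s ^ 4 := by positivity
    norm_num
    nlinarith
  norm_num at h2 h3
  have e : (-s) ^ 2 = s ^ 2 := by ring
  have e3 : (-s) ^ 3 = -s ^ 3 := by ring
  rw [e3] at h2
  linarith

end Run7.h204.Erd
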