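import Mathlib

set_option autoImplicit false

namespace Run7.h204.Erd

/-- structural power sum -/
def psum (n : ℕ) : ℕ → ℕ
  | 0 => 0
  | (m + 1) => psum n m + (m + 1) ^ n

def chk (m n : ℕ) : Bool :=
  !(Nat.blt (m ^ n) (2 * (m - 1) ^ n) && Nat.blt (2 * (m - 2) ^ n) ((m - 1) ^ n)) ||
    Nat.blt ((m + 1) ^ n) (psum n m)

def allN (p : ℕ → Bool) : ℕ → Bool
  | 0 => true
  | (k + 1) => p k && allN p k

theorem allN_spec (p : ℕ → Bool) (N : ℕ) (h : allN p N = true) : ∀ k < N, p k = true := by
  induction N with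
  | zero => intro k hk; omega
  | succ N ih =>
    simp only [allN, Bool.and_eq_true] at h
    intro k hk
    rcases Nat.lt_succ_iff_lt_or_eq.mp hk with h1 | h1
    · exact ih h.2 k h1
    · subst h1; exact h.1

theorem fin_check : allN (fun m => allN (fun n => chk m n) m) 620 = true := by
  decide +kernel

end Run7.h204.Erd
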