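import Pool.Agent.Run7.h204.ErdTerm

set_option autoImplicit false

open Finset

namespace Run7.h204.Erd

/-- tail polynomial -/
noncomputable def RR (L s M : ℝ) : ℝ :=
  2 - L * s / 2 * ((2 * M ^ 2 + 4 * M + 6) - (2 * M + 2))
    - L * s ^ 2 * ((2 * M ^ 3 + 6 * M ^ 2 + 18 * M + 26) / 3 - (2 * M ^ 2 + 4 * M + 6) / 4
        - (2 * M + 2) / 12)
    - 37 / 100 * L * s ^ 3 * (2 * M ^ 4 + 8 * M ^ 3 + 36 * M ^ 2 + 104 * M + 150)
    + L ^ 2 * s ^ 2 / 8 * ((2 * M ^ 4 + 8 * M ^ 3 + 36 * M ^ 2 + 104 * M + 150)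
        - 2 * (2 * M ^ 3 + 6 * M ^ 2 + 18 * M + 26) + (2 * M ^ 2 + 4 * M + 6))
    - 87 / 10000 * s ^ 3 * (2 * M ^ 6 + 12 * M ^ 5 + 90 * M ^ 4 + 520 * M ^ 3 + 2250 * M ^ 2
        + 6492 * M + 9366)

theorem sum_QQ (L s : ℝ) (M : ℕ) :
    ∑ i ∈ Finset.range M, (1 / 2 : ℝ) ^ i * QQ L s i = RR L s 0 - (1 / 2 : ℝ) ^ M * RR L s M := by
  induction M with
  | zero => simp
  | succ M ih =>
    rw [Finset.sum_range_succ, ih]
    unfold QQ yy RR
    push_cast
    ring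

theorem RR_nonpos (s M : ℝ) (hM : 600 ≤ M) (hs : s * M = 1) : RR (Real.log 2) s M ≤ 0 := by
  set L := Real.log 2 with hL
  have hL0 : 0.6931471803 < L := by have := log2_lo; rwa [← hL] at this
  have hL1 : L < 0.6931471808 := by have := log2_hi; rwa [← hL] at this
  have hM0 : 0 < M := by linarith
  have hs0 : 0 < s := by
    by_contra h
    have : s ≤ 0 := not_lt.mp h
    nlinarith
  have t1 : 0 ≤ L * s / 2 * ((2 * M ^ 2 + 4 * M + 6) - (2 * M + 2)) := by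
    have : 0 ≤ (2 * M ^ 2 + 4 * M + 6) - (2 * M + 2) := by nlinarith
    have hL0' : 0 < L := by linarith
    positivity
  have t2 : 0 ≤ L * s ^ 2 * ((2 * M ^ 3 + 6 * M ^ 2 + 18 * M + 26) / 3
      - (2 * M ^ 2 + 4 * M + 6) / 4 - (2 * M + 2) / 12) := by
    have : 0 ≤ (2 * M ^ 3 + 6 * M ^ 2 + 18 * M + 26) / 3
      - (2 * M ^ 2 + 4 * M + 6) / 4 - (2 * M + 2) / 12 := by
      have h3 : 0 ≤ M ^ 3 := by positivity
      nlinarith [sq_nonneg M]
    have hL0' : 0 < L := by linarith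
    positivity
  have t3 : 0 ≤ 37 / 100 * L * s ^ 3 * (2 * M ^ 4 + 8 * M ^ 3 + 36 * M ^ 2 + 104 * M + 150) := by
    have hL0' : 0 < L := by linarith
    positivity
  have t4 : L ^ 2 * s ^ 2 / 8 * ((2 * M ^ 4 + 8 * M ^ 3 + 36 * M ^ 2 + 104 * M + 150)
        - 2 * (2 * M ^ 3 + 6 * M ^ 2 + 18 * M + 26) + (2 * M ^ 2 + 4 * M + 6)) ≤ 0.19 * M ^ 2 := by
    have e1 : (2 * M ^ 4 + 8 * M ^ 3 + 36 * M ^ 2 + 104 * M + 150)
        - 2 * (2 * M ^ 3 + 6 * M ^ 2 + 18 * M + 26) + (2 * M ^ 2 + 4 * M + 6) ≤ 3 * M ^ 4 := by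
      have h1 : 0 ≤ M - 600 := by linarith
      have h2 : 600 * M ≤ M ^ 2 := by nlinarith
      have h3 : 600 * M ^ 2 ≤ M ^ 3 := by nlinarith [sq_nonneg M]
      have h4 : 600 * M ^ 3 ≤ M ^ 4 := by nlinarith [pow_nonneg hM0.le 3]
      nlinarith [sq_nonneg M]
    have e2 : L ^ 2 ≤ 0.4805 := by nlinarith
    have e3 : 0 ≤ L ^ 2 * s ^ 2 / 8 := by positivity
    have e4 := mul_le_mul_of_nonneg_left e1 e3
    have e5 : L ^ 2 * s ^ 2 / 8 * (3 * M ^ 4) = L ^ 2 * (3 / 8) * (s * M) ^ 2 * M ^ 2 := by ring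
    rw [e5, hs] at e4
    have e6 : L ^ 2 * (3 / 8) * 1 ^ 2 * M ^ 2 ≤ 0.19 * M ^ 2 := by
      have := sq_nonneg M
      nlinarith
    linarith
  have t5 : 0.0174 * M ^ 3 ≤ 87 / 10000 * s ^ 3 * (2 * M ^ 6 + 12 * M ^ 5 + 90 * M ^ 4
      + 520 * M ^ 3 + 2250 * M ^ 2 + 6492 * M + 9366) := by
    have e1 : 2 * M ^ 6 ≤ 2 * M ^ 6 + 12 * M ^ 5 + 90 * M ^ 4
      + 520 * M ^ 3 + 2250 * M ^ 2 + 6492 * M + 9366 := by
      have : 0 ≤ 12 * M ^ 5 + 90 * M ^ 4
        + 520 * M ^ 3 + 2250 * M ^ 2 + 6492 * M + 9366 := by positivity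
      linarith
    have e3 : 0 ≤ 87 / 10000 * s ^ 3 := by positivity
    have e4 := mul_le_mul_of_nonneg_left e1 e3
    have e5 : 87 / 10000 * s ^ 3 * (2 * M ^ 6) = 87 / 5000 * (s * M) ^ 3 * M ^ 3 := by ring
    rw [e5, hs] at e4
    have : (87 / 5000 : ℝ) * 1 ^ 3 * M ^ 3 = 0.0174 * M ^ 3 := by norm_num
    linarith
  have t6 : 2 + 0.19 * M ^ 2 - 0.0174 * M ^ 3 ≤ 0 := by
    have h3 : 600 * M ^ 2 ≤ M ^ 3 := by nlinarith [sq_nonneg M]
    nlinarith
  unfold RR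
  linarith

theorem RR_zero (L s : ℝ) : RR L s 0 =
    2 - 2 * L * s - 7 * L * s ^ 2 - 111 / 2 * L * s ^ 3 + 13 * L ^ 2 * s ^ 2
      - 814842 / 10000 * s ^ 3 := by
  unfold RR; ring

/-- main analytic statement -/
theorem analytic (m n : ℕ) (hm : 600 ≤ m) (h : (1 / 2 : ℝ) < (1 - 1 / (m : ℝ)) ^ n) :
    (1 + 1 / (m : ℝ)) ^ n < ∑ i ∈ Finset.range m, (1 - (i : ℝ) / m) ^ n := by
  set L := Real.log 2 with hL
  have hL0 : 0.6931471803 < L := by have := log2_lo; rwa [← hL] at this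
  have hL1 : L < 0.6931471808 := by have := log2_hi; rwa [← hL] at this
  have hL0' : 0 < L := by linarith
  have hmR : (600 : ℝ) ≤ m := by exact_mod_cast hm
  have hm0 : (0 : ℝ) < m := by linarith
  set s : ℝ := 1 / (m : ℝ) with hs
  have hs0 : 0 < s := by positivity
  have hs1 : s ≤ 1 / 600 := by
    rw [hs]; exact one_div_le_one_div_of_le (by norm_num) hmR
  have hsm : s * m = 1 := by rw [hs]; field_simp
  have hsp : 0 < 1 - s := by linarith
  -- n (s + s^2/2 + s^3/3) ≤ L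
  have hn0 : (0 : ℝ) ≤ n := Nat.cast_nonneg n
  have hnl : n * (s + s ^ 2 / 2 + s ^ 3 / 3) ≤ L := by
    have h1 : Real.log (1 / 2) < Real.log ((1 - s) ^ n) :=
      Real.log_lt_log (by norm_num) h
    rw [Real.log_pow] at h1
    have h2 : Real.log (1 / 2) = -L := by
      rw [one_div, Real.log_inv]
    rw [h2] at h1
    have h3 := neg_log_lower s hs0.le (by linarith)
    have h4 := mul_le_mul_of_nonneg_left h3 hn0
    linarith
  -- terms
  have hterm : ∀ i ∈ Finset.range m, (1 / 2 : ℝ) ^ i * QQ L s i ≤ (1 - (i : ℝ) / m) ^ n := by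
    intro i hi
    have him : i < m := Finset.mem_range.mp hi
    have himR : (i : ℝ) < m := by exact_mod_cast him
    have hdiv : (i : ℝ) / m = i * s := by rw [hs]; ring
    rw [hdiv]
    have his1 : (i : ℝ) * s < 1 := by
      have := mul_lt_mul_of_pos_right himR hs0
      linarith
    by_cases hc : (i : ℝ) * s ≤ 1 / 10
    · have hi0 : (0 : ℝ) ≤ i := Nat.cast_nonneg i
      have hx0 : 0 ≤ (i : ℝ) * s := by positivity
      have hpos : 0 < 1 - (i : ℝ) * s := by linarith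
      have h1 := neg_log_upper ((i : ℝ) * s) hx0 hc
      have h2 := poly_cmp i s hs0.le
      have h3 := mul_le_mul_of_nonneg_left (h1.trans h2) hn0
      set P : ℝ := (i + ((i : ℝ) ^ 2 - i) / 2 * s
        + ((i : ℝ) ^ 3 / 3 - (i : ℝ) ^ 2 / 4 - (i : ℝ) / 12) * s ^ 2
          + 37 / 100 * (i : ℝ) ^ 4 * s ^ 3) with hP
      have hP0 : 0 ≤ P := by
        have := alpha_nonneg i
        have := beta_nonneg i
        rw [hP]; positivity
      have h4 : n * ((s + s ^ 2 / 2 + s ^ 3 / 3) * P) ≤ L * P := by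
        have := mul_le_mul_of_nonneg_right hnl hP0
        linarith
      have h5 : L * P = L * i + yy L s i := by
        rw [hP]; unfold yy; ring
      have h6 : -(L * i + yy L s i) ≤ n * Real.log (1 - (i : ℝ) * s) := by
        linarith
      have h7 : (1 - (i : ℝ) * s) ^ n = Real.exp (n * Real.log (1 - (i : ℝ) * s)) := by
        rw [Real.exp_nat_mul, Real.exp_log hpos]
      rw [h7]
      refine le_trans ?_ (Real.exp_le_exp.mpr h6)
      have h8 : Real.exp (-(L * i + yy L s i)) = (1 / 2 : ℝ) ^ i * Real.exp (-(yy L s i)) := by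
        rw [neg_add, Real.exp_add]
        congr 1
        rw [show -(L * (i : ℝ)) = (i : ℝ) * (-L) by ring, Real.exp_nat_mul, Real.exp_neg, hL,
          Real.exp_log (by norm_num)]
        norm_num
      rw [h8]
      apply mul_le_mul_of_nonneg_left _ (by positivity)
      exact QQ_le_exp i s hs0.le hc
    · have hc' : 1 / 10 ≤ (i : ℝ) * s := by linarith
      have h1 := QQ_nonpos i s hs0 hs1 hc'
      have h2 : (1 / 2 : ℝ) ^ i * QQ L s i ≤ 0 :=
        mul_nonpos_of_nonneg_of_nonpos (by positivity) h1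
      have h3 : 0 ≤ (1 - (i : ℝ) * s) ^ n := by
        apply pow_nonneg; linarith
      linarith
  have hsum := Finset.sum_le_sum hterm
  rw [sum_QQ] at hsum
  have hR := RR_nonpos s m hmR hsm
  have hR' : (1 / 2 : ℝ) ^ m * RR L s m ≤ 0 :=
    mul_nonpos_of_nonneg_of_nonpos (by positivity) hR
  have hlow : RR L s 0 ≤ ∑ i ∈ Finset.range m, (1 - (i : ℝ) / m) ^ n := by linarith
  refine lt_of_lt_of_le ?_ hlow
  rw [RR_zero]
  -- upper bound for (1+s)^n
  set z : ℝ := L * (s - s ^ 2 / 2 - 13 / 10 * s ^ 3) with hz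
  have hz0 : 0 ≤ z := by
    rw [hz]
    apply mul_nonneg hL0'.le
    nlinarith [sq_nonneg s, pow_nonneg hs0.le 3]
  have hz1 : z ≤ L * s := by
    rw [hz]
    apply mul_le_mul_of_nonneg_left _ hL0'.le
    nlinarith [sq_nonneg s, pow_nonneg hs0.le 3]
  have hup : (1 + s) ^ n ≤ 2 * (1 - z + z ^ 2 / 2) := by
    have hpos : 0 < 1 + s := by linarith
    have h1 := log_one_add_upper s hs0.le (by linarith)
    have h2 : s - s ^ 2 / 2 + s ^ 3 / 3 + 12 / 10 * s ^ 4 ≤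
        (s + s ^ 2 / 2 + s ^ 3 / 3) * (1 - s + s ^ 2 / 2 + 13 / 10 * s ^ 3) := by
      have e : (s + s ^ 2 / 2 + s ^ 3 / 3) * (1 - s + s ^ 2 / 2 + 13 / 10 * s ^ 3)
        - (s - s ^ 2 / 2 + s ^ 3 / 3 + 12 / 10 * s ^ 4)
        = s ^ 4 * (1 / 60) + s ^ 5 * (13 / 20 + 1 / 6) + s ^ 6 * (13 / 30) := by ring
      have : 0 ≤ s ^ 4 * (1 / 60 : ℝ) + s ^ 5 * (13 / 20 + 1 / 6) + s ^ 6 * (13 / 30) := by
        positivity
      linarith
    have hq0 : 0 ≤ 1 - s + s ^ 2 / 2 + 13 / 10 * s ^ 3 := by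
      have : 0 ≤ s ^ 3 := by positivity
      nlinarith [sq_nonneg s]
    have h3 : n * Real.log (1 + s) ≤ L * (1 - s + s ^ 2 / 2 + 13 / 10 * s ^ 3) := by
      have a1 := mul_le_mul_of_nonneg_left (h1.trans h2) hn0
      have a2 := mul_le_mul_of_nonneg_right hnl hq0
      linarith
    have h4 : (1 + s) ^ n = Real.exp (n * Real.log (1 + s)) := by
      rw [Real.exp_nat_mul, Real.exp_log hpos]
    rw [h4]
    refine (Real.exp_le_exp.mpr h3).trans ?_
    have h5 : L * (1 - s + s ^ 2 / 2 + 13 / 10 * s ^ 3) = L + -z := by rw [hz]; ring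
    rw [h5, Real.exp_add, hL, Real.exp_log (by norm_num)]
    exact mul_le_mul_of_nonneg_left (exp_neg_upper z hz0) (by norm_num)
  refine lt_of_le_of_lt hup ?_
  have hz2 : z ^ 2 ≤ (L * s) ^ 2 := pow_le_pow_left₀ hz0 hz1 2
  have hfin : (581 / 10 * L + 814842 / 10000) * s < 12 * L ^ 2 - 8 * L := by
    have e1 : 0.2202 < 12 * L ^ 2 - 8 * L := by nlinarith
    have e2 : (581 / 10 * L + 814842 / 10000) * s ≤ (581 / 10 * L + 814842 / 10000) * (1 / 600) :=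
      mul_le_mul_of_nonneg_left hs1 (by positivity)
    have e3 : (581 / 10 * L + 814842 / 10000) * (1 / 600) < 0.2202 := by nlinarith
    linarith
  have hfin2 := mul_lt_mul_of_pos_right hfin (show 0 < s ^ 2 by positivity)
  have hz' : z = L * s - L * s ^ 2 / 2 - 13 / 10 * L * s ^ 3 := by rw [hz]; ring
  have hgoal : 2 * (1 - z + z ^ 2 / 2) ≤ 2 - 2 * L * s + L * s ^ 2 + 26 / 10 * L * s ^ 3
      + L ^ 2 * s ^ 2 := by
    have : 2 * (1 - z + z ^ 2 / 2) = 2 - 2 * z + z ^ 2 := by ring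
    rw [this]
    have e : (L * s) ^ 2 = L ^ 2 * s ^ 2 := by ring
    rw [e] at hz2
    linarith
  refine lt_of_le_of_lt hgoal ?_
  nlinarith

end Run7.h204.Erd
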