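import Pool.Agent.Run7.h204.ErdAna

set_option autoImplicit false

open Finset

namespace Run7.h204.Erd

/-- exponent correction -/
noncomputable def yy (L s i : ℝ) : ℝ :=
  L * ((i ^ 2 - i) / 2 * s + (i ^ 3 / 3 - i ^ 2 / 4 - i / 12) * s ^ 2 + 37 / 100 * i ^ 4 * s ^ 3)

/-- lower bound polynomial -/
noncomputable def QQ (L s i : ℝ) : ℝ :=
  1 - yy L s i + L ^ 2 * ((i ^ 2 - i) / 2) ^ 2 * s ^ 2 / 2 - 87 / 10000 * i ^ 6 * s ^ 3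

theorem beta_nonneg (i : ℕ) : (0 : ℝ) ≤ (i : ℝ) ^ 3 / 3 - (i : ℝ) ^ 2 / 4 - (i : ℝ) / 12 := by
  rcases Nat.eq_zero_or_pos i with h | h
  · subst h; norm_num
  · have h1 : (1 : ℝ) ≤ i := by exact_mod_cast h
    have : (i : ℝ) ^ 3 / 3 - (i : ℝ) ^ 2 / 4 - (i : ℝ) / 12
        = (i : ℝ) * ((i : ℝ) - 1) * ((i : ℝ) / 3 + 1 / 12) := by ring
    rw [this]
    have : 0 ≤ (i : ℝ) - 1 := by linarith
    positivity

theorem alpha_nonneg (i : ℕ) : (0 : ℝ) ≤ ((i : ℝ) ^ 2 - (i : ℝ)) / 2 := by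
  rcases Nat.eq_zero_or_pos i with h | h
  · subst h; norm_num
  · have h1 : (1 : ℝ) ≤ i := by exact_mod_cast h
    nlinarith

/-- polynomial comparison -/
theorem poly_cmp (i : ℕ) (s : ℝ) (hs : 0 ≤ s) :
    (i * s) + (i * s) ^ 2 / 2 + (i * s) ^ 3 / 3 + 37 / 100 * (i * s) ^ 4 ≤
      (s + s ^ 2 / 2 + s ^ 3 / 3) *
        (i + ((i : ℝ) ^ 2 - i) / 2 * s + ((i : ℝ) ^ 3 / 3 - (i : ℝ) ^ 2 / 4 - (i : ℝ) / 12) * s ^ 2
          + 37 / 100 * (i : ℝ) ^ 4 * s ^ 3) := by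
  have hb := beta_nonneg i
  have key : (s + s ^ 2 / 2 + s ^ 3 / 3) *
        (i + ((i : ℝ) ^ 2 - i) / 2 * s + ((i : ℝ) ^ 3 / 3 - (i : ℝ) ^ 2 / 4 - (i : ℝ) / 12) * s ^ 2
          + 37 / 100 * (i : ℝ) ^ 4 * s ^ 3)
      - ((i * s) + (i * s) ^ 2 / 2 + (i * s) ^ 3 / 3 + 37 / 100 * (i * s) ^ 4)
      = s ^ 4 * ((i : ℝ) ^ 3 / 6 + (i : ℝ) ^ 2 / 24 - 5 / 24 * (i : ℝ))
        + s ^ 5 * (37 / 200 * (i : ℝ) ^ 4 + ((i : ℝ) ^ 3 / 3 - (i : ℝ) ^ 2 / 4 - (i : ℝ) / 12) / 3)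
        + s ^ 6 * (37 / 300 * (i : ℝ) ^ 4) := by ring
  have h1 : (0 : ℝ) ≤ (i : ℝ) ^ 3 / 6 + (i : ℝ) ^ 2 / 24 - 5 / 24 * (i : ℝ) := by
    rcases Nat.eq_zero_or_pos i with h | h
    · subst h; norm_num
    · have h1 : (1 : ℝ) ≤ i := by exact_mod_cast h
      have : (i : ℝ) ^ 3 / 6 + (i : ℝ) ^ 2 / 24 - 5 / 24 * (i : ℝ)
          = (i : ℝ) * ((i : ℝ) - 1) * ((i : ℝ) / 6 + 5 / 24) := by ring
      rw [this]
      have : 0 ≤ (i : ℝ) - 1 := by linarith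
      positivity
  have h2 : 0 ≤ s ^ 4 * ((i : ℝ) ^ 3 / 6 + (i : ℝ) ^ 2 / 24 - 5 / 24 * (i : ℝ)) := by positivity
  have h3 : 0 ≤ s ^ 5 * (37 / 200 * (i : ℝ) ^ 4
      + ((i : ℝ) ^ 3 / 3 - (i : ℝ) ^ 2 / 4 - (i : ℝ) / 12) / 3) := by positivity
  have h4 : 0 ≤ s ^ 6 * (37 / 300 * (i : ℝ) ^ 4) := by positivity
  linarith

theorem log2_lo : (0.6931471803 : ℝ) < Real.log 2 := Real.log_two_gt_d9
theorem log2_hi : Real.log 2 < (0.6931471808 : ℝ) := Real.log_two_lt_d9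

/-- `Q ≤ exp (-y)` whenever `i s ≤ 1/10`. -/
theorem QQ_le_exp (i : ℕ) (s : ℝ) (hs : 0 ≤ s) (his : (i : ℝ) * s ≤ 1 / 10) :
    QQ (Real.log 2) s i ≤ Real.exp (-(yy (Real.log 2) s i)) := by
  set L := Real.log 2 with hL
  have hL0 : 0 < L := by have := log2_lo; rw [← hL] at this; linarith
  have hL1 : L < 0.6931471808 := by have := log2_hi; rwa [← hL] at this
  have ha := alpha_nonneg i
  have hb := beta_nonneg i
  have hi0 : (0 : ℝ) ≤ i := Nat.cast_nonneg i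
  have hy0 : 0 ≤ yy L s i := by unfold yy; positivity
  have h1 := exp_neg_lower (yy L s i) hy0
  have h2 : L * (((i : ℝ) ^ 2 - i) / 2 * s) ≤ yy L s i := by
    unfold yy
    apply mul_le_mul_of_nonneg_left _ hL0.le
    have : 0 ≤ ((i : ℝ) ^ 3 / 3 - (i : ℝ) ^ 2 / 4 - (i : ℝ) / 12) * s ^ 2 := by positivity
    have : 0 ≤ 37 / 100 * (i : ℝ) ^ 4 * s ^ 3 := by positivity
    linarith
  have h3 : L ^ 2 * (((i : ℝ) ^ 2 - i) / 2) ^ 2 * s ^ 2 / 2 ≤ (yy L s i) ^ 2 / 2 := by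
    have h0 : 0 ≤ L * (((i : ℝ) ^ 2 - i) / 2 * s) := by positivity
    have := pow_le_pow_left₀ h0 h2 2
    have e : (L * (((i : ℝ) ^ 2 - i) / 2 * s)) ^ 2
      = L ^ 2 * (((i : ℝ) ^ 2 - i) / 2) ^ 2 * s ^ 2 := by ring
    rw [e] at this
    linarith
  have h4 : yy L s i ≤ L * (5375 / 10000 * (i : ℝ) ^ 2 * s) := by
    unfold yy
    apply mul_le_mul_of_nonneg_left _ hL0.le
    have e1 : (i : ℝ) ^ 3 * s ^ 2 ≤ 1 / 10 * ((i : ℝ) ^ 2 * s) := by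
      have : (i : ℝ) ^ 3 * s ^ 2 = ((i : ℝ) * s) * ((i : ℝ) ^ 2 * s) := by ring
      rw [this]
      exact mul_le_mul_of_nonneg_right his (by positivity)
    have e2 : (i : ℝ) ^ 4 * s ^ 3 ≤ 1 / 100 * ((i : ℝ) ^ 2 * s) := by
      have : (i : ℝ) ^ 4 * s ^ 3 = ((i : ℝ) * s) ^ 2 * ((i : ℝ) ^ 2 * s) := by ring
      rw [this]
      have h5 : ((i : ℝ) * s) ^ 2 ≤ (1 / 10) ^ 2 := pow_le_pow_left₀ (by positivity) his 2
      have h6 : (1 / 10 : ℝ) ^ 2 = 1 / 100 := by norm_num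
      rw [h6] at h5
      exact mul_le_mul_of_nonneg_right h5 (by positivity)
    have e3 : 0 ≤ (i : ℝ) * s := by positivity
    have e4 : 0 ≤ (i : ℝ) ^ 2 * s ^ 2 := by positivity
    have e5 : 0 ≤ (i : ℝ) * s ^ 2 := by positivity
    have e6 : 0 ≤ (i : ℝ) ^ 2 * s := by positivity
    nlinarith
  have h5 : (yy L s i) ^ 3 / 6 ≤ 87 / 10000 * (i : ℝ) ^ 6 * s ^ 3 := by
    have := pow_le_pow_left₀ hy0 h4 3
    have e : (L * (5375 / 10000 * (i : ℝ) ^ 2 * s)) ^ 3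
      = (L ^ 3 * (5375 / 10000) ^ 3) * ((i : ℝ) ^ 6 * s ^ 3) := by ring
    rw [e] at this
    have hL3 : L ^ 3 ≤ 0.6931471808 ^ 3 := pow_le_pow_left₀ hL0.le hL1.le 3
    have h6 : 0 ≤ (i : ℝ) ^ 6 * s ^ 3 := by positivity
    have h7 : L ^ 3 * (5375 / 10000) ^ 3 ≤ 6 * (87 / 10000) := by
      have : L ^ 3 * (5375 / 10000) ^ 3 ≤ 0.6931471808 ^ 3 * (5375 / 10000) ^ 3 :=
        mul_le_mul_of_nonneg_right hL3 (by norm_num)
      refine this.trans ?_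
      norm_num
    have h8 := mul_le_mul_of_nonneg_right h7 h6
    linarith
  unfold QQ
  linarith

/-- `Q ≤ 0` when `i s ≥ 1/10` and `s ≤ 1/600`. -/
theorem QQ_nonpos (i : ℕ) (s : ℝ) (hs : 0 < s) (hs1 : s ≤ 1 / 600)
    (his : 1 / 10 ≤ (i : ℝ) * s) : QQ (Real.log 2) s i ≤ 0 := by
  set L := Real.log 2 with hL
  have hL0 : 0.6931471803 < L := by have := log2_lo; rwa [← hL] at this
  have hL1 : L < 0.6931471808 := by have := log2_hi; rwa [← hL] at this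
  have hb := beta_nonneg i
  have hi0 : (0 : ℝ) ≤ i := Nat.cast_nonneg i
  have hi60 : (60 : ℝ) ≤ i := by
    have : (i : ℝ) * s ≤ i * (1 / 600) := mul_le_mul_of_nonneg_left hs1 hi0
    linarith
  set w := (i : ℝ) ^ 2 * s with hw
  have hw6 : 6 ≤ w := by
    have : w = (i : ℝ) * (i * s) := by rw [hw]; ring
    rw [this]
    nlinarith
  -- yy ≥ L * (0.4916 * w)
  have h1 : L * (4916 / 10000 * w) ≤ yy L s i := by
    unfold yy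
    apply mul_le_mul_of_nonneg_left _ (by linarith)
    have e1 : 0 ≤ ((i : ℝ) ^ 3 / 3 - (i : ℝ) ^ 2 / 4 - (i : ℝ) / 12) * s ^ 2 := by positivity
    have e2 : 0 ≤ 37 / 100 * (i : ℝ) ^ 4 * s ^ 3 := by positivity
    have e3 : (i : ℝ) * s ≤ 1 / 60 * w := by
      rw [hw]
      have : (i : ℝ) ^ 2 * s = (i : ℝ) * (i * s) := by ring
      rw [this]
      have h5 : 0 ≤ (i : ℝ) * s := by positivity
      nlinarith
    have e4 : ((i : ℝ) ^ 2 - i) / 2 * s = w / 2 - (i * s) / 2 := by rw [hw]; ring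
    rw [e4]
    nlinarith
  have h2 : L ^ 2 * (((i : ℝ) ^ 2 - i) / 2) ^ 2 * s ^ 2 / 2 ≤ L ^ 2 * w ^ 2 / 8 := by
    have e1 : (((i : ℝ) ^ 2 - i) / 2) ^ 2 ≤ ((i : ℝ) ^ 2 / 2) ^ 2 := by
      apply pow_le_pow_left₀ (alpha_nonneg i)
      linarith
    have e2 : L ^ 2 * (((i : ℝ) ^ 2 - i) / 2) ^ 2 * s ^ 2 / 2
        ≤ L ^ 2 * ((i : ℝ) ^ 2 / 2) ^ 2 * s ^ 2 / 2 := by
      have := mul_le_mul_of_nonneg_left e1 (sq_nonneg L)
      have := mul_le_mul_of_nonneg_right this (sq_nonneg s)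
      linarith
    refine e2.trans (le_of_eq ?_)
    rw [hw]; ring
  have h3 : 87 / 10000 * (i : ℝ) ^ 6 * s ^ 3 = 87 / 10000 * w ^ 3 := by rw [hw]; ring
  unfold QQ
  rw [h3]
  have hL2 : L ^ 2 ≤ 0.4805 := by nlinarith
  have h4 : L ^ 2 * w ^ 2 / 8 ≤ 0.4805 * w ^ 2 / 8 := by
    have := mul_le_mul_of_nonneg_right hL2 (sq_nonneg w)
    linarith
  have h5 : 0.34 * w ≤ L * (4916 / 10000 * w) := by nlinarith
  have h6 : 1 - 0.34 * w + 0.4805 * w ^ 2 / 8 - 87 / 10000 * w ^ 3 ≤ 0 := by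
    have hv : 0 ≤ w - 6 := by linarith
    have : 1 - 0.34 * w + 0.4805 * w ^ 2 / 8 - 87 / 10000 * w ^ 3
      = -( 0.75695 + (w - 6) * 0.55885 + (w - 6) ^ 2 * 0.0965375 + 87 / 10000 * (w - 6) ^ 3) := by
      ring_nf
    nlinarith [pow_nonneg hv 2, pow_nonneg hv 3]
  linarith

end Run7.h204.Erd
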