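import Mathlib

namespace Run7.h204.Hyp

open Matrix

/-- The orbit `{A₁^{k₁} ⋯ A_n^{k_n} x : k₁, …, k_n ∈ ℕ}` (the product in the order of indices). -/
def Orb {n : ℕ} (A : Fin n → Matrix (Fin n) (Fin n) ℝ) (x : Fin n → ℝ) : Set (Fin n → ℝ) :=
  {y | ∃ k : Fin n → ℕ, y = (List.ofFn (fun i => A i ^ k i)).prod.mulVec x}

end Run7.h204.Hyp
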