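import Mathlib

/-!
# `(J, M, 𝔪)`-extensions of Boolean algebras: definitions
-/

open Cardinal

namespace Run7.h204.Jm

/-- A Boolean `𝔪`-algebra: every subset of size at most `𝔪` has a join and a meet. -/
def IsMAlgebra (m : Cardinal.{0}) (B : Type) [BooleanAlgebra B] : Prop :=
  ∀ S : Set B, #S ≤ m → (∃ b, IsLUB S b) ∧ (∃ b, IsGLB S b)

/-- An `𝔪`-homomorphism: a homomorphism of Boolean algebras (a bounded lattice homomorphism
between Boolean algebras) that preserves joins and meets of at most `𝔪` elements. -/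
def IsMHom (m : Cardinal.{0}) {B B' : Type} [BooleanAlgebra B] [BooleanAlgebra B']
    (h : BoundedLatticeHom B B') : Prop :=
  ∀ S : Set B, #S ≤ m → ∀ b,
    (IsLUB S b → IsLUB (h '' S) (h b)) ∧ (IsGLB S b → IsGLB (h '' S) (h b))

/-- `G` `𝔪`-generates `B`: every subalgebra of `B` (a set containing `⊥` and closed under
complements and binary joins) that contains `G` and is closed under joins and meets of at most
`𝔪` elements is the whole of `B`. -/
def MGenerates (m : Cardinal.{0}) {B : Type} [BooleanAlgebra B] (G : Set B) : Prop :=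
  ∀ T : Set B, G ⊆ T → ⊥ ∈ T → (∀ a ∈ T, aᶜ ∈ T) → (∀ a ∈ T, ∀ b ∈ T, a ⊔ b ∈ T) →
    (∀ S : Set B, S ⊆ T → #S ≤ m → ∀ b, (IsLUB S b ∨ IsGLB S b) → b ∈ T) → ∀ b, b ∈ T

/-- `J` is a class of subsets of `A`, of size at most `𝔪`, whose join exists in `A`. -/
def IsJoinClass (m : Cardinal.{0}) {A : Type} [BooleanAlgebra A] (J : Set (Set A)) : Prop :=
  ∀ S ∈ J, #S ≤ m ∧ ∃ a, IsLUB S a

/-- `M` is a class of subsets of `A`, of size at most `𝔪`, whose meet exists in `A`. -/
def IsMeetClass (m : Cardinal.{0}) {A : Type} [BooleanAlgebra A] (M : Set (Set A)) : Prop :=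
  ∀ S ∈ M, #S ≤ m ∧ ∃ a, IsGLB S a

/-- `{i, B}` is a `(J, M, 𝔪)`-extension of `A`, i.e. a member of the class `K`. -/
def IsExtension (m : Cardinal.{0}) {A B : Type} [BooleanAlgebra A] [BooleanAlgebra B]
    (J M : Set (Set A)) (i : BoundedLatticeHom A B) : Prop :=
  IsMAlgebra m B ∧ Function.Injective i ∧
    (∀ S ∈ J, ∀ a, IsLUB S a → IsLUB (i '' S) (i a)) ∧
    (∀ S ∈ M, ∀ a, IsGLB S a → IsGLB (i '' S) (i a)) ∧
    MGenerates m (Set.range i)

/-- `{i, B}` is an `𝔪`-completion of `A`. -/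
def IsCompletion (m : Cardinal.{0}) {A B : Type} [BooleanAlgebra A] [BooleanAlgebra B]
    (i : BoundedLatticeHom A B) : Prop :=
  IsMAlgebra m B ∧ Function.Injective i ∧
    (∀ b : B, b ≠ ⊥ → ∃ a : A, i a ≠ ⊥ ∧ i a ≤ b) ∧
    MGenerates m (Set.range i)

/-- `{i, B} ≤ {i', B'}`: some `𝔪`-homomorphism `h : B' → B` has `i = h ∘ i'`. -/
def ExtLE (m : Cardinal.{0}) {A B B' : Type} [BooleanAlgebra A] [BooleanAlgebra B]
    [BooleanAlgebra B'] (i : BoundedLatticeHom A B) (i' : BoundedLatticeHom A B') : Prop :=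
  ∃ h : BoundedLatticeHom B' B, IsMHom m h ∧ ∀ a, i a = h (i' a)

/-- The assertion of Q1 for the cardinal `𝔪`: for every Boolean algebra `A` and all classes
`J`, `M`, every `𝔪`-completion `{i, B}` of `A` satisfies `{i, B} ≤ {i', B'}` for every
`{i', B'}` in `K`. -/
def Q1For (m : Cardinal.{0}) : Prop :=
  ∀ (A : Type) [BooleanAlgebra A] (J M : Set (Set A)), IsJoinClass m J → IsMeetClass m M →
    ∀ (B : Type) [BooleanAlgebra B] (i : BoundedLatticeHom A B), IsCompletion m i →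
      ∀ (B' : Type) [BooleanAlgebra B'] (i' : BoundedLatticeHom A B'),
        IsExtension m J M i' → ExtLE m i i'

end Run7.h204.Jm
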