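import Pool.Agent.Run7.h204.JmDefs

open Cardinal TopologicalSpace Heyting

namespace Run7.h204.Jm

/-- the Cantor space -/
abbrev X : Type := ℕ → Bool

/-- the clopen algebra -/
abbrev A : Type := Clopens X

/-- the regular open algebra -/
abbrev B : Type := Heyting.Regular (Opens X)

lemma gcR : GaloisConnection (Heyting.Regular.toRegular : Opens X →o B)
    ((↑) : B → Opens X) := Heyting.Regular.gi.gc

lemma isLUB_B (S : Set B) : ∃ b, IsLUB S b := by
  have h1 : IsLUB ((↑) '' S : Set (Opens X)) (sSup ((↑) '' S : Set (Opens X))) := isLUB_sSup _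
  have h2 := gcR.isLUB_l_image h1
  refine ⟨Heyting.Regular.toRegular (sSup ((↑) '' S : Set (Opens X))), ?_⟩
  have h3 : (Heyting.Regular.toRegular : Opens X →o B) '' ((↑) '' S : Set (Opens X)) = S := by
    ext x
    constructor
    · rintro ⟨_, ⟨y, hy, rfl⟩, rfl⟩
      rw [Heyting.Regular.toRegular_coe]
      exact hy
    · intro hx
      exact ⟨_, ⟨x, hx, rfl⟩, Heyting.Regular.toRegular_coe x⟩
  rw [h3] at h2
  exact h2

lemma isGLB_of_isLUB {P : Type} [PartialOrder P] (h : ∀ S : Set P, ∃ b, IsLUB S b)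
    (S : Set P) : ∃ b, IsGLB S b := by
  obtain ⟨b, hb⟩ := h (lowerBounds S)
  exact ⟨b, isLUB_lowerBounds.mp hb⟩

/-- the embedding of the clopen algebra in the regular open algebra -/
noncomputable def iB : BoundedLatticeHom A B where
  toFun c := Heyting.Regular.toRegular c.toOpens
  map_sup' a b := by
    have : (a ⊔ b).toOpens = a.toOpens ⊔ b.toOpens := by
      ext x
      simp
    rw [this]
    exact gcR.l_sup
  map_inf' a b := by
    have : (a ⊓ b).toOpens = a.toOpens ⊓ b.toOpens := by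
      ext x
      simp
    rw [this]
    apply Heyting.Regular.coe_injective
    simp only [Heyting.Regular.coe_toRegular, Heyting.Regular.coe_inf]
    exact compl_compl_inf_distrib _ _
  map_top' := by
    apply Heyting.Regular.coe_injective
    have : (⊤ : Clopens X).toOpens = ⊤ := rfl
    rw [this]
    simp
  map_bot' := by
    apply Heyting.Regular.coe_injective
    have : (⊥ : Clopens X).toOpens = ⊥ := rfl
    rw [this]
    simp

lemma iB_le_iff (c : A) (b : B) : iB c ≤ b ↔ c.toOpens ≤ (b : Opens X) := gcR _ _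

lemma iB_val (c : A) : ((iB c : B) : Opens X) = c.toOpens := by
  change (c.toOpens)ᶜᶜ = c.toOpens
  have h1 : ∀ d : A, (dᶜ).toOpens = (d.toOpens)ᶜ := by
    intro d
    apply le_antisymm
    · rw [le_compl_iff_disjoint_right, disjoint_iff_inf_le]
      intro x hx
      exact hx.1 hx.2
    · intro x hx
      have h2 : ((d.toOpens)ᶜ ⊓ d.toOpens : Opens X) = ⊥ := compl_inf_self _
      by_contra hcon
      have h3 : x ∈ (d : Set X) := by
        by_contra h4
        exact hcon h4
      have h5 : x ∈ ((d.toOpens)ᶜ ⊓ d.toOpens : Opens X) := ⟨hx, h3⟩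
      rw [h2] at h5
      exact h5
  rw [← h1, ← h1, compl_compl]

lemma iB_le_iB (c d : A) : iB c ≤ iB d ↔ c ≤ d := by
  rw [iB_le_iff, iB_val]
  rfl

lemma iB_injective : Function.Injective iB := by
  intro c d h
  exact le_antisymm ((iB_le_iB c d).mp h.le) ((iB_le_iB d c).mp h.ge)

lemma exists_clopen (U : Opens X) {x : X} (hx : x ∈ U) : ∃ c : A, x ∈ c ∧ c.toOpens ≤ U := by
  obtain ⟨V, hV, hxV, hVU⟩ := isTopologicalBasis_isClopen.mem_nhds_iff.mp
    (U.isOpen.mem_nhds hx)
  exact ⟨⟨V, hV⟩, hxV, hVU⟩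

lemma iB_dense (b : B) (hb : b ≠ ⊥) : ∃ a : A, iB a ≠ ⊥ ∧ iB a ≤ b := by
  have h1 : ((b : B) : Opens X) ≠ ⊥ := by
    intro h
    apply hb
    apply Heyting.Regular.coe_injective
    rw [h, Heyting.Regular.coe_bot]
  have h2 : ∃ x, x ∈ ((b : B) : Opens X) := by
    by_contra hcon
    push Not at hcon
    apply h1
    ext x
    simpa using hcon x
  obtain ⟨x, hx⟩ := h2
  obtain ⟨c, hxc, hc⟩ := exists_clopen _ hx
  refine ⟨c, ?_, (iB_le_iff c b).mpr hc⟩
  intro h
  have h3 : iB c = iB ⊥ := by rw [h, map_bot]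
  have h4 := iB_injective h3
  rw [h4] at hxc
  exact hxc

instance : Countable A := Clopens.countable_iff_secondCountable.mpr inferInstance

lemma mk_le_of_countable {m : Cardinal.{0}} (hm : ℵ₀ ≤ m) {B : Type} (S : Set B)
    (hS : S.Countable) : #S ≤ m :=
  (Cardinal.le_aleph0_iff_set_countable.mpr hS).trans hm

lemma iB_generates {m : Cardinal.{0}} (hm : ℵ₀ ≤ m) : MGenerates m (Set.range iB) := by
  intro T hT _ _ _ hc b
  set S : Set B := iB '' {c : A | c.toOpens ≤ ((b : B) : Opens X)} with hS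
  refine hc S ?_ (mk_le_of_countable hm _ ((Set.to_countable _).image _)) b (Or.inl ⟨?_, ?_⟩)
  · rintro _ ⟨c, _, rfl⟩
    exact hT ⟨c, rfl⟩
  · rintro _ ⟨c, hcb, rfl⟩
    exact (iB_le_iff c b).mpr hcb
  · intro u hu
    rw [← Heyting.Regular.coe_le_coe]
    intro x hx
    obtain ⟨c, hxc, hcb⟩ := exists_clopen _ hx
    have h1 : iB c ≤ u := hu ⟨c, hcb, rfl⟩
    exact (iB_le_iff c u).mp h1 hxc

lemma iB_completion {m : Cardinal.{0}} (hm : ℵ₀ ≤ m) : IsCompletion m iB :=
  ⟨fun S _ => ⟨isLUB_B S, isGLB_of_isLUB isLUB_B S⟩, iB_injective, iB_dense, iB_generates hm⟩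

/-- the countable dense set of eventually false sequences -/
def Y : Type := {x : X // ∃ N, ∀ n, N ≤ n → x n = false}

instance : Countable Y := by
  have : Function.Surjective (fun s : Finset ℕ => (⟨fun n => decide (n ∈ s), by
      refine ⟨s.sup id + 1, fun n hn => ?_⟩
      simp only [decide_eq_false_iff_not]
      intro h
      have := Finset.le_sup (f := id) h
      simp at this
      omega⟩ : Y)) := by
    rintro ⟨x, N, hN⟩
    refine ⟨(Finset.range N).filter (fun n => x n = true), ?_⟩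
    apply Subtype.ext
    funext n
    simp only [Finset.mem_filter, Finset.mem_range]
    by_cases h : x n = true
    · have : n < N := by
        by_contra hcon
        rw [hN n (not_lt.mp hcon)] at h
        simp at h
      simp [h, this]
    · simp [h]
  exact this.countable

/-- the cylinder of the first `n` coordinates of `x` -/
def cyl (x : X) (n : ℕ) : A :=
  ⟨{z | ∀ i, i < n → z i = x i}, by
    have : {z : X | ∀ i, i < n → z i = x i} = ⋂ i ∈ Finset.range n, {z : X | z i = x i} := by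
      ext z
      simp
    rw [this]
    apply Set.Finite.isClopen_biInter (Finset.finite_toSet _)
    intro i _
    exact (isClopen_discrete ({x i} : Set Bool)).preimage (continuous_apply i)⟩

lemma mem_cyl (x : X) (n : ℕ) (z : X) : z ∈ cyl x n ↔ ∀ i, i < n → z i = x i := Iff.rfl

lemma exists_cyl (c : A) {x : X} (hx : x ∈ c) : ∃ n, cyl x n ≤ c := by
  have hopen : IsOpen (c : Set X) := c.isOpen
  rw [isOpen_pi_iff] at hopen
  obtain ⟨I, u, hu, hsub⟩ := hopen x hx
  refine ⟨I.sup id + 1, ?_⟩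
  intro z hz
  apply hsub
  intro i hi
  have h1 : i < I.sup id + 1 := by
    have := Finset.le_sup (f := id) (Finset.mem_coe.mp hi)
    simp at this
    omega
  have h2 : z i = x i := hz i h1
  rw [h2]
  exact (hu i hi).2

/-- the trace on `Y` -/
def iY : BoundedLatticeHom A (Set Y) where
  toFun c := {y | y.1 ∈ c}
  map_sup' a b := by ext y; exact Iff.rfl
  map_inf' a b := by ext y; exact Iff.rfl
  map_top' := by ext y; exact Iff.rfl
  map_bot' := by ext y; exact Iff.rfl

lemma exists_Y_mem (c : A) (hc : c ≠ ⊥) : ∃ y : Y, y.1 ∈ c := by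
  have h1 : ∃ x, x ∈ c := by
    by_contra hcon
    push Not at hcon
    apply hc
    ext x
    simpa using hcon x
  obtain ⟨x, hx⟩ := h1
  obtain ⟨n, hn⟩ := exists_cyl c hx
  refine ⟨⟨fun i => if i < n then x i else false, n, fun i hi => by simp [not_lt.mpr hi]⟩, ?_⟩
  apply hn
  intro i hi
  simp [hi]

lemma iY_injective : Function.Injective iY := by
  have key : ∀ c d : A, iY c = iY d → c ≤ d := by
    intro c d h
    by_contra hcon
    have h1 : c \ d ≠ ⊥ := by
      intro h2
      exact hcon (sdiff_eq_bot_iff.mp h2)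
    obtain ⟨y, hy⟩ := exists_Y_mem _ h1
    have h3 : y ∈ iY c := hy.1
    rw [h] at h3
    exact hy.2 h3
  intro c d h
  exact le_antisymm (key c d h) (key d c h.symm)

lemma isGLB_singleton_Y (y : Y) :
    IsGLB ((fun n => iY (cyl y.1 n)) '' (Set.univ : Set ℕ)) ({y} : Set Y) := by
  constructor
  · rintro _ ⟨n, _, rfl⟩
    intro z hz
    rw [Set.mem_singleton_iff] at hz
    subst hz
    exact fun i _ => rfl
  · intro u hu z hz
    rw [Set.mem_singleton_iff]
    apply Subtype.ext
    funext n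
    have h1 : u ≤ iY (cyl y.1 (n + 1)) := hu ⟨n + 1, trivial, rfl⟩
    exact h1 hz n (Nat.lt_succ_self n)

lemma isLUB_singletons (s : Set Y) : IsLUB ((fun y => ({y} : Set Y)) '' s) s := by
  constructor
  · rintro _ ⟨y, hy, rfl⟩
    intro z hz
    rw [Set.mem_singleton_iff] at hz
    subst hz
    exact hy
  · intro u hu y hy
    exact hu ⟨y, hy, rfl⟩ rfl

lemma iY_generates {m : Cardinal.{0}} (hm : ℵ₀ ≤ m) : MGenerates m (Set.range iY) := by
  intro T hT _ _ _ hc s
  have h1 : ∀ y : Y, ({y} : Set Y) ∈ T := by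
    intro y
    refine hc _ ?_ (mk_le_of_countable hm _ ((Set.to_countable _).image _)) _
      (Or.inr (isGLB_singleton_Y y))
    rintro _ ⟨n, _, rfl⟩
    exact hT ⟨_, rfl⟩
  refine hc _ ?_ (mk_le_of_countable hm _ ((Set.to_countable _).image _)) _
    (Or.inl (isLUB_singletons s))
  rintro _ ⟨y, _, rfl⟩
  exact h1 y

lemma iY_extension {m : Cardinal.{0}} (hm : ℵ₀ ≤ m) : IsExtension m (∅ : Set (Set A)) ∅ iY :=
  ⟨fun S _ => ⟨⟨_, isLUB_sSup S⟩, ⟨_, isGLB_sInf S⟩⟩, iY_injective,
    fun S hS => absurd hS (Set.notMem_empty S), fun S hS => absurd hS (Set.notMem_empty S),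
    iY_generates hm⟩

lemma not_le {m : Cardinal.{0}} (hm : ℵ₀ ≤ m) : ¬ ExtLE m iB iY := by
  rintro ⟨h, hh, hcomp⟩
  have h1 : ∀ y : Y, h {y} = ⊥ := by
    intro y
    by_contra hne
    obtain ⟨c, hc, hcle⟩ := iB_dense _ hne
    have h2 := (hh _ (mk_le_of_countable hm _ ((Set.to_countable _).image _)) _).2
      (isGLB_singleton_Y y)
    have h3 : ∀ n, c ≤ cyl y.1 n := by
      intro n
      rw [← iB_le_iB]
      refine hcle.trans ?_
      have h4 := h2.1 ⟨iY (cyl y.1 n), ⟨n, trivial, rfl⟩, rfl⟩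
      rw [hcomp]
      exact h4
    have h5 : c ≠ ⊥ := by
      rintro rfl
      exact hc (map_bot _)
    obtain ⟨y', hy'⟩ := exists_Y_mem c h5
    obtain ⟨n, hn⟩ := exists_cyl c hy'
    -- flip the coordinate `n` of `y'`
    have h6 : (fun i => if i = n then !(y'.1 n) else y'.1 i) ∈ c := by
      apply hn
      intro i hi
      simp [hi.ne]
    have h7 := h3 (n + 1) h6 n (Nat.lt_succ_self n)
    have h8 := h3 (n + 1) hy' n (Nat.lt_succ_self n)
    simp only [if_true] at h7
    rw [← h8] at h7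
    cases h9 : y'.1 n <;> simp [h9] at h7
  have h2 := (hh _ (mk_le_of_countable hm _ ((Set.to_countable _).image _)) _).1
    (isLUB_singletons (Set.univ : Set Y))
  have h3 : h (Set.univ : Set Y) ≤ ⊥ := by
    apply h2.2
    rintro _ ⟨_, ⟨y, _, rfl⟩, rfl⟩
    exact (h1 y).le
  have h4 : h (Set.univ : Set Y) = ⊤ := map_top h
  rw [h4] at h3
  have h5 : iB ⊤ = iB ⊥ := by
    rw [map_top, map_bot]
    exact le_bot_iff.mp h3
  have h6 := iB_injective h5
  have h7 : (fun _ => false : X) ∈ (⊤ : A) := trivial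
  rw [h6] at h7
  exact h7

end Run7.h204.Jm
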