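import Mathlib.Algebra.Polynomial.Derivative
import Mathlib.Algebra.Polynomial.AlgebraMap
import Mathlib.Analysis.Complex.Basic

/-! Legendre multiplier sequences: definitions. -/

open Polynomial

namespace Run7.h204.Lgm

/-- The Legendre polynomial `P_n = (1 / (2^n n!)) (d/dx)^n (x^2 - 1)^n`. -/
noncomputable def legendre (n : ℕ) : ℝ[X] :=
  C (1 / (2 ^ n * (n.factorial : ℝ))) * derivative^[n] ((X ^ 2 - 1) ^ n)

/-- A real polynomial has only real zeros: it is zero or all of its complex zeros are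
real. -/
def OnlyRealZeros (p : ℝ[X]) : Prop := p = 0 ∨ ∀ z : ℂ, aeval z p = 0 → z.im = 0

/-- `γ` is a Legendre multiplier sequence: whenever `∑ a_k P_k` has only real zeros, so
has `∑ γ_k a_k P_k`. -/
def IsLegendreMultiplierSequence (γ : ℕ → ℝ) : Prop :=
  ∀ (n : ℕ) (a : ℕ → ℝ), OnlyRealZeros (∑ k ∈ Finset.range n, a k • legendre k) →
    OnlyRealZeros (∑ k ∈ Finset.range n, (γ k * a k) • legendre k)

end Run7.h204.Lgm
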