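import Mathlib

/-! Functions of `N` of the form `∑_{m ≤ a} p_m N(N-1)...(N-m+1)` with top coefficient. -/

open Finset Filter Topology

namespace Run7.h204.Lgm

/-- `g` is a polynomial function of degree at most `a` with coefficient `τ` at the
falling factorial of order `a`. -/
def PT (a : ℕ) (τ : ℝ) (g : ℕ → ℝ) : Prop :=
  ∃ p : ℕ → ℝ, p a = τ ∧ ∀ N : ℕ, g N = ∑ m ∈ range (a + 1), p m * (N.descFactorial m : ℝ)

theorem PT.congr {a : ℕ} {τ σ : ℝ} {g h : ℕ → ℝ} (hg : PT a τ g) (hτ : τ = σ)
    (hgh : ∀ N, g N = h N) : PT a σ h := by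
  obtain ⟨p, h1, h2⟩ := hg
  exact ⟨p, h1.trans hτ, fun N => (hgh N).symm.trans (h2 N)⟩

theorem PT.add {a : ℕ} {τ σ : ℝ} {g h : ℕ → ℝ} (hg : PT a τ g) (hh : PT a σ h) :
    PT a (τ + σ) (fun N => g N + h N) := by
  obtain ⟨p, h1, h2⟩ := hg
  obtain ⟨q, h3, h4⟩ := hh
  refine ⟨fun m => p m + q m, by simp only [h1, h3], fun N => ?_⟩
  simp only []
  rw [h2, h4, ← sum_add_distrib]
  exact sum_congr rfl fun m _ => by ring

theorem PT.smul {a : ℕ} {τ : ℝ} {g : ℕ → ℝ} (hg : PT a τ g) (c : ℝ) :
    PT a (c * τ) (fun N => c * g N) := by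
  obtain ⟨p, h1, h2⟩ := hg
  refine ⟨fun m => c * p m, by simp only [h1], fun N => ?_⟩
  simp only []
  rw [h2, mul_sum]
  exact sum_congr rfl fun m _ => by ring

theorem PT.zero (a : ℕ) : PT a 0 (fun _ => 0) :=
  ⟨fun _ => 0, rfl, fun N => by simp⟩

theorem PT.succ {a : ℕ} {τ : ℝ} {g : ℕ → ℝ} (hg : PT a τ g) : PT (a + 1) 0 g := by
  obtain ⟨p, h1, h2⟩ := hg
  refine ⟨fun m => if m ≤ a then p m else 0, by simp, fun N => ?_⟩
  rw [h2, sum_range_succ _ (a + 1)]
  simp only [Nat.succ_eq_add_one, add_le_iff_nonpos_right, nonpos_iff_eq_zero, one_ne_zero,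
    if_false, zero_mul, add_zero]
  refine sum_congr rfl fun m hm => ?_
  rw [if_pos (by have := mem_range.mp hm; omega)]

theorem PT.lt {a b : ℕ} {τ : ℝ} {g : ℕ → ℝ} (hg : PT a τ g) (hab : a < b) : PT b 0 g := by
  obtain ⟨k, rfl⟩ := Nat.exists_eq_add_of_lt hab
  induction k with
  | zero => exact hg.succ
  | succ k ih => exact (ih (by omega)).succ

theorem PT.mono (m : ℕ) : PT m 1 (fun N => (N.descFactorial m : ℝ)) := by
  refine ⟨fun i => if i = m then 1 else 0, by simp, fun N => ?_⟩
  simp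

/-- the step operator -/
theorem PT.step {a : ℕ} {τ : ℝ} {g : ℕ → ℝ} (hg : PT a τ g) (M : ℝ) :
    PT a ((2 * M - 1 - 2 * a) * τ)
      (fun N => (2 * N + 2 * M + 1) * g N - (2 * N + 2) * g (N + 1)) := by
  -- on falling factorials
  have key : ∀ m : ℕ, PT m (2 * M - 1 - 2 * m) (fun N =>
      (2 * N + 2 * M + 1) * (N.descFactorial m : ℝ) -
        (2 * N + 2) * ((N + 1).descFactorial m : ℝ)) := by
    intro m
    cases m with
    | zero =>
      refine ⟨fun _ => 2 * M - 1, by simp, fun N => ?_⟩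
      simp; ring
    | succ m =>
      have h1 := (PT.mono (m + 1)).smul (2 * M - 1 - 2 * (m + 1 : ℕ))
      have h2 := ((PT.mono m).smul (-(2 * (m + 1 : ℝ) ^ 2))).succ
      refine (h1.add h2).congr (by ring) fun N => ?_
      rw [Nat.succ_descFactorial_succ]
      have h3 : (N.descFactorial (m + 1) : ℝ) = ((N : ℝ) - m) * N.descFactorial m := by
        rw [Nat.descFactorial_succ]
        by_cases h : m ≤ N
        · push_cast [Nat.cast_sub h]; ring
        · rw [Nat.descFactorial_eq_zero_iff_lt.mpr (by omega)]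
          simp
      rw [h3]
      push_cast
      ring
  induction a generalizing τ g with
  | zero =>
    obtain ⟨p, h1, h2⟩ := hg
    have := (key 0).smul τ
    refine this.congr (by simp; ring) fun N => ?_
    rw [h2, h2]
    simp only [zero_add, sum_range_one, h1, Nat.descFactorial_zero]
    push_cast
    ring
  | succ a ih =>
    obtain ⟨p, h1, h2⟩ := hg
    have hA : PT a (p a) (fun N => ∑ m ∈ range (a + 1), p m * (N.descFactorial m : ℝ)) :=
      ⟨p, rfl, fun N => rfl⟩
    have hB := (ih hA).succ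
    have hC := (key (a + 1)).smul τ
    refine (hB.add hC).congr (by push_cast; ring) fun N => ?_
    rw [h2, h2, sum_range_succ _ (a + 1), sum_range_succ _ (a + 1), h1]
    push_cast
    ring

theorem descFactorial_tendsto (m : ℕ) :
    Tendsto (fun N : ℕ => (N.descFactorial m : ℝ) / (N : ℝ) ^ m) atTop (𝓝 1) := by
  induction m with
  | zero => simp
  | succ m ih =>
    have h1 : Tendsto (fun N : ℕ => 1 - (m : ℝ) / (N : ℝ)) atTop (𝓝 1) := by
      have := tendsto_const_div_atTop_nhds_zero_nat (m : ℝ)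
      simpa using this.const_sub 1
    have h2 := h1.mul ih
    rw [mul_one] at h2
    refine h2.congr' ?_
    filter_upwards [eventually_ge_atTop (m + 1)] with N hN
    have hN0 : (N : ℝ) ≠ 0 := by
      have : 0 < N := by omega
      exact_mod_cast this.ne'
    rw [Nat.descFactorial_succ, Nat.cast_mul, Nat.cast_sub (by omega)]
    field_simp
    ring

theorem PT.tendsto {a : ℕ} {τ : ℝ} {g : ℕ → ℝ} (hg : PT a τ g) :
    Tendsto (fun N : ℕ => g N / (N : ℝ) ^ a) atTop (𝓝 τ) := by
  obtain ⟨p, h1, h2⟩ := hg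
  have h3 : ∀ m ∈ range (a + 1), Tendsto (fun N : ℕ =>
      p m * (N.descFactorial m : ℝ) / (N : ℝ) ^ a) atTop (𝓝 (if m = a then p m else 0)) := by
    intro m hm
    have hma : m ≤ a := by have := mem_range.mp hm; omega
    by_cases h : m = a
    · subst h
      rw [if_pos rfl]
      have := (descFactorial_tendsto m).const_mul (p m)
      rw [mul_one] at this
      exact this.congr fun N => by ring
    · rw [if_neg h]
      obtain ⟨k, rfl⟩ := Nat.exists_eq_add_of_lt (lt_of_le_of_ne hma h)
      have e1 : Tendsto (fun N : ℕ => ((N : ℝ) ^ (k + 1))⁻¹) atTop (𝓝 0) := by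
        apply Tendsto.inv_tendsto_atTop
        exact (tendsto_pow_atTop (by omega)).comp tendsto_natCast_atTop_atTop
      have e2 := ((descFactorial_tendsto m).const_mul (p m)).mul e1
      rw [mul_zero] at e2
      refine e2.congr' ?_
      filter_upwards [eventually_ge_atTop 1] with N hN
      have hN0 : (N : ℝ) ≠ 0 := by
        have : 0 < N := by omega
        exact_mod_cast this.ne'
      field_simp
      ring
  have h4 := tendsto_finset_sum _ h3
  have h5 : ∑ m ∈ range (a + 1), (if m = a then p m else 0) = τ := by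
    rw [Finset.sum_ite_eq' , if_pos (by simp), h1]
  rw [h5] at h4
  refine h4.congr fun N => ?_
  rw [h2, Finset.sum_div]

end Run7.h204.Lgm
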