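import Mathlib
import Pool.Agent.Run7.h204.LgmPT

/-! Operators on polynomials diagonal in the shifted Legendre basis. -/

open Polynomial Finset

namespace Run7.h204.Lgm

/-- shifted Legendre polynomials over the reals -/
noncomputable def sL (k : ℕ) : ℝ[X] := (shiftedLegendre k).map (Int.castRingHom ℝ)

theorem sL_coeff (k r : ℕ) :
    (sL k).coeff r = (-1) ^ r * (k.choose r : ℝ) * ((k + r).choose k : ℝ) := by
  unfold sL
  rw [coeff_map, coeff_shiftedLegendre]
  simp

theorem sL_natDegree (k : ℕ) : (sL k).natDegree = k := by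
  unfold sL
  rw [natDegree_map_eq_of_injective (RingHom.injective_int _), natDegree_shiftedLegendre]

theorem sL_coeff_zero (k : ℕ) : (sL k).coeff 0 = 1 := by
  rw [sL_coeff]; simp

theorem sL_coeff_self_ne (k : ℕ) : (sL k).coeff k ≠ 0 := by
  rw [sL_coeff]
  have h1 : ((k + k).choose k : ℝ) ≠ 0 := by
    have := Nat.choose_pos (show k ≤ k + k by omega)
    exact_mod_cast this.ne'
  have h2 : ((-1 : ℝ)) ^ k ≠ 0 := pow_ne_zero _ (by norm_num)
  simp [h1]

theorem sL_rec (k r : ℕ) : ((r : ℝ) + 1) ^ 2 * (sL k).coeff (r + 1) =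
    ((r : ℝ) * (r + 1) - k * (k + 1)) * (sL k).coeff r := by
  rw [sL_coeff, sL_coeff]
  have h1 : (k.choose (r + 1) : ℝ) * (r + 1) = k.choose r * ((k : ℝ) - r) := by
    have h := Nat.choose_succ_right_eq k r
    by_cases hr : r ≤ k
    · have h' := congrArg (Nat.cast : ℕ → ℝ) h
      push_cast [Nat.cast_sub hr] at h'
      exact h'
    · rw [Nat.choose_eq_zero_of_lt (show k < r by omega),
        Nat.choose_eq_zero_of_lt (show k < r + 1 by omega)]
      simp
  have h2 : ((k + (r + 1)).choose k : ℝ) * (r + 1) = (k + r).choose k * ((k : ℝ) + r + 1) := by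
    have h := Nat.add_one_mul_choose_eq (k + r) r
    have e1 : (k + (r + 1)).choose k = (k + r + 1).choose (r + 1) := by
      have := Nat.choose_symm_add (a := k) (b := r + 1)
      exact this
    have e2 : (k + r).choose k = (k + r).choose r := Nat.choose_symm_add
    rw [e1, e2]
    have h' := congrArg (Nat.cast : ℕ → ℝ) h
    push_cast at h'
    linarith
  have : ((r : ℝ) + 1) ^ 2 * ((-1) ^ (r + 1) * (k.choose (r + 1) : ℝ) *
      ((k + (r + 1)).choose k : ℝ)) = (-1) ^ (r + 1) * ((k.choose (r + 1) : ℝ) * (r + 1)) *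
        (((k + (r + 1)).choose k : ℝ) * (r + 1)) := by ring
  rw [this, h1, h2, pow_succ]
  ring

/-- the Legendre operator in the variable `u` -/
noncomputable def Lop : ℝ[X] →ₗ[ℝ] ℝ[X] :=
  -(derivative ∘ₗ (LinearMap.mulLeft ℝ (X * (1 - X)) ∘ₗ derivative))

theorem Lop_coeff (f : ℝ[X]) (r : ℕ) : (Lop f).coeff r =
    (r : ℝ) * (r + 1) * f.coeff r - ((r : ℝ) + 1) ^ 2 * f.coeff (r + 1) := by
  have h0 : Lop f = -derivative (X * (derivative f - X * derivative f)) := by
    unfold Lop
    simp only [LinearMap.neg_apply, LinearMap.comp_apply, LinearMap.mulLeft_apply]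
    congr 2
    ring
  rw [h0, coeff_neg, coeff_derivative, coeff_X_mul, coeff_sub, coeff_derivative]
  cases r with
  | zero => simp
  | succ r =>
    rw [coeff_X_mul, coeff_derivative]
    push_cast
    ring

theorem Lop_sL (k : ℕ) : Lop (sL k) = ((k : ℝ) * (k + 1)) • sL k := by
  ext r
  rw [Lop_coeff, coeff_smul, smul_eq_mul]
  linear_combination (-1 : ℝ) * sL_rec k r

theorem Lop_X_succ (N : ℕ) : Lop (X ^ (N + 1)) =
    (((N : ℝ) + 1) * (N + 2)) • X ^ (N + 1) - (((N : ℝ) + 1) ^ 2) • X ^ N := by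
  ext r
  rw [Lop_coeff, coeff_sub, coeff_smul, coeff_smul, coeff_X_pow, coeff_X_pow, coeff_X_pow]
  by_cases h1 : r = N + 1
  · subst h1
    rw [if_pos rfl, if_neg (by omega), if_neg (by omega)]
    push_cast
    rw [smul_zero, smul_eq_mul]
    ring
  · by_cases h2 : r = N
    · subst h2
      rw [if_neg (by omega), if_pos rfl, if_pos rfl]
      simp
    · rw [if_neg h1, if_neg (by omega), if_neg h2]
      simp

/-- eigenvectors of the Legendre operator -/
theorem eigen_unique {f : ℝ[X]} {k : ℕ} (h : Lop f = ((k : ℝ) * (k + 1)) • f) :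
    f = f.coeff 0 • sL k := by
  ext r
  induction r with
  | zero => rw [coeff_smul, sL_coeff_zero, smul_eq_mul, mul_one]
  | succ r ih =>
    have h1 := congrArg (fun g => g.coeff r) h
    simp only [Lop_coeff, coeff_smul, smul_eq_mul] at h1
    have h2 := sL_rec k r
    rw [coeff_smul, smul_eq_mul] at ih ⊢
    have h3 : ((r : ℝ) + 1) ^ 2 ≠ 0 := by positivity
    apply mul_left_cancel₀ h3
    have : ((r : ℝ) + 1) ^ 2 * (f.coeff 0 * (sL k).coeff (r + 1)) =
      f.coeff 0 * (((r : ℝ) + 1) ^ 2 * (sL k).coeff (r + 1)) := by ring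
    rw [this, h2]
    rw [ih] at h1
    linear_combination (-1 : ℝ) * h1

/-- `φ_r = (-1)^r (3/2)_r / (r!)^2` -/
noncomputable def phi : ℕ → ℝ
  | 0 => 1
  | r + 1 => -((r : ℝ) + 3 / 2) / ((r : ℝ) + 1) ^ 2 * phi r

theorem phi_succ (r : ℕ) : ((r : ℝ) + 1) ^ 2 * phi (r + 1) = -((r : ℝ) + 3 / 2) * phi r := by
  have h3 : ((r : ℝ) + 1) ^ 2 ≠ 0 := by positivity
  rw [phi]
  field_simp

theorem phi_ne_zero (r : ℕ) : phi r ≠ 0 := by
  induction r with
  | zero => simp [phi]
  | succ r ih =>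
    intro h
    have h1 := phi_succ r
    rw [h, mul_zero] at h1
    have h2 : ((r : ℝ) + 3 / 2) ≠ 0 := by positivity
    have h3 := mul_ne_zero (neg_ne_zero.mpr h2) ih
    exact h3 h1.symm

/-- `W_N = 4^N (N!)^2 / (2N)!` -/
noncomputable def W : ℕ → ℝ
  | 0 => 1
  | N + 1 => (2 * N + 2) / (2 * N + 1) * W N

theorem W_succ (N : ℕ) : (2 * (N : ℝ) + 1) * W (N + 1) = (2 * N + 2) * W N := by
  have h : (2 * (N : ℝ) + 1) ≠ 0 := by positivity
  rw [W]
  field_simp

theorem W_pos (N : ℕ) : 0 < W N := by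
  induction N with
  | zero => simp [W]
  | succ N ih => rw [W]; positivity

/-- the hypergeometric polynomial -/
noncomputable def F (N : ℕ) : ℝ[X] :=
  ∑ r ∈ range (N + 1), C (phi r * (N.descFactorial r : ℝ)) * X ^ r

theorem F_coeff (N r : ℕ) : (F N).coeff r = phi r * (N.descFactorial r : ℝ) := by
  unfold F
  rw [finset_sum_coeff]
  simp only [coeff_C_mul_X_pow]
  rw [Finset.sum_ite_eq]
  split_ifs with h
  · rfl
  · rw [mem_range] at h
    rw [Nat.descFactorial_eq_zero_iff_lt.mpr (by omega)]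
    simp

/-- the operator `X^N ↦ W_N F_N` -/
noncomputable def K : ℝ[X] →ₗ[ℝ] ℝ[X] :=
  lsum fun N => LinearMap.toSpanSingleton ℝ ℝ[X] (W N • F N)

theorem K_X (N : ℕ) : K (X ^ N) = W N • F N := by
  unfold K
  rw [lsum_apply]
  have : (X ^ N : ℝ[X]) = monomial N 1 := by rw [X_pow_eq_monomial]
  rw [this, sum_monomial_index]
  · simp
  · simp

theorem K_Lop_X (N : ℕ) : K (Lop (X ^ N)) = Lop (K (X ^ N)) := by
  cases N with
  | zero =>
    have h1 : Lop (X ^ 0) = 0 := by
      ext r
      rw [Lop_coeff, pow_zero, coeff_one, coeff_one, coeff_zero]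
      by_cases h : r = 0
      · subst h; simp
      · rw [if_neg h, if_neg (by omega)]; ring
    rw [h1, map_zero, K_X]
    have h2 : W 0 • F 0 = X ^ 0 := by simp [W, F, phi]
    rw [h2, h1]
  | succ N =>
    rw [Lop_X_succ, map_sub, map_smul, map_smul, K_X, K_X, map_smul]
    ext r
    rw [coeff_sub, coeff_smul, coeff_smul, coeff_smul, coeff_smul, coeff_smul, Lop_coeff,
      F_coeff, F_coeff, F_coeff]
    simp only [smul_eq_mul]
    have e1 : (((N + 1).descFactorial (r + 1) : ℕ) : ℝ) =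
        ((N : ℝ) + 1 - r) * ((N + 1).descFactorial r : ℝ) := by
      rw [Nat.descFactorial_succ]
      by_cases h : r ≤ N + 1
      · push_cast [Nat.cast_sub h]; ring
      · rw [Nat.descFactorial_eq_zero_iff_lt.mpr (by omega)]
        simp
    have e2 : ((N : ℝ) + 1) * (N.descFactorial r : ℝ) =
        ((N : ℝ) + 1 - r) * ((N + 1).descFactorial r : ℝ) := by
      have h := Nat.succ_descFactorial N r
      by_cases hr : r ≤ N + 1
      · have h' := congrArg (Nat.cast : ℕ → ℝ) h
        push_cast [Nat.cast_sub hr] at h'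
        linarith
      · rw [Nat.descFactorial_eq_zero_iff_lt.mpr (by omega),
          Nat.descFactorial_eq_zero_iff_lt.mpr (by omega)]
        simp
    rw [e1]
    have e3 := phi_succ r
    have e4 := W_succ N
    set D : ℝ := ((N + 1).descFactorial r : ℝ)
    set d : ℝ := (N.descFactorial r : ℝ)
    have h21 : (2 * (N : ℝ) + 1) ≠ 0 := by positivity
    have e5 : W N * (2 * ((N : ℝ) + 1)) = (2 * (N : ℝ) + 1) * W (N + 1) := by
      rw [e4]; ring
    -- (N+1)^2 W d φ = (N+1) W (N+1-r) D φ = (2N+1)/2 W' (N+1-r) D φ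
    have e6 : ((N : ℝ) + 1) ^ 2 * (W N * (phi r * d)) =
        (2 * (N : ℝ) + 1) / 2 * W (N + 1) * (((N : ℝ) + 1 - r) * D) * phi r := by
      rw [← e2]
      linear_combination (((N : ℝ) + 1) * phi r * d / 2) * e5
    rw [e6]
    linear_combination (W (N + 1) * D * ((N : ℝ) + 1 - r)) * e3

theorem K_Lop (f : ℝ[X]) : K (Lop f) = Lop (K f) := by
  have h : K ∘ₗ Lop = Lop ∘ₗ K := by
    apply Polynomial.lhom_ext'
    intro n
    ext
    have := K_Lop_X n
    simp only [LinearMap.comp_apply]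
    rw [← X_pow_eq_monomial] at *
    rw [this]
  exact LinearMap.congr_fun h f

end Run7.h204.Lgm
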