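import Mathlib
import Pool.Agent.Run7.h204.LgmOp

/-! Growth in `N` of the coefficients of the image of `X^N (1-X)^M`. -/

open Polynomial Finset

namespace Run7.h204.Lgm

/-- top coefficients of the powers of the Legendre operator on `F N` -/
noncomputable def tt : ℕ → ℕ → ℝ
  | 0, r => phi r
  | m + 1, r => -((r : ℝ) + 1) ^ 2 * tt m (r + 1)

theorem tt_rec (m r : ℕ) : ((r : ℝ) + 1) ^ 2 * tt m (r + 1) =
    -((r : ℝ) + m + 3 / 2) * tt m r := by
  induction m generalizing r with
  | zero =>
    simp only [tt]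
    rw [phi_succ]; push_cast; ring
  | succ m ih =>
    simp only [tt]
    have h1 := ih (r + 1)
    have h2 := ih r
    push_cast at h1 ⊢
    have e : (-((r : ℝ) + 1 + 1) ^ 2 * tt m (r + 1 + 1)) =
        ((r : ℝ) + 1 + m + 3 / 2) * tt m (r + 1) := by linear_combination (-1 : ℝ) * h1
    rw [e]
    ring

theorem tt_ne_zero (m r : ℕ) : tt m r ≠ 0 := by
  induction m generalizing r with
  | zero => exact phi_ne_zero r
  | succ m ih =>
    simp only [tt]
    have : ((r : ℝ) + 1) ^ 2 ≠ 0 := by positivity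
    exact mul_ne_zero (neg_ne_zero.mpr this) (ih (r + 1))

theorem PT_Lpow (m r : ℕ) : PT (r + m) (tt m r) (fun N => ((Lop ^ m) (F N)).coeff r) := by
  induction m generalizing r with
  | zero =>
    refine ((PT.mono r).smul (phi r)).congr (by simp [tt]) fun N => ?_
    rw [pow_zero, Module.End.one_apply, F_coeff]
  | succ m ih =>
    have h1 := ((ih r).smul ((r : ℝ) * (r + 1))).succ
    have h2 := (ih (r + 1)).smul (-((r : ℝ) + 1) ^ 2)
    have e : r + 1 + m = r + m + 1 := by ring
    rw [e] at h2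
    refine (h1.add h2).congr ?_ fun N => ?_
    · simp only [tt]; ring
    · rw [pow_succ' Lop m, Module.End.mul_apply, Lop_coeff]
      ring

theorem PT_aeval (R : ℝ[X]) (e r : ℕ) (hR : R.natDegree ≤ e) :
    PT (r + e) (R.coeff e * tt e r) (fun N => (aeval Lop R (F N)).coeff r) := by
  have key : ∀ e : ℕ, PT (r + e) (R.coeff e * tt e r)
      (fun N => ∑ m ∈ range (e + 1), R.coeff m * ((Lop ^ m) (F N)).coeff r) := by
    intro e
    induction e with
    | zero =>
      refine ((PT_Lpow 0 r).smul (R.coeff 0)).congr rfl fun N => ?_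
      simp
    | succ e ih =>
      refine (ih.succ.add ((PT_Lpow (e + 1) r).smul (R.coeff (e + 1)))).congr (by ring)
        fun N => ?_
      rw [sum_range_succ _ (e + 1)]
  refine (key e).congr rfl fun N => ?_
  rw [aeval_eq_sum_range' (show R.natDegree < e + 1 by omega)]
  rw [LinearMap.sum_apply, finset_sum_coeff]
  refine sum_congr rfl fun m _ => ?_
  rw [LinearMap.smul_apply, coeff_smul, smul_eq_mul]

/-- weights -/
noncomputable def om : ℕ → ℕ → ℝ
  | 0, N => W N
  | M + 1, N => om M N / (2 * N + 2 * M + 1)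

theorem om_pos (M N : ℕ) : 0 < om M N := by
  induction M with
  | zero => exact W_pos N
  | succ M ih => rw [om]; positivity

theorem om_succ (M N : ℕ) : om M N = (2 * (N : ℝ) + 2 * M + 1) * om (M + 1) N := by
  have : (2 * (N : ℝ) + 2 * M + 1) ≠ 0 := by positivity
  rw [om]; field_simp

theorem om_shift (M N : ℕ) : om M (N + 1) = (2 * (N : ℝ) + 2) * om (M + 1) N := by
  induction M with
  | zero =>
    have h : (2 * (N : ℝ) + 1) ≠ 0 := by positivity
    simp only [om, W]
    push_cast
    field_simp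
    ring
  | succ M ih =>
    have h0 : (2 * (N : ℝ) + 2 * M + 1) ≠ 0 := by positivity
    have h1 : (2 * ((N : ℝ) + 1) + 2 * M + 1) ≠ 0 := by positivity
    have h2 : (2 * (N : ℝ) + 2 * ((M : ℝ) + 1) + 1) ≠ 0 := by positivity
    have e1 : om (M + 1) (N + 1) = om M (N + 1) / (2 * ((N : ℝ) + 1) + 2 * M + 1) := by
      rw [om]; push_cast; ring
    have e2 : om (M + 1 + 1) N = om (M + 1) N / (2 * (N : ℝ) + 2 * ((M : ℝ) + 1) + 1) := by
      rw [om]; push_cast; ring
    rw [e1, e2, ih]
    have e3 : (2 * ((N : ℝ) + 1) + 2 * M + 1) = (2 * (N : ℝ) + 2 * ((M : ℝ) + 1) + 1) := by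
      ring
    rw [e3]
    ring

/-- the products -/
noncomputable def Pi' : ℕ → ℕ → ℝ
  | 0, _ => 1
  | M + 1, a => (2 * M - 1 - 2 * a) * Pi' M a

theorem Pi_rec (M a : ℕ) : (2 * (M : ℝ) - 3 - 2 * a) * Pi' M (a + 1) =
    (-3 - 2 * (a : ℝ)) * Pi' M a := by
  induction M with
  | zero => simp [Pi']
  | succ M ih =>
    simp only [Pi']
    push_cast
    linear_combination (2 * (M : ℝ) - 1 - 2 * a) * ih

theorem Pi_ne_zero (M a : ℕ) : Pi' M a ≠ 0 := by
  induction M with
  | zero => simp [Pi']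
  | succ M ih =>
    simp only [Pi']
    refine mul_ne_zero ?_ ih
    intro h
    have h1 : (2 * (M : ℤ) - 1 - 2 * a : ℤ) = 0 := by exact_mod_cast h
    omega

theorem PT_H (R : ℝ[X]) (e r : ℕ) (hR : R.natDegree ≤ e) (M : ℕ) :
    PT (r + e) (R.coeff e * tt e r * Pi' M (r + e))
      (fun N => (aeval Lop R (K (X ^ N * (1 - X) ^ M))).coeff r / om M N) := by
  induction M with
  | zero =>
    refine (PT_aeval R e r hR).congr (by simp [Pi']) fun N => ?_
    rw [pow_zero, mul_one, K_X, map_smul, coeff_smul, smul_eq_mul, om]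
    have := (W_pos N).ne'
    field_simp
  | succ M ih =>
    refine (ih.step M).congr (by simp only [Pi']; push_cast; ring) fun N => ?_
    have e1 : (X ^ N * (1 - X) ^ (M + 1) : ℝ[X]) =
        X ^ N * (1 - X) ^ M - X ^ (N + 1) * (1 - X) ^ M := by ring
    rw [e1, map_sub, map_sub, coeff_sub, om_succ M N, om_shift M N]
    have h1 := (om_pos (M + 1) N).ne'
    have h2 : (2 * (N : ℝ) + 2 * M + 1) ≠ 0 := by positivity
    have h3 : (2 * (N : ℝ) + 2) ≠ 0 := by positivity
    field_simp

end Run7.h204.Lgm
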