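import Mathlib
import Pool.Agent.Helper722.RR.Newton
import Pool.Agent.Run7.h204.LgmDefs
import Pool.Agent.Run7.h204.LgmTop

/-! No sequence of odd polynomial degree is a Legendre multiplier sequence. -/

open Polynomial Finset Filter Topology

namespace Run7.h204.Lgm

/-! ### The operator `K` on the shifted Legendre polynomials -/

theorem K_coeff {f : ℝ[X]} {n : ℕ} (hf : f.natDegree < n) (r : ℕ) :
    (K f).coeff r = ∑ N ∈ range n, f.coeff N * (W N * (phi r * (N.descFactorial r : ℝ))) := by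
  conv_lhs => rw [f.as_sum_range' n hf]
  rw [map_sum, finset_sum_coeff]
  refine sum_congr rfl fun N _ => ?_
  rw [← C_mul_X_pow_eq_monomial, ← smul_eq_C_mul, map_smul, K_X, coeff_smul, coeff_smul,
    F_coeff]
  simp only [smul_eq_mul]

theorem W_phi (k : ℕ) : W k * (phi k * (k.factorial : ℝ)) = (-1) ^ k * (2 * k + 1) := by
  induction k with
  | zero => simp [W, phi]
  | succ k ih =>
    have h1 : (2 * (k : ℝ) + 1) ≠ 0 := by positivity
    have h2 : ((k : ℝ) + 1) ≠ 0 := by positivity
    have e : W (k + 1) * (phi (k + 1) * ((k + 1).factorial : ℝ)) =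
        (-(2 * (k : ℝ) + 3) / (2 * k + 1)) * (W k * (phi k * (k.factorial : ℝ))) := by
      rw [W, phi, Nat.factorial_succ]
      push_cast
      field_simp
    rw [e, ih, pow_succ]
    push_cast
    field_simp
    ring

theorem K_sL (k : ℕ) : K (sL k) = ((-1) ^ k * (2 * (k : ℝ) + 1)) • sL k := by
  have h1 : Lop (K (sL k)) = ((k : ℝ) * (k + 1)) • K (sL k) := by
    rw [← K_Lop, Lop_sL, map_smul]
  have h2 := eigen_unique h1
  have h3 : (K (sL k)).coeff k = (sL k).coeff k * (W k * (phi k * (k.factorial : ℝ))) := by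
    rw [K_coeff (n := k + 1) (by rw [sL_natDegree]; omega), sum_range_succ, sum_eq_zero,
      zero_add, Nat.descFactorial_self]
    intro N hN
    rw [Nat.descFactorial_eq_zero_iff_lt.mpr (by have := mem_range.mp hN; omega)]
    simp
  have h4 := congrArg (fun g => g.coeff k) h2
  simp only [coeff_smul, smul_eq_mul] at h4
  rw [h3, W_phi] at h4
  have h5 : (K (sL k)).coeff 0 = (-1) ^ k * (2 * (k : ℝ) + 1) := by
    apply mul_right_cancel₀ (sL_coeff_self_ne k)
    rw [← h4]; ring
  rw [h2, h5]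

/-- reflection -/
noncomputable def Rf : ℝ[X] →ₗ[ℝ] ℝ[X] := (aeval (1 - X : ℝ[X])).toLinearMap

theorem Rf_apply (f : ℝ[X]) : Rf f = f.comp (1 - X) := by
  unfold Rf
  rw [AlgHom.toLinearMap_apply]
  rfl

theorem Rf_sL (k : ℕ) : Rf (sL k) = ((-1 : ℝ) ^ k) • sL k := by
  rw [Rf_apply]
  have h := congrArg (Polynomial.map (Int.castRingHom ℝ))
    (neg_one_pow_mul_shiftedLegendre_comp_one_sub_X_eq k)
  rw [Polynomial.map_mul, Polynomial.map_comp] at h
  simp only [Polynomial.map_pow, Polynomial.map_neg, Polynomial.map_one, Polynomial.map_sub,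
    map_X] at h
  have h1 : (-1 : ℝ[X]) ^ k * (sL k).comp (1 - X) = sL k := h
  have h2 : ((-1 : ℝ[X]) ^ k) * (-1) ^ k = 1 := by
    rw [← mul_pow]; simp
  calc (sL k).comp (1 - X) = ((-1 : ℝ[X]) ^ k * (-1) ^ k) * (sL k).comp (1 - X) := by
        rw [h2, one_mul]
    _ = (-1 : ℝ[X]) ^ k * ((-1 : ℝ[X]) ^ k * (sL k).comp (1 - X)) := by ring
    _ = (-1 : ℝ[X]) ^ k * sL k := by rw [h1]
    _ = _ := by
        rw [smul_eq_C_mul]
        simp

theorem sL_ne_zero (k : ℕ) : sL k ≠ 0 := by
  intro h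
  have := sL_coeff_zero k
  rw [h, coeff_zero] at this
  exact zero_ne_one this

theorem aeval_sL (A : ℝ[X]) (k : ℕ) :
    aeval Lop A (sL k) = A.eval ((k : ℝ) * (k + 1)) • sL k := by
  apply Module.End.aeval_apply_of_hasEigenvector
  rw [Module.End.hasEigenvector_iff]
  exact ⟨Module.End.mem_eigenspace_iff.mpr (Lop_sL k), sL_ne_zero k⟩

/-! ### Decomposition of `Q` -/

theorem decomp (e : ℕ) : ∀ Q : ℝ[X], Q.natDegree ≤ 2 * e + 1 →
    ∃ A B : ℝ[X], A.natDegree ≤ e ∧ B.natDegree ≤ e ∧ A.coeff e = Q.coeff (2 * e + 1) / 2 ∧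
      ∀ x : ℝ, Q.eval x = (2 * x + 1) * A.eval (x * (x + 1)) + B.eval (x * (x + 1)) := by
  induction e with
  | zero =>
    intro Q hQ
    refine ⟨C (Q.coeff 1 / 2), C (Q.coeff 0 - Q.coeff 1 / 2), by simp, by simp, by simp, ?_⟩
    intro x
    rw [eq_X_add_C_of_natDegree_le_one hQ]
    simp
    ring
  | succ e ih =>
    intro Q hQ
    have hm : (X ^ 2 + X : ℝ[X]).Monic := by monicity!
    have hmd : (X ^ 2 + X : ℝ[X]).natDegree = 2 := by compute_degree!
    set Q' := Q /ₘ (X ^ 2 + X) with hQ'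
    have hd := modByMonic_add_div Q (X ^ 2 + X)
    have hnd : Q'.natDegree ≤ 2 * e + 1 := by
      rw [hQ', natDegree_divByMonic _ hm, hmd]; omega
    have hr : (Q %ₘ (X ^ 2 + X)).natDegree ≤ 1 := by
      have := natDegree_modByMonic_lt Q hm (by
        intro h
        rw [h] at hmd
        simp at hmd)
      omega
    obtain ⟨A, B, hA, hB, hAc, hAB⟩ := ih Q' hnd
    set r := Q %ₘ (X ^ 2 + X) with hrdef
    refine ⟨X * A + C (r.coeff 1 / 2), X * B + C (r.coeff 0 - r.coeff 1 / 2), ?_, ?_, ?_, ?_⟩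
    · refine (natDegree_add_le _ _).trans (max_le ?_ (by simp))
      exact (natDegree_mul_le).trans (by rw [natDegree_X]; omega)
    · refine (natDegree_add_le _ _).trans (max_le ?_ (by simp))
      exact (natDegree_mul_le).trans (by rw [natDegree_X]; omega)
    · rw [coeff_add, coeff_X_mul, coeff_C_succ, add_zero, hAc]
      congr 1
      conv_rhs => rw [← hd]
      have e1 : 2 * (e + 1) + 1 = 2 * e + 1 + 2 := by ring
      rw [coeff_add, e1, add_mul, coeff_add, coeff_X_pow_mul,
        show 2 * e + 1 + 2 = (2 * e + 2) + 1 by ring, coeff_X_mul,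
        coeff_eq_zero_of_natDegree_lt (p := r) (by omega),
        coeff_eq_zero_of_natDegree_lt (p := Q') (n := 2 * e + 2) (by omega)]
      ring
    · intro x
      have h1 := congrArg (fun p => p.eval x) hd
      simp only [eval_add, eval_mul, eval_pow, eval_X] at h1
      rw [← h1, hAB x]
      have h2 : r.eval x = r.coeff 1 * x + r.coeff 0 := by
        conv_lhs => rw [eq_X_add_C_of_natDegree_le_one hr]
        simp
      rw [h2]
      simp only [eval_add, eval_mul, eval_X, eval_C]
      ring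

/-! ### Expansions -/

theorem expand (n : ℕ) : ∀ f : ℝ[X], (∀ m, n ≤ m → f.coeff m = 0) →
    ∃ a : ℕ → ℝ, f = ∑ k ∈ range n, a k • sL k := by
  induction n with
  | zero =>
    intro f hf
    refine ⟨fun _ => 0, ?_⟩
    ext m
    rw [hf m (Nat.zero_le _)]
    simp
  | succ n ih =>
    intro f hf
    set c := f.coeff n / (sL n).coeff n
    obtain ⟨a, ha⟩ := ih (f - c • sL n) (by
      intro m hm
      rw [coeff_sub, coeff_smul, smul_eq_mul]
      rcases Nat.eq_or_lt_of_le hm with h | h
      · subst h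
        simp only [c]
        rw [div_mul_cancel₀ _ (sL_coeff_self_ne n), sub_self]
      · rw [hf m h, coeff_eq_zero_of_natDegree_lt (by rw [sL_natDegree]; omega)]
        ring)
    refine ⟨fun k => if k = n then c else a k, ?_⟩
    rw [sum_range_succ]
    simp only [if_true]
    have : ∑ k ∈ range n, (if k = n then c else a k) • sL k = ∑ k ∈ range n, a k • sL k := by
      refine sum_congr rfl fun k hk => ?_
      rw [if_neg (by have := mem_range.mp hk; omega)]
    rw [this, ← ha]
    ring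

theorem vanish (i : ℕ) : ∀ (f : ℝ[X]) (m : ℕ), (∀ s, s < m → f.coeff s = 0) →
    ∀ s, s + i < m → ((Lop ^ i) f).coeff s = 0 := by
  induction i with
  | zero =>
    intro f m hf s hs
    rw [pow_zero, Module.End.one_apply]
    exact hf s (by omega)
  | succ i ih =>
    intro f m hf s hs
    rw [pow_succ' Lop i, Module.End.mul_apply, Lop_coeff, ih f m hf s (by omega),
      ih f m hf (s + 1) (by omega)]
    ring

theorem vanish_aeval (B f : ℝ[X]) (e m : ℕ) (hB : B.natDegree ≤ e)
    (hf : ∀ s, s < m → f.coeff s = 0) (s : ℕ) (hs : s + e < m) :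
    (aeval Lop B f).coeff s = 0 := by
  rw [aeval_eq_sum_range' (show B.natDegree < e + 1 by omega), LinearMap.sum_apply,
    finset_sum_coeff]
  refine sum_eq_zero fun i hi => ?_
  rw [LinearMap.smul_apply, coeff_smul, vanish i f m hf s (by
    have := mem_range.mp hi; omega), smul_zero]

/-! ### Relation with the Legendre polynomials -/

/-- the substitution `u = (1-x)/2` -/
noncomputable def ell : ℝ[X] := C (1 / 2) * (1 - X)

theorem iter_comp (f : ℝ[X]) (k : ℕ) :
    derivative^[k] (f.comp ell) = C ((-1 / 2) ^ k) * (derivative^[k] f).comp ell := by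
  induction k with
  | zero => simp
  | succ k ih =>
    rw [Function.iterate_succ_apply', ih, derivative_C_mul, derivative_comp,
      Function.iterate_succ_apply']
    have : derivative ell = C (-1 / 2) := by
      unfold ell
      rw [derivative_C_mul, derivative_sub, derivative_one, derivative_X, zero_sub, ← C_1,
        ← C_neg, ← C_mul]
      norm_num
    rw [this, pow_succ, C_mul]
    ring

theorem legendre_eq (k : ℕ) : legendre k = (sL k).comp ell := by
  have h := congrArg (Polynomial.map (Int.castRingHom ℝ)) (factorial_mul_shiftedLegendre_eq k)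
  rw [Polynomial.map_mul, ← iterate_derivative_map] at h
  simp only [Polynomial.map_mul, Polynomial.map_pow, Polynomial.map_sub, Polynomial.map_one,
    map_X, Polynomial.map_natCast] at h
  have h1 : (k.factorial : ℝ[X]) * sL k = derivative^[k] (X ^ k * (1 - X) ^ k) := h
  have h2 : (X ^ k * (1 - X) ^ k : ℝ[X]).comp ell = C ((-1 / 4) ^ k) * (X ^ 2 - 1) ^ k := by
    rw [C_pow, ← mul_pow, ← mul_pow]
    simp only [pow_comp, mul_comp, X_comp, sub_comp, one_comp]
    congr 1
    unfold ell
    have e1 : (C (-1 / 4) : ℝ[X]) = - (C (1 / 2) * C (1 / 2)) := by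
      rw [← C_mul, ← C_neg]; norm_num
    have e2 : (1 : ℝ[X]) = C (1 / 2) * C 2 := by
      rw [← C_mul, ← C_1]; norm_num
    have e3 : (C 2 : ℝ[X]) = 2 := map_ofNat C 2
    rw [e1]
    rw [e3] at e2
    linear_combination (C (1 / 2) * (1 - X)) * e2
  have h3 := iter_comp (X ^ k * (1 - X) ^ k) k
  rw [h2, iterate_derivative_C_mul, ← h1] at h3
  unfold legendre
  have h4 : (C ((-1 / 4 : ℝ) ^ k) : ℝ[X]) * derivative^[k] ((X ^ 2 - 1) ^ k) =
      C ((-1 / 2) ^ k) * (C (k.factorial : ℝ) * (sL k).comp ell) := by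
    rw [h3]
    congr 1
    rw [mul_comp]
    simp
  have hk : (k.factorial : ℝ) ≠ 0 := by exact_mod_cast k.factorial_ne_zero
  have e5 : (C (1 / (2 ^ k * (k.factorial : ℝ))) : ℝ[X]) =
      C (1 / (2 ^ k * (k.factorial : ℝ)) * (-4) ^ k) * C ((-1 / 4 : ℝ) ^ k) := by
    rw [← C_mul, mul_assoc, ← mul_pow]; norm_num
  rw [e5, mul_assoc, h4, ← mul_assoc, ← mul_assoc, ← C_mul, ← C_mul]
  have e6 : 1 / (2 ^ k * (k.factorial : ℝ)) * (-4) ^ k * (-1 / 2) ^ k * (k.factorial : ℝ) =
      1 := by
    have : ((-4 : ℝ)) ^ k * (-1 / 2) ^ k = 2 ^ k := by rw [← mul_pow]; norm_num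
    field_simp
    linear_combination this
  rw [e6, C_1, one_mul]

end Run7.h204.Lgm
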