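import Mathlib
import Pool.Agent.Run7.h204.LgmMain

/-! Conclusion: no sequence of odd polynomial degree is a Legendre multiplier sequence. -/

open Polynomial Finset Filter Topology

namespace Run7.h204.Lgm

theorem sum_comp' (s : Finset ℕ) (f : ℕ → ℝ[X]) (q : ℝ[X]) :
    (∑ k ∈ s, f k).comp q = ∑ k ∈ s, (f k).comp q := by
  have := map_sum (compRingHom q) f s
  simpa only [coe_compRingHom_apply] using this

theorem splits_of_real {p : ℝ[X]} (h : OnlyRealZeros p) : p.Splits := by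
  rcases h with rfl | h
  · exact Splits.zero
  refine Splits.of_splits_map (algebraMap ℝ ℂ) (IsAlgClosed.splits _) ?_
  intro a ha
  have h0 : aeval a p = 0 := by
    have := isRoot_of_mem_roots ha
    rwa [IsRoot.def, eval_map_algebraMap] at this
  have h1 := h a h0
  exact ⟨a.re, by apply Complex.ext <;> simp [h1]⟩

theorem newton {p : ℝ[X]} (hp : OnlyRealZeros p) (k : ℕ) :
    ((k : ℝ) + 2) * (p.coeff k * p.coeff (k + 2)) ≤ ((k : ℝ) + 1) * p.coeff (k + 1) ^ 2 := by
  have h := RR722.NW.newton_deg (splits_of_real hp) (max p.natDegree (k + 1))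
    (le_max_left _ _) k (le_max_right _ _)
  set d := max p.natDegree (k + 1)
  have hd : k + 1 ≤ d := le_max_right _ _
  have hd' : (k : ℝ) + 1 ≤ d := by exact_mod_cast hd
  have hpos : 0 < (d : ℝ) - k := by linarith
  have h1 : ((d : ℝ) - k) * (((k : ℝ) + 2) * (p.coeff k * p.coeff (k + 2))) ≤
      ((d : ℝ) - k) * (((k : ℝ) + 1) * p.coeff (k + 1) ^ 2) := by
    have h2 : 0 ≤ ((k : ℝ) + 1) * p.coeff (k + 1) ^ 2 := by positivity
    nlinarith
  exact le_of_mul_le_mul_left h1 hpos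

/-- the operator after reflection -/
noncomputable def Om (A B : ℝ[X]) (f : ℝ[X]) : ℝ[X] := aeval Lop A (K f) + aeval Lop B (Rf f)

theorem Om_sum (A B : ℝ[X]) (n : ℕ) (a : ℕ → ℝ) :
    Om A B (∑ k ∈ range n, a k • sL k) =
      ∑ k ∈ range n, (a k * ((-1) ^ k * ((2 * (k : ℝ) + 1) * A.eval ((k : ℝ) * (k + 1)) +
        B.eval ((k : ℝ) * (k + 1))))) • sL k := by
  unfold Om
  rw [map_sum, map_sum, map_sum, map_sum, ← sum_add_distrib]
  refine sum_congr rfl fun k _ => ?_
  rw [map_smul, map_smul, map_smul, map_smul, K_sL, Rf_sL, map_smul, map_smul, aeval_sL,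
    aeval_sL, smul_smul, smul_smul, smul_smul, smul_smul, ← add_smul]
  congr 1
  ring

theorem ell_comp : ell.comp (C 2 * X - 1) = 1 - X := by
  unfold ell
  simp only [mul_comp, C_comp, sub_comp, one_comp, X_comp]
  have e2 : (1 : ℝ[X]) = C (1 / 2) * C 2 := by
    rw [← C_mul, ← C_1]; norm_num
  have e3 : (C 2 : ℝ[X]) = 2 := map_ofNat C 2
  rw [e3] at e2 ⊢
  linear_combination (X - 1) * e2

theorem test_real (N M : ℕ) :
    OnlyRealZeros (((X : ℝ[X]) ^ N * (1 - X) ^ M).comp ell) := by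
  right
  intro z hz
  rw [mul_comp, pow_comp, pow_comp, X_comp, sub_comp, one_comp, X_comp, map_mul, map_pow,
    map_pow, mul_eq_zero] at hz
  have hell : aeval z ell = (1 / 2) * (1 - z) := by
    unfold ell
    simp
  rcases hz with hz | hz
  · have h1 := eq_zero_of_pow_eq_zero hz
    rw [hell] at h1
    have h2 : z = 1 := by linear_combination (-2 : ℂ) * h1
    rw [h2]; simp
  · have h1 := eq_zero_of_pow_eq_zero hz
    rw [map_sub, hell, map_one] at h1
    have h2 : z = -1 := by linear_combination (2 : ℂ) * h1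
    rw [h2]; simp

/-- consequence of the multiplier property for the test polynomials -/
theorem Om_real {Q A B : ℝ[X]} (h : IsLegendreMultiplierSequence fun k => Q.eval (k : ℝ))
    (hAB : ∀ x : ℝ, Q.eval x = (2 * x + 1) * A.eval (x * (x + 1)) + B.eval (x * (x + 1)))
    (N M : ℕ) : OnlyRealZeros (Om A B (X ^ N * (1 - X) ^ M)) := by
  set f : ℝ[X] := X ^ N * (1 - X) ^ M with hf
  obtain ⟨a, ha⟩ := expand (f.natDegree + 1) f (fun m hm =>
    coeff_eq_zero_of_natDegree_lt (by omega))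
  set n := f.natDegree + 1
  have h1 : f.comp ell = ∑ k ∈ range n, a k • legendre k := by
    conv_lhs => rw [ha]
    rw [sum_comp']
    refine sum_congr rfl fun k _ => ?_
    rw [smul_comp, legendre_eq]
  have h2 : OnlyRealZeros (∑ k ∈ range n, a k • legendre k) := by
    rw [← h1, hf]
    exact test_real N M
  have h3 := h n a h2
  have h4 : Om A B f = (∑ k ∈ range n, (Q.eval (k : ℝ) * a k) • legendre k).comp
      (C 2 * X - 1) := by
    conv_lhs => rw [ha]
    rw [Om_sum, sum_comp']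
    refine sum_congr rfl fun k _ => ?_
    rw [smul_comp, legendre_eq, comp_assoc, ell_comp, ← Rf_apply, Rf_sL, smul_smul, hAB]
    congr 1
    ring
  rw [h4]
  rcases h3 with h3 | h3
  · left; rw [h3, zero_comp]
  · right
    intro z hz
    rw [aeval_comp] at hz
    have h5 := h3 _ hz
    have h6 : aeval z (C 2 * X - 1 : ℝ[X]) = 2 * z - 1 := by simp
    rw [h6] at h5
    simp at h5
    exact h5

theorem Om_coeff {A B : ℝ[X]} {e : ℕ} (hB : B.natDegree ≤ e) (N M r : ℕ) (hr : r + e < M) :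
    (Om A B (X ^ N * (1 - X) ^ M)).coeff r =
      om M N * ((aeval Lop A (K (X ^ N * (1 - X) ^ M))).coeff r / om M N) := by
  unfold Om
  have h1 : (aeval Lop B (Rf (X ^ N * (1 - X) ^ M))).coeff r = 0 := by
    apply vanish_aeval B _ e M hB _ r hr
    intro s hs
    rw [Rf_apply, mul_comp, pow_comp, pow_comp, X_comp, sub_comp, one_comp, X_comp,
      sub_sub_cancel, mul_comm, coeff_X_pow_mul', if_neg (by omega)]
  rw [coeff_add, h1, add_zero]
  have := (om_pos M N).ne'
  field_simp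

theorem main (Q : ℝ[X]) (hQ : Odd Q.natDegree) :
    ¬ IsLegendreMultiplierSequence fun k => Q.eval (k : ℝ) := by
  intro h
  obtain ⟨e, he⟩ := hQ
  obtain ⟨A, B, hA, hB, hAc, hAB⟩ := decomp e Q he.le
  have hb : A.coeff e ≠ 0 := by
    rw [hAc, ← he]
    intro h0
    have h1 : Q.leadingCoeff = 0 := by
      have : Q.coeff Q.natDegree = 0 := by linarith
      exact this
    rw [leadingCoeff_eq_zero] at h1
    rw [h1, natDegree_zero] at he
    omega
  set M := 2 * e + 3 with hM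
  set G : ℕ → ℕ → ℝ := fun r N => (aeval Lop A (K (X ^ N * (1 - X) ^ M))).coeff r / om M N
    with hG
  have hGt : ∀ r, Tendsto (fun N : ℕ => G r N / (N : ℝ) ^ (r + e)) atTop
      (𝓝 (A.coeff e * tt e r * Pi' M (r + e))) := fun r => (PT_H A e r hA M).tendsto
  set c : ℕ → ℝ := fun r => A.coeff e * tt e r * Pi' M (r + e) with hc
  have hineq : ∀ N : ℕ, ((e : ℝ) + 2) * (G e N * G (e + 2) N) ≤
      ((e : ℝ) + 1) * G (e + 1) N ^ 2 := by
    intro N
    have h1 := newton (Om_real h hAB N M) e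
    rw [Om_coeff hB N M e (by omega), Om_coeff hB N M (e + 1) (by omega),
      Om_coeff hB N M (e + 2) (by omega)] at h1
    have hpos := om_pos M N
    have h2 : (om M N) ^ 2 * (((e : ℝ) + 2) * (G e N * G (e + 2) N)) ≤
        (om M N) ^ 2 * (((e : ℝ) + 1) * G (e + 1) N ^ 2) := by
      calc _ = ((e : ℝ) + 2) * (om M N * G e N * (om M N * G (e + 2) N)) := by ring
        _ ≤ ((e : ℝ) + 1) * (om M N * G (e + 1) N) ^ 2 := h1
        _ = _ := by ring
    exact le_of_mul_le_mul_left h2 (by positivity)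
  have hlim : ((e : ℝ) + 2) * (c e * c (e + 2)) ≤ ((e : ℝ) + 1) * c (e + 1) ^ 2 := by
    have t1 := ((hGt e).mul (hGt (e + 2))).const_mul ((e : ℝ) + 2)
    have t2 := ((hGt (e + 1)).pow 2).const_mul ((e : ℝ) + 1)
    refine le_of_tendsto_of_tendsto t1 t2 ?_
    filter_upwards [eventually_ge_atTop 1] with N hN
    have hN0 : (0 : ℝ) < N := by exact_mod_cast hN
    have hh := hineq N
    have e1 : ((e : ℝ) + 2) * (G e N / (N : ℝ) ^ (e + e) * (G (e + 2) N / (N : ℝ) ^ (e + 2 + e)))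
        = (((e : ℝ) + 2) * (G e N * G (e + 2) N)) / (N : ℝ) ^ (4 * e + 2) := by
      have : (N : ℝ) ^ (4 * e + 2) = (N : ℝ) ^ (e + e) * (N : ℝ) ^ (e + 2 + e) := by
        rw [← pow_add]; congr 1; ring
      rw [this]
      field_simp
    have e2 : ((e : ℝ) + 1) * (G (e + 1) N / (N : ℝ) ^ (e + 1 + e)) ^ 2
        = (((e : ℝ) + 1) * G (e + 1) N ^ 2) / (N : ℝ) ^ (4 * e + 2) := by
      have : (N : ℝ) ^ (4 * e + 2) = ((N : ℝ) ^ (e + 1 + e)) ^ 2 := by
        rw [← pow_mul]; congr 1; ring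
      rw [this, div_pow]
      ring
    rw [e1, e2]
    exact div_le_div_of_nonneg_right hh (by positivity)
  -- relations between consecutive limits
  have rel : ∀ r : ℕ, ((r : ℝ) + 1) ^ 2 * (2 * (M : ℝ) - 3 - 2 * ((r : ℝ) + e)) * c (r + 1) =
      (2 * ((r : ℝ) + e) + 3) ^ 2 / 2 * c r := by
    intro r
    have h1 := tt_rec e r
    have h2 := Pi_rec M (r + e)
    have e3 : r + 1 + e = r + e + 1 := by ring
    simp only [hc]
    rw [e3]
    push_cast at h2
    calc ((r : ℝ) + 1) ^ 2 * (2 * (M : ℝ) - 3 - 2 * ((r : ℝ) + e)) *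
          (A.coeff e * tt e (r + 1) * Pi' M (r + e + 1))
        = A.coeff e * (((r : ℝ) + 1) ^ 2 * tt e (r + 1)) *
          ((2 * (M : ℝ) - 3 - 2 * ((r : ℝ) + e)) * Pi' M (r + e + 1)) := by ring
      _ = A.coeff e * (-((r : ℝ) + e + 3 / 2) * tt e r) *
          ((-3 - 2 * ((r : ℝ) + e)) * Pi' M (r + e)) := by rw [h1, h2]
      _ = _ := by ring
  have r1 := rel e
  have r2 := rel (e + 1)
  rw [hM] at r1 r2
  push_cast at r1 r2
  have hy : c (e + 1) ≠ 0 := by
    simp only [hc]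
    exact mul_ne_zero (mul_ne_zero hb (tt_ne_zero _ _)) (Pi_ne_zero _ _)
  have k1 : ((e : ℝ) + 1) ^ 2 * 3 * c (e + 1) = (4 * (e : ℝ) + 3) ^ 2 / 2 * c e := by
    linear_combination r1
  have k2 : ((e : ℝ) + 2) ^ 2 * c (e + 2) = (4 * (e : ℝ) + 5) ^ 2 / 2 * c (e + 1) := by
    have : c (e + 1 + 1) = c (e + 2) := rfl
    rw [this] at r2
    linear_combination r2
  set x := c e
  set y := c (e + 1)
  set z := c (e + 2)
  have hy2 : 0 < y ^ 2 := by positivity
  have he0 : (0 : ℝ) ≤ e := Nat.cast_nonneg e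
  set E : ℝ := (e : ℝ)
  -- (E+2) (4E+3)^2 x * (E+2) z ... 
  have k3 : (4 * E + 3) ^ 2 * ((E + 2) * (E + 2) * (x * z)) =
      3 * (E + 1) ^ 2 * (4 * E + 5) ^ 2 * y ^ 2 := by
    have : (4 * E + 3) ^ 2 * ((E + 2) * (E + 2) * (x * z)) =
        2 * ((4 * E + 3) ^ 2 / 2 * x) * ((E + 2) ^ 2 * z) := by ring
    rw [this, ← k1, k2]; ring
  have k4 : (4 * E + 3) ^ 2 * ((E + 2) * (E + 2) * (x * z)) ≤
      (4 * E + 3) ^ 2 * ((E + 2) * ((E + 1) * y ^ 2)) := by
    have : (E + 2) * (E + 2) * (x * z) = (E + 2) * ((E + 2) * (x * z)) := by ring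
    rw [this]
    have h5 : 0 ≤ (E + 2) := by linarith
    have h6 : 0 ≤ (4 * E + 3) ^ 2 := by positivity
    exact mul_le_mul_of_nonneg_left (mul_le_mul_of_nonneg_left hlim h5) h6
  rw [k3] at k4
  have k5 : ((E + 1) * y ^ 2) * (3 * (E + 1) * (4 * E + 5) ^ 2) ≤
      ((E + 1) * y ^ 2) * ((4 * E + 3) ^ 2 * (E + 2)) := by
    calc _ = 3 * (E + 1) ^ 2 * (4 * E + 5) ^ 2 * y ^ 2 := by ring
      _ ≤ _ := k4
      _ = _ := by ring
  have k6 := le_of_mul_le_mul_left k5 (by positivity)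
  nlinarith [he0, mul_nonneg he0 he0, mul_nonneg (mul_nonneg he0 he0) he0]

end Run7.h204.Lgm
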