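import Pool.Agent.Run7.h204.LogElDefs

namespace Run7.h204.LogEl

open Matrix Polynomial

lemma trace_conj {A : M3} (hA : A.IsHermitian) (D : M3) :
    (Unitary.conjStarAlgAut ℝ M3 hA.eigenvectorUnitary D).trace = D.trace := by
  rw [Unitary.conjStarAlgAut_apply, Matrix.trace_mul_comm, ← mul_assoc]
  simp

lemma sum_eig {A : M3} (hA : A.IsHermitian) (a b c : ℝ)
    (h : A.charpoly = (X - C a) * (X - C b) * (X - C c)) (f : ℝ → ℝ) :
    ∑ i, f (hA.eigenvalues i) = f a + f b + f c := by
  have h1 := hA.roots_charpoly_eq_eigenvalues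
  have hne : (X - C a) * (X - C b) * (X - C c) ≠ 0 :=
    mul_ne_zero (mul_ne_zero (X_sub_C_ne_zero a) (X_sub_C_ne_zero b)) (X_sub_C_ne_zero c)
  rw [h, roots_mul hne, roots_mul (mul_ne_zero (X_sub_C_ne_zero a) (X_sub_C_ne_zero b)),
    roots_X_sub_C, roots_X_sub_C, roots_X_sub_C] at h1
  have h2 := congrArg (fun s : Multiset ℝ => (s.map f).sum) h1
  simp only [Multiset.map_add, Multiset.map_singleton, Multiset.sum_add,
    Multiset.sum_singleton, Multiset.map_map] at h2
  rw [h2]
  rfl

lemma K_formula (F : M3) (a b c : ℝ) (ha : 0 < a) (hb : 0 < b) (hc : 0 < c)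
    (h : (Fᵀ * F).charpoly = (X - C a) * (X - C b) * (X - C c)) :
    K F = (Real.log a / 2) ^ 2 + (Real.log b / 2) ^ 2 + (Real.log c / 2) ^ 2
      - (Real.log a / 2 + Real.log b / 2 + Real.log c / 2) ^ 2 / 3 := by
  have hA : (Fᵀ * F).IsHermitian := by
    have := Matrix.isHermitian_conjTranspose_mul_self F
    rwa [Matrix.conjTranspose_eq_transpose_of_trivial] at this
  set g : ℝ → ℝ := fun x => Real.log (Real.sqrt x) with hg
  have hL : logU F = Unitary.conjStarAlgAut ℝ M3 hA.eigenvectorUnitary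
      (diagonal (fun i => g (hA.eigenvalues i))) := by
    unfold logU
    rw [hA.cfc_eq]
    rfl
  have htr : (logU F).trace = g a + g b + g c := by
    rw [hL, trace_conj, trace_diagonal, sum_eig hA a b c h g]
  have htr2 : (logU F * logU F).trace = g a ^ 2 + g b ^ 2 + g c ^ 2 := by
    rw [hL, ← map_mul, trace_conj, diagonal_mul_diagonal, trace_diagonal,
      sum_eig hA a b c h (fun x => g x * g x)]
    ring
  have hsym : (logU F)ᵀ = logU F := by
    have h1 : IsSelfAdjoint (logU F) := cfc_predicate _ _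
    have h2 : (logU F)ᴴ = logU F := h1
    rwa [Matrix.conjTranspose_eq_transpose_of_trivial] at h2
  have hga : g a = Real.log a / 2 := by rw [hg]; exact Real.log_sqrt ha.le
  have hgb : g b = Real.log b / 2 := by rw [hg]; exact Real.log_sqrt hb.le
  have hgc : g c = Real.log c / 2 := by rw [hg]; exact Real.log_sqrt hc.le
  rw [← hga, ← hgb, ← hgc]
  unfold K frobSq dev
  rw [transpose_sub, transpose_smul, transpose_one, hsym, htr]
  simp only [sub_mul, mul_sub, trace_sub, htr2, smul_mul_assoc, mul_smul_comm, one_mul, mul_one,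
    trace_smul, htr, smul_eq_mul, trace_one, Fintype.card_fin]
  push_cast
  ring

lemma charpoly_block (p s v w a b : ℝ) (h1 : a + b = p + v) (h2 : a * b = p * v - s * s) :
    (!![p, s, 0; s, v, 0; 0, 0, w] : M3).charpoly = (X - C a) * (X - C b) * (X - C w) := by
  have e1 : (C a + C b : ℝ[X]) = C p + C v := by rw [← C_add, h1, C_add]
  have e2 : (C a * C b : ℝ[X]) = C p * C v - C s * C s := by
    rw [← C_mul, h2, C_sub, C_mul, C_mul]
  simp [Matrix.charpoly, Matrix.det_fin_three, Matrix.charmatrix]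
  linear_combination (-(X - C w)) * e2 + (X * (X - C w)) * e1

end Run7.h204.LogEl
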