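import Pool.Agent.Run7.h204.LogElA

namespace Run7.h204.LogEl

open Matrix Polynomial Filter Topology

lemma hd_congr {f g : ℝ → ℝ} {a b x : ℝ} (h : HasDerivAt f a x) (hf : ∀ y, g y = f y)
    (hab : a = b) : HasDerivAt g b x := by
  have : g = f := funext hf
  rw [this, ← hab]; exact h

lemma second_deriv (W k k1 : ℝ → ℝ) (k2 : ℝ) (hW : ContDiffOn ℝ 2 W (Set.Ici 0))
    (Φ : ℝ → ℝ) (hΦ : Φ =ᶠ[𝓝 0] fun t => W (k t))
    (hk : ∀ᶠ t in 𝓝 (0:ℝ), HasDerivAt k (k1 t) t) (h0 : k 0 = 126) (h1 : k1 0 = 0)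
    (h2 : HasDerivAt k1 k2 0) : iteratedDeriv 2 Φ 0 = deriv W 126 * k2 := by
  have hWo : ContDiffOn ℝ 2 W (Set.Ioi 0) := hW.mono Set.Ioi_subset_Ici_self
  have hdW : ContDiffOn ℝ 1 (deriv W) (Set.Ioi 0) :=
    hWo.deriv_of_isOpen isOpen_Ioi (by norm_num)
  have hmem : (Set.Ioi (0:ℝ)) ∈ 𝓝 (126:ℝ) := Ioi_mem_nhds (by norm_num)
  have hWd : ∀ x : ℝ, 0 < x → HasDerivAt W (deriv W x) x := fun x hx =>
    ((hWo.differentiableOn (by norm_num)).differentiableAt (Ioi_mem_nhds hx)).hasDerivAt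
  have hdWd : HasDerivAt (deriv W) (deriv (deriv W) 126) 126 :=
    ((hdW.differentiableOn (by norm_num)).differentiableAt hmem).hasDerivAt
  have hk0 : HasDerivAt k (k1 0) 0 := hk.self_of_nhds
  have hkc : ContinuousAt k 0 := hk0.continuousAt
  have hpos : ∀ᶠ t in 𝓝 (0:ℝ), 0 < k t := by
    have : (Set.Ioi (0:ℝ)) ∈ 𝓝 (k 0) := by rw [h0]; exact hmem
    exact hkc this
  have hd1 : deriv Φ =ᶠ[𝓝 0] fun t => deriv W (k t) * k1 t := by
    refine hΦ.deriv.trans ?_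
    filter_upwards [hk, hpos] with t ht hpt
    exact ((hWd (k t) hpt).comp t ht).deriv
  rw [iteratedDeriv_succ, iteratedDeriv_one, hd1.deriv_eq]
  have e1 : HasDerivAt (fun t => deriv W (k t)) (deriv (deriv W) 126 * k1 0) 0 := by
    have hdWd' : HasDerivAt (deriv W) (deriv (deriv W) 126) (k 0) := by rw [h0]; exact hdWd
    exact hdWd'.comp 0 hk0
  have e2 := e1.mul h2
  have e3 : HasDerivAt (fun t => deriv W (k t) * k1 t) (deriv W 126 * k2) 0 :=
    hd_congr e2 (fun y => rfl) (by rw [h0, h1]; ring)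
  exact e3.deriv

/-! ### First line: `W'(126) > 0` -/

lemma lineA_matrix (E t : ℝ) :
    (!![1, 0, 0; 0, E, 0; 0, 0, E⁻¹] + t • vecMulVec ![1, 0, 0] ![1, 0, 0] : M3)
      = !![1 + t, 0, 0; 0, E, 0; 0, 0, E⁻¹] := by
  ext i j
  fin_cases i <;> fin_cases j <;> simp [vecMulVec]

lemma lineA_K (t : ℝ) (ht : -1 < t) :
    K (!![1, 0, 0; 0, Real.exp (Real.sqrt 63), 0; 0, 0, (Real.exp (Real.sqrt 63))⁻¹]
      + t • vecMulVec ![1, 0, 0] ![1, 0, 0]) = 126 + 2 / 3 * Real.log (1 + t) ^ 2 := by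
  rw [lineA_matrix]
  set E := Real.exp (Real.sqrt 63) with hE
  have hEp : 0 < E := Real.exp_pos _
  have ht' : 0 < 1 + t := by linarith
  have hm : (!![1 + t, 0, 0; 0, E, 0; 0, 0, E⁻¹] : M3)ᵀ * !![1 + t, 0, 0; 0, E, 0; 0, 0, E⁻¹]
      = !![(1 + t) ^ 2, 0, 0; 0, E ^ 2, 0; 0, 0, (E⁻¹) ^ 2] := by
    ext i j
    fin_cases i <;> fin_cases j <;> simp [Matrix.mul_apply, Fin.sum_univ_three, sq]
  have hc := charpoly_block ((1 + t) ^ 2) 0 (E ^ 2) ((E⁻¹) ^ 2) ((1 + t) ^ 2) (E ^ 2) rfl (by ring)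
  rw [K_formula _ ((1 + t) ^ 2) (E ^ 2) ((E⁻¹) ^ 2) (by positivity) (by positivity) (by positivity)
    (by rw [hm]; exact hc)]
  have hlE : Real.log E = Real.sqrt 63 := by rw [hE, Real.log_exp]
  rw [Real.log_pow, Real.log_pow, Real.log_pow, Real.log_inv, hlE]
  have h63 : Real.sqrt 63 ^ 2 = 63 := Real.sq_sqrt (by norm_num)
  push_cast
  linear_combination 2 * h63

lemma lineA (W : ℝ → ℝ) (hW : ContDiffOn ℝ 2 W (Set.Ici 0)) (h : LHElliptic W) :
    0 < deriv W 126 := by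
  have h1 := h !![1, 0, 0; 0, Real.exp (Real.sqrt 63), 0; 0, 0, (Real.exp (Real.sqrt 63))⁻¹]
    (by
      have : (0:ℝ) < Real.exp (Real.sqrt 63) := Real.exp_pos _
      simp [Matrix.det_fin_three])
    ![1, 0, 0] ![1, 0, 0] (by intro h; simpa using congrFun h 0)
    (by intro h; simpa using congrFun h 0)
  have h2 := second_deriv W (fun t => 126 + 2 / 3 * Real.log (1 + t) ^ 2)
    (fun t => 4 / 3 * Real.log (1 + t) / (1 + t)) (4 / 3) hW
    (fun t : ℝ => W (K (!![1, 0, 0; 0, Real.exp (Real.sqrt 63), 0;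
      0, 0, (Real.exp (Real.sqrt 63))⁻¹] + t • vecMulVec ![1, 0, 0] ![1, 0, 0])))
    (by
      have hn : Set.Ioi (-1:ℝ) ∈ 𝓝 (0:ℝ) := Ioi_mem_nhds (by norm_num)
      filter_upwards [hn] with t ht
      rw [lineA_K t ht])
    (by
      have hn : Set.Ioi (-1:ℝ) ∈ 𝓝 (0:ℝ) := Ioi_mem_nhds (by norm_num)
      filter_upwards [hn] with t ht
      have ht' : (1 + t) ≠ 0 := by
        have : -1 < t := ht
        linarith
      have e1 : HasDerivAt (fun t : ℝ => 1 + t) 1 t := (hasDerivAt_id t).const_add 1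
      have e2 := ((e1.log ht').pow 2).const_mul (2 / 3 : ℝ) |>.const_add 126
      refine hd_congr e2 (fun y => rfl) ?_
      push_cast
      field_simp
      norm_num
      ring)
    (by simp) (by simp)
    (by
      have e1 : HasDerivAt (fun t : ℝ => 1 + t) 1 0 := (hasDerivAt_id (0:ℝ)).const_add 1
      have e2 := ((e1.log (by norm_num)).const_mul (4 / 3 : ℝ)).div e1 (by norm_num)
      exact hd_congr e2 (fun y => rfl) (by norm_num))
  rw [h2] at h1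
  linarith

end Run7.h204.LogEl
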