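import Pool.Agent.Run7.h204.LogElB

namespace Run7.h204.LogEl

open Matrix Polynomial Filter Topology

/-- `c(t) = cosh` of the difference of the logarithms of the two varying singular values. -/
noncomputable def cf (r t : ℝ) : ℝ := (r * (1 + t) ^ 2 + 4 * t ^ 2 + (1 - 2 * t) ^ 2 / r) / (2 * (1 - t))

noncomputable def cf1 (r t : ℝ) : ℝ :=
  (2 * r * (1 + t) + 8 * t - 4 * (1 - 2 * t) / r) / (2 * (1 - t))
    + (r * (1 + t) ^ 2 + 4 * t ^ 2 + (1 - 2 * t) ^ 2 / r) / (2 * (1 - t) ^ 2)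

lemma hasDeriv_cf (r t : ℝ) (hr : r ≠ 0) (ht : 1 - t ≠ 0) : HasDerivAt (cf r) (cf1 r t) t := by
  have e1 : HasDerivAt (fun t : ℝ => 1 + t) 1 t := (hasDerivAt_id t).const_add 1
  have e2 : HasDerivAt (fun t : ℝ => 1 - t) (-1) t := (hasDerivAt_id t).const_sub 1
  have e3 : HasDerivAt (fun t : ℝ => 1 - 2 * t) (-(2 * 1)) t :=
    ((hasDerivAt_id t).const_mul 2).const_sub 1
  have e4 := (((e1.pow 2).const_mul r).add (((hasDerivAt_id t).pow 2).const_mul 4)).add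
    ((e3.pow 2).div_const r)
  have e5 := e4.div (e2.const_mul 2) (mul_ne_zero two_ne_zero ht)
  refine hd_congr e5 (fun y => rfl) ?_
  unfold cf1
  simp only [id, Pi.add_apply, Pi.sub_apply, Pi.pow_apply, Pi.div_apply, Pi.mul_apply]
  push_cast
  field_simp
  norm_num
  ring

lemma hasDeriv_cf1 (r : ℝ) (hr : r ≠ 0) : HasDerivAt (cf1 r) (4 * r + 4 + 1 / r) 0 := by
  have e1 : HasDerivAt (fun t : ℝ => 1 + t) 1 0 := (hasDerivAt_id (0:ℝ)).const_add 1
  have e2 : HasDerivAt (fun t : ℝ => 1 - t) (-1) 0 := (hasDerivAt_id (0:ℝ)).const_sub 1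
  have e3 : HasDerivAt (fun t : ℝ => 1 - 2 * t) (-(2 * 1)) 0 :=
    ((hasDerivAt_id (0:ℝ)).const_mul 2).const_sub 1
  have e4 := (((e1.pow 2).const_mul r).add (((hasDerivAt_id (0:ℝ)).pow 2).const_mul 4)).add
    ((e3.pow 2).div_const r)
  have e5 := e4.div ((e2.pow 2).const_mul 2) (by norm_num)
  have e6 := ((e1.const_mul (2 * r)).add ((hasDerivAt_id (0:ℝ)).const_mul 8)).sub
    ((e3.const_mul 4).div_const r)
  have e7 := (e6.div (e2.const_mul 2) (by norm_num)).add e5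
  refine hd_congr e7 (fun y => rfl) ?_
  simp only [id, Pi.add_apply, Pi.sub_apply, Pi.pow_apply, Pi.div_apply, Pi.mul_apply]
  push_cast
  norm_num
  field_simp
  norm_num
  ring

/-- `K` along the second line. -/
noncomputable def kf (r t : ℝ) : ℝ :=
  (27 + Real.log (1 - t)) ^ 2 / 6 + Real.arcosh (cf r t) ^ 2 / 2

noncomputable def kf1 (r t : ℝ) : ℝ :=
  -((27 + Real.log (1 - t)) / (3 * (1 - t)))
    + Real.arcosh (cf r t) * (cf1 r t * (Real.sqrt (cf r t ^ 2 - 1))⁻¹)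

lemma hasDeriv_kf (r t : ℝ) (hr : r ≠ 0) (ht : 0 < 1 - t) (hc : 1 < cf r t) :
    HasDerivAt (kf r) (kf1 r t) t := by
  have e2 : HasDerivAt (fun t : ℝ => 1 - t) (-1) t := (hasDerivAt_id t).const_sub 1
  have e3 := (((e2.log ht.ne').const_add 27).pow 2).div_const 6
  have e4 := (Real.hasDerivAt_arcosh hc).comp t (hasDeriv_cf r t hr ht.ne')
  have e5 := (e4.pow 2).div_const 2
  refine hd_congr (e3.add e5) (fun y => rfl) ?_
  unfold kf1
  simp only [Function.comp]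
  push_cast
  have := ht.ne'
  field_simp
  norm_num
  ring

lemma cf_zero : cf (Real.exp 3) 0 = Real.cosh 3 := by
  have h : Real.exp (-3) = (Real.exp 3)⁻¹ := Real.exp_neg 3
  rw [Real.cosh_eq, h]
  unfold cf
  have := Real.exp_ne_zero 3
  field_simp
  ring

lemma cf1_zero : cf1 (Real.exp 3) 0 = 3 * Real.sinh 3 := by
  have h : Real.exp (-3) = (Real.exp 3)⁻¹ := Real.exp_neg 3
  rw [Real.sinh_eq, h]
  unfold cf1
  have := Real.exp_ne_zero 3
  field_simp
  ring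

lemma one_lt_cosh3 : 1 < Real.cosh 3 := by
  rw [Real.one_lt_cosh]; norm_num

lemma sqrt_cosh3 : Real.sqrt (Real.cosh 3 ^ 2 - 1) = Real.sinh 3 := by
  have h := Real.cosh_sq 3
  rw [h, add_sub_cancel_right]
  exact Real.sqrt_sq (Real.sinh_nonneg_iff.mpr (by norm_num))

lemma sinh3_pos : 0 < Real.sinh 3 := Real.sinh_pos_iff.mpr (by norm_num)

lemma arcosh_cosh3 : Real.arcosh (Real.cosh 3) = 3 := Real.arcosh_cosh (by norm_num)

lemma kf_zero : kf (Real.exp 3) 0 = 126 := by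
  unfold kf
  rw [cf_zero, arcosh_cosh3]
  norm_num

lemma kf1_zero : kf1 (Real.exp 3) 0 = 0 := by
  unfold kf1
  rw [cf_zero, cf1_zero, arcosh_cosh3, sqrt_cosh3]
  have := sinh3_pos.ne'
  field_simp
  norm_num

lemma hasDeriv_kf1 : HasDerivAt (kf1 (Real.exp 3))
    (1 / 3 + (3 * (4 * Real.exp 3 + 4 + 1 / Real.exp 3) - 27 * Real.cosh 3) / Real.sinh 3) 0 := by
  have hr := Real.exp_ne_zero 3
  have hS := sinh3_pos.ne'
  have e2 : HasDerivAt (fun t : ℝ => 1 - t) (-1) 0 := (hasDerivAt_id (0:ℝ)).const_sub 1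
  have e3 := ((((e2.log (by norm_num)).const_add 27)).div (e2.const_mul 3) (by norm_num)).neg
  have hc : 1 < cf (Real.exp 3) 0 := by rw [cf_zero]; exact one_lt_cosh3
  have d0 := hasDeriv_cf (Real.exp 3) 0 hr (by norm_num)
  have e4 := (Real.hasDerivAt_arcosh hc).comp 0 d0
  have e5 := hasDeriv_cf1 (Real.exp 3) hr
  have hpos : cf (Real.exp 3) 0 ^ 2 - 1 ≠ 0 := by
    have : 0 < cf (Real.exp 3) 0 ^ 2 - 1 := by nlinarith
    exact this.ne'
  have e6 := ((d0.pow 2).sub_const 1).sqrt hpos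
  have hs : Real.sqrt (cf (Real.exp 3) 0 ^ 2 - 1) ≠ 0 := by
    rw [cf_zero, sqrt_cosh3]; exact hS
  have e7 := e6.inv hs
  have e8 := e3.add (e4.mul (e5.mul e7))
  refine hd_congr e8 (fun y => rfl) ?_
  simp only [id, Pi.add_apply, Pi.sub_apply, Pi.pow_apply, Pi.div_apply, Pi.mul_apply,
    Function.comp, Pi.neg_apply, Pi.inv_apply]
  rw [cf_zero, cf1_zero, arcosh_cosh3, sqrt_cosh3]
  push_cast
  norm_num
  field_simp
  ring

lemma k2_neg : 1 / 3 + (3 * (4 * Real.exp 3 + 4 + 1 / Real.exp 3) - 27 * Real.cosh 3) / Real.sinh 3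
    < 0 := by
  have h : Real.exp (-3) = (Real.exp 3)⁻¹ := Real.exp_neg 3
  have hS := sinh3_pos
  have h8 : 8 < Real.exp 3 := by
    have h1 : (2:ℝ) < Real.exp 1 := by
      have := Real.exp_one_gt_d9
      linarith
    have h2 : Real.exp 3 = Real.exp 1 ^ 3 := by
      rw [← Real.exp_nat_mul]; norm_num
    rw [h2]
    nlinarith [sq_nonneg (Real.exp 1 - 2), mul_pos (by linarith : 0 < Real.exp 1 - 2) (by linarith : 0 < Real.exp 1)]
  have hr0 : 0 < Real.exp 3 := Real.exp_pos 3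
  have e1 : 1 / 3 + (3 * (4 * Real.exp 3 + 4 + 1 / Real.exp 3) - 27 * Real.cosh 3) / Real.sinh 3
      = (Real.sinh 3 + 3 * (3 * (4 * Real.exp 3 + 4 + 1 / Real.exp 3) - 27 * Real.cosh 3))
        / (3 * Real.sinh 3) := by
    have := hS.ne'
    field_simp
  rw [e1]
  apply div_neg_of_neg_of_pos _ (by positivity)
  rw [Real.sinh_eq, Real.cosh_eq, h]
  have e2 : (Real.exp 3 - (Real.exp 3)⁻¹) / 2 + 3 * (3 * (4 * Real.exp 3 + 4 + 1 / Real.exp 3)
      - 27 * ((Real.exp 3 + (Real.exp 3)⁻¹) / 2))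
      = -4 * ((Real.exp 3 - 1) * (Real.exp 3 - 8)) / Real.exp 3 := by
    have := hr0.ne'
    field_simp
    ring
  rw [e2]
  apply div_neg_of_neg_of_pos _ hr0
  have : 0 < (Real.exp 3 - 1) * (Real.exp 3 - 8) := mul_pos (by linarith) (by linarith)
  linarith

end Run7.h204.LogEl
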