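import Pool.Agent.Run7.h204.LogElC

namespace Run7.h204.LogEl

open Matrix Polynomial Filter Topology

/-- The base point of the second line (`q = exp (3/2)`). -/
noncomputable def FB (q : ℝ) : M3 := !![q ^ 10, 0, 0; 0, q ^ 8, 0; 0, 0, 1]

noncomputable def xiB (q : ℝ) : Fin 3 → ℝ := ![q ^ 5, -(Real.sqrt 2 * q ^ 4), 0]

noncomputable def etaB (q : ℝ) : Fin 3 → ℝ := ![q ^ 5, Real.sqrt 2 * q ^ 4, 0]

lemma lineB_matrix (q t : ℝ) :
    FB q + t • vecMulVec (xiB q) (etaB q)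
      = !![q ^ 10 * (1 + t), t * (Real.sqrt 2 * q ^ 9), 0;
          -(t * (Real.sqrt 2 * q ^ 9)), q ^ 8 * (1 - 2 * t), 0; 0, 0, 1] := by
  have h2 : Real.sqrt 2 * Real.sqrt 2 = 2 := Real.mul_self_sqrt (by norm_num)
  ext i j
  fin_cases i <;> fin_cases j <;> simp [FB, xiB, etaB, vecMulVec]
  · ring
  · left; ring
  · left; ring
  · linear_combination (-(t * q ^ 8)) * h2

lemma lineB_K (t : ℝ) (ht : 0 < 1 - t) (hc : 1 < cf (Real.exp 3) t) :
    K (FB (Real.exp (3 / 2)) + t • vecMulVec (xiB (Real.exp (3 / 2))) (etaB (Real.exp (3 / 2))))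
      = kf (Real.exp 3) t := by
  have hqr : Real.exp 3 = Real.exp (3 / 2) ^ 2 := by
    rw [← Real.exp_nat_mul]; norm_num
  set q := Real.exp (3 / 2) with hq
  have hqp : 0 < q := Real.exp_pos _
  have h2 : Real.sqrt 2 * Real.sqrt 2 = 2 := Real.mul_self_sqrt (by norm_num)
  rw [lineB_matrix]
  set A := Real.arcosh (cf (Real.exp 3) t) with hA
  have hcosh : Real.cosh A = cf (Real.exp 3) t := Real.cosh_arcosh hc.le
  set δ := q ^ 18 * (1 - t) with hδ
  have hδp : 0 < δ := by positivity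
  have hm : (!![q ^ 10 * (1 + t), t * (Real.sqrt 2 * q ^ 9), 0;
          -(t * (Real.sqrt 2 * q ^ 9)), q ^ 8 * (1 - 2 * t), 0; 0, 0, 1] : M3)ᵀ *
        !![q ^ 10 * (1 + t), t * (Real.sqrt 2 * q ^ 9), 0;
          -(t * (Real.sqrt 2 * q ^ 9)), q ^ 8 * (1 - 2 * t), 0; 0, 0, 1]
      = !![q ^ 20 * (1 + t) ^ 2 + 2 * q ^ 18 * t ^ 2,
           Real.sqrt 2 * q ^ 19 * t * (1 + t) - Real.sqrt 2 * q ^ 17 * t * (1 - 2 * t), 0;
          Real.sqrt 2 * q ^ 19 * t * (1 + t) - Real.sqrt 2 * q ^ 17 * t * (1 - 2 * t),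
            2 * q ^ 18 * t ^ 2 + q ^ 16 * (1 - 2 * t) ^ 2, 0; 0, 0, 1] := by
    ext i j
    fin_cases i <;> fin_cases j <;> simp [Matrix.mul_apply, Fin.sum_univ_three]
    · linear_combination (t ^ 2 * q ^ 18) * h2
    · ring
    · ring
    · linear_combination (t ^ 2 * q ^ 18) * h2
  have hsum : δ * Real.exp A + δ * Real.exp (-A)
      = (q ^ 20 * (1 + t) ^ 2 + 2 * q ^ 18 * t ^ 2)
        + (2 * q ^ 18 * t ^ 2 + q ^ 16 * (1 - 2 * t) ^ 2) := by
    have e1 : δ * Real.exp A + δ * Real.exp (-A) = 2 * δ * Real.cosh A := by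
      rw [Real.cosh_eq]; ring
    rw [e1, hcosh, hδ, hqr]
    unfold cf
    have h1 := ht.ne'
    have h3 := hqp.ne'
    field_simp
    ring
  have hprod : (δ * Real.exp A) * (δ * Real.exp (-A))
      = (q ^ 20 * (1 + t) ^ 2 + 2 * q ^ 18 * t ^ 2) * (2 * q ^ 18 * t ^ 2 + q ^ 16 * (1 - 2 * t) ^ 2)
        - (Real.sqrt 2 * q ^ 19 * t * (1 + t) - Real.sqrt 2 * q ^ 17 * t * (1 - 2 * t))
          * (Real.sqrt 2 * q ^ 19 * t * (1 + t) - Real.sqrt 2 * q ^ 17 * t * (1 - 2 * t)) := by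
    have e1 : Real.exp A * Real.exp (-A) = 1 := by rw [← Real.exp_add]; simp
    have e2 : (δ * Real.exp A) * (δ * Real.exp (-A)) = δ ^ 2 := by
      calc _ = δ ^ 2 * (Real.exp A * Real.exp (-A)) := by ring
        _ = δ ^ 2 := by rw [e1, mul_one]
    rw [e2, hδ]
    linear_combination ((q ^ 19 * t * (1 + t) - q ^ 17 * t * (1 - 2 * t)) ^ 2) * h2
  rw [K_formula _ (δ * Real.exp A) (δ * Real.exp (-A)) 1 (by positivity) (by positivity) one_pos
    (by rw [hm]; exact charpoly_block _ _ _ _ _ _ hsum hprod)]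
  rw [Real.log_mul hδp.ne' (Real.exp_ne_zero _), Real.log_mul hδp.ne' (Real.exp_ne_zero _),
    Real.log_exp, Real.log_exp, Real.log_one]
  have hlδ : Real.log δ = 27 + Real.log (1 - t) := by
    rw [hδ, Real.log_mul (by positivity) ht.ne', Real.log_pow, hq, Real.log_exp]
    norm_num
  rw [hlδ]
  unfold kf
  rw [← hA]
  ring

lemma lineB (W : ℝ → ℝ) (hW : ContDiffOn ℝ 2 W (Set.Ici 0)) (h : LHElliptic W) :
    deriv W 126 < 0 := by
  have hqp : 0 < Real.exp (3 / 2) := Real.exp_pos _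
  have h1 := h (FB (Real.exp (3 / 2))) (by
      unfold FB
      simp [Matrix.det_fin_three]
      positivity)
    (xiB (Real.exp (3 / 2))) (etaB (Real.exp (3 / 2)))
    (by
      intro h
      have := congrFun h 0
      simp [xiB] at this)
    (by
      intro h
      have := congrFun h 0
      simp [etaB] at this)
  have hr := Real.exp_ne_zero 3
  have hev : ∀ᶠ t in 𝓝 (0:ℝ), 0 < 1 - t ∧ 1 < cf (Real.exp 3) t := by
    have hn : Set.Iio (1:ℝ) ∈ 𝓝 (0:ℝ) := Iio_mem_nhds (by norm_num)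
    have hcont : ContinuousAt (cf (Real.exp 3)) 0 :=
      (hasDeriv_cf (Real.exp 3) 0 hr (by norm_num)).continuousAt
    have hn2 : Set.Ioi (1:ℝ) ∈ 𝓝 (cf (Real.exp 3) 0) := by
      rw [cf_zero]; exact Ioi_mem_nhds one_lt_cosh3
    filter_upwards [hn, hcont hn2] with t h3 h4
    have h3' : t < 1 := h3
    exact ⟨by linarith, h4⟩
  have h2 := second_deriv W (kf (Real.exp 3)) (kf1 (Real.exp 3)) _ hW
    (fun t : ℝ => W (K (FB (Real.exp (3 / 2))
      + t • vecMulVec (xiB (Real.exp (3 / 2))) (etaB (Real.exp (3 / 2))))))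
    (by
      filter_upwards [hev] with t ht
      rw [lineB_K t ht.1 ht.2])
    (by
      filter_upwards [hev] with t ht
      exact hasDeriv_kf _ t hr ht.1 ht.2)
    kf_zero kf1_zero hasDeriv_kf1
  rw [h2] at h1
  by_contra hcon
  push Not at hcon
  have := mul_nonpos_of_nonneg_of_nonpos hcon k2_neg.le
  linarith

theorem no_elliptic (W : ℝ → ℝ) (hW : ContDiffOn ℝ 2 W (Set.Ici 0)) : ¬ LHElliptic W := fun h =>
  absurd (lineA W hW h) (not_lt.mpr (lineB W hW h).le)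

end Run7.h204.LogEl
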