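import Mathlib

/-!
# Definitions for MP_e7e597_an (energies depending only on the logarithmic distortion)
-/

namespace Run7.h204.LogEl

open Matrix

/-- Real `3 × 3` matrices. -/
abbrev M3 : Type := Matrix (Fin 3) (Fin 3) ℝ

/-- `log U` for `U = sqrt (Fᵀ F)`: the function `x ↦ log (sqrt x)` applied to the symmetric
matrix `Fᵀ F` by the functional calculus (that is, applied to the eigenvalues of `Fᵀ F` in an
orthonormal eigenbasis). -/
noncomputable def logU (F : M3) : M3 := cfc (fun x : ℝ => Real.log (Real.sqrt x)) (Fᵀ * F)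

/-- Deviatoric part `X - (tr X / 3) 1`. -/
noncomputable def dev (X : M3) : M3 := X - (X.trace / 3) • (1 : M3)

/-- Squared Frobenius norm `tr (X Xᵀ)`. -/
noncomputable def frobSq (X : M3) : ℝ := (X * Xᵀ).trace

/-- The logarithmic distortion `K(F) = ‖dev₃ log U‖²`. -/
noncomputable def K (F : M3) : ℝ := frobSq (dev (logU F))

/-- Legendre–Hadamard ellipticity on `GL⁺(3)` of `F ↦ W (K F)`: the second derivative at `0` of
`t ↦ W (K (F + t ξ ⊗ η))` is positive for all `F` with `det F > 0` and all nonzero `ξ, η`. -/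
def LHElliptic (W : ℝ → ℝ) : Prop :=
  ∀ F : M3, 0 < F.det → ∀ ξ η : Fin 3 → ℝ, ξ ≠ 0 → η ≠ 0 →
    0 < iteratedDeriv 2 (fun t : ℝ => W (K (F + t • vecMulVec ξ η))) 0

end Run7.h204.LogEl
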