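import Mathlib

namespace Run7.h204.Mdim

open Filter

/-- The unit interval as a set of reals. -/
abbrev I : Set ℝ := Set.Icc 0 1

/-- `A` is `(n, φ, ε)`-separated: any two distinct points of the finite set `A ⊆ [0,1]` are more
than `ε` apart at some time `j < n`, i.e. `d_n(x, y) > ε`. -/
def IsSep (φ : I → I) (n : ℕ) (ε : ℝ) (A : Finset I) : Prop :=
  ∀ x ∈ A, ∀ y ∈ A, x ≠ y → ∃ j < n, ε < |((φ^[j] x : I) : ℝ) - ((φ^[j] y : I) : ℝ)|

/-- The maximal cardinality of an `(n, φ, ε)`-separated set. -/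
noncomputable def sepn (φ : I → I) (n : ℕ) (ε : ℝ) : ℕ :=
  sSup {k | ∃ A : Finset I, IsSep φ n ε A ∧ A.card = k}

/-- `sep(φ, ε) = limsup (1/n) log sep(n, φ, ε)`. -/
noncomputable def sep (φ : I → I) (ε : ℝ) : EReal :=
  limsup (fun n : ℕ => ((Real.log (sepn φ n ε) / n : ℝ) : EReal)) atTop

/-- The upper metric mean dimension `limsup_{ε → 0+} sep(φ, ε) / |log ε|`. -/
noncomputable def upperMdim (φ : I → I) : EReal :=
  limsup (fun ε : ℝ => sep φ ε / ((|Real.log ε| : ℝ) : EReal)) (nhdsWithin 0 (Set.Ioi 0))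

/-- The lower metric mean dimension `liminf_{ε → 0+} sep(φ, ε) / |log ε|`. -/
noncomputable def lowerMdim (φ : I → I) : EReal :=
  liminf (fun ε : ℝ => sep φ ε / ((|Real.log ε| : ℝ) : EReal)) (nhdsWithin 0 (Set.Ioi 0))

end Run7.h204.Mdim
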