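import Pool.Agent.Run7.h204.MdimDefs

namespace Run7.h204.Mdim

open Filter Topology

/-- index of the cell of length `1/M` -/
noncomputable def cell (M : ℕ) (x : I) : ℕ := ⌊(x : ℝ) * M⌋₊

theorem cell_le (M : ℕ) (x : I) : cell M x ≤ M := by
  unfold cell
  apply Nat.floor_le_of_le
  have h1 : (x : ℝ) ≤ 1 := x.2.2
  have h2 : (0 : ℝ) ≤ M := Nat.cast_nonneg M
  nlinarith

theorem cell_eq_lt {M : ℕ} (hM : 0 < M) {x y : I} (h : cell M x = cell M y) :
    |(x : ℝ) - y| < 1 / M := by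
  have hM' : (0 : ℝ) < M := by exact_mod_cast hM
  have hx0 : (0 : ℝ) ≤ x := x.2.1
  have hy0 : (0 : ℝ) ≤ y := y.2.1
  have h1 := Nat.floor_le (show (0 : ℝ) ≤ (x : ℝ) * M by positivity)
  have h2 := Nat.lt_floor_add_one ((x : ℝ) * M)
  have h3 := Nat.floor_le (show (0 : ℝ) ≤ (y : ℝ) * M by positivity)
  have h4 := Nat.lt_floor_add_one ((y : ℝ) * M)
  unfold cell at h
  rw [h] at h1 h2
  rw [lt_div_iff₀ hM', ← abs_of_pos hM', ← abs_mul, abs_lt]
  constructor <;> nlinarith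

section
variable (φ : I → I) (K α : ℝ)

/-- the smallest cell met by the image of a cell -/
noncomputable def low (M : ℕ) (i : ℕ) : ℕ := sInf {k | ∃ y : I, cell M y = i ∧ cell M (φ y) = k}

/-- relative index -/
noncomputable def rel (M : ℕ) (x : I) : ℕ := cell M (φ x) - low φ M (cell M x)

/-- bound for the number of cells met by the image of a cell -/
noncomputable def bb (M : ℕ) : ℕ := ⌊K * (M : ℝ) ^ (1 - α)⌋₊ + 2

theorem low_le (M : ℕ) (x : I) : low φ M (cell M x) ≤ cell M (φ x) :=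
  Nat.sInf_le ⟨x, rfl, rfl⟩

theorem cell_image (M : ℕ) (x : I) : cell M (φ x) = low φ M (cell M x) + rel φ M x := by
  unfold rel
  have := low_le φ M x
  omega

theorem rel_lt (hK : 0 < K) (hα : 0 < α)
    (hφ : ∀ x y : I, |(φ x : ℝ) - φ y| ≤ K * |(x : ℝ) - y| ^ α) {M : ℕ} (hM : 0 < M) (x : I) :
    rel φ M x < bb K α M := by
  have hM' : (0 : ℝ) < M := by exact_mod_cast hM
  have hne : {k | ∃ y : I, cell M y = cell M x ∧ cell M (φ y) = k}.Nonempty :=
    ⟨_, x, rfl, rfl⟩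
  obtain ⟨y, hy, hy'⟩ := Nat.sInf_mem hne
  have h1 := cell_eq_lt hM hy
  have h2 : |(φ x : ℝ) - φ y| ≤ K * (1 / M) ^ α := by
    refine (hφ x y).trans ?_
    apply mul_le_mul_of_nonneg_left _ hK.le
    apply Real.rpow_le_rpow (abs_nonneg _) _ hα.le
    rw [abs_sub_comm]; exact h1.le
  have h3 : (M : ℝ) * (K * (1 / M) ^ α) = K * (M : ℝ) ^ (1 - α) := by
    rw [Real.rpow_sub hM', Real.rpow_one, Real.div_rpow zero_le_one hM'.le, Real.one_rpow]
    field_simp
  have h4 : (φ x : ℝ) * M ≤ (φ y : ℝ) * M + K * (M : ℝ) ^ (1 - α) := by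
    rw [← h3]
    have := (le_abs_self _).trans h2
    nlinarith
  have hx0 : (0 : ℝ) ≤ φ x := (φ x).2.1
  have hy0 : (0 : ℝ) ≤ φ y := (φ y).2.1
  have h5 := Nat.floor_le (show (0 : ℝ) ≤ (φ x : ℝ) * M by positivity)
  have h6 := Nat.lt_floor_add_one ((φ y : ℝ) * M)
  have h7 := Nat.lt_floor_add_one (K * (M : ℝ) ^ (1 - α))
  have h8 : cell M (φ x) < cell M (φ y) + bb K α M := by
    have : ((cell M (φ x) : ℕ) : ℝ) < ((cell M (φ y) + bb K α M : ℕ) : ℝ) := by
      unfold cell bb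
      push_cast
      linarith
    exact_mod_cast this
  have h9 : low φ M (cell M x) = cell M (φ y) := hy'.symm
  have h10 : 0 < bb K α M := by unfold bb; omega
  unfold rel
  rw [h9]
  omega

theorem card_bound (hK : 0 < K) (hα : 0 < α)
    (hφ : ∀ x y : I, |(φ x : ℝ) - φ y| ≤ K * |(x : ℝ) - y| ^ α) {M : ℕ} (hM : 0 < M)
    {ε : ℝ} (hε : 1 / M ≤ ε) (n : ℕ) (A : Finset I) (hA : IsSep φ n ε A) :
    A.card ≤ (M + 1) * bb K α M ^ n := by
  classical
  have h : A.card ≤ ((Finset.range (M + 1)) ×ˢ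
      (Fintype.piFinset fun _ : Fin n => Finset.range (bb K α M))).card := by
    apply Finset.card_le_card_of_injOn (fun x => (cell M x, fun j : Fin n => rel φ M (φ^[j] x)))
    · intro x _
      rw [Finset.mem_coe, Finset.mem_product, Finset.mem_range, Fintype.mem_piFinset]
      exact ⟨Nat.lt_succ_of_le (cell_le M x), fun j =>
        Finset.mem_range.2 (rel_lt φ K α hK hα hφ hM _)⟩
    · intro x hx y hy hxy
      by_contra hne
      obtain ⟨j, hj, hj'⟩ := hA x hx y hy hne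
      have h1 : cell M x = cell M y := (Prod.ext_iff.1 hxy).1
      have h2 : (fun j : Fin n => rel φ M (φ^[j] x)) = fun j : Fin n => rel φ M (φ^[j] y) :=
        (Prod.ext_iff.1 hxy).2
      have h3 : ∀ i ≤ j, cell M (φ^[i] x) = cell M (φ^[i] y) := by
        intro i
        induction i with
        | zero => intro _; exact h1
        | succ i ih =>
          intro hi
          have h4 := ih (by omega)
          have h5 := congrFun h2 ⟨i, by omega⟩
          simp only at h5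
          rw [Function.iterate_succ_apply', Function.iterate_succ_apply',
            cell_image φ M (φ^[i] x), cell_image φ M (φ^[i] y), h4, h5]
      have h6 := cell_eq_lt hM (h3 j le_rfl)
      linarith
  rw [Finset.card_product, Finset.card_range, Fintype.card_piFinset] at h
  simpa using h

theorem sepn_le (hK : 0 < K) (hα : 0 < α)
    (hφ : ∀ x y : I, |(φ x : ℝ) - φ y| ≤ K * |(x : ℝ) - y| ^ α) {M : ℕ} (hM : 0 < M)
    {ε : ℝ} (hε : 1 / M ≤ ε) (n : ℕ) : sepn φ n ε ≤ (M + 1) * bb K α M ^ n := by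
  unfold sepn
  apply csSup_le'
  rintro k ⟨A, hA, rfl⟩
  exact card_bound φ K α hK hα hφ hM hε n A hA

theorem sep_le (hK : 0 < K) (hα : 0 < α)
    (hφ : ∀ x y : I, |(φ x : ℝ) - φ y| ≤ K * |(x : ℝ) - y| ^ α) {M : ℕ} (hM : 0 < M)
    {ε : ℝ} (hε : 1 / M ≤ ε) : sep φ ε ≤ ((Real.log (bb K α M) : ℝ) : EReal) := by
  have hB : (1 : ℝ) ≤ bb K α M := by
    have : 1 ≤ bb K α M := by unfold bb; omega
    exact_mod_cast this
  have hM1 : (0 : ℝ) < (M : ℝ) + 1 := by positivity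
  have h1 : ∀ᶠ n : ℕ in atTop, ((Real.log (sepn φ n ε) / n : ℝ) : EReal)
      ≤ ((Real.log (M + 1) / n + Real.log (bb K α M) : ℝ) : EReal) := by
    filter_upwards [eventually_gt_atTop 0] with n hn
    rw [EReal.coe_le_coe_iff]
    have hn' : (0 : ℝ) < n := by exact_mod_cast hn
    have h2 : Real.log (sepn φ n ε) ≤ Real.log ((M + 1) * (bb K α M : ℝ) ^ n) := by
      rcases Nat.eq_zero_or_pos (sepn φ n ε) with h0 | h0
      · rw [h0, Nat.cast_zero, Real.log_zero]
        apply Real.log_nonneg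
        have : (1 : ℝ) ≤ (bb K α M : ℝ) ^ n := one_le_pow₀ hB
        have h3 : (0 : ℝ) ≤ M := Nat.cast_nonneg M
        nlinarith
      · apply Real.log_le_log (by exact_mod_cast h0)
        have := sepn_le φ K α hK hα hφ hM hε n
        exact_mod_cast this
    rw [Real.log_mul hM1.ne' (by positivity), Real.log_pow] at h2
    rw [div_add' _ _ _ hn'.ne', div_le_div_iff_of_pos_right hn']
    linarith
  have h2 : Tendsto (fun n : ℕ => ((Real.log (M + 1) / n + Real.log (bb K α M) : ℝ) : EReal))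
      atTop (𝓝 ((Real.log (bb K α M) : ℝ) : EReal)) := by
    apply EReal.tendsto_coe.2
    have h3 : Tendsto (fun n : ℕ => Real.log (M + 1) / (n : ℝ)) atTop (𝓝 0) :=
      tendsto_const_div_atTop_nhds_zero_nat _
    simpa using h3.add_const (Real.log (bb K α M))
  calc sep φ ε ≤ limsup (fun n : ℕ => ((Real.log (M + 1) / n + Real.log (bb K α M) : ℝ) : EReal))
        atTop := limsup_le_limsup h1
    _ = _ := h2.limsup_eq

theorem sep_le' (hK : 0 < K) (hα : 0 < α) (hα1 : α ≤ 1)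
    (hφ : ∀ x y : I, |(φ x : ℝ) - φ y| ≤ K * |(x : ℝ) - y| ^ α) {ε : ℝ} (h0 : 0 < ε)
    (h1 : ε < 1) :
    sep φ ε ≤ ((Real.log (2 * K + 2) + (1 - α) * |Real.log ε| : ℝ) : EReal) := by
  set M : ℕ := ⌈1 / ε⌉₊ with hM
  have hMpos : 0 < M := Nat.ceil_pos.2 (by positivity)
  have hM' : (0 : ℝ) < M := by exact_mod_cast hMpos
  have hle : 1 / ε ≤ M := Nat.le_ceil _
  have hε : 1 / (M : ℝ) ≤ ε := by
    rw [div_le_iff₀ h0] at hle
    rw [div_le_iff₀ hM']; linarith
  refine (sep_le φ K α hK hα hφ hMpos hε).trans ?_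
  rw [EReal.coe_le_coe_iff]
  have hlt : (M : ℝ) < 1 / ε + 1 := Nat.ceil_lt_add_one (by positivity)
  have h1ε : 1 ≤ 1 / ε := by rw [le_div_iff₀ h0]; linarith
  have h2 : (M : ℝ) ≤ 2 * (1 / ε) := by linarith
  have hpow : (M : ℝ) ^ (1 - α) ≤ 2 * (1 / ε) ^ (1 - α) := by
    calc (M : ℝ) ^ (1 - α) ≤ (2 * (1 / ε)) ^ (1 - α) :=
          Real.rpow_le_rpow hM'.le h2 (by linarith)
      _ = 2 ^ (1 - α) * (1 / ε) ^ (1 - α) := Real.mul_rpow (by norm_num) (by positivity)
      _ ≤ 2 * (1 / ε) ^ (1 - α) := by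
          apply mul_le_mul_of_nonneg_right _ (by positivity)
          calc (2 : ℝ) ^ (1 - α) ≤ 2 ^ (1 : ℝ) :=
                Real.rpow_le_rpow_of_exponent_le (by norm_num) (by linarith)
            _ = 2 := Real.rpow_one 2
  have hone : 1 ≤ (1 / ε) ^ (1 - α) := Real.one_le_rpow h1ε (by linarith)
  have hbb : (bb K α M : ℝ) ≤ (2 * K + 2) * (1 / ε) ^ (1 - α) := by
    unfold bb
    push_cast
    have := Nat.floor_le (show 0 ≤ K * (M : ℝ) ^ (1 - α) by positivity)
    have h3 : K * (M : ℝ) ^ (1 - α) ≤ K * (2 * (1 / ε) ^ (1 - α)) :=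
      mul_le_mul_of_nonneg_left hpow hK.le
    nlinarith
  have hbpos : (0 : ℝ) < bb K α M := by
    have : 0 < bb K α M := by unfold bb; omega
    exact_mod_cast this
  calc Real.log (bb K α M) ≤ Real.log ((2 * K + 2) * (1 / ε) ^ (1 - α)) :=
        Real.log_le_log hbpos hbb
    _ = Real.log (2 * K + 2) + (1 - α) * Real.log (1 / ε) := by
        rw [Real.log_mul (by positivity) (by positivity), Real.log_rpow (by positivity)]
    _ = _ := by
        rw [one_div, Real.log_inv, abs_of_neg (Real.log_neg h0 h1)]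

theorem upper_le (hK : 0 < K) (hα : 0 < α) (hα1 : α ≤ 1)
    (hφ : ∀ x y : I, |(φ x : ℝ) - φ y| ≤ K * |(x : ℝ) - y| ^ α) :
    upperMdim φ ≤ ((1 - α : ℝ) : EReal) := by
  have h1 : ∀ᶠ ε : ℝ in 𝓝[>] 0, sep φ ε / ((|Real.log ε| : ℝ) : EReal)
      ≤ ((Real.log (2 * K + 2) / |Real.log ε| + (1 - α) : ℝ) : EReal) := by
    have h2 : ∀ᶠ ε : ℝ in 𝓝[>] 0, ε < 1 :=
      mem_nhdsWithin_of_mem_nhds (Iio_mem_nhds one_pos)
    filter_upwards [h2, self_mem_nhdsWithin] with ε h3 h4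
    have h0 : (0 : ℝ) < ε := h4
    have hl : 0 < |Real.log ε| := abs_pos.2 (Real.log_neg h0 h3).ne
    have h5 := sep_le' φ K α hK hα hα1 hφ h0 h3
    calc sep φ ε / ((|Real.log ε| : ℝ) : EReal)
        ≤ ((Real.log (2 * K + 2) + (1 - α) * |Real.log ε| : ℝ) : EReal) /
          ((|Real.log ε| : ℝ) : EReal) :=
          EReal.div_le_div_right_of_nonneg (by exact_mod_cast hl.le) h5
      _ = (((Real.log (2 * K + 2) + (1 - α) * |Real.log ε|) / |Real.log ε| : ℝ) : EReal) :=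
          (EReal.coe_div _ _).symm
      _ = _ := by
          congr 1
          field_simp
  have h2 : Tendsto (fun ε : ℝ => ((Real.log (2 * K + 2) / |Real.log ε| + (1 - α) : ℝ) : EReal))
      (𝓝[>] 0) (𝓝 ((1 - α : ℝ) : EReal)) := by
    apply EReal.tendsto_coe.2
    have h3 : Tendsto (fun ε : ℝ => |Real.log ε|) (𝓝[>] 0) atTop :=
      tendsto_abs_atBot_atTop.comp Real.tendsto_log_nhdsGT_zero
    have h4 : Tendsto (fun ε : ℝ => Real.log (2 * K + 2) / |Real.log ε|) (𝓝[>] 0) (𝓝 0) :=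
      h3.const_div_atTop _
    simpa using h4.add_const (1 - α)
  calc upperMdim φ ≤ limsup (fun ε : ℝ =>
        ((Real.log (2 * K + 2) / |Real.log ε| + (1 - α) : ℝ) : EReal)) (𝓝[>] 0) :=
        limsup_le_limsup h1
    _ = _ := h2.limsup_eq

theorem lower_le_upper : lowerMdim φ ≤ upperMdim φ := liminf_le_limsup

end

end Run7.h204.Mdim
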