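import Pool.Agent.Run7.h204.MdimMain

namespace Run7.h204.Mdim

open Filter Topology

theorem sep_nonneg (φ : I → I) (ε : ℝ) : 0 ≤ sep φ ε := by
  unfold sep
  have h : ∀ n : ℕ, (0 : EReal) ≤ ((Real.log (sepn φ n ε) / n : ℝ) : EReal) := by
    intro n
    have h1 : 0 ≤ Real.log (sepn φ n ε) / n :=
      div_nonneg (Real.log_natCast_nonneg _) (Nat.cast_nonneg n)
    exact_mod_cast h1
  calc (0 : EReal) = limsup (fun _ : ℕ => (0 : EReal)) atTop := (limsup_const _).symm
    _ ≤ _ := limsup_le_limsup (Eventually.of_forall h)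

theorem lower_nonneg (φ : I → I) : 0 ≤ lowerMdim φ := by
  unfold lowerMdim
  have h : ∀ ε : ℝ, (0 : EReal) ≤ sep φ ε / ((|Real.log ε| : ℝ) : EReal) := by
    intro ε
    apply EReal.div_nonneg (sep_nonneg φ ε)
    exact_mod_cast abs_nonneg (Real.log ε)
  calc (0 : EReal) = liminf (fun _ : ℝ => (0 : EReal)) (nhdsWithin 0 (Set.Ioi 0)) :=
        (liminf_const _).symm
    _ ≤ _ := liminf_le_liminf (Eventually.of_forall h)

theorem upper_zero (φ : I → I)
    (hφ : ∀ α : ℝ, 0 < α → α < 1 → ∃ K : ℝ, 0 < K ∧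
      ∀ x y : I, |(φ x : ℝ) - φ y| ≤ K * |(x : ℝ) - y| ^ α) :
    upperMdim φ = 0 ∧ lowerMdim φ = 0 := by
  have h1 : upperMdim φ ≤ 0 := by
    rw [← EReal.coe_zero]
    apply EReal.le_of_forall_lt_iff_le.1
    intro z hz
    have hz' : 0 < z := by exact_mod_cast hz
    set α : ℝ := max (1 / 2) (1 - z) with hα
    have h0 : 0 < α := lt_max_of_lt_left (by norm_num)
    have h2 : α < 1 := max_lt (by norm_num) (by linarith)
    obtain ⟨K, hK, h⟩ := hφ α h0 h2
    refine (upper_le φ K α hK h0 h2.le h).trans ?_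
    rw [EReal.coe_le_coe_iff]
    have := le_max_right (1 / 2 : ℝ) (1 - z)
    linarith
  have h2 := lower_nonneg φ
  have h3 := lower_le_upper φ
  exact ⟨le_antisymm h1 (h2.trans h3), le_antisymm (h3.trans h1) h2⟩

end Run7.h204.Mdim
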