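import Mathlib

namespace Run7.h204.Nor

open Finset

/-- The generalised (Nörlund) Bernoulli polynomial `B_m^{(a)}(x)` for a natural number `a`:
`m!` times the coefficient of `t ^ m` in `(t / (e ^ t - 1)) ^ a * e ^ (x t)`. -/
noncomputable def nor (a m : ℕ) (x : ℝ) : ℝ :=
  (m.factorial : ℝ) * PowerSeries.coeff m
    (bernoulliPowerSeries ℝ ^ a * PowerSeries.rescale x (PowerSeries.exp ℝ))

/-- `α_{n,k}(x)`, for `2 k ≤ n`. -/
noncomputable def alpha (n k : ℕ) (x : ℝ) : ℝ :=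
  (-1) ^ k * ∑ j ∈ range (2 * k + 1), (-1) ^ j * (n.choose j : ℝ) * (n.choose (2 * k - j) : ℝ) *
    nor n (n - j) x * nor n (n - 2 * k + j) x

/-- `β_{n,k}(x)`. -/
noncomputable def beta (n k : ℕ) (x : ℝ) : ℝ :=
  (-1) ^ k * ∑ j ∈ range (2 * k + 1), (-1) ^ j * (n.choose j : ℝ) * (n.choose (2 * k - j) : ℝ) *
    nor n j x * nor n (2 * k - j) x

end Run7.h204.Nor
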