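import Pool.Agent.Run7.h204.NorDefs

namespace Run7.h204.Nor

open Finset PowerSeries

/-- `t / (e ^ t - 1)` -/
noncomputable abbrev T : PowerSeries ℝ := bernoulliPowerSeries ℝ

/-- `e ^ (x t)` -/
noncomputable abbrev E (x : ℝ) : PowerSeries ℝ := PowerSeries.rescale x (PowerSeries.exp ℝ)

theorem T_mul : T * (PowerSeries.exp ℝ - 1) = PowerSeries.X :=
  bernoulliPowerSeries_mul_exp_sub_one ℝ

theorem T_const : PowerSeries.constantCoeff T = 1 := by
  rw [← PowerSeries.coeff_zero_eq_constantCoeff_apply]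
  simp [bernoulliPowerSeries]

theorem coeff_E (x : ℝ) (n : ℕ) : PowerSeries.coeff n (E x) = x ^ n / n.factorial := by
  simp [PowerSeries.coeff_rescale, PowerSeries.coeff_exp, div_eq_mul_inv]

theorem E_add (x y : ℝ) : E (x + y) = E x * E y :=
  (PowerSeries.exp_mul_exp_eq_exp_add x y).symm

theorem nor_zero (a : ℕ) (x : ℝ) : nor a 0 x = 1 := by
  unfold nor
  rw [PowerSeries.coeff_zero_eq_constantCoeff_apply, map_mul, map_pow, T_const]
  have h : PowerSeries.constantCoeff (E x) = 1 := by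
    rw [← PowerSeries.coeff_zero_eq_constantCoeff_apply, coeff_E]; simp
  rw [h]; simp

theorem nor_add (a m : ℕ) (x y : ℝ) :
    nor a m (x + y) = ∑ r ∈ range (m + 1), (m.choose r : ℝ) * y ^ r * nor a (m - r) x := by
  unfold nor
  have h1 : T ^ a * PowerSeries.rescale (x + y) (PowerSeries.exp ℝ) = E y * (T ^ a * E x) := by
    have h := E_add x y
    unfold E at h ⊢
    rw [h]; ring
  rw [h1, PowerSeries.coeff_mul, Finset.Nat.sum_antidiagonal_eq_sum_range_succ_mk, Finset.mul_sum]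
  refine Finset.sum_congr rfl fun r hr => ?_
  have hr' : r ≤ m := Nat.lt_succ_iff.1 (Finset.mem_range.1 hr)
  rw [coeff_E, Nat.cast_choose ℝ hr']
  have h2 : ((r.factorial : ℕ) : ℝ) ≠ 0 := by exact_mod_cast r.factorial_ne_zero
  have h3 : (((m - r).factorial : ℕ) : ℝ) ≠ 0 := by exact_mod_cast (m - r).factorial_ne_zero
  field_simp

theorem nor_diff (a m : ℕ) (x : ℝ) :
    nor (a + 1) (m + 1) (x + 1) - nor (a + 1) (m + 1) x = (m + 1 : ℝ) * nor a m x := by
  unfold nor
  have h0 : PowerSeries.rescale (1 : ℝ) (PowerSeries.exp ℝ) = PowerSeries.exp ℝ := by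
    rw [PowerSeries.rescale_one]; rfl
  have h1 : T ^ (a + 1) * PowerSeries.rescale (x + 1) (PowerSeries.exp ℝ)
      - T ^ (a + 1) * PowerSeries.rescale x (PowerSeries.exp ℝ)
      = (T ^ a * PowerSeries.rescale x (PowerSeries.exp ℝ)) * PowerSeries.X := by
    have h := E_add x 1
    unfold E at h
    rw [h, h0, ← T_mul]; ring
  rw [← mul_sub, ← map_sub, h1, PowerSeries.coeff_succ_mul_X, Nat.factorial_succ]
  push_cast; ring

theorem D_T : PowerSeries.X * PowerSeries.derivative ℝ T = T - PowerSeries.X * T - T ^ 2 := by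
  have h1 := congrArg (PowerSeries.derivative ℝ) T_mul
  rw [Derivation.leibniz, PowerSeries.derivative_X, map_sub, PowerSeries.derivative_exp,
    PowerSeries.derivative_one, sub_zero, smul_eq_mul, smul_eq_mul] at h1
  have h2 := T_mul
  have h3 : (PowerSeries.exp ℝ - 1) * PowerSeries.derivative ℝ T = 1 - T * PowerSeries.exp ℝ := by
    linear_combination h1
  calc PowerSeries.X * PowerSeries.derivative ℝ T
      = T * ((PowerSeries.exp ℝ - 1) * PowerSeries.derivative ℝ T) := by rw [← h2]; ring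
    _ = T * (1 - T * PowerSeries.exp ℝ) := by rw [h3]
    _ = T - (T * (PowerSeries.exp ℝ - 1)) * T - T ^ 2 := by ring
    _ = _ := by rw [h2]

theorem D_T_pow (a : ℕ) : PowerSeries.X * PowerSeries.derivative ℝ (T ^ a)
    = (a : ℝ⟦X⟧) * (T ^ a - PowerSeries.X * T ^ a - T ^ (a + 1)) := by
  cases a with
  | zero => simp [PowerSeries.derivative_one]
  | succ a =>
    rw [PowerSeries.derivative_pow, Nat.add_sub_cancel]
    calc PowerSeries.X * (((a + 1 : ℕ) : ℝ⟦X⟧) * T ^ a * PowerSeries.derivative ℝ T)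
        = ((a + 1 : ℕ) : ℝ⟦X⟧) * T ^ a * (PowerSeries.X * PowerSeries.derivative ℝ T) := by ring
      _ = _ := by rw [D_T]; ring

theorem D_E (x : ℝ) : PowerSeries.derivative ℝ (E x) = PowerSeries.C x * E x := by
  ext n
  rw [PowerSeries.coeff_derivative, coeff_E, PowerSeries.coeff_C_mul, coeff_E, Nat.factorial_succ]
  have h2 : ((n.factorial : ℕ) : ℝ) ≠ 0 := by exact_mod_cast n.factorial_ne_zero
  push_cast
  field_simp
  ring

theorem nor_rec (a m : ℕ) (x : ℝ) :
    (a : ℝ) * nor (a + 1) (m + 1) x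
      = ((a : ℝ) - (m + 1)) * nor a (m + 1) x + (m + 1) * (x - a) * nor a m x := by
  set H : ℝ⟦X⟧ := T ^ a * E x with hH
  have key : PowerSeries.X * PowerSeries.derivative ℝ H
      = (a : ℝ⟦X⟧) * (H - PowerSeries.X * H - T ^ (a + 1) * E x)
        + PowerSeries.X * (PowerSeries.C x * H) := by
    rw [hH, Derivation.leibniz, D_E, smul_eq_mul, smul_eq_mul]
    calc PowerSeries.X * (T ^ a * (PowerSeries.C x * E x) +
          E x * PowerSeries.derivative ℝ (T ^ a))
        = E x * (PowerSeries.X * PowerSeries.derivative ℝ (T ^ a))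
          + PowerSeries.X * (PowerSeries.C x * (T ^ a * E x)) := by ring
      _ = _ := by rw [D_T_pow]; ring
  have hc := congrArg (PowerSeries.coeff (m + 1)) key
  have hnat : (a : ℝ⟦X⟧) = PowerSeries.C (a : ℝ) := by simp
  rw [hnat, map_add, PowerSeries.coeff_succ_X_mul, PowerSeries.coeff_derivative,
    PowerSeries.coeff_C_mul, PowerSeries.coeff_succ_X_mul, PowerSeries.coeff_C_mul, map_sub,
    map_sub, PowerSeries.coeff_succ_X_mul] at hc
  unfold nor
  rw [Nat.factorial_succ]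
  push_cast
  rw [← hH]
  linear_combination ((m + 1 : ℝ) * (m.factorial : ℝ)) * hc

theorem nor_top (n : ℕ) (x : ℝ) : nor (n + 1) n x = ∏ j ∈ range n, (x - (j + 1)) := by
  induction n with
  | zero => simp [nor_zero]
  | succ n ih =>
    have h := nor_rec (n + 1) n x
    rw [Finset.prod_range_succ, ← ih]
    push_cast at h
    have h0 : ((n : ℝ) + 1) ≠ 0 := by positivity
    apply mul_left_cancel₀ h0
    linear_combination h

theorem nor_poly (a m : ℕ) (y : ℝ) :
    nor a m y = ∑ r ∈ range (m + 1), (m.choose r : ℝ) * y ^ r * nor a (m - r) 0 := by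
  have := nor_add a m 0 y
  rwa [zero_add] at this

theorem hasDerivAt_nor (a m : ℕ) (x : ℝ) :
    HasDerivAt (fun y => nor a (m + 1) y) ((m + 1 : ℝ) * nor a m x) x := by
  have h1 : (fun y => nor a (m + 1) y)
      = fun y => ∑ r ∈ range (m + 1 + 1), ((m + 1).choose r : ℝ) * y ^ r * nor a (m + 1 - r) 0 := by
    funext y; exact nor_poly a (m + 1) y
  rw [h1]
  have h2 : HasDerivAt (fun y : ℝ => ∑ r ∈ range (m + 1 + 1),
      ((m + 1).choose r : ℝ) * y ^ r * nor a (m + 1 - r) 0)
      (∑ r ∈ range (m + 1 + 1),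
        ((m + 1).choose r : ℝ) * (r * x ^ (r - 1)) * nor a (m + 1 - r) 0) x := by
    apply HasDerivAt.fun_sum
    intro r _
    exact ((hasDerivAt_pow r x).const_mul _).mul_const _
  convert h2 using 1
  rw [Finset.sum_range_succ', nor_poly a m x, Finset.mul_sum]
  simp only [Nat.cast_zero, zero_mul, mul_zero, add_zero]
  refine Finset.sum_congr rfl fun r _ => ?_
  have h3 : m + 1 - (r + 1) = m - r := by omega
  rw [h3, Nat.add_sub_cancel]
  have h4 : ((m + 1 : ℕ) : ℝ) * (m.choose r : ℝ) = ((m + 1).choose (r + 1) : ℝ) * ((r + 1 : ℕ) : ℝ) := by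
    exact_mod_cast Nat.add_one_mul_choose_eq m r
  push_cast at h4 ⊢
  linear_combination (x ^ r * nor a (m - r) 0) * h4

theorem continuous_nor (a m : ℕ) : Continuous (fun y => nor a m y) := by
  have h1 : (fun y => nor a m y)
      = fun y => ∑ r ∈ range (m + 1), (m.choose r : ℝ) * y ^ r * nor a (m - r) 0 := by
    funext y; exact nor_poly a m y
  rw [h1]
  fun_prop

/-- Sign of `∏ (c - (j+1))` for `c ∈ (i, i+1)`. -/
theorem prod_sign (n i : ℕ) (hi : i ≤ n) (c : ℝ) (h1 : (i : ℝ) < c) (h2 : c < i + 1) :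
    0 < (-1 : ℝ) ^ (n - i) * ∏ j ∈ range n, (c - (j + 1)) := by
  induction n, hi using Nat.le_induction with
  | base =>
    rw [Nat.sub_self, pow_zero, one_mul]
    apply Finset.prod_pos
    intro j hj
    have : j + 1 ≤ i := Finset.mem_range.1 hj
    have : ((j : ℝ) + 1) ≤ i := by exact_mod_cast this
    linarith
  | succ n hn ih =>
    rw [Finset.prod_range_succ, Nat.succ_sub hn, pow_succ]
    have h3 : c - (n + 1) < 0 := by
      have : (i : ℝ) ≤ n := by exact_mod_cast hn
      linarith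
    have h4 : (-1 : ℝ) ^ (n - i) * -1 * ((∏ j ∈ range n, (c - (j + 1))) * (c - (n + 1)))
        = ((-1 : ℝ) ^ (n - i) * ∏ j ∈ range n, (c - (j + 1))) * (-(c - (n + 1))) := by ring
    rw [h4]
    exact mul_pos ih (by linarith)

theorem nor_sign (n i : ℕ) (hi : i ≤ n) : 0 < (-1 : ℝ) ^ (n - i) * nor n n i := by
  have h1 := nor_diff n n (i : ℝ)
  obtain ⟨c, hc, hc'⟩ := exists_hasDerivAt_eq_slope (fun y => nor (n + 1) (n + 1) y)
    (fun y => (n + 1 : ℝ) * nor (n + 1) n y) (by linarith : (i : ℝ) < i + 1)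
    (continuous_nor _ _).continuousOn (fun y _ => hasDerivAt_nor (n + 1) n y)
  have h2 : (n + 1 : ℝ) * nor (n + 1) n c = (n + 1 : ℝ) * nor n n i := by
    rw [hc', ← h1]; ring
  have h3 : nor n n i = nor (n + 1) n c := by
    have h0 : ((n : ℝ) + 1) ≠ 0 := by positivity
    exact (mul_left_cancel₀ h0 h2).symm
  rw [h3, nor_top]
  exact prod_sign n i hi c hc.1 hc.2

/-- A root of `B_n^{(n)}` in `(i, i+1)`, for `i < n`. -/
theorem exists_root (n i : ℕ) (hi : i < n) :
    ∃ y : ℝ, (i : ℝ) < y ∧ y < i + 1 ∧ nor n n y = 0 := by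
  have s1 := nor_sign n i hi.le
  have s2 := nor_sign n (i + 1) hi
  have h3 : n - i = (n - (i + 1)) + 1 := by omega
  rw [h3, pow_succ] at s1
  set e : ℝ := (-1) ^ (n - (i + 1)) with he
  have he2 : e = 1 ∨ e = -1 := neg_one_pow_eq_or ℝ _
  push_cast at s2
  have hcont : ContinuousOn (fun y => e * nor n n y) (Set.Icc (i : ℝ) (i + 1)) :=
    ((continuous_nor n n).const_mul e |>.continuousOn)
  have hmem : (0 : ℝ) ∈ Set.Ioo (e * nor n n i) (e * nor n n (i + 1)) := ⟨by linarith, s2⟩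
  obtain ⟨y, hy, hy0⟩ := intermediate_value_Ioo (by linarith : (i : ℝ) ≤ i + 1) hcont hmem
  refine ⟨y, hy.1, hy.2, ?_⟩
  have hy1 : e * nor n n y = 0 := hy0
  rcases mul_eq_zero.1 hy1 with h | h
  · rcases he2 with h' | h' <;> rw [h'] at h <;> norm_num at h
  · exact h

end Run7.h204.Nor
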