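import Pool.Agent.Run7.h204.NorMain

namespace Run7.h204.Nor

open Finset Polynomial

/-- the polynomial `z ↦ B_n^{(n)}(x + z)` -/
noncomputable def tp (n : ℕ) (x : ℝ) : ℝ[X] :=
  ∑ r ∈ range (n + 1), monomial r ((n.choose r : ℝ) * nor n (n - r) x)

theorem tp_coeff (n : ℕ) (x : ℝ) (r : ℕ) :
    (tp n x).coeff r = (n.choose r : ℝ) * nor n (n - r) x := by
  unfold tp
  rw [finset_sum_coeff]
  by_cases hr : r ≤ n
  · rw [Finset.sum_eq_single r]
    · simp
    · intro b _ hb; exact coeff_monomial_of_ne _ hb.symm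
    · intro h; exact absurd (Finset.mem_range.2 (by omega)) h
  · rw [Nat.choose_eq_zero_of_lt (by omega)]
    rw [Finset.sum_eq_zero]
    · simp
    · intro b hb
      exact coeff_monomial_of_ne _ (by have := Finset.mem_range.1 hb; omega)

theorem tp_eval (n : ℕ) (x z : ℝ) : (tp n x).eval z = nor n n (x + z) := by
  unfold tp
  rw [eval_finset_sum, nor_add]
  refine Finset.sum_congr rfl fun r _ => ?_
  rw [eval_monomial]; ring

theorem tp_natDegree_le (n : ℕ) (x : ℝ) : (tp n x).natDegree ≤ n := by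
  rw [natDegree_le_iff_coeff_eq_zero]
  intro N hN
  rw [tp_coeff, Nat.choose_eq_zero_of_lt hN]
  simp

theorem tp_monic (n : ℕ) (x : ℝ) : (tp n x).Monic := by
  apply monic_of_natDegree_le_of_coeff_eq_one n (tp_natDegree_le n x)
  rw [tp_coeff]
  simp [nor_zero]

theorem tp_roots_card (n : ℕ) (x : ℝ) : (tp n x).roots.card = (tp n x).natDegree := by
  classical
  have hex : ∀ i : Fin n, ∃ y : ℝ, (i : ℝ) < y ∧ y < i + 1 ∧ nor n n y = 0 :=
    fun i => exists_root n i i.2
  choose y hy1 hy2 hy3 using hex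
  have hinj : Function.Injective (fun i : Fin n => y i - x) := by
    intro i j hij
    have hij' : y i = y j := by
      have : y i - x = y j - x := hij
      linarith
    by_contra hne
    rcases lt_or_gt_of_ne (fun h => hne (Fin.ext h) : (i : ℕ) ≠ (j : ℕ)) with h | h
    · have : ((i : ℕ) : ℝ) + 1 ≤ (j : ℕ) := by exact_mod_cast h
      have := hy2 i; have := hy1 j; linarith
    · have : ((j : ℕ) : ℝ) + 1 ≤ (i : ℕ) := by exact_mod_cast h
      have := hy2 j; have := hy1 i; linarith
  have hne : tp n x ≠ 0 := (tp_monic n x).ne_zero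
  have hsub : (Finset.univ.image (fun i : Fin n => y i - x)) ⊆ (tp n x).roots.toFinset := by
    intro z hz
    obtain ⟨i, _, rfl⟩ := Finset.mem_image.1 hz
    rw [Multiset.mem_toFinset, mem_roots hne, IsRoot.def, tp_eval]
    rw [show x + (y i - x) = y i by ring]
    exact hy3 i
  have h1 := Finset.card_le_card hsub
  rw [Finset.card_image_of_injective _ hinj, Finset.card_univ, Fintype.card_fin] at h1
  have h2 := Multiset.toFinset_card_le (tp n x).roots
  have h3 := card_roots' (tp n x)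
  have h4 := tp_natDegree_le n x
  omega

theorem tp_prod (n : ℕ) (x : ℝ) :
    ((tp n x).roots.map fun a => X - C a).prod = tp n x :=
  prod_multiset_X_sub_C_of_monic_of_roots_card_eq (tp_monic n x) (tp_roots_card n x)

theorem pos_prod (s : Multiset ℝ) (k : ℕ) :
    0 ≤ (-1 : ℝ) ^ k * ((s.map fun a => (C (a ^ 2) - X ^ 2 : ℝ[X])).prod).coeff (2 * k) := by
  induction s using Multiset.induction_on generalizing k with
  | empty =>
    rcases k with _ | k
    · simp
    · simp [coeff_one]
  | cons a s ih =>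
    rw [Multiset.map_cons, Multiset.prod_cons, sub_mul, coeff_sub, coeff_C_mul, coeff_X_pow_mul']
    rcases k with _ | k
    · simp only [Nat.mul_zero, pow_zero, one_mul]
      rw [if_neg (by norm_num), sub_zero]
      have := ih 0
      simp only [pow_zero, one_mul, Nat.mul_zero] at this
      positivity
    · rw [if_pos (by omega), show 2 * (k + 1) - 2 = 2 * k by omega]
      have h1 := ih (k + 1)
      have h2 := ih k
      have h3 : (-1 : ℝ) ^ (k + 1) * (a ^ 2 *
          ((s.map fun a => (C (a ^ 2) - X ^ 2 : ℝ[X])).prod).coeff (2 * (k + 1)) -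
          ((s.map fun a => (C (a ^ 2) - X ^ 2 : ℝ[X])).prod).coeff (2 * k))
          = a ^ 2 * ((-1 : ℝ) ^ (k + 1) *
              ((s.map fun a => (C (a ^ 2) - X ^ 2 : ℝ[X])).prod).coeff (2 * (k + 1)))
            + (-1 : ℝ) ^ k * ((s.map fun a => (C (a ^ 2) - X ^ 2 : ℝ[X])).prod).coeff (2 * k) := by
        rw [pow_succ]; ring
      rw [h3]
      positivity

theorem comp_neg_coeff (p : ℝ[X]) (l : ℕ) : (p.comp (-X)).coeff l = (-1) ^ l * p.coeff l := by
  have h : p.comp (-X) = p.comp (C (-1) * X) := by simp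
  rw [h, comp_C_mul_X_coeff, mul_comm]

theorem tp_sq (n : ℕ) (x : ℝ) :
    tp n x * (tp n x).comp (-X) = ((tp n x).roots.map fun a => (C (a ^ 2) - X ^ 2 : ℝ[X])).prod := by
  have h1 : (tp n x).comp (-X) = ((tp n x).roots.map fun a => (-X - C a : ℝ[X])).prod := by
    conv_lhs => rw [← tp_prod n x]
    rw [← coe_compRingHom_apply, map_multiset_prod, Multiset.map_map]
    congr 1
    apply Multiset.map_congr rfl
    intro a _
    simp
  conv_lhs => rw [h1]; arg 1; rw [← tp_prod n x]
  rw [← Multiset.prod_map_mul]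
  congr 1
  apply Multiset.map_congr rfl
  intro a _
  rw [map_pow]; ring

theorem main_coeff (n : ℕ) (x : ℝ) (k : ℕ) :
    0 ≤ (-1 : ℝ) ^ k * ∑ j ∈ range (2 * k + 1), (-1) ^ j *
      ((n.choose j : ℝ) * nor n (n - j) x) *
      ((n.choose (2 * k - j) : ℝ) * nor n (n - (2 * k - j)) x) := by
  have h := pos_prod (tp n x).roots k
  rw [← tp_sq, coeff_mul, Finset.Nat.sum_antidiagonal_eq_sum_range_succ_mk] at h
  convert h using 2
  refine Finset.sum_congr rfl fun j hj => ?_
  have hj' : j ≤ 2 * k := Nat.lt_succ_iff.1 (Finset.mem_range.1 hj)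
  simp only
  rw [comp_neg_coeff, tp_coeff, tp_coeff]
  have h1 : (-1 : ℝ) ^ (2 * k - j) = (-1) ^ j := by
    have h2 : (-1 : ℝ) ^ (2 * k - j) * (-1) ^ j = 1 := by
      rw [← pow_add, Nat.sub_add_cancel hj', pow_mul]; norm_num
    have h3 : (-1 : ℝ) ^ j * (-1) ^ j = 1 := by
      rw [← pow_add, ← two_mul, pow_mul]; norm_num
    have h4 : (-1 : ℝ) ^ j ≠ 0 := pow_ne_zero _ (by norm_num)
    exact mul_right_cancel₀ h4 (h2.trans h3.symm)
  rw [h1]; ring

theorem alpha_nonneg (n k : ℕ) (hk : 2 * k ≤ n) (x : ℝ) : 0 ≤ alpha n k x := by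
  have h := main_coeff n x k
  unfold alpha
  convert h using 2
  refine Finset.sum_congr rfl fun j hj => ?_
  have hj' : j ≤ 2 * k := Nat.lt_succ_iff.1 (Finset.mem_range.1 hj)
  rw [show n - (2 * k - j) = n - 2 * k + j by omega]
  ring

theorem beta_nonneg (n k : ℕ) (hk : 2 * k ≤ n) (x : ℝ) : 0 ≤ beta n k x := by
  have h := main_coeff n x (n - k)
  set f : ℕ → ℝ := fun j => (-1) ^ j * ((n.choose j : ℝ) * nor n (n - j) x) *
      ((n.choose (2 * (n - k) - j) : ℝ) * nor n (n - (2 * (n - k) - j)) x) with hf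
  have h1 : ∑ j ∈ range (2 * (n - k) + 1), f j = ∑ j ∈ Finset.Icc (n - 2 * k) n, f j := by
    symm
    apply Finset.sum_subset
    · intro j hj
      rw [Finset.mem_Icc] at hj
      rw [Finset.mem_range]; omega
    · intro j hj hj'
      rw [Finset.mem_range] at hj
      rw [Finset.mem_Icc, not_and_or, not_le, not_le] at hj'
      rcases hj' with hj' | hj'
      · simp only [hf]
        rw [Nat.choose_eq_zero_of_lt (show n < 2 * (n - k) - j by omega)]; simp
      · simp only [hf]
        rw [Nat.choose_eq_zero_of_lt hj']; simp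
  have h2 : ∑ j ∈ Finset.Icc (n - 2 * k) n, f j = ∑ j ∈ range (2 * k + 1), f (n - j) := by
    symm
    apply Finset.sum_nbij' (fun j => n - j) (fun j => n - j)
    · intro j hj; rw [Finset.mem_range] at hj; rw [Finset.mem_Icc]; omega
    · intro j hj; rw [Finset.mem_Icc] at hj; rw [Finset.mem_range]; omega
    · intro j hj; rw [Finset.mem_range] at hj; omega
    · intro j hj; rw [Finset.mem_Icc] at hj; omega
    · intro j hj; rfl
  rw [h1, h2, Finset.mul_sum] at h
  unfold beta
  rw [Finset.mul_sum]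
  convert h using 1
  refine Finset.sum_congr rfl fun j hj => ?_
  have hj' : j ≤ 2 * k := Nat.lt_succ_iff.1 (Finset.mem_range.1 hj)
  simp only [hf]
  have e1 : n - (n - j) = j := by omega
  have e2 : 2 * (n - k) - (n - j) = n - (2 * k - j) := by omega
  have e3 : n - (n - (2 * k - j)) = 2 * k - j := by omega
  rw [e2, e3, e1, Nat.choose_symm (by omega : j ≤ n), Nat.choose_symm (by omega : 2 * k - j ≤ n)]
  have e4 : (-1 : ℝ) ^ (n - k) * (-1) ^ (n - j) = (-1) ^ k * (-1) ^ j := by
    have a1 : (-1 : ℝ) ^ (n - k) * (-1) ^ k = (-1) ^ n := by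
      rw [← pow_add, Nat.sub_add_cancel (by omega)]
    have a2 : (-1 : ℝ) ^ (n - j) * (-1) ^ j = (-1) ^ n := by
      rw [← pow_add, Nat.sub_add_cancel (by omega)]
    have a3 : ∀ m : ℕ, (-1 : ℝ) ^ m * (-1) ^ m = 1 := fun m => by
      rw [← pow_add, ← two_mul, pow_mul]; norm_num
    calc (-1 : ℝ) ^ (n - k) * (-1) ^ (n - j)
        = ((-1) ^ (n - k) * (-1) ^ k) * ((-1) ^ (n - j) * (-1) ^ j) * ((-1) ^ k * (-1) ^ j)
            * 1 := by
          have b1 := a3 k
          have b2 := a3 j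
          calc (-1 : ℝ) ^ (n - k) * (-1) ^ (n - j)
              = (-1 : ℝ) ^ (n - k) * (-1) ^ (n - j) * 1 * 1 := by ring
            _ = (-1 : ℝ) ^ (n - k) * (-1) ^ (n - j) * ((-1) ^ k * (-1) ^ k) *
                  ((-1) ^ j * (-1) ^ j) := by rw [b1, b2]
            _ = _ := by ring
      _ = ((-1) ^ n * (-1) ^ n) * ((-1) ^ k * (-1) ^ j) := by rw [a1, a2]; ring
      _ = _ := by rw [a3]; ring
  linear_combination (-(n.choose j : ℝ) * (n.choose (2 * k - j) : ℝ) * nor n j x *
    nor n (2 * k - j) x) * e4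

end Run7.h204.Nor
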