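import Pool.Agent.Run7.h884.PS.Main

/-!
# The peak set of helper884: the integral of `dist(·, E) ^ (-α)` over the circle diverges
-/

set_option autoImplicit false

namespace Run7.h204.PeakInt

open H884.PS Complex Metric Set Filter Topology MeasureTheory

/-- The divergence, like the harmonic series (this is the last part of the proof of
`H884.PS.not_zeroSet`). -/
theorem no_bound {α : ℝ} (hα0 : 0 < α) (hα1 : α < 1) :
    ¬ ∃ B : ℝ, ∀ S : Finset ℕ,
      ∑ k ∈ S, Nk (1 / α) (Lm (1 / α)) k * Gk (1 / α) (Lm (1 / α)) k *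
        (Gk (1 / α) (Lm (1 / α)) k) ^ (-α) ≤ B := by
  rintro ⟨B, hB⟩
  have hp : 1 < 1 / α := by rw [lt_div_iff₀ hα0]; linarith
  have hΛ := Lm_ge hp
  set Λ := Lm (1 / α) with hΛdef
  have hΛ0 : 0 < Λ := by linarith
  obtain ⟨k0, hk0⟩ := eventually_atTop.mp (ev_N hp Λ hΛ)
  have hterm : ∀ k, k0 ≤ k → (1 / 16 * Λ ^ (-α)) * (1 / ((k : ℝ) + 1)) ≤
      Nk (1 / α) Λ k * Gk (1 / α) Λ k * (Gk (1 / α) Λ k) ^ (-α) := by
    intro k hk
    have h1 := hk0 k hk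
    have hG := Gk0 hp hΛ k
    have hX := Xk0 k
    have hk1 : (0 : ℝ) < (k : ℝ) + 1 := by positivity
    have h2 : (Gk (1 / α) Λ k) ^ (-α) = Λ ^ (-α) * (((k : ℝ) + 1)⁻¹ * (Xk k)⁻¹) := by
      have e1 : Gk (1 / α) Λ k = Λ * (((k : ℝ) + 1) ^ (1 / α) * (Xk k) ^ (1 / α)) := by
        unfold Gk lam H884.PS.mk
        rw [Real.rpow_sub_one hX.ne']
        field_simp
      rw [e1, Real.mul_rpow hΛ0.le (by positivity), Real.mul_rpow (by positivity) (by positivity),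
        ← Real.rpow_mul hk1.le, ← Real.rpow_mul hX.le]
      have e2 : 1 / α * -α = -1 := by field_simp
      rw [e2, Real.rpow_neg_one, Real.rpow_neg_one]
    rw [h2]
    have hΛα : 0 < Λ ^ (-α) := Real.rpow_pos_of_pos hΛ0 _
    calc (1 / 16 * Λ ^ (-α)) * (1 / ((k : ℝ) + 1))
        = (Xk k / 16) * (Λ ^ (-α) * (((k : ℝ) + 1)⁻¹ * (Xk k)⁻¹)) := by field_simp
      _ ≤ (Nk (1 / α) Λ k * Gk (1 / α) Λ k) * (Λ ^ (-α) * (((k : ℝ) + 1)⁻¹ * (Xk k)⁻¹)) := by
          gcongr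
  have hΛα : 0 < 1 / 16 * Λ ^ (-α) := by
    have := Real.rpow_pos_of_pos hΛ0 (-α); positivity
  have hsum : ∀ K, k0 ≤ K → ∑ k ∈ Finset.range K, 1 / ((k : ℝ) + 1) ≤
      B / (1 / 16 * Λ ^ (-α)) + ∑ k ∈ Finset.range k0, 1 / ((k : ℝ) + 1) := by
    intro K hK
    rw [← Finset.sum_range_add_sum_Ico _ hK, add_comm]
    gcongr
    rw [le_div_iff₀ hΛα, mul_comm, Finset.mul_sum]
    refine le_trans (Finset.sum_le_sum ?_) (hB (Finset.Ico k0 K))
    intro k hk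
    exact hterm k (Finset.mem_Ico.mp hk).1
  obtain ⟨K, hK1, hK2⟩ := ((Real.tendsto_sum_range_one_div_nat_succ_atTop.eventually
    (eventually_gt_atTop (B / (1 / 16 * Λ ^ (-α)) +
      ∑ k ∈ Finset.range k0, 1 / ((k : ℝ) + 1)))).and (eventually_ge_atTop k0)).exists
  exact absurd (hsum K hK2) (not_le.mpr hK1)

lemma node_one {p : ℝ} (hp : 1 < p) {k : ℕ} {θ : ℝ} (hk : θ ∈ win p k) :
    ∃ i < Nk p (Lm p) k, ‖cexp (θ * I) - zt p (Lm p) k i‖ ≤ Gk p (Lm p) k := by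
  have hG := Gk0 hp (Lm_ge hp) k
  set G := Gk p (Lm p) k with hGdef
  have h0 : 0 ≤ (θ - Xk k) / G := div_nonneg (by linarith [hk.1]) hG.le
  refine ⟨⌊(θ - Xk k) / G⌋₊, ?_, ?_⟩
  · rw [Nat.floor_lt h0, div_lt_iff₀ hG]
    have := hk.2
    linarith
  · set i := ⌊(θ - Xk k) / G⌋₊ with hi
    have h1 : (i : ℝ) ≤ (θ - Xk k) / G := Nat.floor_le h0
    have h2 : (θ - Xk k) / G < i + 1 := Nat.lt_floor_add_one _
    rw [le_div_iff₀ hG] at h1
    rw [div_lt_iff₀ hG] at h2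
    have h3 : |θ - th p (Lm p) k i| ≤ G := by
      unfold th
      rw [← hGdef, abs_le]; constructor <;> linarith
    exact (norm_exp_sub_le θ (th p (Lm p) k i)).trans h3

theorem diverges {α : ℝ} (hα0 : 0 < α) (hα1 : α < 1) :
    ∫⁻ θ in Ioc (0 : ℝ) (2 * Real.pi), (infEDist (cexp (θ * I)) (sys hα0 hα1).E) ^ (-α) = ⊤ := by
  by_contra hV
  have hp : 1 < 1 / α := by rw [lt_div_iff₀ hα0]; linarith
  apply no_bound hα0 hα1
  refine ⟨(∫⁻ θ in Ioc (0 : ℝ) (2 * Real.pi),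
    (infEDist (cexp (θ * I)) (sys hα0 hα1).E) ^ (-α)).toReal, fun S => ?_⟩
  rw [← ENNReal.ofReal_le_iff_le_toReal hV]
  obtain ⟨hpi, hpv⟩ := psi_integral (α := α) hp S 1
  have hv : ∑ k ∈ S, Nk (1 / α) (Lm (1 / α)) k * Gk (1 / α) (Lm (1 / α)) k *
      (Gk (1 / α) (Lm (1 / α)) k) ^ (-α) = ∫ θ in Ioc (0 : ℝ) (2 * Real.pi), psi (1 / α) α S 1 θ := by
    rw [← intervalIntegral.integral_of_le (by positivity), hpv]
    refine Finset.sum_congr rfl fun k _ => ?_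
    rw [sub_self, zero_add]
  have hnn : ∀ θ, 0 ≤ psi (1 / α) α S 1 θ := by
    intro θ
    unfold psi
    refine Finset.sum_nonneg fun k _ => ?_
    have hG := Gk0 hp (Lm_ge hp) k
    refine indicator_nonneg (fun _ _ => ?_) θ
    rw [sub_self, zero_add]
    positivity
  rw [hv, ofReal_integral_eq_lintegral_ofReal
    ((intervalIntegrable_iff_integrableOn_Ioc_of_le (by positivity)).mp hpi)
    (Eventually.of_forall hnn)]
  refine lintegral_mono fun θ => ?_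
  by_cases hex : ∃ k ∈ S, θ ∈ win (1 / α) k
  · obtain ⟨k, hkS, hk⟩ := hex
    have hG := Gk0 hp (Lm_ge hp) k
    have hpsi : psi (1 / α) α S 1 θ = (Gk (1 / α) (Lm (1 / α)) k) ^ (-α) := by
      unfold psi
      rw [Finset.sum_eq_single k]
      · rw [indicator_of_mem hk, sub_self, zero_add]
      · intro l _ hl
        rw [indicator_of_notMem]
        intro hl'
        exact hl (win_disj hp hl' hk)
      · intro hk'; exact absurd hkS hk'
    obtain ⟨i, hi, hd⟩ := node_one hp hk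
    have hE : zt (1 / α) (Lm (1 / α)) k i ∈ (sys hα0 hα1).E :=
      mem_insert_of_mem _ ⟨(⟨k, ⟨i, hi⟩⟩ : Ix (1 / α)), rfl⟩
    have h1 : infEDist (cexp (θ * I)) (sys hα0 hα1).E ≤
        ENNReal.ofReal (Gk (1 / α) (Lm (1 / α)) k) := by
      refine (infEDist_le_edist_of_mem hE).trans ?_
      rw [edist_dist, dist_eq_norm]
      exact ENNReal.ofReal_le_ofReal hd
    show ENNReal.ofReal (psi (1 / α) α S 1 θ) ≤ _
    rw [hpsi, ← ENNReal.ofReal_rpow_of_pos hG, ENNReal.rpow_neg, ENNReal.rpow_neg]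
    exact ENNReal.inv_le_inv.mpr (ENNReal.rpow_le_rpow h1 hα0.le)
  · push Not at hex
    have hpsi : psi (1 / α) α S 1 θ = 0 := by
      unfold psi
      apply Finset.sum_eq_zero
      intro k hk
      rw [indicator_of_notMem (hex k hk)]
    show ENNReal.ofReal (psi (1 / α) α S 1 θ) ≤ _
    rw [hpsi, ENNReal.ofReal_zero]
    exact bot_le

end Run7.h204.PeakInt
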