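import Pool.Agent.Run7.h204.PenScal

/-! Traces, norms, normal and mean curvature for `φ(|x|²) δ + G(x) x ⊗ x`. -/

namespace Run7.h204.Pen

open scoped BigOperators ContDiff Topology Matrix
open MeasureTheory Filter Metric
open Pool.Agent.H498R3.GB

noncomputable section

/-- the bilinear form of a matrix -/
def bf (T : Matrix (Fin 3) (Fin 3) ℝ) (u v : V3) : ℝ := ∑ i, ∑ j, u i * v j * T i j

lemma bf_eb (T : Matrix (Fin 3) (Fin 3) ℝ) (i j : Fin 3) : bf T (eb i) (eb j) = T i j := by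
  unfold bf
  simp [eb]

lemma bf_lin2 (T : Matrix (Fin 3) (Fin 3) ℝ) : Lin2 (bf T) := by
  refine ⟨fun u v b => ?_, fun t v b => ?_, fun u v b => ?_, fun t v b => ?_⟩
  · simp only [bf, Pi.add_apply, add_mul, Finset.sum_add_distrib]
  · simp only [bf, Pi.smul_apply, smul_eq_mul, Finset.mul_sum]
    refine Finset.sum_congr rfl fun i _ => Finset.sum_congr rfl fun j _ => by ring
  · simp only [bf, Pi.add_apply, mul_add, add_mul, Finset.sum_add_distrib]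
  · simp only [bf, Pi.smul_apply, smul_eq_mul, Finset.mul_sum]
    refine Finset.sum_congr rfl fun i _ => Finset.sum_congr rfl fun j _ => by ring

lemma bf_comm {T : Matrix (Fin 3) (Fin 3) ℝ} (hT : ∀ i j, T i j = T j i) (u v : V3) :
    bf T u v = bf T v u := by
  unfold bf
  rw [Finset.sum_comm]
  refine Finset.sum_congr rfl fun i _ => Finset.sum_congr rfl fun j _ => ?_
  rw [hT j i]; ring

section frames
variable {κ : Type} [Fintype κ] {f : κ → V3} {g T : Field} {x : E3}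

lemma trT_frame (hM : ∀ i j, ginv g x i j = ∑ a, f a i * f a j) :
    trT g T x = ∑ a, bf (T x) (f a) (f a) := by
  have h := Lin2.contract (f := f) hM (bf_lin2 (T x))
  simp only [bf_eb] at h
  exact h

lemma normSqT_frame (hM : ∀ i j, ginv g x i j = ∑ a, f a i * f a j) :
    normSqT g T x = ∑ a, ∑ b, bf (T x) (f a) (f b) ^ 2 := by
  have h := Lin2.norm (f := f) hM (bf_lin2 (T x))
  simp only [bf_eb] at h
  rw [← h]
  unfold normSqT
  refine Finset.sum_congr rfl fun i _ => Finset.sum_congr rfl fun j _ => ?_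
  rw [Finset.sum_mul]
  refine Finset.sum_congr rfl fun k _ => ?_
  rw [Finset.sum_mul]
  refine Finset.sum_congr rfl fun l _ => ?_
  ring

lemma covNorm_frame (hM : ∀ i j, ginv g x i j = ∑ a, f a i * f a j) (J : Fin 3 → ℝ) (a : κ) :
    |dp (f a) J| ≤ covNorm g x J := by
  unfold covNorm
  have h1 : ∑ i, ∑ j, ginv g x i j * J i * J j = ∑ a, (dp (f a) J) ^ 2 := by
    simp only [hM, dp, sq, Finset.sum_mul_sum]
    have : ∀ i : Fin 3, ∑ j, (∑ a, f a i * f a j) * J i * J j =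
        ∑ a, ∑ j, f a i * J i * (f a j * J j) := by
      intro i
      rw [Finset.sum_comm]
      refine Finset.sum_congr rfl fun j _ => ?_
      rw [Finset.sum_mul, Finset.sum_mul]
      refine Finset.sum_congr rfl fun a _ => ?_
      ring
    simp only [this]
    rw [Finset.sum_comm]
  rw [h1]
  refine Real.abs_le_sqrt ?_
  exact Finset.single_le_sum (f := fun a => dp (f a) J ^ 2) (fun b _ => sq_nonneg _)
    (Finset.mem_univ a)

end frames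

section
variable {g h : Field} {R₀ : ℝ} {φ : ℝ → ℝ} {G : E3 → ℝ} {x : E3}

/-- positivity of the metric on the exterior region -/
def Pos (R₀ : ℝ) (φ : ℝ → ℝ) (G : E3 → ℝ) : Prop :=
  ∀ x ∈ Ext R₀, 0 < φ (‖x‖ ^ 2) ∧ 0 < φ (‖x‖ ^ 2) + G x * ‖x‖ ^ 2

/-- the square of the lapse -/
def Wf (φ : ℝ → ℝ) (G : E3 → ℝ) (x : E3) : ℝ := φ (‖x‖ ^ 2) + G x * ‖x‖ ^ 2

lemma ginv_eq (H : Cls g R₀ φ G) (hp : Pos R₀ φ G) (hx : x ∈ Ext R₀) (i j : Fin 3) :
    ginv g x i j = (φ (‖x‖ ^ 2))⁻¹ * (1 : Matrix (Fin 3) (Fin 3) ℝ) i j +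
      ((Wf φ G x)⁻¹ - (φ (‖x‖ ^ 2))⁻¹) * (x i / ‖x‖ * (x j / ‖x‖)) := by
  have hr := ne_zero H.nn hx
  obtain ⟨n, e₁, e₂, hf⟩ := exists_frame hr
  obtain ⟨hP, hW⟩ := hp x hx
  rw [ginv_fr H hx hf hP hW, Fin.sum_univ_three]
  show (Real.sqrt _)⁻¹ * n i * ((Real.sqrt _)⁻¹ * n j) +
      (Real.sqrt _)⁻¹ * e₁ i * ((Real.sqrt _)⁻¹ * e₁ j) +
      (Real.sqrt _)⁻¹ * e₂ i * ((Real.sqrt _)⁻¹ * e₂ j) = _
  rw [inv_sqrt_mul hW, inv_sqrt_mul hP, inv_sqrt_mul hP, ← hf.compl i j, hf.x_eq i, hf.x_eq j,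
    mul_div_cancel_left₀ _ hr.ne', mul_div_cancel_left₀ _ hr.ne']
  unfold Wf
  ring

lemma g_mul_ginv (H : Cls g R₀ φ G) (hp : Pos R₀ φ G) (hx : x ∈ Ext R₀) :
    g x * ginv g x = 1 := by
  have hr := ne_zero H.nn hx
  obtain ⟨hP, hW⟩ := hp x hx
  have hq : ∑ k, x k / ‖x‖ * (x k / ‖x‖) = 1 := by
    have := EuclideanSpace.norm_sq_eq x
    simp only [Real.norm_eq_abs, sq_abs] at this
    have e : ∀ k, x k / ‖x‖ * (x k / ‖x‖) = (x k) ^ 2 / ‖x‖ ^ 2 := by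
      intro k; field_simp
    simp only [e]
    rw [← Finset.sum_div, ← this, div_self (by positivity)]
  ext a c
  rw [Matrix.mul_apply]
  set P := φ (‖x‖ ^ 2) with hPd
  set r := ‖x‖ with hrd
  have e : ∀ k, g x a k * ginv g x k c =
      (1 : Matrix (Fin 3) (Fin 3) ℝ) a k * (1 : Matrix (Fin 3) (Fin 3) ℝ) k c
      + P * ((Wf φ G x)⁻¹ - P⁻¹) * (x c / r) / r * ((1 : Matrix (Fin 3) (Fin 3) ℝ) a k * x k)
      + G x * P⁻¹ * x a * (x k * (1 : Matrix (Fin 3) (Fin 3) ℝ) k c)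
      + G x * ((Wf φ G x)⁻¹ - P⁻¹) * x a * x c * (x k / r * (x k / r)) := by
    intro k
    rw [H.metric x hx a k, ginv_eq H hp hx k c, ← hPd, ← hrd]
    field_simp
    ring
  have s1 : ∑ k, (1 : Matrix (Fin 3) (Fin 3) ℝ) a k * (1 : Matrix (Fin 3) (Fin 3) ℝ) k c
      = (1 : Matrix (Fin 3) (Fin 3) ℝ) a c := by
    rw [← Matrix.mul_apply, Matrix.one_mul]
  have s2 : ∑ k, (1 : Matrix (Fin 3) (Fin 3) ℝ) a k * x k = x a := by
    simp [Matrix.one_apply]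
  have s3 : ∑ k, x k * (1 : Matrix (Fin 3) (Fin 3) ℝ) k c = x c := by
    simp [Matrix.one_apply]
  simp only [e, Finset.sum_add_distrib, ← Finset.mul_sum, s1, s2, s3, hq]
  have hWW : Wf φ G x = P + G x * r ^ 2 := rfl
  have hW' : 0 < Wf φ G x := hW
  have key : P * ((Wf φ G x)⁻¹ - P⁻¹) * (x c / r) / r * x a + G x * P⁻¹ * x a * x c
      + G x * ((Wf φ G x)⁻¹ - P⁻¹) * x a * x c * 1 = 0 := by
    field_simp
    rw [hWW]
    ring
  linarith

lemma sum_sq_div (hr : 0 < ‖x‖) : ∑ k, x k / ‖x‖ * (x k / ‖x‖) = 1 := by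
  have := EuclideanSpace.norm_sq_eq x
  simp only [Real.norm_eq_abs, sq_abs] at this
  have e : ∀ k, x k / ‖x‖ * (x k / ‖x‖) = (x k) ^ 2 / ‖x‖ ^ 2 := by
    intro k; field_simp
  simp only [e]
  rw [← Finset.sum_div, ← this, div_self (by positivity)]

lemma ginv_mul_n (H : Cls g R₀ φ G) (hp : Pos R₀ φ G) (hx : x ∈ Ext R₀) (i : Fin 3) :
    ∑ j, ginv g x i j * (x j / ‖x‖) = (Wf φ G x)⁻¹ * (x i / ‖x‖) := by
  have hr := ne_zero H.nn hx
  have e : ∀ j, ginv g x i j * (x j / ‖x‖) =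
      (φ (‖x‖ ^ 2))⁻¹ / ‖x‖ * ((1 : Matrix (Fin 3) (Fin 3) ℝ) i j * x j) +
      ((Wf φ G x)⁻¹ - (φ (‖x‖ ^ 2))⁻¹) * (x i / ‖x‖) * (x j / ‖x‖ * (x j / ‖x‖)) := by
    intro j
    rw [ginv_eq H hp hx]; ring
  have s2 : ∑ k, (1 : Matrix (Fin 3) (Fin 3) ℝ) i k * x k = x i := by
    simp [Matrix.one_apply]
  simp only [e, Finset.sum_add_distrib, ← Finset.mul_sum, s2, sum_sq_div hr]
  ring

lemma conormSq_eq (H : Cls g R₀ φ G) (hp : Pos R₀ φ G) (hx : x ∈ Ext R₀) :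
    conormSq g x = (Wf φ G x)⁻¹ := by
  have hr := ne_zero H.nn hx
  unfold conormSq
  have e : ∀ i, ∑ j, ginv g x i j * (x i / ‖x‖) * (x j / ‖x‖) =
      (Wf φ G x)⁻¹ * (x i / ‖x‖ * (x i / ‖x‖)) := by
    intro i
    have : ∀ j, ginv g x i j * (x i / ‖x‖) * (x j / ‖x‖) =
        (x i / ‖x‖) * (ginv g x i j * (x j / ‖x‖)) := fun j => by ring
    simp only [this, ← Finset.mul_sum, ginv_mul_n H hp hx]
    ring
  simp only [e, ← Finset.mul_sum, sum_sq_div hr, mul_one]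

lemma normal_eq (H : Cls g R₀ φ G) (hp : Pos R₀ φ G) (hx : x ∈ Ext R₀) (i : Fin 3) :
    normal g x i = (x i / ‖x‖) / Real.sqrt (Wf φ G x) := by
  have hW : 0 < Wf φ G x := (hp x hx).2
  unfold normal
  rw [ginv_mul_n H hp hx, conormSq_eq H hp hx, Real.sqrt_inv]
  have h := Real.sq_sqrt hW.le
  have h0 := Real.sqrt_pos.2 hW
  have : (Wf φ G x)⁻¹ = (Real.sqrt (Wf φ G x))⁻¹ * (Real.sqrt (Wf φ G x))⁻¹ :=
    (inv_sqrt_sq hW).symm
  rw [this]
  field_simp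

/-- `h(n, n)` with the Euclidean unit vector `n = x / |x|` -/
def al (h : Field) (x : E3) : ℝ := ∑ i, ∑ j, h x i j * (x i / ‖x‖) * (x j / ‖x‖)

/-- Euclidean trace -/
def tt (h : Field) (x : E3) : ℝ := ∑ i, h x i i

lemma trT_eq (H : Cls g R₀ φ G) (hp : Pos R₀ φ G) (hx : x ∈ Ext R₀) (h : Field) :
    trT g h x = (tt h x - al h x) / φ (‖x‖ ^ 2) + al h x / Wf φ G x := by
  unfold trT
  have e : ∀ i j, ginv g x i j * h x i j =
      (φ (‖x‖ ^ 2))⁻¹ * ((1 : Matrix (Fin 3) (Fin 3) ℝ) i j * h x i j) +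
      ((Wf φ G x)⁻¹ - (φ (‖x‖ ^ 2))⁻¹) * (h x i j * (x i / ‖x‖) * (x j / ‖x‖)) := by
    intro i j
    rw [ginv_eq H hp hx]; ring
  have s : ∀ i, ∑ j, (1 : Matrix (Fin 3) (Fin 3) ℝ) i j * h x i j = h x i i := by
    intro i; simp [Matrix.one_apply]
  simp only [e, Finset.sum_add_distrib, ← Finset.mul_sum, s]
  unfold tt al
  ring

lemma sphereTrace_eq (H : Cls g R₀ φ G) (hp : Pos R₀ φ G) (hx : x ∈ Ext R₀) (h : Field) :
    sphereTrace g h x = (tt h x - al h x) / φ (‖x‖ ^ 2) := by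
  have hW : 0 < Wf φ G x := (hp x hx).2
  unfold sphereTrace
  rw [trT_eq H hp hx]
  have e : ∀ i j, h x i j * normal g x i * normal g x j =
      (Wf φ G x)⁻¹ * (h x i j * (x i / ‖x‖) * (x j / ‖x‖)) := by
    intro i j
    rw [normal_eq H hp hx, normal_eq H hp hx, ← inv_sqrt_sq hW]
    ring
  simp only [e, ← Finset.mul_sum]
  unfold al
  ring

lemma volDensity_eq (H : Cls g R₀ φ G) (hp : Pos R₀ φ G) (hx : x ∈ Ext R₀) :
    volDensity g x = φ (‖x‖ ^ 2) * Real.sqrt (Wf φ G x) := by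
  obtain ⟨hP, hW⟩ := hp x hx
  have hd : (g x).det = φ (‖x‖ ^ 2) ^ 2 * Wf φ G x := by
    have hn := EuclideanSpace.norm_sq_eq x
    simp only [Real.norm_eq_abs, sq_abs, Fin.sum_univ_three] at hn
    rw [Matrix.det_fin_three]
    simp only [H.metric x hx, Wf]
    have o1 : ∀ i : Fin 3, (1 : Matrix (Fin 3) (Fin 3) ℝ) i i = 1 := Matrix.one_apply_eq
    have o2 : ∀ i j : Fin 3, i ≠ j → (1 : Matrix (Fin 3) (Fin 3) ℝ) i j = 0 :=
      fun i j hij => Matrix.one_apply_ne hij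
    rw [o1 0, o1 1, o1 2, o2 0 1 (by decide), o2 0 2 (by decide), o2 1 0 (by decide),
      o2 1 2 (by decide), o2 2 0 (by decide), o2 2 1 (by decide)]
    set P := φ (‖x‖ ^ 2)
    rw [hn]
    ring
  unfold volDensity
  rw [hd, Real.sqrt_mul (by positivity), Real.sqrt_sq hP.le]

lemma pd_norm (hr : 0 < ‖x‖) (i : Fin 3) : pd i (fun z : E3 => ‖z‖) x = x i / ‖x‖ := by
  have e : (fun z : E3 => ‖z‖) = fun z : E3 => Real.sqrt (‖z‖ ^ 2) := by
    funext z; rw [Real.sqrt_sq (norm_nonneg z)]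
  have h1 : HasDerivAt Real.sqrt (1 / (2 * Real.sqrt (‖x‖ ^ 2))) (‖x‖ ^ 2) :=
    Real.hasDerivAt_sqrt (by positivity)
  rw [e, pd_rad h1.differentiableAt, h1.deriv, Real.sqrt_sq hr.le]
  field_simp

lemma diff_norm (hr : 0 < ‖x‖) : DifferentiableAt ℝ (fun z : E3 => ‖z‖) x := by
  have : x ≠ 0 := norm_pos_iff.1 hr
  exact (contDiffAt_norm ℝ this (n := 1)).differentiableAt (by simp)

lemma meanCurv_eq (H : Cls g R₀ φ G) (hp : Pos R₀ φ G) (hx : x ∈ Ext R₀) :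
    meanCurv g x = 2 * (φ (‖x‖ ^ 2) + ‖x‖ ^ 2 * deriv φ (‖x‖ ^ 2)) /
      (‖x‖ * φ (‖x‖ ^ 2) * Real.sqrt (Wf φ G x)) := by
  have hr := ne_zero H.nn hx
  obtain ⟨hP, hW⟩ := hp x hx
  have hW' : 0 < Wf φ G x := hW
  have h0 := Real.sqrt_pos.2 hW'
  unfold meanCurv
  rw [volDensity_eq H hp hx]
  have e : ∀ i, pd i (fun z => volDensity g z * normal g z i) x =
      deriv φ (‖x‖ ^ 2) * (2 * x i) * (x i / ‖x‖) +
        φ (‖x‖ ^ 2) * (1 / ‖x‖ - x i / ‖x‖ * (x i / ‖x‖) / ‖x‖) := by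
    intro i
    have e1 : (fun z => volDensity g z * normal g z i) =ᶠ[𝓝 x]
        fun z => φ (‖z‖ ^ 2) * (z i / ‖z‖) := by
      filter_upwards [(isOpen_Ext R₀).mem_nhds hx] with z hz
      have hWz : 0 < Wf φ G z := (hp z hz).2
      have := Real.sqrt_pos.2 hWz
      rw [volDensity_eq H hp hz, normal_eq H hp hz]
      field_simp
    have d1 := diff_rad (H.phi_d hx)
    have d2 := diff_coord i x
    have d3 := diff_norm hr
    have d4 : DifferentiableAt ℝ (fun z : E3 => z i / ‖z‖) x := by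
      simp only [div_eq_mul_inv]
      exact d2.fun_mul (d3.fun_inv hr.ne')
    have e2 : pd i (fun z : E3 => z i / ‖z‖) x = 1 / ‖x‖ - x i / ‖x‖ * (x i / ‖x‖) / ‖x‖ := by
      have e3 : pd i (fun z : E3 => ‖z‖ * (z i / ‖z‖)) x = 1 := by
        have : (fun z : E3 => ‖z‖ * (z i / ‖z‖)) =ᶠ[𝓝 x] fun z => z i := by
          filter_upwards [(isOpen_Ext R₀).mem_nhds hx] with z hz
          have := ne_zero H.nn hz
          field_simp
        rw [pd_congr this, pd_coord]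
        simp
      rw [pd_mul d3 d4, pd_norm hr] at e3
      field_simp at e3 ⊢
      linarith
    rw [pd_congr e1, pd_mul d1 d4, pd_rad (H.phi_d hx), e2]
    ring
  simp only [e]
  have hs := sum_sq_div hr
  have s1 : ∑ i, (deriv φ (‖x‖ ^ 2) * (2 * x i) * (x i / ‖x‖) +
        φ (‖x‖ ^ 2) * (1 / ‖x‖ - x i / ‖x‖ * (x i / ‖x‖) / ‖x‖)) =
      2 * ‖x‖ * deriv φ (‖x‖ ^ 2) * ∑ i, x i / ‖x‖ * (x i / ‖x‖)
      + φ (‖x‖ ^ 2) * (3 / ‖x‖ - (∑ i, x i / ‖x‖ * (x i / ‖x‖)) / ‖x‖) := by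
    simp only [Fin.sum_univ_three]
    field_simp
    ring
  rw [s1, hs]
  field_simp
  ring

end

end

end Run7.h204.Pen
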