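import Pool.Agent.Run7.h204.PenDiv

/-! The perimeter of a coordinate ball, and the separation of the ends by a coordinate ball. -/

namespace Run7.h204.Pen

open scoped BigOperators ContDiff Topology Matrix ENNReal
open MeasureTheory Filter Metric
open Pool.Agent.H498R3.GB

noncomputable section

section
variable {F : Finset E3} {g h : Field} {R₀ : ℝ} {φ : ℝ → ℝ} {G : E3 → ℝ} {X : E3 → E3}

lemma isOpen_Mfd (F : Finset E3) : IsOpen (Mfd F) := by
  have : Mfd F = (↑F : Set E3)ᶜ := by ext x; simp [Mfd]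
  rw [this]
  exact F.finite_toSet.isClosed.isOpen_compl

lemma vol_contDiffOn (hg : IsRiemannianOn g (Mfd F)) :
    ContDiffOn ℝ 1 (volDensity g) (Mfd F) := by
  unfold volDensity
  have hs : ∀ i j, ContDiffOn ℝ 1 (fun x => g x i j) (Mfd F) :=
    fun i j => (hg.smooth i j).of_le (by simp)
  have hdet : ContDiffOn ℝ 1 (fun x => (g x).det) (Mfd F) := by
    simp only [Matrix.det_fin_three]
    exact ((((((((hs 0 0).mul (hs 1 1)).mul (hs 2 2)).sub
      (((hs 0 0).mul (hs 1 2)).mul (hs 2 1))).sub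
      (((hs 0 1).mul (hs 1 0)).mul (hs 2 2))).add
      (((hs 0 1).mul (hs 1 2)).mul (hs 2 0))).add
      (((hs 0 2).mul (hs 1 0)).mul (hs 2 1))).sub
      (((hs 0 2).mul (hs 1 1)).mul (hs 2 0)))
  exact hdet.sqrt fun x hx => (hg.posDef x hx).det_pos.ne'

/-- the density of the flux of a test field -/
def Yf (g : Field) (X : E3 → E3) (z : E3) : V3 := fun i => volDensity g z * X z i

lemma Yf_contDiff (hg : IsRiemannianOn g (Mfd F)) (hX : IsTestField F g X) (i : Fin 3) :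
    ContDiff ℝ 1 fun z => Yf g X z i := by
  have hcoord : ContDiff ℝ 1 fun z => X z i :=
    ((contDiff_coord (n := 3) i).of_le (by simp)).comp hX.smooth
  rw [contDiff_iff_contDiffAt]
  intro x
  by_cases hx : x ∈ tsupport X
  · have hxM : x ∈ Mfd F := hX.support hx
    exact ((vol_contDiffOn hg).contDiffAt ((isOpen_Mfd F).mem_nhds hxM)).mul hcoord.contDiffAt
  · have : (fun z => Yf g X z i) =ᶠ[𝓝 x] fun _ => 0 := by
      have h0 := notMem_tsupport_iff_eventuallyEq.1 hx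
      filter_upwards [h0] with z hz
      simp [Yf, hz]
    exact contDiffAt_const.congr_of_eventuallyEq this

lemma Yf_compact (hX : IsTestField F g X) (i : Fin 3) :
    HasCompactSupport fun z => Yf g X z i := by
  have h1 : HasCompactSupport fun z => X z i :=
    hX.compact.comp_left (g := fun v : E3 => v i) (by simp)
  exact h1.mul_left

/-- the flux density in the exterior region -/
lemma Yf_le (H : Cls g R₀ φ G) (hp : Pos R₀ φ G) (hX : IsTestField F g X)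
    (hF : Ext R₀ ⊆ Mfd F) {x : E3} (hx : x ∈ Ext R₀) :
    (∑ i, x i * Yf g X x i) * ‖x‖ ≤ ‖x‖ ^ 2 * φ (‖x‖ ^ 2) := by
  have hr := ne_zero H.nn hx
  obtain ⟨hP, hW⟩ := hp x hx
  have hW' : 0 < Wf φ G x := hW
  have hWW : Wf φ G x = φ (‖x‖ ^ 2) + G x * ‖x‖ ^ 2 := rfl
  have hle := hX.le_one x (hF hx)
  set s := ∑ i, x i * X x i with hs
  have e1 : ∑ i, ∑ j, g x i j * X x i * X x j = φ (‖x‖ ^ 2) * ∑ i, X x i ^ 2 + G x * s ^ 2 := by
    simp only [H.metric x hx]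
    have e : ∀ i j, (φ (‖x‖ ^ 2) * (1 : Matrix (Fin 3) (Fin 3) ℝ) i j + G x * (x i * x j)) *
        X x i * X x j = φ (‖x‖ ^ 2) * (((1 : Matrix (Fin 3) (Fin 3) ℝ) i j * X x j) * X x i)
          + G x * ((x i * X x i) * (x j * X x j)) := fun i j => by ring
    simp only [e, Finset.sum_add_distrib, ← Finset.mul_sum, ← Finset.sum_mul]
    have s1 : ∀ i, ∑ j, (1 : Matrix (Fin 3) (Fin 3) ℝ) i j * X x j = X x i := by
      intro i; simp [Matrix.one_apply]
    simp only [s1, sq, hs]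
  have hn := EuclideanSpace.norm_sq_eq x
  simp only [Real.norm_eq_abs, sq_abs] at hn
  have hcs : s ^ 2 ≤ ‖x‖ ^ 2 * ∑ i, X x i ^ 2 := by
    rw [hn, hs]
    exact Finset.sum_mul_sq_le_sq_mul_sq _ _ _
  rw [e1] at hle
  have h1 : Wf φ G x * s ^ 2 ≤ ‖x‖ ^ 2 := by
    rw [hWW]
    have h2 : φ (‖x‖ ^ 2) * s ^ 2 ≤ φ (‖x‖ ^ 2) * (‖x‖ ^ 2 * ∑ i, X x i ^ 2) := by gcongr
    nlinarith [sq_nonneg ‖x‖]
  have h3 : Real.sqrt (Wf φ G x) * s ≤ ‖x‖ := by
    have h4 : (Real.sqrt (Wf φ G x) * s) ^ 2 ≤ ‖x‖ ^ 2 := by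
      rw [mul_pow, Real.sq_sqrt hW'.le]; exact h1
    exact le_of_sq_le_sq h4 hr.le
  have e2 : ∑ i, x i * Yf g X x i = φ (‖x‖ ^ 2) * (Real.sqrt (Wf φ G x) * s) := by
    simp only [Yf, volDensity_eq H hp hx, hs, Finset.mul_sum]
    refine Finset.sum_congr rfl fun i _ => by ring
  rw [e2]
  calc φ (‖x‖ ^ 2) * (Real.sqrt (Wf φ G x) * s) * ‖x‖ ≤ φ (‖x‖ ^ 2) * ‖x‖ * ‖x‖ := by gcongr
    _ = _ := by ring

/-- The perimeter of a coordinate ball. -/
theorem boundaryArea_le (hg : IsRiemannianOn g (Mfd F)) (H : Cls g R₀ φ G) (hp : Pos R₀ φ G)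
    (hF : Ext R₀ ⊆ Mfd F) {r₀ : ℝ} (hr : R₀ < r₀) :
    boundaryArea F g {x | x ∈ Mfd F ∧ ‖x‖ ^ 2 - r₀ ^ 2 < 0} ≤
      ENNReal.ofReal (4 * Real.pi * (r₀ ^ 2 * φ (r₀ ^ 2))) := by
  have hr0 : 0 < r₀ := lt_of_le_of_lt H.nn hr
  unfold boundaryArea
  refine iSup₂_le fun X hX => ENNReal.ofReal_le_ofReal ?_
  have hn := norm_single r₀ hr0.le
  have hxE : (EuclideanSpace.single 0 r₀ : E3) ∈ Ext R₀ := by
    show R₀ < ‖(EuclideanSpace.single 0 r₀ : E3)‖
    rw [hn]; exact hr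
  have hP := (hp _ hxE).1
  rw [hn] at hP
  have hc := (H.phi_d hxE).continuousAt
  rw [hn] at hc
  have h3 : ContinuousAt (fun r : ℝ => r ^ 2) r₀ := (continuous_pow 2).continuousAt
  have hw : ContinuousAt (fun t : ℝ => t ^ 2 * φ (t ^ 2)) r₀ :=
    h3.mul (ContinuousAt.comp' (f := fun r : ℝ => r ^ 2) hc h3)
  have e : ∫ x in {x | x ∈ Mfd F ∧ ‖x‖ ^ 2 - r₀ ^ 2 < 0},
      ∑ i, pd i (fun z => volDensity g z * X z i) x =
      ∫ x in ball (0 : E3) r₀, dv (Yf g X) x := by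
    refine setIntegral_congr_set ?_
    have hF0 : (volume : Measure E3) (↑F : Set E3) = 0 := F.finite_toSet.measure_zero _
    have hae : ∀ᵐ x ∂(volume : Measure E3), x ∉ (↑F : Set E3) := by
      rw [ae_iff]; simpa using hF0
    filter_upwards [hae] with x hx
    have hxM : x ∈ Mfd F := by simpa [Mfd] using hx
    apply propext
    show (x ∈ Mfd F ∧ ‖x‖ ^ 2 - r₀ ^ 2 < 0) ↔ x ∈ ball (0 : E3) r₀
    simp only [hxM, true_and, mem_ball, dist_zero_right]
    constructor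
    · intro h
      nlinarith [norm_nonneg x]
    · intro h
      nlinarith [norm_nonneg x]
  rw [e]
  exact flux_le (w := fun t => t ^ 2 * φ (t ^ 2)) (b₀ := r₀ + 1) hr0 (Yf_contDiff hg hX)
    (Yf_compact hX) hw (by positivity) (by linarith)
    (fun x hx1 _ => Yf_le H hp hX hF (by show R₀ < ‖x‖; linarith))

/-- A coordinate ball separates the ends. -/
theorem separates_ball {r₀ : ℝ} (hr0 : 0 < r₀) (hF : ∀ p ∈ F, ‖p‖ < r₀) :
    Separates F {x | x ∈ Mfd F ∧ ‖x‖ ^ 2 - r₀ ^ 2 < 0} := by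
  have hd : ∀ x : E3, HasFDerivAt (fun z : E3 => ‖z‖ ^ 2 - r₀ ^ 2) (2 • (innerSL ℝ x)) x :=
    fun x => (hasStrictFDerivAt_norm_sq x).hasFDerivAt.sub_const _
  refine ⟨⟨fun x => ‖x‖ ^ 2 - r₀ ^ 2, ?_, rfl, ?_⟩, ?_, ?_⟩
  · exact ((contDiff_norm_sq ℝ).sub contDiff_const).contDiffOn
  · intro x _ hx0 h0
    rw [(hd x).fderiv] at h0
    have h1 : (2 • (innerSL ℝ x)) x = (0 : E3 →L[ℝ] ℝ) x := by rw [h0]
    simp only [ContinuousLinearMap.smul_apply, innerSL_apply_apply,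
      ContinuousLinearMap.zero_apply, real_inner_self_eq_norm_sq, nsmul_eq_mul] at h1
    have : ‖x‖ ^ 2 = r₀ ^ 2 := by linarith
    rw [this] at h1
    have : 0 < r₀ ^ 2 := by positivity
    push_cast at h1
    linarith
  · intro p hp
    have hopen : IsOpen ((↑(F.erase p) : Set E3)ᶜ) :=
      (F.erase p).finite_toSet.isClosed.isOpen_compl
    have hmem : p ∈ ((↑(F.erase p) : Set E3)ᶜ) := by simp
    obtain ⟨δ₁, hδ₁, hb⟩ := Metric.isOpen_iff.1 hopen p hmem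
    have hpr := hF p hp
    refine ⟨min δ₁ (r₀ - ‖p‖), lt_min hδ₁ (by linarith), fun x hx0 hxδ => ⟨?_, ?_⟩⟩
    · intro hxF
      have h1 := hb (show x ∈ ball p δ₁ from lt_of_lt_of_le hxδ (min_le_left _ _))
      apply h1
      simp only [Finset.coe_erase, Set.mem_diff, Finset.mem_coe, Set.mem_singleton_iff]
      exact ⟨hxF, fun h => by rw [h, dist_self] at hx0; exact lt_irrefl _ hx0⟩
    · have h1 : dist x p < r₀ - ‖p‖ := lt_of_lt_of_le hxδ (min_le_right _ _)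
      have h2 : ‖x‖ ≤ dist x p + ‖p‖ := by
        rw [dist_eq_norm]
        calc ‖x‖ = ‖(x - p) + p‖ := by rw [sub_add_cancel]
          _ ≤ _ := norm_add_le _ _
      have h3 : ‖x‖ < r₀ := by linarith
      have := norm_nonneg x
      nlinarith
  · refine ⟨r₀, fun x hx => ?_⟩
    have h1 : ‖x‖ ^ 2 - r₀ ^ 2 < 0 := hx.2
    nlinarith [norm_nonneg x]

end

end

end Run7.h204.Pen
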