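import Pool.Agent.Run7.h204.PenGlobal

/-! Consequences of asymptotic flatness. -/

namespace Run7.h204.Pen

open scoped BigOperators ContDiff Topology Matrix
open MeasureTheory Filter Metric
open Pool.Agent.H498R3.GB

noncomputable section

section
variable {g h : Field} {R₀ : ℝ} {φ : ℝ → ℝ} {G : E3 → ℝ}

/-- asymptotics of the coefficients -/
structure Asym (g h : Field) (φ : ℝ → ℝ) (G : E3 → ℝ) (C R₁ : ℝ) : Prop where
  P : ∀ x : E3, R₁ ≤ ‖x‖ → |φ (‖x‖ ^ 2) - 1| ≤ C / ‖x‖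
  q : ∀ x : E3, R₁ ≤ ‖x‖ → |‖x‖ ^ 2 * deriv φ (‖x‖ ^ 2)| ≤ C / ‖x‖
  W : ∀ x : E3, R₁ ≤ ‖x‖ → |Wf φ G x - 1| ≤ C / ‖x‖
  κ : ∀ x : E3, R₁ ≤ ‖x‖ → ‖x‖ * |sphereTrace g h x| ≤ C / ‖x‖

lemma FlatAtInfinity.flatEnd (hf : FlatAtInfinity g h) : FlatEnd g h := by
  obtain ⟨C, R, hR, hC⟩ := hf
  exact ⟨C, R, hR, fun x hx i j k =>
    ⟨(hC x hx i j k 0).1, (hC x hx i j k 0).2.1, (hC x hx i j k 0).2.2.2.1⟩⟩

lemma abs_coord_le (x : E3) (i : Fin 3) : |x i / ‖x‖| ≤ 1 := by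
  rw [abs_div, abs_norm]
  refine div_le_one_of_le₀ ?_ (norm_nonneg _)
  exact PiLp.norm_apply_le x i

lemma norm_single (r : ℝ) (hr : 0 ≤ r) : ‖(EuclideanSpace.single 0 r : E3)‖ = r := by
  simp [abs_of_nonneg hr]

lemma exists_asym (H : Cls g R₀ φ G) (hp : Pos R₀ φ G) (hf : FlatEnd g h) :
    ∃ C R₁ : ℝ, 0 ≤ C ∧ R₀ < R₁ ∧ 1 ≤ R₁ ∧ 2 * C ≤ R₁ ∧ Asym g h φ G C R₁ := by
  obtain ⟨C, R, hR, hC⟩ := hf
  have hC0 : 0 ≤ C := by
    have h1 := (hC (EuclideanSpace.single 0 R) (by rw [norm_single R hR.le]) 0 0 0).1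
    rw [norm_single R hR.le] at h1
    have h2 := (abs_nonneg _).trans h1
    by_contra hneg
    push Not at hneg
    have : C / R < 0 := div_neg_of_neg_of_pos hneg hR
    linarith
  set R₁ := max (max (R₀ + 1) (R + 1)) (max 1 (2 * (24 * C))) with hR₁
  have b1 : R₀ + 1 ≤ R₁ := (le_max_left _ _).trans (le_max_left _ _)
  have b2 : R + 1 ≤ R₁ := (le_max_right _ _).trans (le_max_left _ _)
  have b3 : 1 ≤ R₁ := (le_max_left _ _).trans (le_max_right _ _)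
  have b4 : 2 * (24 * C) ≤ R₁ := (le_max_right _ _).trans (le_max_right _ _)
  have hP : ∀ r, R₁ ≤ r → |φ (r ^ 2) - 1| ≤ C / r := by
    intro r hr
    have hr0 : 0 < r := by linarith
    have hn := norm_single r hr0.le
    have hx : (EuclideanSpace.single 0 r : E3) ∈ Ext R₀ := by
      show R₀ < ‖(EuclideanSpace.single 0 r : E3)‖
      rw [hn]; linarith
    have h1 := (hC (EuclideanSpace.single 0 r) (by rw [hn]; linarith) 1 1 0).1
    rw [H.metric _ hx, hn] at h1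
    simpa using h1
  have hq : ∀ r, R₁ ≤ r → |r ^ 2 * deriv φ (r ^ 2)| ≤ C / r := by
    intro r hr
    have hr0 : 0 < r := by linarith
    have hn := norm_single r hr0.le
    have hx : (EuclideanSpace.single 0 r : E3) ∈ Ext R₀ := by
      show R₀ < ‖(EuclideanSpace.single 0 r : E3)‖
      rw [hn]; linarith
    have h1 := (hC (EuclideanSpace.single 0 r) (by rw [hn]; linarith) 1 1 0).2.1
    rw [H.pd_g hx, hn] at h1
    have h2 : |deriv φ (r ^ 2) * (2 * r)| ≤ C / r ^ 2 := by simpa using h1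
    have h3 : |r ^ 2 * deriv φ (r ^ 2)| = r / 2 * |deriv φ (r ^ 2) * (2 * r)| := by
      have h4 : r ^ 2 * deriv φ (r ^ 2) = r / 2 * (deriv φ (r ^ 2) * (2 * r)) := by ring
      rw [h4, abs_mul (r / 2), abs_of_pos (show 0 < r / 2 by positivity)]
    rw [h3]
    calc r / 2 * |deriv φ (r ^ 2) * (2 * r)| ≤ r / 2 * (C / r ^ 2) := by gcongr
      _ = C / r / 2 := by field_simp
      _ ≤ C / r := by
        have : 0 ≤ C / r := by positivity
        linarith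
  have key : ∀ x : E3, 0 < ‖x‖ → ∀ (T : Matrix (Fin 3) (Fin 3) ℝ) (B : ℝ),
      (∀ i j, |T i j| ≤ B) → |∑ i, ∑ j, T i j * (x i / ‖x‖) * (x j / ‖x‖)| ≤ 9 * B := by
    intro x hx T B hT
    have e : ∀ i j, |T i j * (x i / ‖x‖) * (x j / ‖x‖)| ≤ B := by
      intro i j
      rw [abs_mul, abs_mul]
      have h1 := abs_coord_le x i
      have h2 := abs_coord_le x j
      have hB : 0 ≤ B := (abs_nonneg _).trans (hT i j)
      calc |T i j| * |x i / ‖x‖| * |x j / ‖x‖| ≤ B * 1 * 1 := by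
            have := hT i j
            gcongr
        _ = B := by ring
    calc |∑ i, ∑ j, T i j * (x i / ‖x‖) * (x j / ‖x‖)|
        ≤ ∑ i, |∑ j, T i j * (x i / ‖x‖) * (x j / ‖x‖)| := Finset.abs_sum_le_sum_abs _ _
      _ ≤ ∑ i, ∑ j, |T i j * (x i / ‖x‖) * (x j / ‖x‖)| :=
          Finset.sum_le_sum fun i _ => Finset.abs_sum_le_sum_abs _ _
      _ ≤ ∑ i : Fin 3, ∑ j : Fin 3, B :=
          Finset.sum_le_sum fun i _ => Finset.sum_le_sum fun j _ => e i j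
      _ = 9 * B := by simp; ring
  refine ⟨24 * C, R₁, by positivity, by linarith, b3, b4, ?_, ?_, ?_, ?_⟩
  · intro x hx
    have hr0 : 0 < ‖x‖ := by linarith
    refine (hP _ hx).trans ?_
    gcongr
    linarith
  · intro x hx
    have hr0 : 0 < ‖x‖ := by linarith
    refine (hq _ hx).trans ?_
    gcongr
    linarith
  · intro x hx
    have hr0 : 0 < ‖x‖ := by linarith
    have hxE : x ∈ Ext R₀ := by show R₀ < ‖x‖; linarith
    have h1 := key x hr0 (fun i j => g x i j - (1 : Matrix (Fin 3) (Fin 3) ℝ) i j) (C / ‖x‖)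
      (fun i j => (hC x (by linarith) i j 0).1)
    have e : ∑ i, ∑ j, (g x i j - (1 : Matrix (Fin 3) (Fin 3) ℝ) i j) * (x i / ‖x‖) * (x j / ‖x‖)
        = Wf φ G x - 1 := by
      have e1 : ∀ i j, (g x i j - (1 : Matrix (Fin 3) (Fin 3) ℝ) i j) * (x i / ‖x‖) *
          (x j / ‖x‖) = (φ (‖x‖ ^ 2) - 1) * ((1 : Matrix (Fin 3) (Fin 3) ℝ) i j *
            (x j / ‖x‖)) * (x i / ‖x‖) + G x * ‖x‖ ^ 2 * (x i / ‖x‖ * (x i / ‖x‖)) *
            (x j / ‖x‖ * (x j / ‖x‖)) := by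
        intro i j
        rw [H.metric x hxE]
        field_simp
        ring
      have s1 : ∀ i, ∑ j, (1 : Matrix (Fin 3) (Fin 3) ℝ) i j * (x j / ‖x‖) = x i / ‖x‖ := by
        intro i; simp [Matrix.one_apply]
      simp only [e1, Finset.sum_add_distrib, ← Finset.mul_sum, ← Finset.sum_mul, s1,
        sum_sq_div hr0, mul_one]
      have e2 : ∑ i, (φ (‖x‖ ^ 2) - 1) * (x i / ‖x‖) * (x i / ‖x‖) = φ (‖x‖ ^ 2) - 1 := by
        simp only [mul_assoc, ← Finset.mul_sum, sum_sq_div hr0, mul_one]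
      rw [e2]
      unfold Wf
      ring
    rw [e] at h1
    refine h1.trans ?_
    rw [← mul_div_assoc]
    gcongr
    linarith
  · intro x hx
    have hr0 : 0 < ‖x‖ := by linarith
    have hxE : x ∈ Ext R₀ := by show R₀ < ‖x‖; linarith
    have h1 := key x hr0 (fun i j => h x i j) (C / ‖x‖ ^ 2)
      (fun i j => (hC x (by linarith) i j 0).2.2)
    have h2 : |al h x| ≤ 9 * (C / ‖x‖ ^ 2) := h1
    have h3 : |tt h x| ≤ 3 * (C / ‖x‖ ^ 2) := by
      unfold tt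
      calc |∑ i, h x i i| ≤ ∑ i, |h x i i| := Finset.abs_sum_le_sum_abs _ _
        _ ≤ ∑ i : Fin 3, C / ‖x‖ ^ 2 :=
            Finset.sum_le_sum fun i _ => (hC x (by linarith) i i 0).2.2
        _ = 3 * (C / ‖x‖ ^ 2) := by simp
    rw [sphereTrace_eq H hp hxE, abs_div]
    have hPx := hP _ hx
    have hPhalf : 1 / 2 ≤ φ (‖x‖ ^ 2) := by
      have : C / ‖x‖ ≤ 1 / 2 := by
        rw [div_le_iff₀ hr0]
        nlinarith
      have := (abs_le.1 hPx).1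
      linarith
    rw [abs_of_pos (show 0 < φ (‖x‖ ^ 2) by linarith)]
    have h4 : |tt h x - al h x| ≤ 12 * (C / ‖x‖ ^ 2) := by
      calc |tt h x - al h x| ≤ |tt h x| + |al h x| := abs_sub _ _
        _ ≤ 12 * (C / ‖x‖ ^ 2) := by linarith
    calc ‖x‖ * (|tt h x - al h x| / φ (‖x‖ ^ 2)) ≤ ‖x‖ * (12 * (C / ‖x‖ ^ 2) / (1 / 2)) := by
          gcongr
      _ = 24 * C / ‖x‖ := by field_simp; ring

/-- large spheres are not trapped -/
lemma bddAbove_B (H : Cls g R₀ φ G) (hp : Pos R₀ φ G) {C R₁ : ℝ} (hC0 : 0 ≤ C) (h01 : R₀ < R₁)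
    (h1 : 1 ≤ R₁) (hA : Asym g h φ G C R₁) : BddAbove (Bset g h R₀) := by
  refine ⟨max R₁ (16 * C + 1), fun r hr => ?_⟩
  by_contra hlt
  push Not at hlt
  obtain ⟨hl1, hl2⟩ := max_lt_iff.1 hlt
  have hr0 : 0 < r := by linarith
  have hn := norm_single r hr0.le
  have hxE : (EuclideanSpace.single 0 r : E3) ∈ Ext R₀ := by
    show R₀ < ‖(EuclideanSpace.single 0 r : E3)‖
    rw [hn]; exact hr.1
  have h2 := hr.2 _ hn
  set x : E3 := EuclideanSpace.single 0 r with hx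
  have a1 := hA.P x (by rw [hn]; exact hl1.le)
  have a2 := hA.q x (by rw [hn]; exact hl1.le)
  have a3 := hA.W x (by rw [hn]; exact hl1.le)
  have a4 := hA.κ x (by rw [hn]; exact hl1.le)
  rw [meanCurv_eq H hp hxE] at h2
  rw [hn] at a1 a2 a3 a4 h2
  have hCr : C / r ≤ 1 / 16 := by
    rw [div_le_iff₀ hr0]; linarith
  have b1 := abs_le.1 (a1.trans hCr)
  have b2 := abs_le.1 (a2.trans hCr)
  have b3 := abs_le.1 (a3.trans hCr)
  have hs : Real.sqrt (Wf φ G x) ≤ 2 := by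
    rw [Real.sqrt_le_left (by norm_num)]; linarith [b3.2]
  have hs0 : 0 < Real.sqrt (Wf φ G x) := Real.sqrt_pos.2 (by linarith [b3.1])
  have hP0 : 0 < φ (r ^ 2) := by linarith [b1.1]
  have h3 : r * (2 * (φ (r ^ 2) + r ^ 2 * deriv φ (r ^ 2)) /
      (r * φ (r ^ 2) * Real.sqrt (Wf φ G x))) ≤ 1 / 16 := by
    calc _ ≤ r * |sphereTrace g h x| := by gcongr
      _ ≤ 1 / 16 := a4.trans hCr
  have h4 : (1 : ℝ) / 4 ≤ r * (2 * (φ (r ^ 2) + r ^ 2 * deriv φ (r ^ 2)) /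
      (r * φ (r ^ 2) * Real.sqrt (Wf φ G x))) := by
    have e : r * (2 * (φ (r ^ 2) + r ^ 2 * deriv φ (r ^ 2)) /
      (r * φ (r ^ 2) * Real.sqrt (Wf φ G x))) = 2 * (φ (r ^ 2) + r ^ 2 * deriv φ (r ^ 2)) /
      (φ (r ^ 2) * Real.sqrt (Wf φ G x)) := by field_simp
    rw [e, le_div_iff₀ (by positivity)]
    nlinarith [b1.1, b1.2, b2.1, b2.2]
  linarith

/-- the pointwise Hawking mass is asymptotic to the mass integrand -/
lemma Nab_asym {r P W q κ δ : ℝ} (hr : 0 < r) (hδ : 0 ≤ δ) (hδ2 : δ ≤ 1 / 2)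
    (hP : |P - 1| ≤ δ) (hW : |W - 1| ≤ δ) (hq : |r ^ 2 * q| ≤ δ) (hκ : r * |κ| ≤ δ) :
    Nab r P q W κ ≤ r / 2 * (W - P - 2 * (r ^ 2 * q)) + 20 * r * δ ^ 2 := by
  unfold Nab
  set Q := r ^ 2 * q with hQ
  obtain ⟨p1, p2⟩ := abs_le.1 hP
  obtain ⟨w1, w2⟩ := abs_le.1 hW
  obtain ⟨q1, q2⟩ := abs_le.1 hq
  have hP0 : 1 / 2 ≤ P := by linarith
  have hW0 : 1 / 2 ≤ W := by linarith
  have hPW : 0 < P * W := by positivity
  set σ := Real.sqrt P with hσ
  have hσ0 : 0 < σ := Real.sqrt_pos.2 (by linarith)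
  have hσ2 : σ ^ 2 = P := Real.sq_sqrt (by linarith)
  have s1 : |σ - 1| ≤ δ := by
    have h1 : (σ - 1) * (σ + 1) = P - 1 := by rw [← hσ2]; ring
    have h2 : |σ - 1| * (σ + 1) = |P - 1| := by
      rw [← h1, abs_mul, abs_of_pos (show 0 < σ + 1 by linarith)]
    nlinarith [abs_nonneg (σ - 1)]
  -- the main term
  set E := 1 - (P + Q) ^ 2 / (P * W) with hE
  set z := r ^ 2 * P * κ ^ 2 / 4 with hz
  have hz0 : 0 ≤ z := by positivity
  have hz1 : z ≤ δ ^ 2 / 2 := by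
    have h1 : (r * |κ|) ^ 2 ≤ δ ^ 2 := by gcongr
    have h2 : (r * |κ|) ^ 2 = r ^ 2 * κ ^ 2 := by rw [mul_pow, sq_abs]
    have h3 : z = P * (r ^ 2 * κ ^ 2) / 4 := by rw [hz]; ring
    rw [h3]
    have h4 : r ^ 2 * κ ^ 2 ≤ δ ^ 2 := by rw [← h2]; exact h1
    have h5 : 0 ≤ r ^ 2 * κ ^ 2 := by positivity
    have h6 : P ≤ 2 := by linarith
    nlinarith
  set M := W - P - 2 * Q with hM
  have hMa : |M| ≤ 4 * δ := by rw [abs_le]; constructor <;> simp only [hM] <;> linarith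
  have hEM : |E - M| ≤ 16 * δ ^ 2 := by
    have e : E - M = (M * (1 - W) * P - Q ^ 2) / (P * W) := by
      rw [hE, hM]; field_simp; ring
    rw [e, abs_div, abs_of_pos hPW, div_le_iff₀ hPW]
    have h1 : |M * (1 - W) * P - Q ^ 2| ≤ |M| * |1 - W| * P + Q ^ 2 := by
      calc |M * (1 - W) * P - Q ^ 2| ≤ |M * (1 - W) * P| + |Q ^ 2| := abs_sub _ _
        _ = |M| * |1 - W| * P + Q ^ 2 := by
          rw [abs_mul, abs_mul, abs_of_pos (show 0 < P by linarith), abs_of_nonneg (sq_nonneg Q)]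
    have h2 : |1 - W| ≤ δ := by rw [abs_sub_comm]; exact hW
    have h3 : |M| * |1 - W| ≤ 4 * δ * δ := by gcongr
    have h4 : Q ^ 2 ≤ δ ^ 2 := by
      rw [← sq_abs Q]; gcongr
    have h5 : |M| * |1 - W| * P ≤ 4 * δ * δ * P := by gcongr
    have h6 : (8 : ℝ) * P * δ ^ 2 ≤ 16 * δ ^ 2 * (P * W) := by
      have : (8 : ℝ) * P ≤ 16 * (P * W) := by nlinarith
      nlinarith [sq_nonneg δ]
    nlinarith [sq_nonneg δ]
  have hEa : |E| ≤ 12 * δ := by
    calc |E| = |(E - M) + M| := by ring_nf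
      _ ≤ |E - M| + |M| := abs_add_le _ _
      _ ≤ 16 * δ ^ 2 + 4 * δ := by linarith
      _ ≤ 12 * δ := by nlinarith
  have hfin : σ * (E + z) ≤ M + 40 * δ ^ 2 := by
    have h1 : σ * (E + z) = M + (E - M) + z + (σ - 1) * (E + z) := by ring
    have h2 : (σ - 1) * (E + z) ≤ δ * (13 * δ) := by
      calc (σ - 1) * (E + z) ≤ |(σ - 1) * (E + z)| := le_abs_self _
        _ = |σ - 1| * |E + z| := abs_mul _ _
        _ ≤ δ * (13 * δ) := by
          have : |E + z| ≤ 13 * δ := by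
            calc |E + z| ≤ |E| + |z| := abs_add_le _ _
              _ ≤ 12 * δ + δ ^ 2 / 2 := by rw [abs_of_nonneg hz0]; linarith
              _ ≤ 13 * δ := by nlinarith
          gcongr
    have h3 := (abs_le.1 hEM).2
    nlinarith
  calc r * σ / 2 * (E + z) = r / 2 * (σ * (E + z)) := by ring
    _ ≤ r / 2 * (M + 40 * δ ^ 2) := by gcongr
    _ = _ := by ring

end

end

end Run7.h204.Pen
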