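import Pool.Agent.H498R3.GBContract

/-! Multilinear algebra of the curvature of `φ(|x|²) δ + G(x) x ⊗ x`. -/

namespace Run7.h204.Pen

open scoped BigOperators ContDiff Topology Matrix
open Pool.Agent.H498R3.GB

noncomputable section

abbrev V3 := V 3

/-- data: two linear forms and two bilinear forms -/
structure Dat where
  Y : V3 →ₗ[ℝ] ℝ
  A : V3 →ₗ[ℝ] ℝ
  N : V3 →ₗ[ℝ] V3 →ₗ[ℝ] ℝ
  B : V3 →ₗ[ℝ] V3 →ₗ[ℝ] ℝ
  F1 : ℝ
  F2 : ℝ
  G0 : ℝ

namespace Dat

variable (D : Dat)

/-- first derivatives of the metric -/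
def T (k a b : V3) : ℝ :=
  2 * D.F1 * (D.Y k * D.N a b) + D.A k * (D.Y a * D.Y b)
    + D.G0 * (D.N k a * D.Y b + D.Y a * D.N k b)

/-- second derivatives of the metric -/
def S (k l a b : V3) : ℝ :=
  4 * D.F2 * (D.Y k * D.Y l * D.N a b) + 2 * D.F1 * (D.N k l * D.N a b)
    + D.B k l * (D.Y a * D.Y b)
    + D.A l * (D.N k a * D.Y b + D.Y a * D.N k b)
    + D.A k * (D.N l a * D.Y b + D.Y a * D.N l b)
    + D.G0 * (D.N l a * D.N k b + D.N k a * D.N l b)

def G (m a b : V3) : ℝ := (D.T a m b + D.T b m a - D.T m a b) / 2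

variable {κ : Type} [Fintype κ] (f : κ → V3)

def R (a b c d : V3) : ℝ :=
  (D.S b c a d + D.S a d b c - D.S a c b d - D.S b d a c) / 2
    + ∑ e, (D.G (f e) b c * D.G (f e) a d - D.G (f e) a c * D.G (f e) b d)

lemma T_add1 (u v a b : V3) : D.T (u + v) a b = D.T u a b + D.T v a b := by
  simp only [T, map_add, LinearMap.add_apply]; ring
lemma T_add2 (u v a b : V3) : D.T a (u + v) b = D.T a u b + D.T a v b := by
  simp only [T, map_add, LinearMap.add_apply]; ring
lemma T_add3 (u v a b : V3) : D.T a b (u + v) = D.T a b u + D.T a b v := by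
  simp only [T, map_add, LinearMap.add_apply]; ring
lemma T_smul1 (c : ℝ) (v a b : V3) : D.T (c • v) a b = c * D.T v a b := by
  simp only [T, map_smul, LinearMap.smul_apply, smul_eq_mul]; ring
lemma T_smul2 (c : ℝ) (v a b : V3) : D.T a (c • v) b = c * D.T a v b := by
  simp only [T, map_smul, LinearMap.smul_apply, smul_eq_mul]; ring
lemma T_smul3 (c : ℝ) (v a b : V3) : D.T a b (c • v) = c * D.T a b v := by
  simp only [T, map_smul, LinearMap.smul_apply, smul_eq_mul]; ring

lemma G_add1 (u v a b : V3) : D.G (u + v) a b = D.G u a b + D.G v a b := by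
  simp only [G, T_add1, T_add2]; ring
lemma G_add2 (u v a b : V3) : D.G a (u + v) b = D.G a u b + D.G a v b := by
  simp only [G, T_add1, T_add2, T_add3]; ring
lemma G_add3 (u v a b : V3) : D.G a b (u + v) = D.G a b u + D.G a b v := by
  simp only [G, T_add1, T_add3]; ring
lemma G_smul1 (c : ℝ) (v a b : V3) : D.G (c • v) a b = c * D.G v a b := by
  simp only [G, T_smul1, T_smul2]; ring
lemma G_smul2 (c : ℝ) (v a b : V3) : D.G a (c • v) b = c * D.G a v b := by
  simp only [G, T_smul1, T_smul2, T_smul3]; ring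
lemma G_smul3 (c : ℝ) (v a b : V3) : D.G a b (c • v) = c * D.G a b v := by
  simp only [G, T_smul1, T_smul3]; ring

lemma R_add1 (u v b c d : V3) : D.R f (u + v) b c d = D.R f u b c d + D.R f v b c d := by
  have : ∑ e, (D.G (f e) b c * D.G (f e) (u + v) d - D.G (f e) (u + v) c * D.G (f e) b d)
      = ∑ e, (D.G (f e) b c * D.G (f e) u d - D.G (f e) u c * D.G (f e) b d)
      + ∑ e, (D.G (f e) b c * D.G (f e) v d - D.G (f e) v c * D.G (f e) b d) := by
    rw [← Finset.sum_add_distrib]
    refine Finset.sum_congr rfl fun e _ => ?_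
    rw [G_add2, G_add2]; ring
  unfold R
  rw [this]
  simp only [S, map_add, LinearMap.add_apply]; ring

lemma R_smul1 (t : ℝ) (v b c d : V3) : D.R f (t • v) b c d = t * D.R f v b c d := by
  have : ∑ e, (D.G (f e) b c * D.G (f e) (t • v) d - D.G (f e) (t • v) c * D.G (f e) b d)
      = t * ∑ e, (D.G (f e) b c * D.G (f e) v d - D.G (f e) v c * D.G (f e) b d) := by
    rw [Finset.mul_sum]
    refine Finset.sum_congr rfl fun e _ => ?_
    rw [G_smul2, G_smul2]; ring
  unfold R
  rw [this]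
  simp only [S, map_smul, LinearMap.smul_apply, smul_eq_mul]; ring

lemma R_add2 (u v a c d : V3) : D.R f a (u + v) c d = D.R f a u c d + D.R f a v c d := by
  have : ∑ e, (D.G (f e) (u + v) c * D.G (f e) a d - D.G (f e) a c * D.G (f e) (u + v) d)
      = ∑ e, (D.G (f e) u c * D.G (f e) a d - D.G (f e) a c * D.G (f e) u d)
      + ∑ e, (D.G (f e) v c * D.G (f e) a d - D.G (f e) a c * D.G (f e) v d) := by
    rw [← Finset.sum_add_distrib]
    refine Finset.sum_congr rfl fun e _ => ?_
    rw [G_add2, G_add2]; ring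
  unfold R
  rw [this]
  simp only [S, map_add, LinearMap.add_apply]; ring

lemma R_smul2 (t : ℝ) (v a c d : V3) : D.R f a (t • v) c d = t * D.R f a v c d := by
  have : ∑ e, (D.G (f e) (t • v) c * D.G (f e) a d - D.G (f e) a c * D.G (f e) (t • v) d)
      = t * ∑ e, (D.G (f e) v c * D.G (f e) a d - D.G (f e) a c * D.G (f e) v d) := by
    rw [Finset.mul_sum]
    refine Finset.sum_congr rfl fun e _ => ?_
    rw [G_smul2, G_smul2]; ring
  unfold R
  rw [this]
  simp only [S, map_smul, LinearMap.smul_apply, smul_eq_mul]; ring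

lemma R_add3 (u v a b d : V3) : D.R f a b (u + v) d = D.R f a b u d + D.R f a b v d := by
  have : ∑ e, (D.G (f e) b (u + v) * D.G (f e) a d - D.G (f e) a (u + v) * D.G (f e) b d)
      = ∑ e, (D.G (f e) b u * D.G (f e) a d - D.G (f e) a u * D.G (f e) b d)
      + ∑ e, (D.G (f e) b v * D.G (f e) a d - D.G (f e) a v * D.G (f e) b d) := by
    rw [← Finset.sum_add_distrib]
    refine Finset.sum_congr rfl fun e _ => ?_
    rw [G_add3, G_add3]; ring
  unfold R
  rw [this]
  simp only [S, map_add, LinearMap.add_apply]; ring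

lemma R_smul3 (t : ℝ) (v a b d : V3) : D.R f a b (t • v) d = t * D.R f a b v d := by
  have : ∑ e, (D.G (f e) b (t • v) * D.G (f e) a d - D.G (f e) a (t • v) * D.G (f e) b d)
      = t * ∑ e, (D.G (f e) b v * D.G (f e) a d - D.G (f e) a v * D.G (f e) b d) := by
    rw [Finset.mul_sum]
    refine Finset.sum_congr rfl fun e _ => ?_
    rw [G_smul3, G_smul3]; ring
  unfold R
  rw [this]
  simp only [S, map_smul, LinearMap.smul_apply, smul_eq_mul]; ring

lemma R_add4 (u v a b c : V3) : D.R f a b c (u + v) = D.R f a b c u + D.R f a b c v := by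
  have : ∑ e, (D.G (f e) b c * D.G (f e) a (u + v) - D.G (f e) a c * D.G (f e) b (u + v))
      = ∑ e, (D.G (f e) b c * D.G (f e) a u - D.G (f e) a c * D.G (f e) b u)
      + ∑ e, (D.G (f e) b c * D.G (f e) a v - D.G (f e) a c * D.G (f e) b v) := by
    rw [← Finset.sum_add_distrib]
    refine Finset.sum_congr rfl fun e _ => ?_
    rw [G_add3, G_add3]; ring
  unfold R
  rw [this]
  simp only [S, map_add, LinearMap.add_apply]; ring

lemma R_smul4 (t : ℝ) (v a b c : V3) : D.R f a b c (t • v) = t * D.R f a b c v := by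
  have : ∑ e, (D.G (f e) b c * D.G (f e) a (t • v) - D.G (f e) a c * D.G (f e) b (t • v))
      = t * ∑ e, (D.G (f e) b c * D.G (f e) a v - D.G (f e) a c * D.G (f e) b v) := by
    rw [Finset.mul_sum]
    refine Finset.sum_congr rfl fun e _ => ?_
    rw [G_smul3, G_smul3]; ring
  unfold R
  rw [this]
  simp only [S, map_smul, LinearMap.smul_apply, smul_eq_mul]; ring

/-- Ricci form -/
def Rc (u v : V3) : ℝ := ∑ a, D.R f (f a) u (f a) v

lemma lin2_Rc : Lin2 (D.Rc f) := by
  refine ⟨fun u v b => ?_, fun t v b => ?_, fun u v b => ?_, fun t v b => ?_⟩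
  · simp only [Rc, R_add2, Finset.sum_add_distrib]
  · simp only [Rc, R_smul2, Finset.mul_sum]
  · simp only [Rc, R_add4, Finset.sum_add_distrib]
  · simp only [Rc, R_smul4, Finset.mul_sum]

end Dat

end

end Run7.h204.Pen
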