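import Pool.Agent.Run7.h204.PenDefs
import Pool.Agent.Run7.h204.PenFrame

/-! Derivatives of the metric `φ(|x|²) δ + G(x) x ⊗ x`. -/

namespace Run7.h204.Pen

open scoped BigOperators ContDiff Topology Matrix
open MeasureTheory Filter Metric
open Pool.Agent.H498R3.GB

noncomputable section

lemma pd_congr {f f' : E3 → ℝ} {x : E3} (h : f =ᶠ[𝓝 x] f') (i : Fin 3) :
    pd i f x = pd i f' x := by
  unfold pd; rw [h.fderiv_eq]

/-- radial functions -/
lemma pd_rad {φ : ℝ → ℝ} {x : E3} (h : DifferentiableAt ℝ φ (‖x‖ ^ 2)) (i : Fin 3) :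
    pd i (fun z : E3 => φ (‖z‖ ^ 2)) x = deriv φ (‖x‖ ^ 2) * (2 * x i) := by
  have h1 : HasFDerivAt (fun z : E3 => ‖z‖ ^ 2) (2 • (innerSL ℝ x)) x :=
    (hasStrictFDerivAt_norm_sq x).hasFDerivAt
  have := h.hasDerivAt.comp_hasFDerivAt x h1
  have h3 := pd_of_hasFDerivAt this i
  simp only [Function.comp_def] at h3
  rw [h3]
  simp [EuclideanSpace.inner_single_right]

lemma diff_rad {φ : ℝ → ℝ} {x : E3} (h : DifferentiableAt ℝ φ (‖x‖ ^ 2)) :
    DifferentiableAt ℝ (fun z : E3 => φ (‖z‖ ^ 2)) x := by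
  have h1 : HasFDerivAt (fun z : E3 => ‖z‖ ^ 2) (2 • (innerSL ℝ x)) x :=
    (hasStrictFDerivAt_norm_sq x).hasFDerivAt
  exact (h.hasDerivAt.comp_hasFDerivAt x h1).differentiableAt

lemma diff_coord (j : Fin 3) (x : E3) : DifferentiableAt ℝ (fun z : E3 => z j) x :=
  ((contDiff_coord (n := 3) j).differentiable (by simp)) x

/-- The exterior region. -/
def Ext (R₀ : ℝ) : Set E3 := {x | R₀ < ‖x‖}

lemma isOpen_Ext (R₀ : ℝ) : IsOpen (Ext R₀) := isOpen_lt continuous_const continuous_norm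

/-- The smoothness part of the structure of the metric. -/
structure Cls (g : Field) (R₀ : ℝ) (φ : ℝ → ℝ) (G : E3 → ℝ) : Prop where
  nn : 0 ≤ R₀
  sr : ContDiffOn ℝ ∞ φ (Set.Ioi (R₀ ^ 2))
  s : ContDiffOn ℝ ∞ G (Ext R₀)
  metric : ∀ x : E3, R₀ < ‖x‖ → ∀ i j,
    g x i j = φ (‖x‖ ^ 2) * (1 : Matrix (Fin 3) (Fin 3) ℝ) i j + G x * (x i * x j)

variable {g h : Field} {R₀ : ℝ} {φ : ℝ → ℝ} {G : E3 → ℝ}

lemma sq_mem (hn : 0 ≤ R₀) {x : E3} (hx : x ∈ Ext R₀) : ‖x‖ ^ 2 ∈ Set.Ioi (R₀ ^ 2) := by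
  have : R₀ < ‖x‖ := hx
  show R₀ ^ 2 < ‖x‖ ^ 2
  nlinarith

lemma ne_zero (hn : 0 ≤ R₀) {x : E3} (hx : x ∈ Ext R₀) : 0 < ‖x‖ := lt_of_le_of_lt hn hx

namespace Cls

variable (H : Cls g R₀ φ G)
include H

lemma phi_cd {x : E3} (hx : x ∈ Ext R₀) : ContDiffAt ℝ ∞ φ (‖x‖ ^ 2) :=
  H.sr.contDiffAt (isOpen_Ioi.mem_nhds (sq_mem H.nn hx))

lemma phi_d {x : E3} (hx : x ∈ Ext R₀) : DifferentiableAt ℝ φ (‖x‖ ^ 2) :=
  (H.phi_cd hx).differentiableAt (by simp)

lemma phi_cd' {x : E3} (hx : x ∈ Ext R₀) : ContDiffAt ℝ ∞ (deriv φ) (‖x‖ ^ 2) := by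
  have h1 : ContDiffOn ℝ ∞ (deriv φ) (Set.Ioi (R₀ ^ 2)) := by
    have := (contDiffOn_infty_iff_deriv_of_isOpen (isOpen_Ioi (a := R₀ ^ 2)) (f := φ)).1 H.sr
    exact this.2
  exact h1.contDiffAt (isOpen_Ioi.mem_nhds (sq_mem H.nn hx))

lemma phi_d' {x : E3} (hx : x ∈ Ext R₀) : DifferentiableAt ℝ (deriv φ) (‖x‖ ^ 2) :=
  (H.phi_cd' hx).differentiableAt (by simp)

lemma G_cd {x : E3} (hx : x ∈ Ext R₀) : ContDiffAt ℝ ∞ G x :=
  H.s.contDiffAt ((isOpen_Ext R₀).mem_nhds hx)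

lemma G_d {x : E3} (hx : x ∈ Ext R₀) : DifferentiableAt ℝ G x :=
  (H.G_cd hx).differentiableAt (by simp)

lemma pdG_d {x : E3} (hx : x ∈ Ext R₀) (i : Fin 3) : DifferentiableAt ℝ (pd i G) x := by
  have h1 : ContDiffAt ℝ ∞ (fderiv ℝ G) x := (H.G_cd hx).fderiv_right (by simp)
  have h2 : DifferentiableAt ℝ (fderiv ℝ G) x := h1.differentiableAt (by simp)
  show DifferentiableAt ℝ (fun z => fderiv ℝ G z (EuclideanSpace.single i 1)) x
  exact h2.clm_apply (differentiableAt_const _)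

lemma ev_metric {x : E3} (hx : x ∈ Ext R₀) (i j : Fin 3) :
    (fun z => g z i j) =ᶠ[𝓝 x] fun z =>
      φ (‖z‖ ^ 2) * (1 : Matrix (Fin 3) (Fin 3) ℝ) i j + G z * (z i * z j) := by
  filter_upwards [(isOpen_Ext R₀).mem_nhds hx] with z hz
  exact H.metric z hz i j

lemma pd_g {x : E3} (hx : x ∈ Ext R₀) (k i j : Fin 3) :
    pd k (fun z => g z i j) x =
      deriv φ (‖x‖ ^ 2) * (2 * x k) * (1 : Matrix (Fin 3) (Fin 3) ℝ) i j
        + pd k G x * (x i * x j)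
        + G x * ((1 : Matrix (Fin 3) (Fin 3) ℝ) k i * x j
          + x i * (1 : Matrix (Fin 3) (Fin 3) ℝ) k j) := by
  have d1 := diff_rad (H.phi_d hx)
  have d2 := H.G_d hx
  have d3 := diff_coord i x
  have d4 := diff_coord j x
  rw [pd_congr (H.ev_metric hx i j), pd_add (d1.mul_const _) (d2.fun_mul (d3.fun_mul d4)),
    pd_mul d1 (differentiableAt_const _), pd_const, pd_mul d2 (d3.fun_mul d4), pd_mul d3 d4,
    pd_rad (H.phi_d hx), pd_coord, pd_coord]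
  ring

lemma pd_pd_g {x : E3} (hx : x ∈ Ext R₀) (k l i j : Fin 3) :
    pd k (pd l (fun z => g z i j)) x =
      4 * deriv (deriv φ) (‖x‖ ^ 2) * (x k * x l * (1 : Matrix (Fin 3) (Fin 3) ℝ) i j)
      + 2 * deriv φ (‖x‖ ^ 2) * ((1 : Matrix (Fin 3) (Fin 3) ℝ) k l
          * (1 : Matrix (Fin 3) (Fin 3) ℝ) i j)
      + pd k (pd l G) x * (x i * x j)
      + pd l G x * ((1 : Matrix (Fin 3) (Fin 3) ℝ) k i * x j
          + x i * (1 : Matrix (Fin 3) (Fin 3) ℝ) k j)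
      + pd k G x * ((1 : Matrix (Fin 3) (Fin 3) ℝ) l i * x j
          + x i * (1 : Matrix (Fin 3) (Fin 3) ℝ) l j)
      + G x * ((1 : Matrix (Fin 3) (Fin 3) ℝ) l i * (1 : Matrix (Fin 3) (Fin 3) ℝ) k j
          + (1 : Matrix (Fin 3) (Fin 3) ℝ) k i * (1 : Matrix (Fin 3) (Fin 3) ℝ) l j) := by
  have e : pd l (fun z => g z i j) =ᶠ[𝓝 x] fun z =>
      deriv φ (‖z‖ ^ 2) * (2 * z l) * (1 : Matrix (Fin 3) (Fin 3) ℝ) i j
        + pd l G z * (z i * z j)
        + G z * ((1 : Matrix (Fin 3) (Fin 3) ℝ) l i * z j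
          + z i * (1 : Matrix (Fin 3) (Fin 3) ℝ) l j) := by
    filter_upwards [(isOpen_Ext R₀).mem_nhds hx] with z hz
    exact H.pd_g hz l i j
  have d1 := diff_rad (H.phi_d' hx)
  have d2 := H.G_d hx
  have d2' := H.pdG_d hx l
  have di := diff_coord i x
  have dj := diff_coord j x
  have dl := diff_coord l x
  have dc : ∀ c : ℝ, DifferentiableAt ℝ (fun _ : E3 => c) x := fun c => differentiableAt_const c
  have a1 : DifferentiableAt ℝ (fun z : E3 => 2 * z l) x := (dc 2).mul dl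
  have a2 : DifferentiableAt ℝ (fun z : E3 => deriv φ (‖z‖ ^ 2) * (2 * z l)) x := d1.mul a1
  have a3 : DifferentiableAt ℝ (fun z : E3 => deriv φ (‖z‖ ^ 2) * (2 * z l)
    * (1 : Matrix (Fin 3) (Fin 3) ℝ) i j) x := a2.mul_const _
  have a4 : DifferentiableAt ℝ (fun z : E3 => z i * z j) x := di.mul dj
  have a5 : DifferentiableAt ℝ (fun z : E3 => pd l G z * (z i * z j)) x := d2'.mul a4
  have a6 : DifferentiableAt ℝ (fun z : E3 => (1 : Matrix (Fin 3) (Fin 3) ℝ) l i * z j) x :=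
    (dc _).mul dj
  have a7 : DifferentiableAt ℝ (fun z : E3 => z i * (1 : Matrix (Fin 3) (Fin 3) ℝ) l j) x :=
    di.mul_const _
  have a8 : DifferentiableAt ℝ (fun z : E3 => (1 : Matrix (Fin 3) (Fin 3) ℝ) l i * z j
    + z i * (1 : Matrix (Fin 3) (Fin 3) ℝ) l j) x := a6.add a7
  rw [pd_congr e, pd_add (a3.fun_add a5) (d2.fun_mul a8), pd_add a3 a5, pd_mul a2 (dc _), pd_const,
    pd_mul d1 a1, pd_mul (dc 2) dl, pd_const, pd_coord, pd_rad (H.phi_d' hx),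
    pd_mul d2' a4, pd_mul di dj, pd_coord, pd_coord, pd_mul d2 a8, pd_add a6 a7,
    pd_mul (dc _) dj, pd_mul di (dc _), pd_const, pd_const, pd_coord, pd_coord]
  ring

end Cls

/-- the data attached to the metric at `x` -/
def dat (φ : ℝ → ℝ) (G : E3 → ℝ) (x : E3) : Dat where
  Y := { toFun := fun v => ∑ i, v i * x i
         map_add' := by intro u v; simp [add_mul, Finset.sum_add_distrib]
         map_smul' := by intro t v; simp [mul_assoc, Finset.mul_sum] }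
  A := { toFun := fun v => ∑ i, v i * pd i G x
         map_add' := by intro u v; simp [add_mul, Finset.sum_add_distrib]
         map_smul' := by intro t v; simp [mul_assoc, Finset.mul_sum] }
  N := LinearMap.mk₂ ℝ (fun u v => ∑ i, u i * v i)
    (by intro u v w; simp [add_mul, Finset.sum_add_distrib])
    (by intro t v w; simp [mul_assoc, Finset.mul_sum])
    (by intro u v w; simp [mul_add, Finset.sum_add_distrib])
    (by intro t v w; simp [mul_left_comm, Finset.mul_sum])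
  B := LinearMap.mk₂ ℝ (fun u v => ∑ i, ∑ j, u i * pd i (pd j G) x * v j)
    (by intro u v w; simp [add_mul, Finset.sum_add_distrib])
    (by intro t v w; simp [mul_assoc, Finset.mul_sum])
    (by intro u v w; simp [mul_add, Finset.sum_add_distrib])
    (by intro t v w; simp [mul_left_comm, Finset.mul_sum])
  F1 := deriv φ (‖x‖ ^ 2)
  F2 := deriv (deriv φ) (‖x‖ ^ 2)
  G0 := G x

section
variable (φ G) (x : E3)
lemma dat_Y (v : V3) : (dat φ G x).Y v = ∑ i, v i * x i := rfl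
lemma dat_A (v : V3) : (dat φ G x).A v = ∑ i, v i * pd i G x := rfl
lemma dat_N (u v : V3) : (dat φ G x).N u v = ∑ i, u i * v i := rfl
lemma dat_B (u v : V3) : (dat φ G x).B u v = ∑ i, ∑ j, u i * pd i (pd j G) x * v j := rfl
lemma dat_Y_eb (i : Fin 3) : (dat φ G x).Y (eb i) = x i := by simp [dat_Y, eb]
lemma dat_A_eb (i : Fin 3) : (dat φ G x).A (eb i) = pd i G x := by simp [dat_A, eb]
lemma dat_N_eb (i j : Fin 3) :
    (dat φ G x).N (eb i) (eb j) = (1 : Matrix (Fin 3) (Fin 3) ℝ) i j := by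
  simp [dat_N, eb, Matrix.one_apply]
lemma dat_B_eb (i j : Fin 3) : (dat φ G x).B (eb i) (eb j) = pd i (pd j G) x := by
  simp [dat_B, eb]
end

namespace Cls

variable (H : Cls g R₀ φ G)
include H

lemma pd_eq_T {x : E3} (hx : x ∈ Ext R₀) (k i j : Fin 3) :
    pd k (fun z => g z i j) x = (dat φ G x).T (eb k) (eb i) (eb j) := by
  rw [H.pd_g hx]
  simp only [Dat.T, dat_Y_eb, dat_A_eb, dat_N_eb]
  simp only [dat]
  ring

lemma pd_pd_eq_S {x : E3} (hx : x ∈ Ext R₀) (k l i j : Fin 3) :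
    pd k (pd l (fun z => g z i j)) x = (dat φ G x).S (eb k) (eb l) (eb i) (eb j) := by
  rw [H.pd_pd_g hx]
  simp only [Dat.S, dat_Y_eb, dat_A_eb, dat_N_eb, dat_B_eb]
  simp only [dat]

lemma Gam_eq_G {x : E3} (hx : x ∈ Ext R₀) (m i j : Fin 3) :
    Gam g x m i j = (dat φ G x).G (eb m) (eb i) (eb j) := by
  simp only [Gam, Dat.G, H.pd_eq_T hx]

variable {κ : Type} [Fintype κ] {f : κ → V3}

lemma Rm_eq_R {x : E3} (hx : x ∈ Ext R₀)
    (hM : ∀ i j, ginv g x i j = ∑ a, f a i * f a j) (i j k l : Fin 3) :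
    Rm g x i j k l = (dat φ G x).R f (eb i) (eb j) (eb k) (eb l) := by
  unfold Rm Dat.R
  simp only [H.Gam_eq_G hx, H.pd_pd_eq_S hx]
  congr 1
  exact Lin2.contract (f := f) hM
    (B := fun u v => (dat φ G x).G u (eb j) (eb k) * (dat φ G x).G v (eb i) (eb l)
      - (dat φ G x).G u (eb i) (eb k) * (dat φ G x).G v (eb j) (eb l))
    ⟨fun u v b => by simp only [Dat.G_add1]; ring, fun t v b => by simp only [Dat.G_smul1]; ring,
     fun u v b => by simp only [Dat.G_add1]; ring, fun t v b => by simp only [Dat.G_smul1]; ring⟩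

lemma Ric_eq {x : E3} (hx : x ∈ Ext R₀)
    (hM : ∀ i j, ginv g x i j = ∑ a, f a i * f a j) (j l : Fin 3) :
    Ric g x j l = (dat φ G x).Rc f (eb j) (eb l) := by
  unfold Ric Dat.Rc
  simp only [H.Rm_eq_R hx hM]
  exact Lin2.contract (f := f) hM
    (B := fun u v => (dat φ G x).R f u (eb j) v (eb l))
    ⟨fun u v b => by simp only [Dat.R_add1], fun t v b => by simp only [Dat.R_smul1],
     fun u v b => by simp only [Dat.R_add3], fun t v b => by simp only [Dat.R_smul3]⟩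

lemma Scal_eq {x : E3} (hx : x ∈ Ext R₀)
    (hM : ∀ i j, ginv g x i j = ∑ a, f a i * f a j) :
    Scal g x = ∑ a, (dat φ G x).Rc f (f a) (f a) := by
  unfold Scal
  simp only [H.Ric_eq hx hM]
  exact Lin2.contract (f := f) hM ((dat φ G x).lin2_Rc f)

end Cls

end

end Run7.h204.Pen
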