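import Pool.Agent.Run7.h204.PenCalc

/-! The scalar curvature of `φ(|x|²) δ + G(x) x ⊗ x` at a point where `G` has no tangential
derivative. -/

namespace Run7.h204.Pen

open scoped BigOperators ContDiff Topology Matrix
open MeasureTheory Filter Metric
open Pool.Agent.H498R3.GB

noncomputable section

/-- Euclidean product -/
def dp (u v : V3) : ℝ := ∑ i, u i * v i

lemma dp_comm (u v : V3) : dp u v = dp v u := by simp [dp, mul_comm]

/-- `n = x / |x|`, `e₁`, `e₂` is an orthonormal basis. -/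
structure Frame (x : E3) (n e₁ e₂ : V3) : Prop where
  x_eq : ∀ i, x i = ‖x‖ * n i
  nn : dp n n = 1
  n1 : dp n e₁ = 0
  n2 : dp n e₂ = 0
  e11 : dp e₁ e₁ = 1
  e22 : dp e₂ e₂ = 1
  e12 : dp e₁ e₂ = 0
  compl : ∀ i j, n i * n j + e₁ i * e₁ j + e₂ i * e₂ j = (1 : Matrix (Fin 3) (Fin 3) ℝ) i j

lemma inner_eq_dp (u v : E3) : inner ℝ u v = dp u.ofLp v.ofLp := by
  rw [PiLp.inner_apply]
  unfold dp
  refine Finset.sum_congr rfl fun i _ => ?_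
  simp [mul_comm]

lemma exists_frame {x : E3} (hx : 0 < ‖x‖) : ∃ n e₁ e₂ : V3, Frame x n e₁ e₂ := by
  have hn : ‖x‖ ≠ 0 := hx.ne'
  have h1 : ‖(‖x‖⁻¹ • x : E3)‖ = 1 := by
    rw [norm_smul, norm_inv, norm_norm, inv_mul_cancel₀ hn]
  obtain ⟨b, hb⟩ := Orthonormal.exists_orthonormalBasis_extension_of_card_eq (𝕜 := ℝ) (E := E3)
    (ι := Fin 3) (by simp) (v := fun _ => ‖x‖⁻¹ • x) (s := {0}) (by
      constructor
      · rintro ⟨i, hi⟩
        simpa using h1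
      · rintro ⟨i, hi⟩ ⟨j, hj⟩ hij
        exfalso
        apply hij
        simp only [Set.mem_singleton_iff] at hi hj
        subst hi; subst hj; rfl)
  have hb0 : b 0 = ‖x‖⁻¹ • x := hb 0 (by simp)
  have ho := b.orthonormal
  have hno : ∀ i, dp (b i).ofLp (b i).ofLp = 1 := by
    intro i
    rw [← inner_eq_dp, real_inner_self_eq_norm_sq, ho.1 i]; norm_num
  have hor : ∀ i j, i ≠ j → dp (b i).ofLp (b j).ofLp = 0 := by
    intro i j hij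
    rw [← inner_eq_dp]; exact ho.2 hij
  refine ⟨(b 0).ofLp, (b 1).ofLp, (b 2).ofLp, ?_, hno 0, hor 0 1 (by decide), hor 0 2 (by decide),
    hno 1, hno 2, hor 1 2 (by decide), ?_⟩
  · intro i
    rw [hb0]
    show x i = ‖x‖ * (‖x‖⁻¹ * x i)
    field_simp
  · intro i j
    have h2 := b.sum_inner_mul_inner (EuclideanSpace.single i 1) (EuclideanSpace.single j 1)
    rw [Fin.sum_univ_three] at h2
    simp only [EuclideanSpace.inner_single_left, EuclideanSpace.inner_single_right, map_one,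
      one_mul] at h2
    simp at h2
    rw [h2, Matrix.one_apply]
    by_cases hij : i = j
    · subst hij; simp
    · rw [if_neg hij, if_neg (fun h => hij h.symm)]

section
variable {g h : Field} {R₀ : ℝ} {φ : ℝ → ℝ} {G : E3 → ℝ} {x : E3} {n e₁ e₂ : V3}

/-- the `g`-orthonormal frame -/
def fr (P W : ℝ) (n e₁ e₂ : V3) : Fin 3 → V3 :=
  ![(Real.sqrt W)⁻¹ • n, (Real.sqrt P)⁻¹ • e₁, (Real.sqrt P)⁻¹ • e₂]

lemma inv_sqrt_mul {W : ℝ} (hW : 0 < W) (a b : ℝ) :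
    (Real.sqrt W)⁻¹ * a * ((Real.sqrt W)⁻¹ * b) = W⁻¹ * (a * b) := by
  have h := Real.sq_sqrt hW.le
  have h0 := Real.sqrt_pos.2 hW
  field_simp
  rw [h]
  ring

lemma ginv_fr (H : Cls g R₀ φ G) (hx : x ∈ Ext R₀) (hf : Frame x n e₁ e₂)
    (hP : 0 < φ (‖x‖ ^ 2)) (hW : 0 < φ (‖x‖ ^ 2) + G x * ‖x‖ ^ 2) (i j : Fin 3) :
    ginv g x i j = ∑ a, fr (φ (‖x‖ ^ 2)) (φ (‖x‖ ^ 2) + G x * ‖x‖ ^ 2) n e₁ e₂ a i *
      fr (φ (‖x‖ ^ 2)) (φ (‖x‖ ^ 2) + G x * ‖x‖ ^ 2) n e₁ e₂ a j := by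
  set P := φ (‖x‖ ^ 2) with hPd
  set W := P + G x * ‖x‖ ^ 2 with hWd
  have hsum : ∀ i j : Fin 3, ∑ a, fr P W n e₁ e₂ a i * fr P W n e₁ e₂ a j =
      P⁻¹ * (1 : Matrix (Fin 3) (Fin 3) ℝ) i j + (W⁻¹ - P⁻¹) * (n i * n j) := by
    intro i j
    rw [Fin.sum_univ_three]
    show (Real.sqrt W)⁻¹ * n i * ((Real.sqrt W)⁻¹ * n j) +
      (Real.sqrt P)⁻¹ * e₁ i * ((Real.sqrt P)⁻¹ * e₁ j) +
      (Real.sqrt P)⁻¹ * e₂ i * ((Real.sqrt P)⁻¹ * e₂ j) = _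
    rw [inv_sqrt_mul hW, inv_sqrt_mul hP, inv_sqrt_mul hP, ← hf.compl i j]
    ring
  rw [hsum]
  let M : Matrix (Fin 3) (Fin 3) ℝ := Matrix.of fun i j =>
    P⁻¹ * (1 : Matrix (Fin 3) (Fin 3) ℝ) i j + (W⁻¹ - P⁻¹) * (n i * n j)
  have hM : (g x) * M = 1 := by
    ext a c
    rw [Matrix.mul_apply]
    have e : ∀ k, g x a k * M k c =
        (P * (1 : Matrix (Fin 3) (Fin 3) ℝ) a k) * (P⁻¹ * (1 : Matrix (Fin 3) (Fin 3) ℝ) k c)
        + P * (W⁻¹ - P⁻¹) * ((1 : Matrix (Fin 3) (Fin 3) ℝ) a k * n k) * n c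
        + G x * P⁻¹ * x a * (x k * (1 : Matrix (Fin 3) (Fin 3) ℝ) k c)
        + G x * (W⁻¹ - P⁻¹) * x a * (‖x‖ * (n k * n k)) * n c := by
      intro k
      rw [H.metric x hx a k]
      simp only [M, Matrix.of_apply]
      rw [hf.x_eq k]
      ring
    have s1 : ∑ k, (P * (1 : Matrix (Fin 3) (Fin 3) ℝ) a k) *
        (P⁻¹ * (1 : Matrix (Fin 3) (Fin 3) ℝ) k c) = (1 : Matrix (Fin 3) (Fin 3) ℝ) a c := by
      have : ∀ k, (P * (1 : Matrix (Fin 3) (Fin 3) ℝ) a k) *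
        (P⁻¹ * (1 : Matrix (Fin 3) (Fin 3) ℝ) k c) = (1 : Matrix (Fin 3) (Fin 3) ℝ) a k *
          (1 : Matrix (Fin 3) (Fin 3) ℝ) k c := by
        intro k; field_simp
      simp only [this]
      rw [← Matrix.mul_apply, Matrix.one_mul]
    have s2 : ∑ k, (1 : Matrix (Fin 3) (Fin 3) ℝ) a k * n k = n a := by
      simp [Matrix.one_apply]
    have s3 : ∑ k, x k * (1 : Matrix (Fin 3) (Fin 3) ℝ) k c = x c := by
      simp [Matrix.one_apply]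
    have s4 : ∑ k, n k * n k = 1 := hf.nn
    simp only [e, Finset.sum_add_distrib, ← Finset.sum_mul, ← Finset.mul_sum, s2, s3, s4]
    have s1' : (∑ k, (P * (1 : Matrix (Fin 3) (Fin 3) ℝ) a k) *
        (P⁻¹ * (1 : Matrix (Fin 3) (Fin 3) ℝ) k c)) = _ := s1
    simp only [← Finset.mul_sum, mul_assoc] at s1' ⊢
    rw [s1', hf.x_eq a, hf.x_eq c]
    have : P * ((W⁻¹ - P⁻¹) * (n a * n c)) + G x * (P⁻¹ * (‖x‖ * (n a * (‖x‖ * n c)))) +
        G x * ((W⁻¹ - P⁻¹) * (‖x‖ * (n a * (‖x‖ * (1 * n c))))) =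
        ((P + G x * ‖x‖ ^ 2) * W⁻¹ - 1) * (n a * n c) := by
      field_simp
      ring
    have h0 : (P + G x * ‖x‖ ^ 2) * W⁻¹ - 1 = 0 := by
      rw [← hWd, mul_inv_cancel₀ hW.ne']; ring
    rw [h0] at this
    linarith
  have h1 : ginv g x = M := by
    unfold ginv
    exact Matrix.inv_eq_right_inv hM
  rw [h1]
  rfl

end

end

end Run7.h204.Pen
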