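import Pool.Agent.H498R3.GBDefs

/-!
Initial data sets `(M, g, h)` on `M = ℝ³ ∖ F`, `F` finite: the points of `F` and infinity are the
ends. Energy and momentum density, asymptotic flatness, ADM mass, the infimum `A` of the areas of
the boundaries of the regions which separate the ends in `F` from infinity, and the Penrose
inequality for the end at infinity.

From `Pool.Agent.H498R3.GB`: `E n` is Euclidean space, `MetricField n` a field of matrices
`T_ij(x)`, `pd i f x` the partial derivative, `ginv g x` the inverse matrix, `Gam g x m i j` the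
Christoffel symbols of the first kind, `Scal g x` the scalar curvature, `volDensity g x = √ det g`,
`sphereIntegral f r` the integral of `f` over the Euclidean sphere of radius `r`.
-/

namespace Run7.h204.Pen

open scoped BigOperators ContDiff Topology Matrix ENNReal
open MeasureTheory Filter Metric
open Pool.Agent.H498R3.GB

noncomputable section

/-- `ℝ³`. -/
abbrev E3 := E 3

/-- A field of matrices: the components of a symmetric 2-tensor on (a part of) `ℝ³`. -/
abbrev Field := MetricField 3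

/-- The manifold `M = ℝ³ ∖ F`. -/
def Mfd (F : Finset E3) : Set E3 := {x | x ∉ F}

/-- The Christoffel symbols of the second kind `Γ^l_ij = g^{lm} Γ_{m,ij}`. -/
def Chr (g : Field) (x : E3) (l i j : Fin 3) : ℝ := ∑ m, ginv g x l m * Gam g x m i j

/-- The covariant derivative `(∇_k T)_ij = ∂_k T_ij - Γ^l_ki T_lj - Γ^l_kj T_il`. -/
def covD (g T : Field) (x : E3) (k i j : Fin 3) : ℝ :=
  pd k (fun z => T z i j) x - ∑ l, Chr g x l k i * T x l j - ∑ l, Chr g x l k j * T x i l

/-- The divergence `(div_g T)_i = g^{jk} (∇_k T)_ij`. -/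
def divT (g T : Field) (x : E3) (i : Fin 3) : ℝ := ∑ j, ∑ k, ginv g x j k * covD g T x k i j

/-- The trace `tr_g T = g^{ij} T_ij`. -/
def trT (g T : Field) (x : E3) : ℝ := ∑ i, ∑ j, ginv g x i j * T x i j

/-- The square of the norm `|T|_g² = g^{ik} g^{jl} T_ij T_kl`. -/
def normSqT (g T : Field) (x : E3) : ℝ :=
  ∑ i, ∑ j, ∑ k, ∑ l, ginv g x i k * ginv g x j l * T x i j * T x k l

/-- The energy density `μ = (R_g - |h|_g² + (tr_g h)²) / 2`. -/
def energyDensity (g h : Field) (x : E3) : ℝ := (Scal g x - normSqT g h x + trT g h x ^ 2) / 2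

/-- The momentum density `J = div_g (h - (tr_g h) g)`. -/
def momentumDensity (g h : Field) (x : E3) (i : Fin 3) : ℝ :=
  divT g (fun z => h z - trT g h z • g z) x i

/-- The norm `|a|_g = √(g^{ij} a_i a_j)` of a covector. -/
def covNorm (g : Field) (x : E3) (a : Fin 3 → ℝ) : ℝ :=
  Real.sqrt (∑ i, ∑ j, ginv g x i j * a i * a j)

/-- `(g, h)` is an initial data set on `M = ℝ³ ∖ F`: a smooth Riemannian metric and a smooth
symmetric 2-tensor. -/
structure IsInitialData (F : Finset E3) (g h : Field) : Prop where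
  riemannian : IsRiemannianOn g (Mfd F)
  smooth : ∀ i j, ContDiffOn ℝ ∞ (fun x => h x i j) (Mfd F)
  symm : ∀ x ∈ Mfd F, ∀ i j, h x i j = h x j i

/-- The dominant energy condition `μ ≥ |J|_g` on `M`. -/
def DominantEnergy (F : Finset E3) (g h : Field) : Prop :=
  ∀ x ∈ Mfd F, covNorm g x (momentumDensity g h x) ≤ energyDensity g h x

/-- Asymptotic flatness at infinity in the coordinates of `ℝ³`: `g_ij - δ_ij = O(r⁻¹)`,
`∂ g_ij = O(r⁻²)`, `∂∂ g_ij = O(r⁻³)`, `h_ij = O(r⁻²)`, `∂ h_ij = O(r⁻³)`. -/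
def FlatAtInfinity (g h : Field) : Prop :=
  ∃ C R : ℝ, 0 < R ∧ ∀ x : E3, R ≤ ‖x‖ → ∀ i j k l : Fin 3,
    |g x i j - (1 : Matrix (Fin 3) (Fin 3) ℝ) i j| ≤ C / ‖x‖ ∧
    |pd k (fun z => g z i j) x| ≤ C / ‖x‖ ^ 2 ∧
    |pd l (pd k (fun z => g z i j)) x| ≤ C / ‖x‖ ^ 3 ∧
    |h x i j| ≤ C / ‖x‖ ^ 2 ∧
    |pd k (fun z => h z i j) x| ≤ C / ‖x‖ ^ 3

/-- The inversion `y ↦ p + y / |y|²`, which takes a neighbourhood of infinity to a punctured
neighbourhood of `p`. -/
def inversion (p y : E3) : E3 := p + (‖y‖ ^ 2)⁻¹ • y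

/-- The components of the 2-tensor `T` in the coordinates `y`, `x = p + y / |y|²`:
`T_ab(x(y)) ∂_i x_a ∂_j x_b`. -/
def pullback (p : E3) (T : Field) : Field := fun y => Matrix.of fun i j =>
  ∑ a, ∑ b, T (inversion p y) a b * pd i (fun z => inversion p z a) y *
    pd j (fun z => inversion p z b) y

/-- The data are asymptotically flat, with the end at infinity (coordinates `x`) and one end at each
point `p ∈ F` (coordinates `y`, `x = p + y / |y|²`). -/
def AsymptoticallyFlat (F : Finset E3) (g h : Field) : Prop :=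
  FlatAtInfinity g h ∧ ∀ p ∈ F, FlatAtInfinity (pullback p g) (pullback p h)

/-- `m` is the ADM mass of the end at infinity:
`m = (1 / 16π) lim_{r → ∞} ∫_{|x| = r} (∂_i g_ij - ∂_j g_ii) ν^j dA`. -/
def HasMass (g : Field) (m : ℝ) : Prop :=
  Tendsto (fun r : ℝ => 1 / (16 * Real.pi) * sphereIntegral (fun x : E3 =>
    ∑ i, ∑ j, (pd i (fun z => g z i j) x - pd j (fun z => g z i i) x) * (x j / ‖x‖)) r)
    atTop (𝓝 m)

/-- `U ⊆ M` is open with smooth boundary, contains the ends in `F` and does not contain the end at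
infinity; its boundary in `M` is compact. -/
structure Separates (F : Finset E3) (U : Set E3) : Prop where
  smooth : ∃ φ : E3 → ℝ, ContDiffOn ℝ ∞ φ (Mfd F) ∧ U = {x ∈ Mfd F | φ x < 0} ∧
    ∀ x ∈ Mfd F, φ x = 0 → fderiv ℝ φ x ≠ 0
  ends : ∀ p ∈ F, ∃ δ > 0, ∀ x, 0 < dist x p → dist x p < δ → x ∈ U
  bounded : ∃ R : ℝ, ∀ x ∈ U, ‖x‖ ≤ R

/-- `X` is a `C¹` vector field with compact support in `M` and `|X|_g ≤ 1`. -/
structure IsTestField (F : Finset E3) (g : Field) (X : E3 → E3) : Prop where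
  smooth : ContDiff ℝ 1 X
  compact : HasCompactSupport X
  support : tsupport X ⊆ Mfd F
  le_one : ∀ x ∈ Mfd F, ∑ i, ∑ j, g x i j * X x i * X x j ≤ 1

/-- The `g`-area of the boundary of `U` in `M`, as the perimeter
`sup ∫_U div_g X dV_g = sup ∫_U ∂_i (√(det g) X^i) dx` over the test fields. -/
def boundaryArea (F : Finset E3) (g : Field) (U : Set E3) : ℝ≥0∞ :=
  ⨆ (X : E3 → E3) (_ : IsTestField F g X),
    ENNReal.ofReal (∫ x in U, ∑ i, pd i (fun z => volDensity g z * X z i) x)

/-- `A`: the infimum of the areas of the boundaries of the regions which contain the ends in `F` and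
do not contain the end at infinity. -/
def minArea (F : Finset E3) (g : Field) : ℝ≥0∞ :=
  ⨅ (U : Set E3) (_ : Separates F U), boundaryArea F g U

/-! ### Apparent horizons -/

/-- Asymptotic flatness at infinity, in the weaker form `g_ij - δ_ij = O(r⁻¹)`, `∂ g_ij = O(r⁻²)`, `h_ij = O(r⁻²)`. -/
def FlatEnd (g h : Field) : Prop :=
  ∃ C R : ℝ, 0 < R ∧ ∀ x : E3, R ≤ ‖x‖ → ∀ i j k : Fin 3,
    |g x i j - (1 : Matrix (Fin 3) (Fin 3) ℝ) i j| ≤ C / ‖x‖ ∧
    |pd k (fun z => g z i j) x| ≤ C / ‖x‖ ^ 2 ∧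
    |h x i j| ≤ C / ‖x‖ ^ 2

/-- The ADM momentum of the end at infinity:
`P_i = (1 / 8π) lim_{r → ∞} ∫_{|x| = r} (h_ij - (tr_g h) g_ij) ν^j dA`. -/
def HasMomentum (g h : Field) (P : Fin 3 → ℝ) : Prop :=
  ∀ i, Tendsto (fun r : ℝ => 1 / (8 * Real.pi) * sphereIntegral (fun x : E3 =>
    ∑ j, (h x i j - trT g h x * g x i j) * (x j / ‖x‖)) r) atTop (𝓝 (P i))

/-- The least area needed to enclose the sphere `|x| = r`: the infimum of the areas of the
boundaries of the regions which contain the part `|x| < r` of `M` and the ends in `F`, and do not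
contain the end at infinity. -/
def enclosingArea (F : Finset E3) (g : Field) (r : ℝ) : ℝ≥0∞ :=
  ⨅ (U : Set E3) (_ : Separates F U ∧ {x | x ∈ Mfd F ∧ ‖x‖ < r} ⊆ U), boundaryArea F g U

/-! ### Quantities on the spheres `|x| = r` -/

/-- The squared `g`-norm `g^{ij} n_i n_j` of the covector `n = x / |x|`. -/
def conormSq (g : Field) (x : E3) : ℝ :=
  ∑ i, ∑ j, ginv g x i j * (x i / ‖x‖) * (x j / ‖x‖)

/-- The outward `g`-unit normal `ν^i` of the sphere centred at `0` through `x`. -/
def normal (g : Field) (x : E3) (i : Fin 3) : ℝ :=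
  (∑ j, ginv g x i j * (x j / ‖x‖)) / Real.sqrt (conormSq g x)

/-- The mean curvature at `x` of the sphere centred at `0` through `x`, with respect to the outward
normal: `div_g ν = (det g)^{-1/2} ∂_i ((det g)^{1/2} ν^i)`. -/
def meanCurv (g : Field) (x : E3) : ℝ :=
  (∑ i, pd i (fun z => volDensity g z * normal g z i) x) / volDensity g x

/-- The trace of `h` over the tangent space of the sphere centred at `0` through `x`:
`tr_g h - h(ν, ν)`. -/
def sphereTrace (g h : Field) (x : E3) : ℝ :=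
  trT g h x - ∑ i, ∑ j, h x i j * normal g x i * normal g x j

/-- The tangential part of the covector `h(n, ·)`, `n = x / |x|`. -/
def mixedPart (h : Field) (x : E3) (i : Fin 3) : ℝ :=
  (∑ j, h x i j * (x j / ‖x‖)) -
    (∑ j, ∑ k, h x j k * (x j / ‖x‖) * (x k / ‖x‖)) * (x i / ‖x‖)

/-- The divergence of the tangential part of `h(n, ·)`. -/
def mixedDiv (h : Field) (x : E3) : ℝ := ∑ i, pd i (fun z => mixedPart h z i) x

/-- `2 |h(ν, ·)|² + |h°|²` at `x`, where `h(ν, ·)` is restricted to the tangent space of the sphere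
and `h°` is the trace-free part of `h` on it: `|h|_g² - h(ν, ν)² - (tr_S h)² / 2`. -/
def transSq (g h : Field) (x : E3) : ℝ :=
  normSqT g h x - (∑ i, ∑ j, h x i j * normal g x i * normal g x j) ^ 2 -
    sphereTrace g h x ^ 2 / 2

/-- The sphere `|x| = r` is weakly trapped (to the future or to the past, at each point):
`H ≤ |tr_S h|`. Minimal spheres are weakly trapped. -/
def WeaklyTrapped (g h : Field) (r : ℝ) : Prop :=
  ∀ x : E3, ‖x‖ = r → meanCurv g x ≤ |sphereTrace g h x|

/-- For `|x| > R₀` the metric is `g_ij = φ(|x|²) δ_ij + G(x) x_i x_j`, where `G` is arbitrary, and on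
every sphere `|x| = r > R₀` which is not weakly trapped there is a point `y` at which `G` and
`|tr_S h|` are minimal and `(tr_S h) (div β) / √(det g) + H (2 |h(ν, ·)|² + |h°|²) / 2 ≥ 0`, where `β`
is the tangential part of `h(n, ·)`. -/
structure Adapted (g h : Field) (R₀ : ℝ) (φ : ℝ → ℝ) (G : E3 → ℝ) : Prop where
  smooth_radial : ContDiffOn ℝ ∞ φ (Set.Ioi (R₀ ^ 2))
  smooth : ContDiffOn ℝ ∞ G {x | R₀ < ‖x‖}
  metric : ∀ x : E3, R₀ < ‖x‖ → ∀ i j,
    g x i j = φ (‖x‖ ^ 2) * (1 : Matrix (Fin 3) (Fin 3) ℝ) i j + G x * (x i * x j)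
  point : ∀ r, R₀ < r → ¬ WeaklyTrapped g h r →
    ∃ y : E3, ‖y‖ = r ∧ (∀ x : E3, ‖x‖ = r → G y ≤ G x) ∧
      (∀ x : E3, ‖x‖ = r → |sphereTrace g h y| ≤ |sphereTrace g h x|) ∧
      0 ≤ sphereTrace g h y * mixedDiv h y / volDensity g y +
        meanCurv g y * transSq g h y / 2

end

end Run7.h204.Pen
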