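import Pool.Agent.Run7.h204.PenMass

/-! The flux of a vector field through a sphere, by radial cutoffs. -/

namespace Run7.h204.Pen

open scoped BigOperators ContDiff Topology Matrix
open MeasureTheory Filter Metric
open Pool.Agent.H498R3.GB

noncomputable section

/-- the argument of the cutoff -/
def ucut (a b t : ℝ) : ℝ := (b ^ 2 - t) / (b ^ 2 - a ^ 2)

/-- the radial profile of the cutoff, a function of `|x|²` -/
def cut (a b t : ℝ) : ℝ := Real.smoothTransition (ucut a b t)

section
variable {a b : ℝ} (ha : 0 < a) (hab : a < b)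
include ha hab

lemma dpos : 0 < b ^ 2 - a ^ 2 := by nlinarith

lemma cut_one {t : ℝ} (ht : t ≤ a ^ 2) : cut a b t = 1 := by
  have := dpos ha hab
  exact Real.smoothTransition.one_of_one_le (by
    unfold ucut; rw [le_div_iff₀ this]; linarith)

lemma cut_zero {t : ℝ} (ht : b ^ 2 ≤ t) : cut a b t = 0 := by
  have := dpos ha hab
  exact Real.smoothTransition.zero_of_nonpos (by
    unfold ucut; exact div_nonpos_of_nonpos_of_nonneg (by linarith) this.le)

omit ha hab in
lemma cut_contDiff : ContDiff ℝ ∞ (cut a b) := by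
  unfold cut ucut
  exact Real.smoothTransition.contDiff.comp ((contDiff_const.sub contDiff_id).div_const _)

omit ha hab in
lemma cut_deriv (t : ℝ) : HasDerivAt (cut a b)
    (deriv Real.smoothTransition (ucut a b t) * (-1 / (b ^ 2 - a ^ 2))) t := by
  have h1 : HasDerivAt (ucut a b) (-1 / (b ^ 2 - a ^ 2)) t := by
    unfold ucut
    have := ((hasDerivAt_const t (b ^ 2)).fun_sub (hasDerivAt_id t)).div_const (b ^ 2 - a ^ 2)
    simpa using this
  have h2 : HasDerivAt Real.smoothTransition (deriv Real.smoothTransition (ucut a b t))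
      (ucut a b t) :=
    ((Real.smoothTransition.contDiff (n := 1)).differentiable (by simp) _).hasDerivAt
  exact h2.comp t h1

lemma cut_deriv_nonpos (t : ℝ) : deriv (cut a b) t ≤ 0 := by
  have := dpos ha hab
  rw [(cut_deriv t).deriv]
  have h1 : 0 ≤ deriv Real.smoothTransition (ucut a b t) :=
    Real.smoothTransition.monotone.deriv_nonneg
  have h2 : -1 / (b ^ 2 - a ^ 2) ≤ 0 := div_nonpos_of_nonpos_of_nonneg (by norm_num) this.le
  exact mul_nonpos_of_nonneg_of_nonpos h1 h2

/-- outside `[a², b²]` the derivative vanishes -/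
lemma cut_deriv_left {t : ℝ} (ht : t < a ^ 2) : deriv (cut a b) t = 0 := by
  have : cut a b =ᶠ[𝓝 t] fun _ => 1 := by
    filter_upwards [gt_mem_nhds ht] with s hs
    exact cut_one ha hab hs.le
  rw [this.deriv_eq]; simp

lemma cut_deriv_right {t : ℝ} (ht : b ^ 2 < t) : deriv (cut a b) t = 0 := by
  have : cut a b =ᶠ[𝓝 t] fun _ => 0 := by
    filter_upwards [lt_mem_nhds ht] with s hs
    exact cut_zero ha hab hs.le
  rw [this.deriv_eq]; simp

/-- the one dimensional integral -/
lemma integral_cut : ∫ y in Set.Ioi (0 : ℝ), -(2 * y * deriv (cut a b) (y ^ 2)) = 1 := by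
  have hd : ∀ y : ℝ, HasDerivAt (fun y => -(cut a b (y ^ 2))) (-(2 * y * deriv (cut a b) (y ^ 2)))
      y := by
    intro y
    have h1 : HasDerivAt (cut a b) (deriv (cut a b) (y ^ 2)) (y ^ 2) :=
      ((cut_contDiff (a := a) (b := b)).differentiable (by simp) _).hasDerivAt
    have h2 : HasDerivAt (fun y : ℝ => y ^ 2) (2 * y) y := by simpa using hasDerivAt_pow 2 y
    have h3 := (HasDerivAt.comp (h₂ := cut a b) (h := fun y : ℝ => y ^ 2) y h1 h2).neg
    refine h3.congr_deriv ?_
    ring
  have h1 := integral_Ioi_of_hasDerivAt_of_nonneg' (a := (0 : ℝ)) (l := (0 : ℝ))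
    (g := fun y => -(cut a b (y ^ 2))) (g' := fun y => -(2 * y * deriv (cut a b) (y ^ 2)))
    (fun y _ => hd y) (fun y hy => by
      have hy' : 0 < y := hy
      have := cut_deriv_nonpos ha hab (y ^ 2)
      nlinarith) (by
      have : (fun y : ℝ => -(cut a b (y ^ 2))) =ᶠ[atTop] fun _ => 0 := by
        filter_upwards [eventually_ge_atTop b] with y hy
        rw [cut_zero ha hab (by have : 0 < b := ha.trans hab
                                gcongr)]
        simp
      rw [tendsto_congr' this]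
      exact tendsto_const_nhds)
  rw [h1]
  simp only [ne_eq, OfNat.ofNat_ne_zero, not_false_eq_true, zero_pow]
  rw [cut_one ha hab (by positivity)]
  norm_num

/-- polar coordinates -/
lemma integral_cut_norm (M : ℝ) :
    ∫ x : E3, -(2 * deriv (cut a b) (‖x‖ ^ 2)) * (M / ‖x‖) = 4 * Real.pi * M := by
  have h := integral_fun_norm_addHaar (volume : Measure E3)
    (fun y : ℝ => -(2 * deriv (cut a b) (y ^ 2)) * (M / y))
  rw [h]
  have hd : Module.finrank ℝ E3 = 3 := by simp
  rw [hd]
  have e : ∫ y in Set.Ioi (0 : ℝ), y ^ (3 - 1) • (-(2 * deriv (cut a b) (y ^ 2)) * (M / y)) =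
      ∫ y in Set.Ioi (0 : ℝ), M * (-(2 * y * deriv (cut a b) (y ^ 2))) := by
    refine setIntegral_congr_fun measurableSet_Ioi fun y hy => ?_
    have hy' : 0 < y := hy
    simp only [smul_eq_mul]
    field_simp
  rw [e, integral_const_mul, integral_cut ha hab]
  have : (volume : Measure E3).real (ball 0 1) = 4 * Real.pi / 3 := by
    rw [Measure.real, EuclideanSpace.volume_ball_fin_three]
    simp
    rw [ENNReal.toReal_ofReal (by positivity)]
    ring
  rw [this]
  simp
  ring

end

/-- divergence -/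
def dv (Y : E3 → V3) (x : E3) : ℝ := ∑ i, pd i (fun z => Y z i) x

section
variable {a b : ℝ} {Y : E3 → V3}

lemma pd_continuous {f : E3 → ℝ} (hf : ContDiff ℝ 1 f) (i : Fin 3) : Continuous (pd i f) := by
  have : Continuous (fderiv ℝ f) := hf.continuous_fderiv (by simp)
  exact this.clm_apply continuous_const

lemma pd_compact {f : E3 → ℝ} (hf : HasCompactSupport f) (i : Fin 3) :
    HasCompactSupport (pd i f) := by
  have h1 := hf.fderiv (𝕜 := ℝ)
  exact h1.comp_left (g := fun L : E3 →L[ℝ] ℝ => L (EuclideanSpace.single i 1)) (by simp)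

lemma dv_continuous (hY : ∀ i, ContDiff ℝ 1 fun z => Y z i) : Continuous (dv Y) := by
  unfold dv
  exact continuous_finsetSum _ fun i _ => pd_continuous (hY i) i

lemma dv_compact (hc : ∀ i, HasCompactSupport fun z => Y z i) : HasCompactSupport (dv Y) := by
  unfold dv
  simp only [Fin.sum_univ_three]
  exact ((pd_compact (hc 0) 0).add (pd_compact (hc 1) 1)).add (pd_compact (hc 2) 2)

/-- integration by parts against the cutoff -/
lemma by_parts (ha : 0 < a) (hab : a < b) (hY : ∀ i, ContDiff ℝ 1 fun z => Y z i)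
    (hc : ∀ i, HasCompactSupport fun z => Y z i) :
    ∫ x : E3, cut a b (‖x‖ ^ 2) * dv Y x =
      ∫ x : E3, -(2 * deriv (cut a b) (‖x‖ ^ 2)) * ∑ i, x i * Y x i := by
  have hcut : ContDiff ℝ ∞ fun x : E3 => cut a b (‖x‖ ^ 2) :=
    cut_contDiff.comp (contDiff_norm_sq ℝ)
  have hcut1 : ContDiff ℝ 1 fun x : E3 => cut a b (‖x‖ ^ 2) := hcut.of_le (by simp)
  have hcont := hcut.continuous
  have i1 : ∀ i, Integrable fun x : E3 => cut a b (‖x‖ ^ 2) * pd i (fun z => Y z i) x := by
    intro i
    exact (hcont.mul (pd_continuous (hY i) i)).integrable_of_hasCompactSupport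
      ((pd_compact (hc i) i).mul_left)
  have i2 : ∀ i, Integrable fun x : E3 => pd i (fun x : E3 => cut a b (‖x‖ ^ 2)) x * Y x i := by
    intro i
    exact ((pd_continuous hcut1 i).mul (hY i).continuous).integrable_of_hasCompactSupport
      ((hc i).mul_left)
  have i3 : ∀ i, Integrable fun x : E3 => cut a b (‖x‖ ^ 2) * Y x i := by
    intro i
    exact (hcont.mul (hY i).continuous).integrable_of_hasCompactSupport ((hc i).mul_left)
  have key : ∀ i, ∫ x : E3, cut a b (‖x‖ ^ 2) * pd i (fun z => Y z i) x =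
      - ∫ x : E3, pd i (fun x : E3 => cut a b (‖x‖ ^ 2)) x * Y x i := by
    intro i
    exact integral_mul_fderiv_eq_neg_fderiv_mul_of_integrable (μ := (volume : Measure E3))
      (f := fun x : E3 => cut a b (‖x‖ ^ 2)) (g := fun z => Y z i)
      (v := EuclideanSpace.single i 1) (i2 i) (i1 i) (i3 i)
      (fun x _ => (hcut1.differentiable (by simp)) x)
      (fun x _ => ((hY i).differentiable (by simp)) x)
  have e1 : ∫ x : E3, cut a b (‖x‖ ^ 2) * dv Y x =
      ∑ i, ∫ x : E3, cut a b (‖x‖ ^ 2) * pd i (fun z => Y z i) x := by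
    rw [← integral_finsetSum _ fun i _ => i1 i]
    refine integral_congr_ae (Filter.Eventually.of_forall fun x => ?_)
    simp only [dv, Finset.mul_sum]
  rw [e1]
  simp only [key]
  rw [Finset.sum_neg_distrib, ← integral_finsetSum _ fun i _ => i2 i, ← integral_neg]
  refine integral_congr_ae (Filter.Eventually.of_forall fun x => ?_)
  have hdc : DifferentiableAt ℝ (cut a b) (‖x‖ ^ 2) :=
    (cut_contDiff (a := a) (b := b)).differentiable (by simp) _
  simp only [pd_rad hdc, Finset.mul_sum, ← Finset.sum_neg_distrib]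
  refine Finset.sum_congr rfl fun i _ => by ring

lemma cut_integral_le (ha : 0 < a) (hab : a < b) (hY : ∀ i, ContDiff ℝ 1 fun z => Y z i)
    (hc : ∀ i, HasCompactSupport fun z => Y z i) {M : ℝ} (hM0 : 0 < M)
    (hM : ∀ x : E3, a ≤ ‖x‖ → ‖x‖ ≤ b → (∑ i, x i * Y x i) * ‖x‖ ≤ M) :
    ∫ x : E3, cut a b (‖x‖ ^ 2) * dv Y x ≤ 4 * Real.pi * M := by
  rw [by_parts ha hab hY hc, ← integral_cut_norm ha hab M]
  have hpi := Real.pi_pos
  have hdc : Continuous (deriv (cut a b)) :=
    (cut_contDiff (a := a) (b := b)).continuous_deriv (by simp)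
  have hi1 : Integrable fun x : E3 => -(2 * deriv (cut a b) (‖x‖ ^ 2)) * ∑ i, x i * Y x i := by
    have h1 : Continuous fun x : E3 => -(2 * deriv (cut a b) (‖x‖ ^ 2)) :=
      (continuous_const.mul (hdc.comp (continuous_norm.pow 2))).neg
    have h2 : Continuous fun x : E3 => ∑ i, x i * Y x i :=
      continuous_finsetSum _ fun i _ => ((contDiff_coord (n := 3) i).continuous).mul
        (hY i).continuous
    have h3 : HasCompactSupport fun x : E3 => ∑ i, x i * Y x i := by
      simp only [Fin.sum_univ_three]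
      exact (((hc 0).mul_left).add ((hc 1).mul_left)).add ((hc 2).mul_left)
    exact (h1.mul h2).integrable_of_hasCompactSupport (h3.mul_left)
  have hi2 : Integrable fun x : E3 => -(2 * deriv (cut a b) (‖x‖ ^ 2)) * (M / ‖x‖) := by
    by_contra hni
    have h1 := integral_undef hni
    rw [integral_cut_norm ha hab M] at h1
    have : 0 < 4 * Real.pi * M := by positivity
    linarith
  refine integral_mono hi1 hi2 fun x => ?_
  show -(2 * deriv (cut a b) (‖x‖ ^ 2)) * ∑ i, x i * Y x i ≤
    -(2 * deriv (cut a b) (‖x‖ ^ 2)) * (M / ‖x‖)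
  have hb : 0 < b := ha.trans hab
  by_cases h1 : ‖x‖ < a
  · rw [cut_deriv_left ha hab (by gcongr)]; simp
  by_cases h2 : b < ‖x‖
  · rw [cut_deriv_right ha hab (by gcongr)]; simp
  push Not at h1 h2
  have hx0 : 0 < ‖x‖ := by linarith
  have h3 := cut_deriv_nonpos ha hab (‖x‖ ^ 2)
  have h4 := hM x h1 h2
  have h5 : ∑ i, x i * Y x i ≤ M / ‖x‖ := by rw [le_div_iff₀ hx0]; exact h4
  have h6 : 0 ≤ -(2 * deriv (cut a b) (‖x‖ ^ 2)) := by linarith
  gcongr

lemma ball_integral_le (ha : 0 < a) (hab : a < b) (hY : ∀ i, ContDiff ℝ 1 fun z => Y z i)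
    (hc : ∀ i, HasCompactSupport fun z => Y z i) {K : ℝ} (hK : ∀ x, |dv Y x| ≤ K) :
    ∫ x in ball (0 : E3) a, dv Y x ≤ (∫ x : E3, cut a b (‖x‖ ^ 2) * dv Y x) +
      K * (4 * Real.pi / 3 * (b ^ 3 - a ^ 3)) := by
  have hb : 0 < b := ha.trans hab
  have hcut : ContDiff ℝ ∞ fun x : E3 => cut a b (‖x‖ ^ 2) :=
    cut_contDiff.comp (contDiff_norm_sq ℝ)
  have hdc := dv_continuous hY
  have hint : Integrable fun x : E3 => cut a b (‖x‖ ^ 2) * dv Y x :=
    (hcut.continuous.mul hdc).integrable_of_hasCompactSupport ((dv_compact hc).mul_left)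
  set S : Set E3 := closedBall 0 b \ ball 0 a with hS
  have hSm : MeasurableSet S := measurableSet_closedBall.diff measurableSet_ball
  have hvol : (volume : Measure E3).real S = 4 * Real.pi / 3 * (b ^ 3 - a ^ 3) := by
    rw [hS, measureReal_diff (fun x hx => by
      simp only [mem_ball, mem_closedBall] at hx ⊢; linarith) measurableSet_ball
      (measure_closedBall_lt_top).ne]
    rw [Measure.real, Measure.real, EuclideanSpace.volume_ball_fin_three,
      EuclideanSpace.volume_closedBall_fin_three, ENNReal.toReal_mul, ENNReal.toReal_mul,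
      ENNReal.toReal_pow, ENNReal.toReal_pow, ENNReal.toReal_ofReal ha.le,
      ENNReal.toReal_ofReal hb.le, ENNReal.toReal_ofReal (by positivity)]
    ring
  have h1 : ∫ x : E3, cut a b (‖x‖ ^ 2) * dv Y x =
      (∫ x in ball (0 : E3) a, dv Y x) + ∫ x in S, cut a b (‖x‖ ^ 2) * dv Y x := by
    have e1 : ∫ x in (closedBall (0 : E3) b), cut a b (‖x‖ ^ 2) * dv Y x =
        ∫ x : E3, cut a b (‖x‖ ^ 2) * dv Y x := by
      refine setIntegral_eq_integral_of_forall_compl_eq_zero fun x hx => ?_
      have hx' : b < ‖x‖ := by simpa using hx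
      rw [cut_zero ha hab (by gcongr), zero_mul]
    have e2 : ∫ x in ball (0 : E3) a, dv Y x =
        ∫ x in ball (0 : E3) a, cut a b (‖x‖ ^ 2) * dv Y x := by
      refine setIntegral_congr_fun measurableSet_ball fun x hx => ?_
      have hx' : ‖x‖ < a := by simpa using hx
      rw [cut_one ha hab (by gcongr), one_mul]
    have hdisj : Disjoint (ball (0 : E3) a) S := Set.disjoint_sdiff_right
    have hun : ball (0 : E3) a ∪ S = closedBall 0 b := by
      rw [hS]
      exact Set.union_diff_cancel (fun x hx => by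
        simp only [mem_ball, mem_closedBall] at hx ⊢; linarith)
    rw [e2, ← setIntegral_union hdisj hSm hint.integrableOn hint.integrableOn, hun, e1]
  have h2 : ‖∫ x in S, cut a b (‖x‖ ^ 2) * dv Y x‖ ≤ K * (volume : Measure E3).real S := by
    refine norm_setIntegral_le_of_norm_le_const ?_ fun x _ => ?_
    · refine lt_of_le_of_lt (measure_mono Set.diff_subset) ?_
      exact measure_closedBall_lt_top
    · rw [Real.norm_eq_abs, abs_mul]
      have h3 : |cut a b (‖x‖ ^ 2)| ≤ 1 := by
        have h4 : 0 ≤ cut a b (‖x‖ ^ 2) := Real.smoothTransition.nonneg _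
        rw [abs_of_nonneg h4]
        exact Real.smoothTransition.le_one _
      calc |cut a b (‖x‖ ^ 2)| * |dv Y x| ≤ 1 * K := by
            have := hK x
            gcongr
        _ = K := one_mul K
  rw [hvol, Real.norm_eq_abs] at h2
  have := (abs_le.1 h2).1
  linarith

/-- The integral of the divergence over a ball is at most the weight on the boundary. -/
theorem flux_le {w : ℝ → ℝ} {b₀ : ℝ} (ha : 0 < a) (hY : ∀ i, ContDiff ℝ 1 fun z => Y z i)
    (hc : ∀ i, HasCompactSupport fun z => Y z i) (hw : ContinuousAt w a) (hw0 : 0 ≤ w a)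
    (hab₀ : a < b₀)
    (hbd : ∀ x : E3, a ≤ ‖x‖ → ‖x‖ < b₀ → (∑ i, x i * Y x i) * ‖x‖ ≤ w ‖x‖) :
    ∫ x in ball (0 : E3) a, dv Y x ≤ 4 * Real.pi * w a := by
  have hpi := Real.pi_pos
  obtain ⟨K, hK⟩ : ∃ K, ∀ x, |dv Y x| ≤ K := by
    obtain ⟨K, hK⟩ := (dv_compact hc).exists_bound_of_continuous (dv_continuous hY)
    exact ⟨K, fun x => by simpa using hK x⟩
  have main : ∀ ε : ℝ, 0 < ε → ∫ x in ball (0 : E3) a, dv Y x ≤ 4 * Real.pi * (w a + ε) := by
    intro ε hε
    have hlim : Tendsto (fun b : ℝ => 4 * Real.pi * (w a + ε) +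
        K * (4 * Real.pi / 3 * (b ^ 3 - a ^ 3))) (𝓝[>] a)
        (𝓝 (4 * Real.pi * (w a + ε) + K * (4 * Real.pi / 3 * (a ^ 3 - a ^ 3)))) := by
      have hcont : Continuous (fun b : ℝ => 4 * Real.pi * (w a + ε) +
        K * (4 * Real.pi / 3 * (b ^ 3 - a ^ 3))) := by fun_prop
      exact (hcont.tendsto a).mono_left nhdsWithin_le_nhds
    simp only [sub_self, mul_zero, add_zero] at hlim
    refine ge_of_tendsto hlim ?_
    have hev := hw.eventually (gt_mem_nhds (show w a < w a + ε by linarith))
    obtain ⟨δ, hδ, hball⟩ := Metric.eventually_nhds_iff.1 hev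
    have hnear : ∀ᶠ b in 𝓝[>] a, b < a + δ ∧ b < b₀ := by
      have a1 : ∀ᶠ b in 𝓝[>] a, b < a + δ := nhdsWithin_le_nhds (gt_mem_nhds (by linarith))
      have a2 : ∀ᶠ b in 𝓝[>] a, b < b₀ := nhdsWithin_le_nhds (gt_mem_nhds hab₀)
      exact a1.and a2
    filter_upwards [hnear, self_mem_nhdsWithin] with b hb hb2
    have hab : a < b := hb2
    have h1 := ball_integral_le ha hab hY hc hK
    have h2 := cut_integral_le (Y := Y) ha hab hY hc (M := w a + ε) (by linarith)
      (fun x hx1 hx2 => by
        have h3 := hbd x hx1 (by linarith [hb.2])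
        have h4 : w ‖x‖ < w a + ε := hball (by
          rw [Real.dist_eq, abs_of_nonneg (by linarith)]; linarith [hb.1])
        linarith)
    linarith
  refine le_of_forall_pos_le_add fun ε hε => ?_
  have := main (ε / (4 * Real.pi)) (by positivity)
  have e : 4 * Real.pi * (w a + ε / (4 * Real.pi)) = 4 * Real.pi * w a + ε := by
    field_simp
  linarith

end

end

end Run7.h204.Pen
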