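import Pool.Agent.Run7.h204.PenPoint

/-! The pointwise Hawking mass is bounded below outside the outermost weakly trapped sphere. -/

namespace Run7.h204.Pen

open scoped BigOperators ContDiff Topology Matrix
open MeasureTheory Filter Metric
open Pool.Agent.H498R3.GB

noncomputable section

/-- the standing assumptions on the exterior region -/
structure Ctx (g h : Field) (R₀ : ℝ) (φ : ℝ → ℝ) (G : E3 → ℝ) : Prop where
  cls : Cls g R₀ φ G
  pos : Pos R₀ φ G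
  dh : Dh R₀ h
  sh : Sh R₀ h
  good : ∀ r, R₀ < r → ¬ WeaklyTrapped g h r → ∃ y : E3, ‖y‖ = r ∧ Good g h G y
  dec : ∀ x ∈ Ext R₀, covNorm g x (momentumDensity g h x) ≤ energyDensity g h x

/-- `φ + r² φ'` -/
def Lr (φ : ℝ → ℝ) (r : ℝ) : ℝ := φ (r ^ 2) + r ^ 2 * deriv φ (r ^ 2)

/-- the radii of the weakly trapped spheres -/
def Bset (g h : Field) (R₀ : ℝ) : Set ℝ := {r | R₀ < r ∧ WeaklyTrapped g h r}

section
variable {g h : Field} {R₀ : ℝ} {φ : ℝ → ℝ} {G : E3 → ℝ} {x y z : E3} {n e₁ e₂ : V3}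

namespace Ctx

variable (C : Ctx g h R₀ φ G)
include C

lemma nn : 0 ≤ R₀ := C.cls.nn

lemma P_cont (hx : x ∈ Ext R₀) : ContinuousAt (fun z : E3 => φ (‖z‖ ^ 2)) x :=
  (diff_rad (C.cls.phi_d hx)).continuousAt

lemma F_cont (hx : x ∈ Ext R₀) : ContinuousAt (fun z : E3 => deriv φ (‖z‖ ^ 2)) x :=
  (diff_rad (C.cls.phi_d' hx)).continuousAt

lemma W_cont (hx : x ∈ Ext R₀) : ContinuousAt (Wf φ G) x := (diff_W C.cls hx).continuousAt

lemma k_cont (hx : x ∈ Ext R₀) : ContinuousAt (sphereTrace g h) x :=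
  (diff_P C.cls C.pos C.dh hx).continuousAt

lemma Nf_cont (hx : x ∈ Ext R₀) : ContinuousAt (Nf g h φ G) x := by
  have h1 := C.P_cont hx
  have h2 := C.F_cont hx
  have h3 := C.W_cont hx
  have h4 := C.k_cont hx
  have h5 : ContinuousAt (fun z : E3 => ‖z‖) x := continuous_norm.continuousAt
  obtain ⟨hP, hW⟩ := C.pos x hx
  have hW' : 0 < Wf φ G x := hW
  unfold Nf Nab
  have h6 : ContinuousAt (fun z : E3 => (φ (‖z‖ ^ 2) + ‖z‖ ^ 2 * deriv φ (‖z‖ ^ 2)) ^ 2 /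
      (φ (‖z‖ ^ 2) * Wf φ G z)) x :=
    ((h1.add ((h5.pow 2).mul h2)).pow 2).div (h1.mul h3) (by positivity)
  exact ((h5.mul h1.sqrt).div_const 2).mul
    ((continuousAt_const.sub h6).add ((((h5.pow 2).mul h1).mul (h4.pow 2)).div_const 4))

lemma H_cont (hx : x ∈ Ext R₀) : ContinuousAt (meanCurv g) x := by
  have e : meanCurv g =ᶠ[𝓝 x] fun x => 2 * (φ (‖x‖ ^ 2) + ‖x‖ ^ 2 * deriv φ (‖x‖ ^ 2)) /
      (‖x‖ * φ (‖x‖ ^ 2) * Real.sqrt (Wf φ G x)) := by
    filter_upwards [(isOpen_Ext R₀).mem_nhds hx] with z hz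
    exact meanCurv_eq C.cls C.pos hz
  refine ContinuousAt.congr ?_ e.symm
  have hr := ne_zero C.nn hx
  have h1 := C.P_cont hx
  have h2 := C.F_cont hx
  have h3 := C.W_cont hx
  have h5 : ContinuousAt (fun z : E3 => ‖z‖) x := continuous_norm.continuousAt
  obtain ⟨hP, hW⟩ := C.pos x hx
  have hW' : 0 < Wf φ G x := hW
  have := Real.sqrt_pos.2 hW'
  exact (continuousAt_const.mul (h1.add ((h5.pow 2).mul h2))).div
    ((h5.mul h1).mul h3.sqrt) (by positivity)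

lemma Nf_eq (hx : x ∈ Ext R₀) : Nf g h φ G x = ‖x‖ * Real.sqrt (φ (‖x‖ ^ 2)) / 2 *
    (1 - ‖x‖ ^ 2 * φ (‖x‖ ^ 2) * (meanCurv g x ^ 2 - sphereTrace g h x ^ 2) / 4) := by
  have hr := ne_zero C.nn hx
  obtain ⟨hP, hW⟩ := C.pos x hx
  have hW' : 0 < Wf φ G x := hW
  have hsW := Real.sqrt_pos.2 hW'
  rw [meanCurv_eq C.cls C.pos hx]
  unfold Nf Nab
  obtain ⟨σ, hσ, hs⟩ : ∃ σ : ℝ, 0 < σ ∧ Wf φ G x = σ ^ 2 :=
    ⟨Real.sqrt (Wf φ G x), hsW, (Real.sq_sqrt hW'.le).symm⟩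
  rw [hs, Real.sqrt_sq hσ.le]
  field_simp
  ring

/-- the sign of the mean curvature -/
lemma L_pos_of (hx : x ∈ Ext R₀) (h0 : 0 < meanCurv g x) : 0 < Lr φ ‖x‖ := by
  have hr := ne_zero C.nn hx
  obtain ⟨hP, hW⟩ := C.pos x hx
  have hW' : 0 < Wf φ G x := hW
  have hsW := Real.sqrt_pos.2 hW'
  rw [meanCurv_eq C.cls C.pos hx] at h0
  by_contra hneg
  push Not at hneg
  unfold Lr at hneg
  have : 2 * (φ (‖x‖ ^ 2) + ‖x‖ ^ 2 * deriv φ (‖x‖ ^ 2)) /
      (‖x‖ * φ (‖x‖ ^ 2) * Real.sqrt (Wf φ G x)) ≤ 0 :=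
    div_nonpos_of_nonpos_of_nonneg (by linarith) (by positivity)
  linarith

lemma H_nonneg_of (hx : x ∈ Ext R₀) (h0 : 0 ≤ Lr φ ‖x‖) : 0 ≤ meanCurv g x := by
  have hr := ne_zero C.nn hx
  obtain ⟨hP, hW⟩ := C.pos x hx
  have hW' : 0 < Wf φ G x := hW
  have hsW := Real.sqrt_pos.2 hW'
  rw [meanCurv_eq C.cls C.pos hx]
  unfold Lr at h0
  positivity

lemma H_neg_of (hx : x ∈ Ext R₀) (h0 : Lr φ ‖x‖ < 0) : meanCurv g x < 0 := by
  have hr := ne_zero C.nn hx
  obtain ⟨hP, hW⟩ := C.pos x hx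
  have hW' : 0 < Wf φ G x := hW
  have hsW := Real.sqrt_pos.2 hW'
  rw [meanCurv_eq C.cls C.pos hx]
  unfold Lr at h0
  exact div_neg_of_neg_of_pos (by linarith) (by positivity)

/-- at a good point outside the trapped spheres `|tr_S h| < H` -/
lemma good_H (hy : y ∈ Ext R₀) (hg : Good g h G y) (hB : ‖y‖ ∉ Bset g h R₀) :
    0 < Lr φ ‖y‖ ∧ |sphereTrace g h y| ≤ meanCurv g y := by
  have hr := ne_zero C.nn hy
  have : ¬ WeaklyTrapped g h ‖y‖ := fun hw => hB ⟨hy, hw⟩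
  unfold WeaklyTrapped at this
  push Not at this
  obtain ⟨z, hz, hlt⟩ := this
  have hzE : z ∈ Ext R₀ := by show R₀ < ‖z‖; rw [hz]; exact hy
  have hHz : 0 < meanCurv g z := lt_of_le_of_lt (abs_nonneg _) hlt
  have hL := C.L_pos_of hzE hHz
  rw [hz] at hL
  refine ⟨hL, ?_⟩
  have h1 := hg.min_tr z hz
  have hWle : Wf φ G y ≤ Wf φ G z := by
    unfold Wf
    rw [hz]
    have := hg.min_G z hz
    gcongr
  have hWy : 0 < Wf φ G y := (C.pos y hy).2
  have hPy := (C.pos y hy).1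
  have hle : meanCurv g z ≤ meanCurv g y := by
    rw [meanCurv_eq C.cls C.pos hzE, meanCurv_eq C.cls C.pos hy, hz]
    unfold Lr at hL
    have := Real.sqrt_pos.2 hWy
    have := Real.sqrt_le_sqrt hWle
    gcongr
  linarith

/-- a good point minimises the pointwise Hawking mass on its sphere -/
lemma good_min (hy : y ∈ Ext R₀) (hg : Good g h G y) (hz : ‖z‖ = ‖y‖) :
    Nf g h φ G y ≤ Nf g h φ G z := by
  have hr := ne_zero C.nn hy
  have hWle : Wf φ G y ≤ Wf φ G z := by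
    unfold Wf
    rw [hz]
    have := hg.min_G z hz
    gcongr
  have hWy : 0 < Wf φ G y := (C.pos y hy).2
  have hPy := (C.pos y hy).1
  have hk : sphereTrace g h y ^ 2 ≤ sphereTrace g h z ^ 2 := sq_le_sq.2 (hg.min_tr z hz)
  unfold Nf Nab
  rw [hz]
  gcongr

lemma Lr_cont {r : ℝ} (hr : R₀ < r) : ContinuousAt (Lr φ) r := by
  have hr0 : 0 < r := lt_of_le_of_lt C.nn hr
  obtain ⟨y, hy⟩ : ∃ y : E3, ‖y‖ = r :=
    ⟨EuclideanSpace.single 0 r, by simp [abs_of_pos hr0]⟩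
  have hyE : y ∈ Ext R₀ := by show R₀ < ‖y‖; rw [hy]; exact hr
  have h1 := (C.cls.phi_d hyE).continuousAt
  have h2 := (C.cls.phi_d' hyE).continuousAt
  rw [hy] at h1 h2
  have h3 : ContinuousAt (fun r : ℝ => r ^ 2) r := (continuous_pow 2).continuousAt
  unfold Lr
  exact (ContinuousAt.comp' (f := fun r : ℝ => r ^ 2) h1 h3).add
    (h3.mul (ContinuousAt.comp' (f := fun r : ℝ => r ^ 2) h2 h3))

/-- the outermost weakly trapped sphere -/
lemma exists_r0 (hne : (Bset g h R₀).Nonempty) (hb : BddAbove (Bset g h R₀)) :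
    ∃ r₀, R₀ < r₀ ∧ (∀ x : E3, ‖x‖ = r₀ → r₀ * Real.sqrt (φ (r₀ ^ 2)) / 2 ≤ Nf g h φ G x) ∧
      ∀ r, r₀ < r → r ∉ Bset g h R₀ := by
  set r₀ := sSup (Bset g h R₀) with hr₀
  obtain ⟨b, hbB⟩ := hne
  have hR : R₀ < r₀ := lt_of_lt_of_le hbB.1 (le_csSup hb hbB)
  have hout : ∀ r, r₀ < r → r ∉ Bset g h R₀ := fun r hr hrB =>
    absurd (le_csSup hb hrB) (not_le.2 hr)
  have hr0pos : 0 < r₀ := lt_of_le_of_lt C.nn hR
  have hmem : WeaklyTrapped g h r₀ := by
    intro x hx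
    by_contra hlt
    push Not at hlt
    have hxE : x ∈ Ext R₀ := by show R₀ < ‖x‖; rw [hx]; exact hR
    have hc : ContinuousAt (fun t : ℝ => meanCurv g (t • x) - |sphereTrace g h (t • x)|) 1 := by
      have h0 : ContinuousAt (fun t : ℝ => t • x) 1 :=
        (continuous_id.smul continuous_const).continuousAt
      have h1 : ContinuousAt (meanCurv g) ((1 : ℝ) • x) := by rw [one_smul]; exact C.H_cont hxE
      have h2 : ContinuousAt (sphereTrace g h) ((1 : ℝ) • x) := by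
        rw [one_smul]; exact C.k_cont hxE
      exact (ContinuousAt.comp' (f := fun t : ℝ => t • x) h1 h0).sub
        (ContinuousAt.comp' (f := fun t : ℝ => t • x) h2 h0).abs
    have hpos : 0 < meanCurv g ((1 : ℝ) • x) - |sphereTrace g h ((1 : ℝ) • x)| := by
      rw [one_smul]; linarith
    have hev := hc.eventually (lt_mem_nhds hpos)
    obtain ⟨ε, hε, hball⟩ := Metric.eventually_nhds_iff.1 hev
    obtain ⟨b', hb'B, hb'⟩ := exists_lt_of_lt_csSup ⟨b, hbB⟩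
      (show r₀ * (1 - ε) < sSup (Bset g h R₀) by rw [← hr₀]; nlinarith)
    have hb'le : b' ≤ r₀ := le_csSup hb hb'B
    have ht : dist (b' / r₀) 1 < ε := by
      rw [Real.dist_eq, abs_sub_comm, abs_of_nonneg]
      · rw [sub_lt_comm, lt_div_iff₀ hr0pos]; linarith
      · rw [sub_nonneg, div_le_one hr0pos]; exact hb'le
    have h3 := hball ht
    have hb'pos : 0 < b' := lt_of_le_of_lt C.nn hb'B.1
    have h4 := hb'B.2 ((b' / r₀) • x) (by
      rw [norm_smul, hx, Real.norm_eq_abs, abs_of_pos (by positivity)]; field_simp)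
    linarith
  refine ⟨r₀, hR, ?_, hout⟩
  have hL : 0 ≤ Lr φ r₀ := by
    by_contra hneg
    push Not at hneg
    have hev := (C.Lr_cont hR).eventually (gt_mem_nhds hneg)
    obtain ⟨ε, hε, hball⟩ := Metric.eventually_nhds_iff.1 hev
    have h1 : Lr φ (r₀ + ε / 2) < 0 := hball (by
      rw [Real.dist_eq, add_sub_cancel_left, abs_of_pos (by positivity)]; linarith)
    refine hout (r₀ + ε / 2) (by linarith) ⟨by linarith, ?_⟩
    intro x hx
    have hxE : x ∈ Ext R₀ := by show R₀ < ‖x‖; rw [hx]; linarith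
    have := C.H_neg_of hxE (by rw [hx]; exact h1)
    have := abs_nonneg (sphereTrace g h x)
    linarith
  intro x hx
  have hxE : x ∈ Ext R₀ := by show R₀ < ‖x‖; rw [hx]; exact hR
  have hH0 := C.H_nonneg_of hxE (by rw [hx]; exact hL)
  have hH1 := hmem x hx
  have hsq : meanCurv g x ^ 2 ≤ sphereTrace g h x ^ 2 := by
    rw [← sq_abs (sphereTrace g h x)]
    gcongr
  rw [C.Nf_eq hxE, hx]
  have hP := (C.pos x hxE).1
  rw [hx] at hP
  have h5 : 0 ≤ r₀ ^ 2 * φ (r₀ ^ 2) * (sphereTrace g h x ^ 2 - meanCurv g x ^ 2) / 4 := by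
    have : 0 ≤ sphereTrace g h x ^ 2 - meanCurv g x ^ 2 := by linarith
    positivity
  have h6 : 0 ≤ r₀ * Real.sqrt (φ (r₀ ^ 2)) / 2 := by positivity
  nlinarith

/-- The pointwise Hawking mass outside the outermost weakly trapped sphere. -/
theorem lower_bound {r₀ c : ℝ} (hR : R₀ < r₀)
    (h0 : ∀ x : E3, ‖x‖ = r₀ → c ≤ Nf g h φ G x)
    (hout : ∀ r, r₀ < r → r ∉ Bset g h R₀) (hx : r₀ ≤ ‖x‖) : c ≤ Nf g h φ G x := by
  have hr0pos : 0 < r₀ := lt_of_le_of_lt C.nn hR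
  have main : ∀ ε : ℝ, 0 < ε → c - ε * (‖x‖ - r₀) ≤ Nf g h φ G x := by
    intro ε hε
    let K : Set E3 := {z | r₀ ≤ ‖z‖ ∧ ‖z‖ ≤ ‖x‖}
    have hK : IsCompact K := by
      have h1 : IsClosed K :=
        (isClosed_le continuous_const continuous_norm).inter
          (isClosed_le continuous_norm continuous_const)
      refine Metric.isCompact_of_isClosed_isBounded h1 ?_
      refine (isBounded_closedBall (x := (0 : E3)) (r := ‖x‖)).subset fun z hz => ?_
      simpa using hz.2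
    have hKE : ∀ z ∈ K, z ∈ Ext R₀ := fun z hz => lt_of_lt_of_le hR hz.1
    have hcont : ContinuousOn (fun z : E3 => Nf g h φ G z + ε * ‖z‖) K := by
      intro z hz
      exact ((C.Nf_cont (hKE z hz)).add
        (continuousAt_const.mul continuous_norm.continuousAt)).continuousWithinAt
    obtain ⟨z₀, hz₀K, hmin⟩ := hK.exists_isMinOn ⟨x, hx, le_refl _⟩ hcont
    rcases eq_or_lt_of_le hz₀K.1 with heq | hlt0
    · have h1 : Nf g h φ G z₀ + ε * ‖z₀‖ ≤ Nf g h φ G x + ε * ‖x‖ := hmin ⟨hx, le_refl _⟩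
      have h2 := h0 z₀ heq.symm
      rw [← heq] at h1
      linarith
    have hnB := hout _ hlt0
    obtain ⟨y, hyz, hgood⟩ := C.good ‖z₀‖ (hKE z₀ hz₀K) (fun hw => hnB ⟨hKE z₀ hz₀K, hw⟩)
    have hyK : y ∈ K := by
      show r₀ ≤ ‖y‖ ∧ ‖y‖ ≤ ‖x‖
      rw [hyz]; exact hz₀K
    have hyE := hKE y hyK
    have hyle : Nf g h φ G y ≤ Nf g h φ G z₀ := C.good_min hyE hgood hyz.symm
    have hymin : ∀ z ∈ K, Nf g h φ G y + ε * ‖y‖ ≤ Nf g h φ G z + ε * ‖z‖ := by
      intro z hz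
      have h1 : Nf g h φ G z₀ + ε * ‖z₀‖ ≤ Nf g h φ G z + ε * ‖z‖ := hmin hz
      rw [hyz]
      linarith
    rcases eq_or_lt_of_le hyK.1 with heq | hlt
    · have h1 := hymin x ⟨hx, le_refl _⟩
      have h2 := h0 y heq.symm
      rw [← heq] at h1
      linarith
    · exfalso
      have hy0 := ne_zero C.nn hyE
      obtain ⟨n, e₁, e₂, hf⟩ := exists_frame hy0
      obtain ⟨hL, hκ⟩ := C.good_H hyE hgood (hout _ hlt)
      have hnn := point_nonneg C.cls C.pos C.dh C.sh hyE hf hgood hL hκ (C.dec y hyE)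
      have hder := Nf_deriv C.cls C.pos C.dh hyE hf
      have hyn : y = ‖y‖ • toE n := by
        ext i
        simp [← hf.x_eq i]
      have hnorm : ‖toE n‖ = 1 := by
        have h1 : ‖toE n‖ ^ 2 = 1 := by rw [norm_sq_eq_dp]; exact hf.nn
        have h2 := norm_nonneg (toE n)
        nlinarith
      have hs : ∀ s : ℝ, -‖y‖ ≤ s → ‖y + s • toE n‖ = ‖y‖ + s := by
        intro s hs
        have : y + s • toE n = (‖y‖ + s) • toE n := by
          rw [add_smul, ← hyn]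
        rw [this, norm_smul, hnorm, mul_one, Real.norm_eq_abs, abs_of_nonneg (by linarith)]
      have hder2 := hder.fun_add ((hasDerivAt_id (0 : ℝ)).const_mul ε)
      rw [hasDerivAt_iff_tendsto_slope] at hder2
      have hle : (𝓝[<] (0 : ℝ)) ≤ 𝓝[≠] 0 := nhdsWithin_mono _ fun s hs => ne_of_lt hs
      have hlim := hder2.mono_left hle
      have hpos : 0 < ‖y‖ ^ 2 * Real.sqrt (φ (‖y‖ ^ 2)) / 4 *
        ((φ (‖y‖ ^ 2) + ‖y‖ ^ 2 * deriv φ (‖y‖ ^ 2)) *
          Smax (dat φ G y) ‖y‖ ((dat φ G y).A n) (φ (‖y‖ ^ 2)) (Wf φ G y)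
        + 3 / 2 * (φ (‖y‖ ^ 2) + ‖y‖ ^ 2 * deriv φ (‖y‖ ^ 2)) * sphereTrace g h y ^ 2
        + ‖y‖ * φ (‖y‖ ^ 2) * sphereTrace g h y * dn (sphereTrace g h) y n) + ε * 1 := by
        have : 0 ≤ ‖y‖ ^ 2 * Real.sqrt (φ (‖y‖ ^ 2)) / 4 := by positivity
        have := mul_nonneg this hnn
        linarith
      have hneg : _ ≤ (0 : ℝ) := le_of_tendsto hlim (by
        have hnb : ∀ᶠ s in 𝓝[<] (0 : ℝ), r₀ - ‖y‖ < s ∧ -‖y‖ < s := by
          have a1 : ∀ᶠ s in 𝓝[<] (0 : ℝ), r₀ - ‖y‖ < s :=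
            (nhdsWithin_le_nhds) (lt_mem_nhds (by linarith))
          have a2 : ∀ᶠ s in 𝓝[<] (0 : ℝ), -‖y‖ < s :=
            (nhdsWithin_le_nhds) (lt_mem_nhds (by linarith))
          exact a1.and a2
        filter_upwards [hnb, self_mem_nhdsWithin] with s hs1 hs2
        have hs2' : s < 0 := hs2
        have hns := hs s hs1.2.le
        have hmem : y + s • toE n ∈ K := by
          show r₀ ≤ ‖y + s • toE n‖ ∧ ‖y + s • toE n‖ ≤ ‖x‖
          rw [hns]
          have := hyK.2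
          constructor <;> linarith [hs1.1]
        have h3 := hymin _ hmem
        rw [hns] at h3
        rw [slope_def_field]
        refine div_nonpos_of_nonneg_of_nonpos ?_ (by linarith)
        simp only [zero_smul, add_zero, id, mul_zero]
        linarith)
      exact absurd hpos (not_lt.2 hneg)
  by_contra hlt
  push Not at hlt
  have hd : 0 < c - Nf g h φ G x := by linarith
  rcases eq_or_lt_of_le hx with heq | hlt2
  · exact absurd (h0 x heq.symm) (not_le.2 hlt)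
  · have hR' : 0 < ‖x‖ - r₀ := by linarith
    have := main ((c - Nf g h φ G x) / (2 * (‖x‖ - r₀))) (by positivity)
    have e : (c - Nf g h φ G x) / (2 * (‖x‖ - r₀)) * (‖x‖ - r₀) = (c - Nf g h φ G x) / 2 := by
      field_simp
    rw [e] at this
    linarith

end Ctx

end

end

end Run7.h204.Pen
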