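import Pool.Agent.Run7.h204.PenArea

/-! For two ends the spheres near the second end are trapped or a minimal sphere exists. -/

namespace Run7.h204.Pen

open scoped BigOperators ContDiff Topology Matrix
open MeasureTheory Filter Metric
open Pool.Agent.H498R3.GB

noncomputable section

section
variable {g h : Field} {φ : ℝ → ℝ} {G : E3 → ℝ}

lemma pd_inversion {s : ℝ} (hs : 0 < s) (a : Fin 3) :
    pd 1 (fun z : E3 => inversion 0 z a) (EuclideanSpace.single 0 s) =
      (s ^ 2)⁻¹ * (1 : Matrix (Fin 3) (Fin 3) ℝ) 1 a := by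
  have hn := norm_single s hs.le
  have e : (fun z : E3 => inversion 0 z a) = fun z : E3 => (‖z‖ ^ 2)⁻¹ * z a := by
    funext z
    simp [inversion]
  have hd : HasDerivAt (fun t : ℝ => t⁻¹) (-((s ^ 2) ^ 2)⁻¹) (s ^ 2) :=
    hasDerivAt_inv (by positivity)
  have hd' : HasDerivAt (fun t : ℝ => t⁻¹) (-((s ^ 2) ^ 2)⁻¹)
      (‖(EuclideanSpace.single 0 s : E3)‖ ^ 2) := by rw [hn]; exact hd
  rw [e, pd_mul (f := fun z : E3 => (‖z‖ ^ 2)⁻¹) (g := fun z : E3 => z a)
    (diff_rad (φ := fun t => t⁻¹) hd'.differentiableAt) (diff_coord a _), pd_coord,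
    pd_rad (φ := fun t => t⁻¹) hd'.differentiableAt, hn]
  simp

lemma pullback_eval (H : Cls g 0 φ G) {s : ℝ} (hs : 0 < s) :
    pullback 0 g (EuclideanSpace.single 0 s) 1 1 = φ ((s ^ 2)⁻¹) / s ^ 4 := by
  have hn := norm_single s hs.le
  have hinv : inversion 0 (EuclideanSpace.single 0 s) = (EuclideanSpace.single 0 s⁻¹ : E3) := by
    unfold inversion
    rw [hn, zero_add]
    ext i
    simp only [PiLp.smul_apply, smul_eq_mul]
    by_cases hi : i = 0
    · subst hi; simp; field_simp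
    · simp [hi]
  have hn2 := norm_single s⁻¹ (by positivity)
  have hx : (EuclideanSpace.single 0 s⁻¹ : E3) ∈ Ext 0 := by
    show 0 < ‖(EuclideanSpace.single 0 s⁻¹ : E3)‖
    rw [hn2]; positivity
  unfold pullback
  simp only [Matrix.of_apply]
  rw [hinv]
  simp only [pd_inversion hs]
  have e : ∀ a b, g (EuclideanSpace.single 0 s⁻¹) a b *
      ((s ^ 2)⁻¹ * (1 : Matrix (Fin 3) (Fin 3) ℝ) 1 a) *
      ((s ^ 2)⁻¹ * (1 : Matrix (Fin 3) (Fin 3) ℝ) 1 b) =
      (1 : Matrix (Fin 3) (Fin 3) ℝ) 1 a * ((1 : Matrix (Fin 3) (Fin 3) ℝ) 1 b *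
        (g (EuclideanSpace.single 0 s⁻¹) a b * (s ^ 4)⁻¹)) := by
    intro a b
    field_simp
  simp only [e, ← Finset.mul_sum]
  simp only [Matrix.one_apply, ite_mul, one_mul, zero_mul, Finset.sum_ite_eq, Finset.mem_univ,
    if_true]
  rw [H.metric _ hx, hn2]
  simp
  field_simp

/-- For two ends there is a weakly trapped sphere. -/
theorem exists_trapped (H : Cls g 0 φ G) (hp : Pos 0 φ G)
    (hf : FlatAtInfinity (pullback 0 g) (pullback 0 h)) : (Bset g h 0).Nonempty := by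
  obtain ⟨C, R, hR, hC⟩ := hf
  have hC0 : 0 ≤ C := by
    have h1 := (hC (EuclideanSpace.single 0 R) (by rw [norm_single R hR.le]) 0 0 0 0).1
    rw [norm_single R hR.le] at h1
    have h2 := (abs_nonneg _).trans h1
    by_contra hneg
    push Not at hneg
    have : C / R < 0 := div_neg_of_neg_of_pos hneg hR
    linarith
  have hmem : ∀ r : ℝ, 0 < r → (EuclideanSpace.single 0 r : E3) ∈ Ext 0 := by
    intro r hr
    show 0 < ‖(EuclideanSpace.single 0 r : E3)‖
    rw [norm_single r hr.le]; exact hr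
  have hPpos : ∀ r : ℝ, 0 < r → 0 < φ (r ^ 2) := by
    intro r hr
    have := (hp _ (hmem r hr)).1
    rwa [norm_single r hr.le] at this
  have hderiv : ∀ r : ℝ, 0 < r → HasDerivAt (fun r : ℝ => r ^ 2 * φ (r ^ 2))
      (2 * r * Lr φ r) r := by
    intro r hr
    have h1 : HasDerivAt φ (deriv φ (r ^ 2)) (r ^ 2) := by
      have := (H.phi_d (hmem r hr)).hasDerivAt
      rwa [norm_single r hr.le] at this
    have h2 : HasDerivAt (fun y : ℝ => y ^ 2) (2 * r) r := by simpa using hasDerivAt_pow 2 r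
    have h3 := h2.fun_mul (HasDerivAt.comp (h₂ := φ) (h := fun y : ℝ => y ^ 2) r h1 h2)
    refine h3.congr_deriv ?_
    unfold Lr
    simp only [Function.comp_apply]
    ring
  set f1 := φ 1 with hf1
  have hf1pos : 0 < f1 := by have := hPpos 1 one_pos; simpa using this
  set s := max (max R 2) (max (2 * C) (2 * f1 + 1)) with hsd
  have s1 : R ≤ s := (le_max_left _ _).trans (le_max_left _ _)
  have s2 : 2 ≤ s := (le_max_right _ _).trans (le_max_left _ _)
  have s3 : 2 * C ≤ s := (le_max_left _ _).trans (le_max_right _ _)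
  have s4 : 2 * f1 + 1 ≤ s := (le_max_right _ _).trans (le_max_right _ _)
  have hs0 : 0 < s := by linarith
  have h1 := (hC (EuclideanSpace.single 0 s) (by rw [norm_single s hs0.le]; exact s1) 1 1 0 0).1
  rw [pullback_eval H hs0, norm_single s hs0.le, Matrix.one_apply_eq] at h1
  have h2 : C / s ≤ 1 / 2 := by rw [div_le_iff₀ hs0]; linarith
  have h3 : (1 : ℝ) / 2 ≤ φ ((s ^ 2)⁻¹) / s ^ 4 := by
    have := (abs_le.1 (h1.trans h2)).1
    linarith
  have h4 : f1 < (s⁻¹) ^ 2 * φ ((s⁻¹) ^ 2) := by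
    rw [inv_pow]
    have h5 : (s ^ 2)⁻¹ * φ ((s ^ 2)⁻¹) = s ^ 2 * (φ ((s ^ 2)⁻¹) / s ^ 4) := by field_simp
    rw [h5]
    have h6 : s ^ 2 * (1 / 2) ≤ s ^ 2 * (φ ((s ^ 2)⁻¹) / s ^ 4) := by gcongr
    nlinarith
  have hsi : s⁻¹ < 1 := by rw [inv_lt_one₀ hs0]; linarith
  have hsi0 : 0 < s⁻¹ := by positivity
  obtain ⟨c, hc, hceq⟩ := exists_hasDerivAt_eq_slope (fun r : ℝ => r ^ 2 * φ (r ^ 2))
    (fun r => 2 * r * Lr φ r) hsi
    (fun r hr => (hderiv r (by linarith [hr.1])).continuousAt.continuousWithinAt)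
    (fun r hr => hderiv r (by linarith [hr.1]))
  have hc0 : 0 < c := by linarith [hc.1]
  have hneg : 2 * c * Lr φ c < 0 := by
    rw [hceq]
    refine div_neg_of_neg_of_pos ?_ (by linarith)
    simp only [one_pow, one_mul]
    linarith
  have hL : Lr φ c < 0 := by
    by_contra hge
    push Not at hge
    have : 0 ≤ 2 * c * Lr φ c := by positivity
    linarith
  refine ⟨c, hc0, fun x hx => ?_⟩
  have hxE : x ∈ Ext 0 := by show 0 < ‖x‖; rw [hx]; exact hc0
  have hr := hxE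
  obtain ⟨hP, hW⟩ := hp x hxE
  have hW' : 0 < Wf φ G x := hW
  have hsW := Real.sqrt_pos.2 hW'
  have hr0 : 0 < ‖x‖ := hxE
  rw [meanCurv_eq H hp hxE]
  have hL' : φ (‖x‖ ^ 2) + ‖x‖ ^ 2 * deriv φ (‖x‖ ^ 2) < 0 := by rw [hx]; exact hL
  have h7 : 2 * (φ (‖x‖ ^ 2) + ‖x‖ ^ 2 * deriv φ (‖x‖ ^ 2)) /
      (‖x‖ * φ (‖x‖ ^ 2) * Real.sqrt (Wf φ G x)) ≤ 0 :=
    div_nonpos_of_nonpos_of_nonneg (by linarith) (by positivity)
  exact h7.trans (abs_nonneg _)

end

end

end Run7.h204.Pen
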