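import Pool.Agent.Run7.h204.PenInv

/-! The Penrose inequality for adapted data. -/

namespace Run7.h204.Pen

open scoped BigOperators ContDiff Topology Matrix ENNReal
open MeasureTheory Filter Metric
open Pool.Agent.H498R3.GB

noncomputable section

section
variable {F : Finset E3} {g h : Field} {R₀ : ℝ} {φ : ℝ → ℝ} {G : E3 → ℝ}

lemma ext_subset (hF : ∀ p ∈ F, ‖p‖ ≤ R₀) : Ext R₀ ⊆ Mfd F := by
  intro x hx hxF
  exact absurd (hF x hxF) (not_le.2 hx)

/-- the bilinear form of the metric is positive definite -/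
lemma quad_pos {x : E3} (hpd : (g x).PosDef) {v : V3} (hv : v ≠ 0) :
    0 < ∑ i, ∑ j, g x i j * v i * v j := by
  have h1 := hpd.dotProduct_mulVec_pos hv
  simp only [star_trivial, dotProduct, Matrix.mulVec, Finset.mul_sum] at h1
  have e : ∑ i, ∑ j, g x i j * v i * v j = ∑ i, ∑ j, v i * (g x i j * v j) := by
    refine Finset.sum_congr rfl fun i _ => Finset.sum_congr rfl fun j _ => by ring
  rw [e]
  exact h1

lemma quad_eval (H : Cls g R₀ φ G) {x : E3} (hx : x ∈ Ext R₀) (v : V3) :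
    ∑ i, ∑ j, g x i j * v i * v j = φ (‖x‖ ^ 2) * dp v v + G x * (dp x.ofLp v) ^ 2 := by
  simp only [H.metric x hx]
  have e : ∀ i j, (φ (‖x‖ ^ 2) * (1 : Matrix (Fin 3) (Fin 3) ℝ) i j + G x * (x i * x j)) *
      v i * v j = φ (‖x‖ ^ 2) * (((1 : Matrix (Fin 3) (Fin 3) ℝ) i j * v j) * v i)
        + G x * ((x i * v i) * (x j * v j)) := fun i j => by ring
  simp only [e, Finset.sum_add_distrib, ← Finset.mul_sum, ← Finset.sum_mul]
  have s1 : ∀ i, ∑ j, (1 : Matrix (Fin 3) (Fin 3) ℝ) i j * v j = v i := by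
    intro i; simp [Matrix.one_apply]
  simp only [s1, sq, dp]

lemma pos_of (hg : IsRiemannianOn g (Mfd F)) (H : Cls g R₀ φ G) (hF : Ext R₀ ⊆ Mfd F) :
    Pos R₀ φ G := by
  intro x hx
  have hr := ne_zero H.nn hx
  obtain ⟨n, e₁, e₂, hf⟩ := exists_frame hr
  have hpd := hg.posDef x (hF hx)
  have hxe : ∀ v : V3, dp x.ofLp v = ‖x‖ * dp n v := by
    intro v
    unfold dp; rw [Finset.mul_sum]
    refine Finset.sum_congr rfl fun i _ => ?_
    rw [hf.x_eq i]; ring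
  constructor
  · have hv : e₁ ≠ 0 := by
      intro h0
      have := hf.e11
      rw [h0] at this
      simp [dp] at this
    have h1 := quad_pos hpd hv
    rw [quad_eval H hx, hf.e11, hxe, hf.n1] at h1
    simpa using h1
  · have hv : n ≠ 0 := by
      intro h0
      have := hf.nn
      rw [h0] at this
      simp [dp] at this
    have h1 := quad_pos hpd hv
    rw [quad_eval H hx, hf.nn, hxe, hf.nn] at h1
    simpa using h1

/-- the assumptions of the theorem give the standing assumptions -/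
lemma ctx_of (hdata : IsInitialData F g h)
    (hdec : ∀ x : E3, R₀ < ‖x‖ →
      covNorm g x (momentumDensity g h x) ≤ energyDensity g h x) (hR : 0 ≤ R₀)
    (hF : ∀ p ∈ F, ‖p‖ ≤ R₀) (hA : Adapted g h R₀ φ G) : Ctx g h R₀ φ G := by
  have hFs := ext_subset hF
  have H : Cls g R₀ φ G := ⟨hR, hA.smooth_radial, hA.smooth, hA.metric⟩
  refine ⟨H, pos_of hdata.riemannian H hFs, ?_, fun x hx => hdata.symm x (hFs hx), ?_,
    fun x hx => hdec x hx⟩
  · intro x hx i j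
    exact ((hdata.smooth i j).contDiffAt ((isOpen_Mfd F).mem_nhds (hFs hx))).differentiableAt
      (by simp)
  · intro r hr hnt
    obtain ⟨y, hy, h1, h2, h3⟩ := hA.point r hr hnt
    exact ⟨y, hy, fun z hz => h1 z (by rw [hz, hy]), fun z hz => h2 z (by rw [hz, hy]), h3⟩

/-- the lower bound of the mass by the area radius of the outermost weakly trapped sphere -/
theorem core (C : Ctx g h R₀ φ G) (hf : FlatEnd g h) {m : ℝ} (hm : HasMass g m)
    (hne : (Bset g h R₀).Nonempty) :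
    ∃ r₀, R₀ < r₀ ∧ (∀ r ∈ Bset g h R₀, r ≤ r₀) ∧ r₀ * Real.sqrt (φ (r₀ ^ 2)) / 2 ≤ m := by
  obtain ⟨K, R₁, hK0, h01, h1, hK1, hAs⟩ := exists_asym C.cls C.pos hf
  have hb := bddAbove_B C.cls C.pos hK0 h01 h1 hAs
  obtain ⟨r₀, hr₀, hN0, hout⟩ := C.exists_r0 hne hb
  refine ⟨r₀, hr₀, fun r hr => not_lt.1 fun hlt => hout r hlt hr, ?_⟩
  exact mass_ge C.cls hK0 h01 h1 hK1 hAs hm fun x hx => C.lower_bound hr₀ hN0 hout hx

/-- from the area radius to the area -/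
lemma sqrt_le_of_area {A : ℝ≥0∞} {P r₀ m : ℝ} (hP : 0 < P) (hr : 0 < r₀)
    (hA : A ≤ ENNReal.ofReal (4 * Real.pi * (r₀ ^ 2 * P))) (hm : r₀ * Real.sqrt P / 2 ≤ m) :
    A ≠ ⊤ ∧ Real.sqrt (A.toReal / (16 * Real.pi)) ≤ m := by
  have hpi := Real.pi_pos
  refine ⟨(lt_of_le_of_lt hA ENNReal.ofReal_lt_top).ne, ?_⟩
  have h2 : A.toReal ≤ 4 * Real.pi * (r₀ ^ 2 * P) :=
    ENNReal.toReal_le_of_le_ofReal (by positivity) hA
  have h3 : A.toReal / (16 * Real.pi) ≤ (r₀ * Real.sqrt P / 2) ^ 2 := by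
    rw [div_le_iff₀ (by positivity)]
    have e : (r₀ * Real.sqrt P / 2) ^ 2 * (16 * Real.pi) = 4 * Real.pi * (r₀ ^ 2 * P) := by
      rw [div_pow, mul_pow, Real.sq_sqrt hP.le]; ring
    rw [e]; exact h2
  calc Real.sqrt (A.toReal / (16 * Real.pi))
      ≤ Real.sqrt ((r₀ * Real.sqrt P / 2) ^ 2) := Real.sqrt_le_sqrt h3
    _ = r₀ * Real.sqrt P / 2 := Real.sqrt_sq (by positivity)
    _ ≤ m := hm

lemma phi_pos (hp : Pos R₀ φ G) {r₀ : ℝ} (hr : R₀ < r₀) (h0 : 0 < r₀) : 0 < φ (r₀ ^ 2) := by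
  have hn := norm_single r₀ h0.le
  have hxE : (EuclideanSpace.single 0 r₀ : E3) ∈ Ext R₀ := by
    show R₀ < ‖(EuclideanSpace.single 0 r₀ : E3)‖
    rw [hn]; exact hr
  have := (hp _ hxE).1
  rwa [hn] at this

/-- The Penrose inequality for adapted data. -/
theorem penrose (hdata : IsInitialData F g h) (hflat : AsymptoticallyFlat F g h)
    (hdec : DominantEnergy F g h) (hR : 0 ≤ R₀) (hF : ∀ p ∈ F, ‖p‖ ≤ R₀)
    (hA : Adapted g h R₀ φ G)
    (hT : (∃ r, R₀ < r ∧ WeaklyTrapped g h r) ∨ (F = {0} ∧ R₀ = 0)) {m : ℝ}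
    (hm : HasMass g m) :
    minArea F g ≠ ⊤ ∧ Real.sqrt ((minArea F g).toReal / (16 * Real.pi)) ≤ m := by
  have C := ctx_of hdata (fun x hx => hdec x (ext_subset hF hx)) hR hF hA
  have hFs := ext_subset hF
  have hne : (Bset g h R₀).Nonempty := by
    rcases hT with ⟨r, hr, hw⟩ | ⟨hF0, hR0⟩
    · exact ⟨r, hr, hw⟩
    · subst hR0
      exact exists_trapped C.cls C.pos (hflat.2 0 (by rw [hF0]; simp))
  obtain ⟨r₀, hr₀, -, hmass⟩ := core C hflat.1.flatEnd hm hne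
  have hr0 : 0 < r₀ := lt_of_le_of_lt hR hr₀
  have hsep := separates_ball (F := F) hr0 (fun p hp => lt_of_le_of_lt (hF p hp) hr₀)
  exact sqrt_le_of_area (phi_pos C.pos hr₀ hr0) hr0
    ((iInf₂_le _ hsep).trans (boundaryArea_le hdata.riemannian C.cls C.pos hFs hr₀)) hmass

/-- The Penrose inequality for a weakly trapped coordinate sphere. -/
theorem penrose_horizon (hdata : IsInitialData F g h) (hflat : FlatEnd g h)
    (hdec : ∀ x : E3, R₀ < ‖x‖ →
      covNorm g x (momentumDensity g h x) ≤ energyDensity g h x)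
    (hR : 0 ≤ R₀) (hF : ∀ p ∈ F, ‖p‖ ≤ R₀) (hA : Adapted g h R₀ φ G) {r₁ : ℝ} (hr₁ : R₀ < r₁)
    (hT : WeaklyTrapped g h r₁) {E : ℝ} {P : Fin 3 → ℝ}
    (hE : HasMass g E) (hrest : ∀ i, P i = 0) :
    enclosingArea F g r₁ ≠ ⊤ ∧
      Real.sqrt ((enclosingArea F g r₁).toReal / (16 * Real.pi)) ≤
        Real.sqrt (E ^ 2 - ∑ i, P i ^ 2) := by
  have C := ctx_of hdata hdec hR hF hA
  have hFs := ext_subset hF
  obtain ⟨r₀, hr₀, hle, hmass⟩ := core C hflat hE ⟨r₁, hr₁, hT⟩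
  have hr0 : 0 < r₀ := lt_of_le_of_lt hR hr₀
  have hr10 : r₁ ≤ r₀ := hle r₁ ⟨hr₁, hT⟩
  have hsep := separates_ball (F := F) hr0 (fun p hp => lt_of_le_of_lt (hF p hp) hr₀)
  have hsub : {x | x ∈ Mfd F ∧ ‖x‖ < r₁} ⊆ {x | x ∈ Mfd F ∧ ‖x‖ ^ 2 - r₀ ^ 2 < 0} := by
    intro x hx
    refine ⟨hx.1, ?_⟩
    have h1 : ‖x‖ < r₀ := lt_of_lt_of_le hx.2 hr10
    have := norm_nonneg x
    nlinarith
  have hmain := sqrt_le_of_area (phi_pos C.pos hr₀ hr0) hr0
    ((iInf₂_le (f := fun U (_ : Separates F U ∧ {x | x ∈ Mfd F ∧ ‖x‖ < r₁} ⊆ U) =>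
      boundaryArea F g U) _ ⟨hsep, hsub⟩).trans
      (boundaryArea_le hdata.riemannian C.cls C.pos hFs hr₀)) hmass
  refine ⟨hmain.1, hmain.2.trans ?_⟩
  have hE0 : 0 ≤ E := (Real.sqrt_nonneg _).trans hmain.2
  have : E ^ 2 - ∑ i, P i ^ 2 = E ^ 2 := by simp [hrest]
  rw [this, Real.sqrt_sq hE0]

end

end

end Run7.h204.Pen
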