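import Pool.Agent.Run7.h204.PenAsym

/-! The ADM mass is at least the lower bound of the pointwise Hawking mass. -/

namespace Run7.h204.Pen

open scoped BigOperators ContDiff Topology Matrix
open MeasureTheory Filter Metric
open Pool.Agent.H498R3.GB

noncomputable section

section
variable {g h : Field} {R₀ : ℝ} {φ : ℝ → ℝ} {G : E3 → ℝ}

/-- the mass integrand -/
lemma flux_eq (H : Cls g R₀ φ G) {x : E3} (hx : x ∈ Ext R₀) :
    ∑ i, ∑ j, (pd i (fun z => g z i j) x - pd j (fun z => g z i i) x) * (x j / ‖x‖) =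
      2 * G x * ‖x‖ - 4 * ‖x‖ * deriv φ (‖x‖ ^ 2) := by
  have hr := ne_zero H.nn hx
  have hn := EuclideanSpace.norm_sq_eq x
  simp only [Real.norm_eq_abs, sq_abs, Fin.sum_univ_three] at hn
  simp only [H.pd_g hx, Fin.sum_univ_three]
  have o1 : ∀ i : Fin 3, (1 : Matrix (Fin 3) (Fin 3) ℝ) i i = 1 := Matrix.one_apply_eq
  have o2 : ∀ i j : Fin 3, i ≠ j → (1 : Matrix (Fin 3) (Fin 3) ℝ) i j = 0 :=
    fun i j hij => Matrix.one_apply_ne hij
  rw [o1 0, o1 1, o1 2, o2 0 1 (by decide), o2 0 2 (by decide), o2 1 0 (by decide),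
    o2 1 2 (by decide), o2 2 0 (by decide), o2 2 1 (by decide)]
  have h1 : 2 * G x * ‖x‖ - 4 * ‖x‖ * deriv φ (‖x‖ ^ 2) =
      (2 * G x - 4 * deriv φ (‖x‖ ^ 2)) * ‖x‖ ^ 2 / ‖x‖ := by field_simp
  rw [h1, hn]
  field_simp
  ring

lemma omega3 : ((volume : Measure E3).toSphere).real Set.univ = 4 * Real.pi := by
  rw [Measure.toSphere_real_apply_univ, Measure.real, EuclideanSpace.volume_ball_fin_three]
  simp
  rw [ENNReal.toReal_ofReal (by positivity)]
  ring

lemma mass_ge (H : Cls g R₀ φ G) {C R₁ r₀ c m : ℝ}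
    (hC0 : 0 ≤ C) (h01 : R₀ < R₁) (h1 : 1 ≤ R₁) (hC1 : 2 * C ≤ R₁) (hA : Asym g h φ G C R₁)
    (hm : HasMass g m) (hN : ∀ x : E3, r₀ ≤ ‖x‖ → c ≤ Nf g h φ G x) : c ≤ m := by
  have hlim : Tendsto (fun r : ℝ => c - 20 * C ^ 2 / r) atTop (𝓝 (c - 0)) :=
    tendsto_const_nhds.sub (tendsto_const_nhds.div_atTop tendsto_id)
  rw [sub_zero] at hlim
  refine le_of_tendsto_of_tendsto hlim hm ?_
  filter_upwards [eventually_ge_atTop R₁, eventually_ge_atTop r₀] with r hr1 hr2
  have hr0 : 0 < r := by linarith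
  have hu : ∀ u : sphere (0 : E3) 1, ‖r • (u : E3)‖ = r := by
    intro u
    rw [norm_smul, Real.norm_eq_abs, abs_of_pos hr0]
    have : ‖(u : E3)‖ = 1 := by simpa using u.2
    rw [this, mul_one]
  have huE : ∀ u : sphere (0 : E3) 1, r • (u : E3) ∈ Ext R₀ := by
    intro u
    show R₀ < ‖r • (u : E3)‖
    rw [hu]; linarith
  unfold sphereIntegral
  have e : ∀ u : sphere (0 : E3) 1,
      ∑ i, ∑ j, (pd i (fun z => g z i j) (r • (u : E3)) - pd j (fun z => g z i i) (r • (u : E3))) *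
        ((r • (u : E3)) j / ‖r • (u : E3)‖) =
      2 * G (r • (u : E3)) * r - 4 * r * deriv φ (r ^ 2) := by
    intro u
    rw [flux_eq H (huE u), hu]
  simp only [e]
  have hcont : Continuous fun u : sphere (0 : E3) 1 =>
      2 * G (r • (u : E3)) * r - 4 * r * deriv φ (r ^ 2) := by
    have h2 : Continuous fun u : sphere (0 : E3) 1 => G (r • (u : E3)) := by
      rw [continuous_iff_continuousAt]
      intro u
      have h3 : ContinuousAt G (r • (u : E3)) := (H.G_d (huE u)).continuousAt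
      exact ContinuousAt.comp' (f := fun u : sphere (0 : E3) 1 => r • (u : E3)) h3
        (continuous_subtype_val.const_smul r).continuousAt
    exact ((continuous_const.mul h2).mul continuous_const).sub continuous_const
  haveI : IsFiniteMeasure ((volume : Measure E3).toSphere) := inferInstance
  have hint : Integrable (fun u : sphere (0 : E3) 1 =>
      2 * G (r • (u : E3)) * r - 4 * r * deriv φ (r ^ 2)) ((volume : Measure E3).toSphere) :=
    hcont.integrable_of_hasCompactSupport (HasCompactSupport.of_compactSpace _)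
  have hle : ∀ u : sphere (0 : E3) 1, 4 / r ^ 2 * (c - 20 * C ^ 2 / r) ≤
      2 * G (r • (u : E3)) * r - 4 * r * deriv φ (r ^ 2) := by
    intro u
    set x : E3 := r • (u : E3) with hx
    have hxn : ‖x‖ = r := hu u
    have hxE : x ∈ Ext R₀ := huE u
    have hR : R₁ ≤ ‖x‖ := by rw [hxn]; exact hr1
    have a1 := hA.P x hR
    have a2 := hA.q x hR
    have a3 := hA.W x hR
    have a4 := hA.κ x hR
    have a5 := hN x (by rw [hxn]; exact hr2)
    unfold Nf at a5
    rw [hxn] at a1 a2 a3 a4 a5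
    have hδ : C / r ≤ 1 / 2 := by
      rw [div_le_iff₀ hr0]; linarith
    have hb := Nab_asym hr0 (by positivity : 0 ≤ C / r) hδ a1 a3 a2 a4
    have hWx : Wf φ G x = φ (r ^ 2) + G x * r ^ 2 := by unfold Wf; rw [hxn]
    rw [hWx] at hb a5
    have h5 : c ≤ r ^ 3 / 4 * (2 * G x * r - 4 * r * deriv φ (r ^ 2)) / r
        + 20 * C ^ 2 / r := by
      have e1 : r ^ 3 / 4 * (2 * G x * r - 4 * r * deriv φ (r ^ 2)) / r + 20 * C ^ 2 / r =
          r / 2 * (φ (r ^ 2) + G x * r ^ 2 - φ (r ^ 2) - 2 * (r ^ 2 * deriv φ (r ^ 2)))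
          + 20 * r * (C / r) ^ 2 := by
        field_simp
        ring
      rw [e1]
      linarith
    have h6 : c - 20 * C ^ 2 / r ≤ r ^ 3 / 4 * (2 * G x * r - 4 * r * deriv φ (r ^ 2)) / r := by
      linarith
    calc 4 / r ^ 2 * (c - 20 * C ^ 2 / r)
        ≤ 4 / r ^ 2 * (r ^ 3 / 4 * (2 * G x * r - 4 * r * deriv φ (r ^ 2)) / r) := by gcongr
      _ = _ := by field_simp
  have hI : 4 / r ^ 2 * (c - 20 * C ^ 2 / r) * (4 * Real.pi) ≤
      ∫ u : sphere (0 : E3) 1, (2 * G (r • (u : E3)) * r - 4 * r * deriv φ (r ^ 2))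
        ∂((volume : Measure E3).toSphere) := by
    have := integral_mono (μ := (volume : Measure E3).toSphere)
      (integrable_const (4 / r ^ 2 * (c - 20 * C ^ 2 / r))) hint hle
    rw [integral_const, omega3, smul_eq_mul] at this
    linarith
  have hpi := Real.pi_pos
  calc c - 20 * C ^ 2 / r = 1 / (16 * Real.pi) * (r ^ 2 *
        (4 / r ^ 2 * (c - 20 * C ^ 2 / r) * (4 * Real.pi))) := by field_simp; ring
    _ ≤ _ := by gcongr

end

end

end Run7.h204.Pen
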