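import Pool.Agent.Run7.h204.PenAlg

/-! The normal component of the momentum density for `φ(|x|²) δ + G(x) x ⊗ x`. -/

namespace Run7.h204.Pen

open scoped BigOperators ContDiff Topology Matrix
open MeasureTheory Filter Metric
open Pool.Agent.H498R3.GB

noncomputable section

/-- the trilinear form of the first derivatives of `h` -/
def dh (h : Field) (x : E3) (u v w : V3) : ℝ :=
  ∑ k, ∑ i, ∑ j, u k * v i * w j * pd k (fun z => h z i j) x

section
variable (h : Field) (x : E3)

lemma dh_eb (k i j : Fin 3) : dh h x (eb k) (eb i) (eb j) = pd k (fun z => h z i j) x := by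
  unfold dh; simp [eb]

lemma dh_add1 (u u' v w : V3) : dh h x (u + u') v w = dh h x u v w + dh h x u' v w := by
  simp only [dh, Pi.add_apply, add_mul, Finset.sum_add_distrib]
lemma dh_add2 (u v v' w : V3) : dh h x u (v + v') w = dh h x u v w + dh h x u v' w := by
  simp only [dh, Pi.add_apply, add_mul, mul_add, Finset.sum_add_distrib]
lemma dh_add3 (u v w w' : V3) : dh h x u v (w + w') = dh h x u v w + dh h x u v w' := by
  simp only [dh, Pi.add_apply, add_mul, mul_add, Finset.sum_add_distrib]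
lemma dh_smul1 (t : ℝ) (u v w : V3) : dh h x (t • u) v w = t * dh h x u v w := by
  simp only [dh, Pi.smul_apply, smul_eq_mul, Finset.mul_sum]
  refine Finset.sum_congr rfl fun i _ => Finset.sum_congr rfl fun j _ =>
    Finset.sum_congr rfl fun k _ => by ring
lemma dh_smul2 (t : ℝ) (u v w : V3) : dh h x u (t • v) w = t * dh h x u v w := by
  simp only [dh, Pi.smul_apply, smul_eq_mul, Finset.mul_sum]
  refine Finset.sum_congr rfl fun i _ => Finset.sum_congr rfl fun j _ =>
    Finset.sum_congr rfl fun k _ => by ring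
lemma dh_smul3 (t : ℝ) (u v w : V3) : dh h x u v (t • w) = t * dh h x u v w := by
  simp only [dh, Pi.smul_apply, smul_eq_mul, Finset.mul_sum]
  refine Finset.sum_congr rfl fun i _ => Finset.sum_congr rfl fun j _ =>
    Finset.sum_congr rfl fun k _ => by ring

end

/-- the trilinear form of the covariant derivative -/
def cv (D : Dat) (f : Fin 3 → V3) (h : Field) (x : E3) (u v w : V3) : ℝ :=
  dh h x u v w - ∑ a, D.G (f a) u v * bf (h x) (f a) w - ∑ a, D.G (f a) u w * bf (h x) v (f a)

section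
variable (D : Dat) (f : Fin 3 → V3) (h : Field) (x : E3)

lemma cv_add1 (u u' v w : V3) : cv D f h x (u + u') v w = cv D f h x u v w + cv D f h x u' v w := by
  simp only [cv, dh_add1, Dat.G_add2, add_mul, Finset.sum_add_distrib]; ring
lemma cv_add2 (u v v' w : V3) : cv D f h x u (v + v') w = cv D f h x u v w + cv D f h x u v' w := by
  simp only [cv, dh_add2, Dat.G_add3, (bf_lin2 (h x)).a1, add_mul, mul_add,
    Finset.sum_add_distrib]; ring
lemma cv_add3 (u v w w' : V3) : cv D f h x u v (w + w') = cv D f h x u v w + cv D f h x u v w' := by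
  simp only [cv, dh_add3, Dat.G_add3, (bf_lin2 (h x)).a2, add_mul, mul_add,
    Finset.sum_add_distrib]; ring
lemma cv_smul1 (t : ℝ) (u v w : V3) : cv D f h x (t • u) v w = t * cv D f h x u v w := by
  simp only [cv, dh_smul1, Dat.G_smul2, mul_assoc, ← Finset.mul_sum]; ring
lemma cv_smul2 (t : ℝ) (u v w : V3) : cv D f h x u (t • v) w = t * cv D f h x u v w := by
  have e : ∀ a, D.G (f a) u w * bf (h x) (t • v) (f a) =
      t * (D.G (f a) u w * bf (h x) v (f a)) := by
    intro a; rw [(bf_lin2 (h x)).s1]; ring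
  simp only [cv, dh_smul2, Dat.G_smul3, e, mul_assoc, ← Finset.mul_sum]; ring
lemma cv_smul3 (t : ℝ) (u v w : V3) : cv D f h x u v (t • w) = t * cv D f h x u v w := by
  have e : ∀ a, D.G (f a) u v * bf (h x) (f a) (t • w) =
      t * (D.G (f a) u v * bf (h x) (f a) w) := by
    intro a; rw [(bf_lin2 (h x)).s2]; ring
  simp only [cv, dh_smul3, Dat.G_smul3, e, mul_assoc, ← Finset.mul_sum]; ring

end

section
variable {g h : Field} {R₀ : ℝ} {φ : ℝ → ℝ} {G : E3 → ℝ} {x : E3}

lemma g_symm (H : Cls g R₀ φ G) (hx : x ∈ Ext R₀) (i j : Fin 3) : g x i j = g x j i := by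
  rw [H.metric x hx, H.metric x hx, Matrix.one_apply, Matrix.one_apply]
  by_cases hij : i = j
  · subst hij; rfl
  · rw [if_neg hij, if_neg (fun h => hij h.symm)]; ring

lemma chr_lower (H : Cls g R₀ φ G) (hp : Pos R₀ φ G) (hx : x ∈ Ext R₀) (k i j : Fin 3) :
    ∑ l, Chr g x l k i * g x l j = Gam g x j k i := by
  unfold Chr
  have hg := g_mul_ginv H hp hx
  have e : ∀ l, (∑ m, ginv g x l m * Gam g x m k i) * g x l j =
      ∑ m, (g x j l * ginv g x l m) * Gam g x m k i := by
    intro l
    rw [Finset.sum_mul]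
    refine Finset.sum_congr rfl fun m _ => ?_
    rw [g_symm H hx l j]; ring
  simp only [e]
  rw [Finset.sum_comm]
  have e2 : ∀ m, ∑ l, g x j l * ginv g x l m * Gam g x m k i =
      (1 : Matrix (Fin 3) (Fin 3) ℝ) j m * Gam g x m k i := by
    intro m
    rw [← Finset.sum_mul, ← Matrix.mul_apply, hg]
  simp only [e2]
  simp [Matrix.one_apply]

lemma pd_g_symm (H : Cls g R₀ φ G) (hx : x ∈ Ext R₀) (k i j : Fin 3) :
    pd k (fun z => g z i j) x = pd k (fun z => g z j i) x := by
  apply pd_congr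
  filter_upwards [(isOpen_Ext R₀).mem_nhds hx] with z hz
  exact g_symm H hz i j

lemma covD_g (H : Cls g R₀ φ G) (hp : Pos R₀ φ G) (hx : x ∈ Ext R₀) (k i j : Fin 3) :
    covD g g x k i j = 0 := by
  unfold covD
  have e2 : ∑ l, Chr g x l k j * g x i l = ∑ l, Chr g x l k j * g x l i := by
    refine Finset.sum_congr rfl fun l _ => ?_
    rw [g_symm H hx i l]
  rw [e2, chr_lower H hp hx, chr_lower H hp hx]
  unfold Gam
  rw [pd_g_symm H hx k j i, pd_g_symm H hx j i k, pd_g_symm H hx j k i, pd_g_symm H hx i k j]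
  ring

/-- differentiability of `h` -/
def Dh (R₀ : ℝ) (h : Field) : Prop := ∀ x ∈ Ext R₀, ∀ i j, DifferentiableAt ℝ (fun z => h z i j) x

/-- symmetry of `h` -/
def Sh (R₀ : ℝ) (h : Field) : Prop := ∀ x ∈ Ext R₀, ∀ i j, h x i j = h x j i

lemma diff_unit (hr : 0 < ‖x‖) (i : Fin 3) : DifferentiableAt ℝ (fun z : E3 => z i / ‖z‖) x := by
  simp only [div_eq_mul_inv]
  exact (diff_coord i x).fun_mul ((diff_norm hr).fun_inv hr.ne')

lemma diff_al (hn : 0 ≤ R₀) (hd : Dh R₀ h) (hx : x ∈ Ext R₀) : DifferentiableAt ℝ (al h) x := by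
  have hr := ne_zero hn hx
  unfold al
  refine DifferentiableAt.fun_sum fun i _ => DifferentiableAt.fun_sum fun j _ => ?_
  exact ((hd x hx i j).fun_mul (diff_unit hr i)).fun_mul (diff_unit hr j)

lemma diff_tt (hd : Dh R₀ h) (hx : x ∈ Ext R₀) : DifferentiableAt ℝ (tt h) x := by
  unfold tt
  exact DifferentiableAt.fun_sum fun i _ => hd x hx i i

lemma diff_W (H : Cls g R₀ φ G) (hx : x ∈ Ext R₀) : DifferentiableAt ℝ (Wf φ G) x := by
  have hr := ne_zero H.nn hx
  unfold Wf
  exact (diff_rad (H.phi_d hx)).fun_add ((H.G_d hx).fun_mul ((diff_norm hr).fun_pow 2))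

lemma diff_P (H : Cls g R₀ φ G) (hp : Pos R₀ φ G) (hd : Dh R₀ h) (hx : x ∈ Ext R₀) :
    DifferentiableAt ℝ (sphereTrace g h) x := by
  have e : sphereTrace g h =ᶠ[𝓝 x] fun z => (tt h z - al h z) / φ (‖z‖ ^ 2) := by
    filter_upwards [(isOpen_Ext R₀).mem_nhds hx] with z hz
    exact sphereTrace_eq H hp hz h
  refine DifferentiableAt.congr_of_eventuallyEq ?_ e
  simp only [div_eq_mul_inv]
  exact ((diff_tt hd hx).fun_sub (diff_al H.nn hd hx)).fun_mul
    ((diff_rad (H.phi_d hx)).fun_inv (hp x hx).1.ne')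

lemma diff_alW (H : Cls g R₀ φ G) (hp : Pos R₀ φ G) (hd : Dh R₀ h) (hx : x ∈ Ext R₀) :
    DifferentiableAt ℝ (fun z => al h z / Wf φ G z) x := by
  simp only [div_eq_mul_inv]
  exact (diff_al H.nn hd hx).fun_mul ((diff_W H hx).fun_inv (hp x hx).2.ne')

lemma tr_ev (H : Cls g R₀ φ G) (hp : Pos R₀ φ G) (hx : x ∈ Ext R₀) :
    trT g h =ᶠ[𝓝 x] fun z => sphereTrace g h z + al h z / Wf φ G z := by
  filter_upwards [(isOpen_Ext R₀).mem_nhds hx] with z hz
  rw [trT_eq H hp hz, sphereTrace_eq H hp hz]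

lemma diff_tr (H : Cls g R₀ φ G) (hp : Pos R₀ φ G) (hd : Dh R₀ h) (hx : x ∈ Ext R₀) :
    DifferentiableAt ℝ (trT g h) x :=
  ((diff_P H hp hd hx).fun_add (diff_alW H hp hd hx)).congr_of_eventuallyEq (tr_ev H hp hx)

lemma diff_g (H : Cls g R₀ φ G) (hx : x ∈ Ext R₀) (i j : Fin 3) :
    DifferentiableAt ℝ (fun z => g z i j) x := by
  refine DifferentiableAt.congr_of_eventuallyEq ?_ (H.ev_metric hx i j)
  exact ((diff_rad (H.phi_d hx)).mul_const _).fun_add
    ((H.G_d hx).fun_mul ((diff_coord i x).fun_mul (diff_coord j x)))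

lemma pd_sub {f f' : E3 → ℝ} (hf : DifferentiableAt ℝ f x) (hf' : DifferentiableAt ℝ f' x)
    (i : Fin 3) : pd i (fun z => f z - f' z) x = pd i f x - pd i f' x := by
  unfold pd; rw [fderiv_fun_sub hf hf']; rfl

lemma mom_eq (H : Cls g R₀ φ G) (hp : Pos R₀ φ G) (hd : Dh R₀ h) (hx : x ∈ Ext R₀) (i : Fin 3) :
    momentumDensity g h x i =
      (∑ j, ∑ k, ginv g x j k * covD g h x k i j) - pd i (trT g h) x := by
  unfold momentumDensity divT
  have e : ∀ k j, covD g (fun z => h z - trT g h z • g z) x k i j =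
      covD g h x k i j - pd k (trT g h) x * g x i j := by
    intro k j
    have hc := covD_g H hp hx k i j
    unfold covD at hc ⊢
    have e1 : pd k (fun z => (h z - trT g h z • g z) i j) x =
        pd k (fun z => h z i j) x - (trT g h x * pd k (fun z => g z i j) x +
          g x i j * pd k (trT g h) x) := by
      have : (fun z => (h z - trT g h z • g z) i j) = fun z => h z i j - trT g h z * g z i j := by
        funext z; simp
      rw [this, pd_sub (hd x hx i j) ((diff_tr H hp hd hx).fun_mul (diff_g H hx i j)),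
        pd_mul (diff_tr H hp hd hx) (diff_g H hx i j)]
    have e2 : ∑ l, Chr g x l k i * (h x - trT g h x • g x) l j =
        ∑ l, Chr g x l k i * h x l j - trT g h x * ∑ l, Chr g x l k i * g x l j := by
      rw [Finset.mul_sum, ← Finset.sum_sub_distrib]
      refine Finset.sum_congr rfl fun l _ => ?_
      simp only [Matrix.sub_apply, Matrix.smul_apply, smul_eq_mul]; ring
    have e3 : ∑ l, Chr g x l k j * (h x - trT g h x • g x) i l =
        ∑ l, Chr g x l k j * h x i l - trT g h x * ∑ l, Chr g x l k j * g x i l := by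
      rw [Finset.mul_sum, ← Finset.sum_sub_distrib]
      refine Finset.sum_congr rfl fun l _ => ?_
      simp only [Matrix.sub_apply, Matrix.smul_apply, smul_eq_mul]; ring
    rw [e1, e2, e3]
    linear_combination (-(trT g h x)) * hc
  simp only [e, mul_sub, Finset.sum_sub_distrib]
  congr 1
  have hg := g_mul_ginv H hp hx
  have e4 : ∀ j, ∑ k, ginv g x j k * (pd k (trT g h) x * g x i j) =
      ∑ k, (g x i j * ginv g x j k) * pd k (trT g h) x := by
    intro j
    refine Finset.sum_congr rfl fun k _ => by ring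
  simp only [e4]
  rw [Finset.sum_comm]
  have e5 : ∀ k, ∑ j, g x i j * ginv g x j k * pd k (trT g h) x =
      (1 : Matrix (Fin 3) (Fin 3) ℝ) i k * pd k (trT g h) x := by
    intro k
    rw [← Finset.sum_mul, ← Matrix.mul_apply, hg]
  simp only [e5]
  simp [Matrix.one_apply]

lemma covD_cv (H : Cls g R₀ φ G) (hx : x ∈ Ext R₀) {f : Fin 3 → V3}
    (hM : ∀ i j, ginv g x i j = ∑ a, f a i * f a j) (k i j : Fin 3) :
    covD g h x k i j = cv (dat φ G x) f h x (eb k) (eb i) (eb j) := by
  unfold covD cv Chr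
  rw [dh_eb]
  have e : ∀ (i : Fin 3) (w : Fin 3 → ℝ), ∑ l, (∑ m, ginv g x l m * Gam g x m k i) * w l =
      ∑ l, ∑ m, ginv g x l m * ((dat φ G x).G (eb m) (eb k) (eb i) * w l) := by
    intro i w
    refine Finset.sum_congr rfl fun l _ => ?_
    rw [Finset.sum_mul]
    refine Finset.sum_congr rfl fun m _ => ?_
    rw [H.Gam_eq_G hx]; ring
  have L := bf_lin2 (h x)
  have c1 := Lin2.contract (f := f) hM
    (B := fun u v => (dat φ G x).G v (eb k) (eb i) * bf (h x) u (eb j))
    ⟨fun u v b => by simp only [L.a1]; ring, fun t v b => by simp only [L.s1]; ring,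
     fun u v b => by simp only [Dat.G_add1]; ring, fun t v b => by simp only [Dat.G_smul1]; ring⟩
  have c2 := Lin2.contract (f := f) hM
    (B := fun u v => (dat φ G x).G v (eb k) (eb j) * bf (h x) (eb i) u)
    ⟨fun u v b => by simp only [L.a2]; ring, fun t v b => by simp only [L.s2]; ring,
     fun u v b => by simp only [Dat.G_add1]; ring, fun t v b => by simp only [Dat.G_smul1]; ring⟩
  simp only [bf_eb] at c1 c2
  rw [e i (fun l => h x l j), e j (fun l => h x i l), c1, c2]

/-- the normal component of the momentum density -/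
def momN (g h : Field) (x : E3) (n : V3) : ℝ := dp n (momentumDensity g h x)

/-- directional derivative -/
def dn (f : E3 → ℝ) (x : E3) (n : V3) : ℝ := ∑ i, n i * pd i f x

lemma momN_cv (H : Cls g R₀ φ G) (hp : Pos R₀ φ G) (hd : Dh R₀ h) (hx : x ∈ Ext R₀)
    {f : Fin 3 → V3} (hM : ∀ i j, ginv g x i j = ∑ a, f a i * f a j) (n : V3) :
    momN g h x n = (∑ a, cv (dat φ G x) f h x (f a) n (f a)) - dn (trT g h) x n := by
  unfold momN dp dn
  simp only [mom_eq H hp hd hx, mul_sub, Finset.sum_sub_distrib]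
  congr 1
  have c : ∀ i, ∑ j, ∑ k, ginv g x j k * covD g h x k i j =
      ∑ a, cv (dat φ G x) f h x (f a) (eb i) (f a) := by
    intro i
    have c1 := Lin2.contract (f := f) hM
      (B := fun u v => cv (dat φ G x) f h x v (eb i) u)
      ⟨fun u v b => by simp only [cv_add3], fun t v b => by simp only [cv_smul3],
       fun u v b => by simp only [cv_add1], fun t v b => by simp only [cv_smul1]⟩
    simp only [covD_cv H hx hM]
    exact c1
  simp only [c, Finset.mul_sum]
  rw [Finset.sum_comm]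
  refine Finset.sum_congr rfl fun a _ => ?_
  exact (lin_expand (φ := fun v => cv (dat φ G x) f h x (f a) v (f a))
    (fun u v => cv_add2 _ _ _ _ _ _ _ _) (fun t v => cv_smul2 _ _ _ _ _ _ _ _) n).symm

end

end

end Run7.h204.Pen
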