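import Pool.Agent.Run7.h204.PenMom

/-! The normal component of the momentum density: evaluation in an adapted frame. -/

namespace Run7.h204.Pen

open scoped BigOperators ContDiff Topology Matrix
open MeasureTheory Filter Metric
open Pool.Agent.H498R3.GB

noncomputable section

section
variable {D : Dat} {n e₁ e₂ : V3} {r g1 X1 X2 P W : ℝ} {h : Field} {x : E3}

lemma cv_fr (a b c : V3) :
    cv D (fr P W n e₁ e₂) h x a b c = dh h x a b c
      - ((Real.sqrt W)⁻¹ * (Real.sqrt W)⁻¹ * (D.G n a b * bf (h x) n c)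
        + (Real.sqrt P)⁻¹ * (Real.sqrt P)⁻¹ * (D.G e₁ a b * bf (h x) e₁ c)
        + (Real.sqrt P)⁻¹ * (Real.sqrt P)⁻¹ * (D.G e₂ a b * bf (h x) e₂ c))
      - ((Real.sqrt W)⁻¹ * (Real.sqrt W)⁻¹ * (D.G n a c * bf (h x) b n)
        + (Real.sqrt P)⁻¹ * (Real.sqrt P)⁻¹ * (D.G e₁ a c * bf (h x) b e₁)
        + (Real.sqrt P)⁻¹ * (Real.sqrt P)⁻¹ * (D.G e₂ a c * bf (h x) b e₂)) := by
  unfold cv
  rw [Fin.sum_univ_three, Fin.sum_univ_three]
  have L := bf_lin2 (h x)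
  set f := fr P W n e₁ e₂ with hf
  have h0 : f 0 = (Real.sqrt W)⁻¹ • n := rfl
  have h1 : f 1 = (Real.sqrt P)⁻¹ • e₁ := rfl
  have h2 : f 2 = (Real.sqrt P)⁻¹ • e₂ := rfl
  rw [h0, h1, h2]
  simp only [Dat.G_smul1, L.s1, L.s2]
  ring

variable (V : Vals D n e₁ e₂ r g1 X1 X2) (hP : 0 < P) (hW : 0 < W)
include V hP hW

lemma cv_nnn : cv D (fr P W n e₁ e₂) h x n n n =
    dh h x n n n - 2 * (W⁻¹ * (gam0 D r g1 * bf (h x) n n)) := by
  rw [cv_fr, inv_sqrt_sq hW, inv_sqrt_sq hP]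
  simp only [Dat.G, Dat.T, V.Yn, V.Y1, V.Y2, V.An, V.A1, V.A2, V.Nnn, V.Nn1, V.N1n, V.Nn2,
    V.N2n, gam0]
  field_simp
  ring

lemma cv_1n1 : cv D (fr P W n e₁ e₂) h x e₁ n e₁ =
    dh h x e₁ n e₁ - P⁻¹ * (D.F1 * r * bf (h x) e₁ e₁)
      - W⁻¹ * ((D.G0 - D.F1) * r * bf (h x) n n) := by
  rw [cv_fr, inv_sqrt_sq hW, inv_sqrt_sq hP]
  simp only [Dat.G, Dat.T, V.Yn, V.Y1, V.Y2, V.An, V.A1, V.A2, V.Nnn, V.Nn1, V.N1n, V.Nn2,
    V.N2n, V.N11, V.N22, V.N12, V.N21]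
  field_simp
  ring

lemma cv_2n2 : cv D (fr P W n e₁ e₂) h x e₂ n e₂ =
    dh h x e₂ n e₂ - P⁻¹ * (D.F1 * r * bf (h x) e₂ e₂)
      - W⁻¹ * ((D.G0 - D.F1) * r * bf (h x) n n) := by
  rw [cv_fr, inv_sqrt_sq hW, inv_sqrt_sq hP]
  simp only [Dat.G, Dat.T, V.Yn, V.Y1, V.Y2, V.An, V.A1, V.A2, V.Nnn, V.Nn1, V.N1n, V.Nn2,
    V.N2n, V.N11, V.N22, V.N12, V.N21]
  field_simp
  ring

lemma sum_cv : ∑ a, cv D (fr P W n e₁ e₂) h x (fr P W n e₁ e₂ a) n (fr P W n e₁ e₂ a) =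
    W⁻¹ * (dh h x n n n - 2 * (W⁻¹ * (gam0 D r g1 * bf (h x) n n)))
      + P⁻¹ * (dh h x e₁ n e₁ + dh h x e₂ n e₂
        - P⁻¹ * (D.F1 * r * (bf (h x) e₁ e₁ + bf (h x) e₂ e₂))
        - 2 * (W⁻¹ * ((D.G0 - D.F1) * r * bf (h x) n n))) := by
  rw [Fin.sum_univ_three]
  set f := fr P W n e₁ e₂ with hf
  have h0 : f 0 = (Real.sqrt W)⁻¹ • n := rfl
  have h1 : f 1 = (Real.sqrt P)⁻¹ • e₁ := rfl
  have h2 : f 2 = (Real.sqrt P)⁻¹ • e₂ := rfl
  rw [h0, h1, h2]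
  simp only [cv_smul1, cv_smul3]
  rw [cv_nnn V hP hW, cv_1n1 V hP hW, cv_2n2 V hP hW]
  have a := inv_sqrt_sq hW
  have b := inv_sqrt_sq hP
  set sW := (Real.sqrt W)⁻¹
  set sP := (Real.sqrt P)⁻¹
  rw [← a, ← b]
  ring

end

section
variable {g h : Field} {R₀ : ℝ} {φ : ℝ → ℝ} {G : E3 → ℝ} {x : E3} {n e₁ e₂ : V3}

lemma n_eq (hr : 0 < ‖x‖) (hf : Frame x n e₁ e₂) (i : Fin 3) : x i / ‖x‖ = n i := by
  rw [hf.x_eq i, mul_div_cancel_left₀ _ hr.ne']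

lemma al_eq (hr : 0 < ‖x‖) (hf : Frame x n e₁ e₂) : al h x = bf (h x) n n := by
  unfold al bf
  refine Finset.sum_congr rfl fun i _ => Finset.sum_congr rfl fun j _ => ?_
  rw [n_eq hr hf, n_eq hr hf]; ring

lemma tt_eq (hf : Frame x n e₁ e₂) :
    tt h x = bf (h x) n n + bf (h x) e₁ e₁ + bf (h x) e₂ e₂ := by
  have c := Lin2.contract (f := ![n, e₁, e₂]) (M := (1 : Matrix (Fin 3) (Fin 3) ℝ)) (by
    intro i j
    rw [Fin.sum_univ_three]
    exact (hf.compl i j).symm) (bf_lin2 (h x))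
  simp only [bf_eb] at c
  unfold tt
  have : ∑ i, ∑ j, (1 : Matrix (Fin 3) (Fin 3) ℝ) i j * h x i j = ∑ i, h x i i := by
    simp [Matrix.one_apply]
  rw [← this, c, Fin.sum_univ_three]
  rfl

lemma pd_unit (hr : 0 < ‖x‖) (k i : Fin 3) : pd k (fun z : E3 => z i / ‖z‖) x =
    ((1 : Matrix (Fin 3) (Fin 3) ℝ) k i - x k / ‖x‖ * (x i / ‖x‖)) / ‖x‖ := by
  have e3 : pd k (fun z : E3 => ‖z‖ * (z i / ‖z‖)) x = (1 : Matrix (Fin 3) (Fin 3) ℝ) k i := by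
    have hx0 : x ≠ 0 := norm_pos_iff.1 hr
    have : (fun z : E3 => ‖z‖ * (z i / ‖z‖)) =ᶠ[𝓝 x] fun z => z i := by
      filter_upwards [isOpen_ne.mem_nhds hx0] with z hz
      have : ‖z‖ ≠ 0 := norm_ne_zero_iff.2 hz
      field_simp
    rw [pd_congr this, pd_coord]
  rw [pd_mul (diff_norm hr) (diff_unit hr i), pd_norm hr] at e3
  rw [← e3]
  field_simp
  ring

lemma pd_al (hn : 0 ≤ R₀) (hd : Dh R₀ h) (hx : x ∈ Ext R₀) (k : Fin 3) :
    pd k (al h) x = ∑ i, ∑ j, (pd k (fun z => h z i j) x * (x i / ‖x‖) * (x j / ‖x‖)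
      + h x i j * (((1 : Matrix (Fin 3) (Fin 3) ℝ) k i - x k / ‖x‖ * (x i / ‖x‖)) / ‖x‖)
        * (x j / ‖x‖)
      + h x i j * (x i / ‖x‖) *
        (((1 : Matrix (Fin 3) (Fin 3) ℝ) k j - x k / ‖x‖ * (x j / ‖x‖)) / ‖x‖)) := by
  have hr := ne_zero hn hx
  have hs : ∀ {ι : Type} (s : Finset ι) (f : ι → E3 → ℝ),
      (∀ i ∈ s, DifferentiableAt ℝ (f i) x) →
      pd k (fun z => ∑ i ∈ s, f i z) x = ∑ i ∈ s, pd k (f i) x := by
    intro ι s f hf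
    unfold pd
    rw [fderiv_fun_sum hf]
    simp
  unfold al
  rw [hs _ _ fun i _ => DifferentiableAt.fun_sum fun j _ =>
    ((hd x hx i j).fun_mul (diff_unit hr i)).fun_mul (diff_unit hr j)]
  refine Finset.sum_congr rfl fun i _ => ?_
  rw [hs _ _ fun j _ => ((hd x hx i j).fun_mul (diff_unit hr i)).fun_mul (diff_unit hr j)]
  refine Finset.sum_congr rfl fun j _ => ?_
  rw [pd_mul ((hd x hx i j).fun_mul (diff_unit hr i)) (diff_unit hr j),
    pd_mul (hd x hx i j) (diff_unit hr i), pd_unit hr, pd_unit hr]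
  ring

lemma dn_al (hn : 0 ≤ R₀) (hd : Dh R₀ h) (hx : x ∈ Ext R₀) (hf : Frame x n e₁ e₂) :
    dn (al h) x n = dh h x n n n := by
  have hr := ne_zero hn hx
  have hs := hf.nn
  unfold dp at hs
  unfold dn dh
  simp only [pd_al hn hd hx, n_eq hr hf, Matrix.one_apply, Fin.sum_univ_three] at hs ⊢
  simp only [Fin.isValue, Fin.reduceEq, if_true, if_false]
  have hn0 : n 0 * n 0 = 1 - n 1 * n 1 - n 2 * n 2 := by linarith
  have e0 : n 0 * (1 - n 0 * n 0) + n 1 * (0 - n 1 * n 0) + n 2 * (0 - n 2 * n 0) = 0 := by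
    linear_combination (-(n 0)) * hs
  have e1 : n 0 * (0 - n 0 * n 1) + n 1 * (1 - n 1 * n 1) + n 2 * (0 - n 2 * n 1) = 0 := by
    linear_combination (-(n 1)) * hs
  have e2 : n 0 * (0 - n 0 * n 2) + n 1 * (0 - n 1 * n 2) + n 2 * (1 - n 2 * n 2) = 0 := by
    linear_combination (-(n 2)) * hs
  linear_combination (h x 0 0 / ‖x‖ * n 0 + h x 0 0 / ‖x‖ * n 0 + h x 0 1 / ‖x‖ * n 1
      + h x 1 0 / ‖x‖ * n 1 + h x 0 2 / ‖x‖ * n 2 + h x 2 0 / ‖x‖ * n 2) * e0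
    + (h x 1 1 / ‖x‖ * n 1 + h x 1 1 / ‖x‖ * n 1 + h x 0 1 / ‖x‖ * n 0
      + h x 1 0 / ‖x‖ * n 0 + h x 1 2 / ‖x‖ * n 2 + h x 2 1 / ‖x‖ * n 2) * e1
    + (h x 2 2 / ‖x‖ * n 2 + h x 2 2 / ‖x‖ * n 2 + h x 0 2 / ‖x‖ * n 0
      + h x 2 0 / ‖x‖ * n 0 + h x 1 2 / ‖x‖ * n 1 + h x 2 1 / ‖x‖ * n 1) * e2

lemma dn_W (H : Cls g R₀ φ G) (hx : x ∈ Ext R₀) (hf : Frame x n e₁ e₂) :
    dn (Wf φ G) x n = 2 * gam0 (dat φ G x) ‖x‖ ((dat φ G x).A n) := by
  have hr := ne_zero H.nn hx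
  have hs := hf.nn
  unfold dp at hs
  have e : ∀ k, pd k (Wf φ G) x = deriv φ (‖x‖ ^ 2) * (2 * (‖x‖ * n k))
      + (G x * (2 * (‖x‖ * n k)) + ‖x‖ ^ 2 * pd k G x) := by
    intro k
    unfold Wf
    have d1 : DifferentiableAt ℝ (fun z : E3 => ‖z‖ ^ 2) x := (diff_norm hr).fun_pow 2
    have e1 : pd k (fun z : E3 => ‖z‖ ^ 2) x = 2 * x k := by
      have := pd_rad (φ := fun t => t) (x := x) differentiableAt_id k
      have h1 : deriv (fun t : ℝ => t) (‖x‖ ^ 2) = 1 := by simp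
      rw [h1] at this
      rw [this]; ring
    rw [pd_add (diff_rad (H.phi_d hx)) ((H.G_d hx).fun_mul d1), pd_rad (H.phi_d hx),
      pd_mul (H.G_d hx) d1, e1, hf.x_eq k]
  unfold dn gam0
  simp only [e]
  rw [dat_A]
  have e2 : ∀ i, n i * (deriv φ (‖x‖ ^ 2) * (2 * (‖x‖ * n i))
      + (G x * (2 * (‖x‖ * n i)) + ‖x‖ ^ 2 * pd i G x)) =
      (2 * ‖x‖ * deriv φ (‖x‖ ^ 2) + 2 * ‖x‖ * G x) * (n i * n i)
        + ‖x‖ ^ 2 * (n i * pd i G x) := fun i => by ring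
  simp only [e2, Finset.sum_add_distrib, ← Finset.mul_sum, hs]
  simp only [dat]
  ring

lemma dn_add {f f' : E3 → ℝ} (hf : DifferentiableAt ℝ f x) (hf' : DifferentiableAt ℝ f' x) :
    dn (fun z => f z + f' z) x n = dn f x n + dn f' x n := by
  unfold dn
  simp only [pd_add hf hf', mul_add, Finset.sum_add_distrib]

lemma dn_mul {f f' : E3 → ℝ} (hf : DifferentiableAt ℝ f x) (hf' : DifferentiableAt ℝ f' x) :
    dn (fun z => f z * f' z) x n = f x * dn f' x n + f' x * dn f x n := by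
  unfold dn
  simp only [pd_mul hf hf', mul_add, Finset.sum_add_distrib, Finset.mul_sum]
  congr 1 <;> refine Finset.sum_congr rfl fun i _ => by ring

lemma dn_congr {f f' : E3 → ℝ} (hf : f =ᶠ[𝓝 x] f') : dn f x n = dn f' x n := by
  unfold dn
  simp only [pd_congr hf]

lemma dn_tr (H : Cls g R₀ φ G) (hp : Pos R₀ φ G) (hd : Dh R₀ h) (hx : x ∈ Ext R₀)
    (hf : Frame x n e₁ e₂) :
    dn (trT g h) x n = dn (sphereTrace g h) x n + dh h x n n n / Wf φ G x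
      - bf (h x) n n * (2 * gam0 (dat φ G x) ‖x‖ ((dat φ G x).A n)) / Wf φ G x ^ 2 := by
  have hr := ne_zero H.nn hx
  have hW : 0 < Wf φ G x := (hp x hx).2
  rw [dn_congr (tr_ev H hp hx), dn_add (diff_P H hp hd hx) (diff_alW H hp hd hx)]
  have e1 : dn (fun z => Wf φ G z * (al h z / Wf φ G z)) x n = dh h x n n n := by
    rw [← dn_al H.nn hd hx hf]
    apply dn_congr
    filter_upwards [(isOpen_Ext R₀).mem_nhds hx] with z hz
    have := (hp z hz).2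
    have h2 : Wf φ G z ≠ 0 := this.ne'
    field_simp
  rw [dn_mul (diff_W H hx) (diff_alW H hp hd hx), dn_W H hx hf, al_eq hr hf] at e1
  rw [← e1]
  field_simp
  ring

lemma mixedDiv_eq (hn : 0 ≤ R₀) (hd : Dh R₀ h) (hs : Sh R₀ h) (hx : x ∈ Ext R₀)
    (hf : Frame x n e₁ e₂) :
    mixedDiv h x = dh h x e₁ n e₁ + dh h x e₂ n e₂ + (tt h x - al h x) / ‖x‖
      - 2 * al h x / ‖x‖ := by
  have hr := ne_zero hn hx
  have hnn := hf.nn
  unfold dp at hnn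
  have hsum : ∀ {ι : Type} (k : Fin 3) (s : Finset ι) (f : ι → E3 → ℝ),
      (∀ i ∈ s, DifferentiableAt ℝ (f i) x) →
      pd k (fun z => ∑ i ∈ s, f i z) x = ∑ i ∈ s, pd k (f i) x := by
    intro ι k s f hf
    unfold pd
    rw [fderiv_fun_sum hf]
    simp
  have e : ∀ i, pd i (fun z => mixedPart h z i) x =
      (∑ j, (pd i (fun z => h z i j) x * n j + h x i j *
        (((1 : Matrix (Fin 3) (Fin 3) ℝ) i j - n i * n j) / ‖x‖)))
      - (n i * pd i (al h) x + al h x * ((1 - n i * n i) / ‖x‖)) := by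
    intro i
    have e0 : (fun z => mixedPart h z i) =
        fun z => (∑ j, h z i j * (z j / ‖z‖)) - al h z * (z i / ‖z‖) := rfl
    rw [e0, pd_sub (DifferentiableAt.fun_sum fun j _ => (hd x hx i j).fun_mul (diff_unit hr j))
      ((diff_al hn hd hx).fun_mul (diff_unit hr i)),
      hsum i _ _ (fun j _ => (hd x hx i j).fun_mul (diff_unit hr j)),
      pd_mul (diff_al hn hd hx) (diff_unit hr i), pd_unit hr, n_eq hr hf]
    simp only [pd_mul (hd x hx i _) (diff_unit hr _), pd_unit hr, n_eq hr hf]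
    rw [Matrix.one_apply_eq]
    congr 1
    · refine Finset.sum_congr rfl fun j _ => by ring
    · ring
  unfold mixedDiv
  simp only [e, Finset.sum_sub_distrib, Finset.sum_add_distrib]
  have a1 : ∑ i, n i * pd i (al h) x = dh h x n n n := dn_al hn hd hx hf
  have a2 : ∑ i, al h x * ((1 - n i * n i) / ‖x‖) = 2 * al h x / ‖x‖ := by
    have : ∀ i, al h x * ((1 - n i * n i) / ‖x‖) = al h x / ‖x‖ - al h x / ‖x‖ * (n i * n i) :=
      fun i => by ring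
    simp only [this, Finset.sum_sub_distrib, ← Finset.mul_sum, hnn]
    simp
    ring
  have a3 : ∑ i, ∑ j, h x i j * (((1 : Matrix (Fin 3) (Fin 3) ℝ) i j - n i * n j) / ‖x‖) =
      (tt h x - al h x) / ‖x‖ := by
    have : ∀ i j, h x i j * (((1 : Matrix (Fin 3) (Fin 3) ℝ) i j - n i * n j) / ‖x‖) =
        ((1 : Matrix (Fin 3) (Fin 3) ℝ) i j * h x i j) / ‖x‖ - (n i * n j * h x i j) / ‖x‖ :=
      fun i j => by ring
    simp only [this, Finset.sum_sub_distrib, ← Finset.sum_div]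
    rw [al_eq hr hf]
    unfold bf tt
    simp only [Matrix.one_apply, ite_mul, one_mul, zero_mul, Finset.sum_ite_eq, Finset.mem_univ,
      if_true]
    ring
  have a4 : ∑ i, ∑ j, pd i (fun z => h z i j) x * n j =
      dh h x n n n + dh h x e₁ n e₁ + dh h x e₂ n e₂ := by
    have c := Lin2.contract (f := ![n, e₁, e₂]) (M := (1 : Matrix (Fin 3) (Fin 3) ℝ)) (by
      intro i j
      rw [Fin.sum_univ_three]
      exact (hf.compl i j).symm)
      (B := fun u v => dh h x u n v)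
      ⟨fun u v b => by simp only [dh_add1], fun t v b => by simp only [dh_smul1],
       fun u v b => by simp only [dh_add3], fun t v b => by simp only [dh_smul3]⟩
    have c' : ∑ i, ∑ j, (1 : Matrix (Fin 3) (Fin 3) ℝ) i j * dh h x (eb i) n (eb j) =
        dh h x n n n + dh h x e₁ n e₁ + dh h x e₂ n e₂ := by
      rw [c, Fin.sum_univ_three]; rfl
    rw [← c']
    refine Finset.sum_congr rfl fun i _ => ?_
    have e5 : ∑ j, (1 : Matrix (Fin 3) (Fin 3) ℝ) i j * dh h x (eb i) n (eb j) =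
        dh h x (eb i) n (eb i) := by simp [Matrix.one_apply]
    rw [e5]
    have e6 := lin_expand (φ := fun v => dh h x (eb i) v (eb i))
      (fun u v => dh_add2 _ _ _ _ _ _) (fun t v => dh_smul2 _ _ _ _ _ _) n
    rw [e6]
    refine Finset.sum_congr rfl fun j _ => ?_
    simp only [dh_eb]
    rw [mul_comm]
    congr 1
    apply pd_congr
    filter_upwards [(isOpen_Ext R₀).mem_nhds hx] with z hz
    exact hs z hz i j
  rw [a1, a2, a3, a4]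
  ring

/-- The normal component of the momentum density. -/
theorem momN_formula (H : Cls g R₀ φ G) (hp : Pos R₀ φ G) (hd : Dh R₀ h) (hs : Sh R₀ h)
    (hx : x ∈ Ext R₀) (hf : Frame x n e₁ e₂)
    (h1 : (dat φ G x).A e₁ = 0) (h2 : (dat φ G x).A e₂ = 0) :
    momN g h x n = (φ (‖x‖ ^ 2))⁻¹ *
        (mixedDiv h x - (tt h x - al h x) / ‖x‖ + 2 * al h x / ‖x‖)
      - deriv φ (‖x‖ ^ 2) * ‖x‖ * (tt h x - al h x) / φ (‖x‖ ^ 2) ^ 2
      - 2 * (G x - deriv φ (‖x‖ ^ 2)) * ‖x‖ * al h x / (φ (‖x‖ ^ 2) * Wf φ G x)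
      - dn (sphereTrace g h) x n := by
  obtain ⟨hP, hW⟩ := hp x hx
  have hr := ne_zero H.nn hx
  rw [momN_cv H hp hd hx (ginv_fr H hx hf hP hW),
    sum_cv (vals_of hf h1 h2) hP hW, dn_tr H hp hd hx hf, mixedDiv_eq H.nn hd hs hx hf,
    al_eq hr hf, tt_eq hf]
  have hWW : φ (‖x‖ ^ 2) + G x * ‖x‖ ^ 2 = Wf φ G x := rfl
  have hW' : 0 < Wf φ G x := hW
  rw [hWW]
  have hF1 : (dat φ G x).F1 = deriv φ (‖x‖ ^ 2) := rfl
  have hG0 : (dat φ G x).G0 = G x := rfl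
  rw [hF1, hG0]
  field_simp
  ring

end

end

end Run7.h204.Pen
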