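import Pool.Agent.Run7.h204.PenSphere

/-! The radial derivative of the pointwise Hawking mass. -/

namespace Run7.h204.Pen

open scoped BigOperators ContDiff Topology Matrix
open MeasureTheory Filter Metric
open Pool.Agent.H498R3.GB

noncomputable section

/-- the abstract form of the pointwise Hawking mass -/
def Nab (a p q w k : ℝ) : ℝ :=
  a * Real.sqrt p / 2 * (1 - (p + a ^ 2 * q) ^ 2 / (p * w) + a ^ 2 * p * k ^ 2 / 4)

/-- the scalar curvature for isotropic second derivatives -/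
def Smax (D : Dat) (r g1 P W : ℝ) : ℝ :=
  2 * (W⁻¹ * P⁻¹ * (Kne D r g1 (g1 / r) P W + Kne D r g1 (g1 / r) P W) + P⁻¹ * P⁻¹ * Kee D r W)

lemma Nab_deriv {a p q w k : ℝ → ℝ} {D : Dat} {r P W g1 κ κn : ℝ}
    (ha : HasDerivAt a 1 0) (hp : HasDerivAt p (2 * r * D.F1) 0)
    (hq : HasDerivAt q (2 * r * D.F2) 0) (hw : HasDerivAt w (2 * gam0 D r g1) 0)
    (hk : HasDerivAt k κn 0) (ha0 : a 0 = r) (hp0 : p 0 = P) (hq0 : q 0 = D.F1)
    (hw0 : w 0 = W) (hk0 : k 0 = κ) (hr : 0 < r) (hP : 0 < P) (hW : 0 < W)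
    (hWe : W = P + D.G0 * r ^ 2) :
    HasDerivAt (fun s => Nab (a s) (p s) (q s) (w s) (k s))
      (r ^ 2 * Real.sqrt P / 4 * ((P + r ^ 2 * D.F1) * Smax D r g1 P W
        + 3 / 2 * (P + r ^ 2 * D.F1) * κ ^ 2 + r * P * κ * κn)) 0 := by
  unfold Nab
  have h1 : HasDerivAt (fun s => Real.sqrt (p s)) (2 * r * D.F1 / (2 * Real.sqrt P)) 0 := by
    have := hp.sqrt (by rw [hp0]; exact hP.ne')
    rw [hp0] at this
    exact this
  have h2 := (ha.fun_mul h1).div_const 2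
  have h3 : HasDerivAt (fun s => (a s) ^ 2) (2 * r) 0 := by
    have := ha.fun_pow 2
    simpa [ha0] using this
  have h4 := hp.fun_add (h3.fun_mul hq)
  have h5 := h4.fun_pow 2
  have h6 := hp.fun_mul hw
  have h7 := h5.fun_div h6 (by rw [hp0, hw0]; positivity)
  have h8 := hk.fun_pow 2
  have h9 := ((h3.fun_mul hp).fun_mul h8).div_const 4
  have h10 := ((hasDerivAt_const (0 : ℝ) (1 : ℝ)).fun_sub h7).fun_add h9
  have h11 := h2.fun_mul h10
  refine h11.congr_deriv ?_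
  rw [ha0, hp0, hq0, hw0, hk0]
  obtain ⟨σ, hσ, rfl⟩ : ∃ σ : ℝ, 0 < σ ∧ P = σ ^ 2 :=
    ⟨Real.sqrt P, Real.sqrt_pos.2 hP, (Real.sq_sqrt hP.le).symm⟩
  rw [Real.sqrt_sq hσ.le]
  have hG : D.G0 = (W - σ ^ 2) / r ^ 2 := by
    rw [hWe]; field_simp; ring
  unfold Smax Kne Kee gam0
  rw [hG]
  simp only [Nat.cast_ofNat, Nat.add_one_sub_one, pow_one]
  field_simp
  ring

section
variable {g h : Field} {R₀ : ℝ} {φ : ℝ → ℝ} {G : E3 → ℝ} {x : E3} {n e₁ e₂ : V3}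

/-- the pointwise Hawking mass -/
def Nf (g h : Field) (φ : ℝ → ℝ) (G : E3 → ℝ) (x : E3) : ℝ :=
  Nab ‖x‖ (φ (‖x‖ ^ 2)) (deriv φ (‖x‖ ^ 2)) (Wf φ G x) (sphereTrace g h x)

lemma ray_deriv {f : E3 → ℝ} (hf : DifferentiableAt ℝ f x) (n : V3) :
    HasDerivAt (fun s : ℝ => f (x + s • toE n)) (dn f x n) 0 := by
  have h1 : HasDerivAt (fun s : ℝ => x + s • toE n) (toE n) 0 := by
    have := ((hasDerivAt_id (0 : ℝ)).smul_const (toE n)).const_add x
    simpa using this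
  have hx0 : x + (0 : ℝ) • toE n = x := by simp
  have h2 : HasFDerivAt f (fderiv ℝ f x) (x + (0 : ℝ) • toE n) := by
    rw [hx0]; exact hf.hasFDerivAt
  have := h2.comp_hasDerivAt (0 : ℝ) h1
  rw [fderiv_eq_sum] at this
  exact this

lemma dn_norm (hr : 0 < ‖x‖) (hf : Frame x n e₁ e₂) : dn (fun z : E3 => ‖z‖) x n = 1 := by
  unfold dn
  simp only [pd_norm hr, n_eq hr hf]
  exact hf.nn

lemma dn_rad {ψ : ℝ → ℝ} (hψ : DifferentiableAt ℝ ψ (‖x‖ ^ 2)) (hf : Frame x n e₁ e₂) :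
    dn (fun z : E3 => ψ (‖z‖ ^ 2)) x n = 2 * ‖x‖ * deriv ψ (‖x‖ ^ 2) := by
  unfold dn
  simp only [pd_rad hψ]
  have : ∀ i, n i * (deriv ψ (‖x‖ ^ 2) * (2 * x i)) =
      2 * ‖x‖ * deriv ψ (‖x‖ ^ 2) * (n i * n i) := by
    intro i; rw [hf.x_eq i]; ring
  simp only [this, ← Finset.mul_sum]
  have hs : ∑ i, n i * n i = 1 := hf.nn
  rw [hs, mul_one]

/-- The radial derivative of the pointwise Hawking mass, along the ray. -/
lemma Nf_deriv (H : Cls g R₀ φ G) (hp : Pos R₀ φ G) (hd : Dh R₀ h) (hx : x ∈ Ext R₀)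
    (hf : Frame x n e₁ e₂) :
    HasDerivAt (fun s : ℝ => Nf g h φ G (x + s • toE n))
      (‖x‖ ^ 2 * Real.sqrt (φ (‖x‖ ^ 2)) / 4 *
        ((φ (‖x‖ ^ 2) + ‖x‖ ^ 2 * deriv φ (‖x‖ ^ 2)) *
          Smax (dat φ G x) ‖x‖ ((dat φ G x).A n) (φ (‖x‖ ^ 2)) (Wf φ G x)
        + 3 / 2 * (φ (‖x‖ ^ 2) + ‖x‖ ^ 2 * deriv φ (‖x‖ ^ 2)) * sphereTrace g h x ^ 2
        + ‖x‖ * φ (‖x‖ ^ 2) * sphereTrace g h x * dn (sphereTrace g h) x n)) 0 := by
  have hr := ne_zero H.nn hx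
  obtain ⟨hP, hW⟩ := hp x hx
  have hx0 : x + (0 : ℝ) • toE n = x := by simp
  have ha := ray_deriv (diff_norm hr) n
  rw [dn_norm hr hf] at ha
  have hpd := ray_deriv (diff_rad (H.phi_d hx)) n
  rw [dn_rad (H.phi_d hx) hf] at hpd
  have hqd := ray_deriv (diff_rad (H.phi_d' hx)) n
  rw [dn_rad (H.phi_d' hx) hf] at hqd
  have hwd := ray_deriv (diff_W H hx) n
  rw [dn_W H hx hf] at hwd
  have hkd := ray_deriv (diff_P H hp hd hx) n
  unfold Nf
  exact Nab_deriv (D := dat φ G x) ha hpd hqd hwd hkd (by rw [hx0]) (by rw [hx0])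
    (by rw [hx0]; rfl) (by rw [hx0]) (by rw [hx0]) hr hP hW rfl

lemma real_key {a κ κn m D Sc Sm L r P w T : ℝ} (hr : 0 < r) (hP : 0 < P) (hw : 0 < w)
    (hL : 0 < L)
    (hE : 2 * (w⁻¹ * |m|) ≤ Sc + 2 * a * κ + κ ^ 2 / 2 - T) (hκ : |κ| ≤ 2 * L / (r * P * w))
    (hm : m = P⁻¹ * D + L / (r * P) * (2 * a - κ) - κn) (hS : Sc ≤ Sm)
    (hD : 0 ≤ κ * D / (P * w) + 2 * L / (r * P * w) * T / 2) :
    0 ≤ L * Sm + 3 / 2 * L * κ ^ 2 + r * P * κ * κn := by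
  have h1 : r * P * |κ| ≤ 2 * L * w⁻¹ := by
    calc r * P * |κ| ≤ r * P * (2 * L / (r * P * w)) := by gcongr
      _ = 2 * L * w⁻¹ := by field_simp
  have h2 : r * P * (κ * m) ≤ r * P * |κ| * |m| := by
    have : κ * m ≤ |κ| * |m| := by rw [← abs_mul]; exact le_abs_self _
    calc r * P * (κ * m) ≤ r * P * (|κ| * |m|) := by gcongr
      _ = _ := by ring
  have h3 : r * P * |κ| * |m| ≤ 2 * L * w⁻¹ * |m| := by gcongr
  have h4 : 2 * L * w⁻¹ * |m| ≤ L * (Sc + 2 * a * κ + κ ^ 2 / 2 - T) := by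
    calc 2 * L * w⁻¹ * |m| = L * (2 * (w⁻¹ * |m|)) := by ring
      _ ≤ _ := by gcongr
  have h5 : r * P * (κ * m) = r * (κ * D) + L * (2 * a * κ - κ ^ 2) - r * P * κ * κn := by
    rw [hm]; field_simp
  have h6 : L * Sc ≤ L * Sm := by gcongr
  have h7 : 0 ≤ r * (κ * D) + L * T := by
    have h8 : r * (κ * D) + L * T =
        (r * P * w) * (κ * D / (P * w) + 2 * L / (r * P * w) * T / 2) := by
      field_simp
    rw [h8]; positivity
  nlinarith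

/-- a good point of its sphere -/
structure Good (g h : Field) (G : E3 → ℝ) (y : E3) : Prop where
  min_G : ∀ z : E3, ‖z‖ = ‖y‖ → G y ≤ G z
  min_tr : ∀ z : E3, ‖z‖ = ‖y‖ → |sphereTrace g h y| ≤ |sphereTrace g h z|
  sign : 0 ≤ sphereTrace g h y * mixedDiv h y / volDensity g y + meanCurv g y * transSq g h y / 2

/-- The quantity which controls the radial derivative is nonnegative at a good point where
`H ≥ |tr_S h|`. -/
lemma point_nonneg (H : Cls g R₀ φ G) (hp : Pos R₀ φ G) (hd : Dh R₀ h) (hs : Sh R₀ h)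
    (hx : x ∈ Ext R₀) (hf : Frame x n e₁ e₂) (hgood : Good g h G x)
    (hL : 0 < φ (‖x‖ ^ 2) + ‖x‖ ^ 2 * deriv φ (‖x‖ ^ 2))
    (hκ : |sphereTrace g h x| ≤ meanCurv g x)
    (hE : covNorm g x (momentumDensity g h x) ≤ energyDensity g h x) :
    0 ≤ (φ (‖x‖ ^ 2) + ‖x‖ ^ 2 * deriv φ (‖x‖ ^ 2)) *
          Smax (dat φ G x) ‖x‖ ((dat φ G x).A n) (φ (‖x‖ ^ 2)) (Wf φ G x)
        + 3 / 2 * (φ (‖x‖ ^ 2) + ‖x‖ ^ 2 * deriv φ (‖x‖ ^ 2)) * sphereTrace g h x ^ 2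
        + ‖x‖ * φ (‖x‖ ^ 2) * sphereTrace g h x * dn (sphereTrace g h) x n := by
  have hr := ne_zero H.nn hx
  obtain ⟨hP, hW⟩ := hp x hx
  have hW' : 0 < Wf φ G x := hW
  obtain ⟨hA1, hB1⟩ := sphere_test H hx hf hgood.min_G hf.e11 hf.n1
  obtain ⟨hA2, hB2⟩ := sphere_test H hx hf hgood.min_G hf.e22 hf.n2
  have hM := ginv_fr H hx hf hP hW
  have hWW : φ (‖x‖ ^ 2) + G x * ‖x‖ ^ 2 = Wf φ G x := rfl
  rw [hWW] at hM
  have hsW := Real.sqrt_pos.2 hW'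
  -- energy
  have hbl := bf_lin2 (h x)
  have htr := trT_frame (T := h) hM
  have hcn := covNorm_frame hM (momentumDensity g h x) 0
  rw [Fin.sum_univ_three] at htr
  set f := fr (φ (‖x‖ ^ 2)) (Wf φ G x) n e₁ e₂ with hfd
  have h0 : f 0 = (Real.sqrt (Wf φ G x))⁻¹ • n := rfl
  have hb0 : bf (h x) (f 0) (f 0) = al h x / Wf φ G x := by
    rw [h0, hbl.s1, hbl.s2, ← al_eq hr hf, ← mul_assoc, inv_sqrt_sq hW']
    field_simp
  have htr2 : trT g h x = sphereTrace g h x + al h x / Wf φ G x := by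
    rw [trT_eq H hp hx, sphereTrace_eq H hp hx]
  have hnu : ∑ i, ∑ j, h x i j * normal g x i * normal g x j = al h x / Wf φ G x := by
    have h1 : sphereTrace g h x =
      trT g h x - ∑ i, ∑ j, h x i j * normal g x i * normal g x j := rfl
    linarith
  have hm0 : dp (f 0) (momentumDensity g h x) = (Real.sqrt (Wf φ G x))⁻¹ * momN g h x n := by
    rw [h0]
    unfold momN dp
    rw [Finset.mul_sum]
    refine Finset.sum_congr rfl fun i _ => ?_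
    simp only [Pi.smul_apply, smul_eq_mul]
    ring
  rw [hm0, abs_mul, abs_of_pos (inv_pos.2 hsW)] at hcn
  have hen : energyDensity g h x = (Scal g x - normSqT g h x + trT g h x ^ 2) / 2 := rfl
  have hT : transSq g h x = normSqT g h x - (al h x / Wf φ G x) ^ 2 -
      sphereTrace g h x ^ 2 / 2 := by
    unfold transSq
    rw [hnu]
  have hE2 : 2 * ((Real.sqrt (Wf φ G x))⁻¹ * |momN g h x n|) ≤
      Scal g x + 2 * (al h x / Wf φ G x) * sphereTrace g h x + sphereTrace g h x ^ 2 / 2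
        - transSq g h x := by
    have h1 := hcn.trans hE
    rw [hen, htr2] at h1
    rw [hT]
    nlinarith
  -- scalar curvature
  have hSc : Scal g x ≤ Smax (dat φ G x) ‖x‖ ((dat φ G x).A n) (φ (‖x‖ ^ 2)) (Wf φ G x) := by
    rw [Scal_formula H hx hf hP hW hA1 hA2]
    rw [hWW]
    unfold Smax Kne
    have hr2 : 0 < ‖x‖ ^ 2 := by positivity
    gcongr
  -- momentum
  have hmom : momN g h x n = (φ (‖x‖ ^ 2))⁻¹ * mixedDiv h x +
      (φ (‖x‖ ^ 2) + ‖x‖ ^ 2 * deriv φ (‖x‖ ^ 2)) / (‖x‖ * φ (‖x‖ ^ 2)) *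
        (2 * (al h x / Wf φ G x) - sphereTrace g h x) - dn (sphereTrace g h) x n := by
    rw [momN_formula H hp hd hs hx hf hA1 hA2]
    have hta : tt h x - al h x = φ (‖x‖ ^ 2) * sphereTrace g h x := by
      rw [sphereTrace_eq H hp hx]; field_simp
    rw [hta]
    have hG : G x = (Wf φ G x - φ (‖x‖ ^ 2)) / ‖x‖ ^ 2 := by
      rw [← hWW]; field_simp; ring
    rw [hG]
    field_simp
    ring
  have hsign := hgood.sign
  rw [volDensity_eq H hp hx, meanCurv_eq H hp hx] at hsign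
  rw [meanCurv_eq H hp hx] at hκ
  exact real_key hr hP hsW hL hE2 hκ hmom hSc hsign

end

end

end Run7.h204.Pen
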