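import Pool.Agent.Run7.h204.PenCurv

/-! The scalar curvature of `φ(|x|²) δ + G(x) x ⊗ x` at a point where `G` has no tangential
derivative: evaluation. -/

namespace Run7.h204.Pen

open scoped BigOperators ContDiff Topology Matrix
open MeasureTheory Filter Metric
open Pool.Agent.H498R3.GB

noncomputable section

/-- values of the linear data in an adapted frame -/
structure Vals (D : Dat) (n e₁ e₂ : V3) (r g1 X1 X2 : ℝ) : Prop where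
  Yn : D.Y n = r
  Y1 : D.Y e₁ = 0
  Y2 : D.Y e₂ = 0
  An : D.A n = g1
  A1 : D.A e₁ = 0
  A2 : D.A e₂ = 0
  Nnn : D.N n n = 1
  Nn1 : D.N n e₁ = 0
  N1n : D.N e₁ n = 0
  Nn2 : D.N n e₂ = 0
  N2n : D.N e₂ n = 0
  N11 : D.N e₁ e₁ = 1
  N22 : D.N e₂ e₂ = 1
  N12 : D.N e₁ e₂ = 0
  N21 : D.N e₂ e₁ = 0
  B11 : D.B e₁ e₁ = X1
  B22 : D.B e₂ e₂ = X2

variable {D : Dat} {n e₁ e₂ : V3} {r g1 X1 X2 P W : ℝ}

/-- `Γ_{n,nn}` -/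
def gam0 (D : Dat) (r g1 : ℝ) : ℝ := (2 * D.F1 * r + g1 * r ^ 2 + 2 * D.G0 * r) / 2

/-- curvature of a plane containing the normal -/
def Kne (D : Dat) (r g1 X P W : ℝ) : ℝ :=
  r * g1 + D.G0 - 2 * D.F1 - 2 * r ^ 2 * D.F2 - r ^ 2 * X / 2 + D.F1 ^ 2 * r ^ 2 / P
    - gam0 D r g1 * (D.G0 - D.F1) * r / W

def Kee (D : Dat) (r W : ℝ) : ℝ := D.G0 - 2 * D.F1 - r ^ 2 * (D.G0 - D.F1) ^ 2 / W

lemma R_fr (a b c d : V3) :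
    D.R (fr P W n e₁ e₂) a b c d =
      (D.S b c a d + D.S a d b c - D.S a c b d - D.S b d a c) / 2
      + (((Real.sqrt W)⁻¹ * (Real.sqrt W)⁻¹) * (D.G n b c * D.G n a d - D.G n a c * D.G n b d)
      + ((Real.sqrt P)⁻¹ * (Real.sqrt P)⁻¹) * (D.G e₁ b c * D.G e₁ a d - D.G e₁ a c * D.G e₁ b d)
      + ((Real.sqrt P)⁻¹ * (Real.sqrt P)⁻¹) *
        (D.G e₂ b c * D.G e₂ a d - D.G e₂ a c * D.G e₂ b d)) := by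
  unfold Dat.R
  rw [Fin.sum_univ_three]
  congr 1
  show D.G ((Real.sqrt W)⁻¹ • n) b c * D.G ((Real.sqrt W)⁻¹ • n) a d -
      D.G ((Real.sqrt W)⁻¹ • n) a c * D.G ((Real.sqrt W)⁻¹ • n) b d +
    (D.G ((Real.sqrt P)⁻¹ • e₁) b c * D.G ((Real.sqrt P)⁻¹ • e₁) a d -
      D.G ((Real.sqrt P)⁻¹ • e₁) a c * D.G ((Real.sqrt P)⁻¹ • e₁) b d) +
    (D.G ((Real.sqrt P)⁻¹ • e₂) b c * D.G ((Real.sqrt P)⁻¹ • e₂) a d -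
      D.G ((Real.sqrt P)⁻¹ • e₂) a c * D.G ((Real.sqrt P)⁻¹ • e₂) b d) = _
  simp only [Dat.G_smul1]
  ring

lemma inv_sqrt_sq {W : ℝ} (hW : 0 < W) : (Real.sqrt W)⁻¹ * (Real.sqrt W)⁻¹ = W⁻¹ := by
  rw [← mul_inv, Real.mul_self_sqrt hW.le]

section
variable (V : Vals D n e₁ e₂ r g1 X1 X2) (hP : 0 < P) (hW : 0 < W)
include V hP hW

lemma R_n1n1 : D.R (fr P W n e₁ e₂) n e₁ n e₁ = Kne D r g1 X1 P W := by
  rw [R_fr, inv_sqrt_sq hW, inv_sqrt_sq hP]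
  simp only [Dat.S, Dat.G, Dat.T, V.Yn, V.Y1, V.Y2, V.An, V.A1, V.A2, V.Nnn, V.Nn1, V.N1n, V.Nn2,
    V.N2n, V.N11, V.N22, V.N12, V.N21, V.B11, V.B22, Kne, gam0]
  field_simp
  ring

lemma R_1n1n : D.R (fr P W n e₁ e₂) e₁ n e₁ n = Kne D r g1 X1 P W := by
  rw [R_fr, inv_sqrt_sq hW, inv_sqrt_sq hP]
  simp only [Dat.S, Dat.G, Dat.T, V.Yn, V.Y1, V.Y2, V.An, V.A1, V.A2, V.Nnn, V.Nn1, V.N1n, V.Nn2,
    V.N2n, V.N11, V.N22, V.N12, V.N21, V.B11, V.B22, Kne, gam0]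
  field_simp
  ring

lemma R_n2n2 : D.R (fr P W n e₁ e₂) n e₂ n e₂ = Kne D r g1 X2 P W := by
  rw [R_fr, inv_sqrt_sq hW, inv_sqrt_sq hP]
  simp only [Dat.S, Dat.G, Dat.T, V.Yn, V.Y1, V.Y2, V.An, V.A1, V.A2, V.Nnn, V.Nn1, V.N1n, V.Nn2,
    V.N2n, V.N11, V.N22, V.N12, V.N21, V.B11, V.B22, Kne, gam0]
  field_simp
  ring

lemma R_2n2n : D.R (fr P W n e₁ e₂) e₂ n e₂ n = Kne D r g1 X2 P W := by
  rw [R_fr, inv_sqrt_sq hW, inv_sqrt_sq hP]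
  simp only [Dat.S, Dat.G, Dat.T, V.Yn, V.Y1, V.Y2, V.An, V.A1, V.A2, V.Nnn, V.Nn1, V.N1n, V.Nn2,
    V.N2n, V.N11, V.N22, V.N12, V.N21, V.B11, V.B22, Kne, gam0]
  field_simp
  ring

lemma R_1212 : D.R (fr P W n e₁ e₂) e₁ e₂ e₁ e₂ = Kee D r W := by
  rw [R_fr, inv_sqrt_sq hW, inv_sqrt_sq hP]
  simp only [Dat.S, Dat.G, Dat.T, V.Yn, V.Y1, V.Y2, V.An, V.A1, V.A2, V.Nnn, V.Nn1, V.N1n, V.Nn2,
    V.N2n, V.N11, V.N22, V.N12, V.N21, V.B11, V.B22, Kee]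
  field_simp
  ring

lemma R_2121 : D.R (fr P W n e₁ e₂) e₂ e₁ e₂ e₁ = Kee D r W := by
  rw [R_fr, inv_sqrt_sq hW, inv_sqrt_sq hP]
  simp only [Dat.S, Dat.G, Dat.T, V.Yn, V.Y1, V.Y2, V.An, V.A1, V.A2, V.Nnn, V.Nn1, V.N1n, V.Nn2,
    V.N2n, V.N11, V.N22, V.N12, V.N21, V.B11, V.B22, Kee]
  field_simp
  ring

omit V hP hW in
lemma R_self (f : Fin 3 → V3) (a b d : V3) : D.R f a a b d = 0 := by
  unfold Dat.R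
  have : ∑ e, (D.G (f e) a b * D.G (f e) a d - D.G (f e) a b * D.G (f e) a d) = 0 := by simp
  rw [this]
  ring

lemma scal_val : ∑ a, D.Rc (fr P W n e₁ e₂) (fr P W n e₁ e₂ a) (fr P W n e₁ e₂ a) =
    2 * (W⁻¹ * P⁻¹ * (Kne D r g1 X1 P W + Kne D r g1 X2 P W) + P⁻¹ * P⁻¹ * Kee D r W) := by
  unfold Dat.Rc
  simp only [Fin.sum_univ_three]
  set f := fr P W n e₁ e₂ with hf
  have h0 : f 0 = (Real.sqrt W)⁻¹ • n := rfl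
  have h1 : f 1 = (Real.sqrt P)⁻¹ • e₁ := rfl
  have h2 : f 2 = (Real.sqrt P)⁻¹ • e₂ := rfl
  rw [h0, h1, h2]
  simp only [Dat.R_smul1, Dat.R_smul2, Dat.R_smul3, Dat.R_smul4, R_self]
  rw [R_n1n1 V hP hW, R_1n1n V hP hW, R_n2n2 V hP hW, R_2n2n V hP hW, R_1212 V hP hW,
    R_2121 V hP hW]
  have a := inv_sqrt_sq hW
  have b := inv_sqrt_sq hP
  set sW := (Real.sqrt W)⁻¹
  set sP := (Real.sqrt P)⁻¹
  rw [← a, ← b]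
  ring

end

section
variable {g h : Field} {R₀ : ℝ} {φ : ℝ → ℝ} {G : E3 → ℝ} {x : E3} {n e₁ e₂ : V3}

lemma vals_of (hf : Frame x n e₁ e₂) (h1 : (dat φ G x).A e₁ = 0) (h2 : (dat φ G x).A e₂ = 0) :
    Vals (dat φ G x) n e₁ e₂ ‖x‖ ((dat φ G x).A n) ((dat φ G x).B e₁ e₁)
      ((dat φ G x).B e₂ e₂) := by
  have hY : ∀ v : V3, (dat φ G x).Y v = ‖x‖ * dp v n := by
    intro v
    rw [dat_Y, dp, Finset.mul_sum]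
    refine Finset.sum_congr rfl fun i _ => ?_
    rw [hf.x_eq i]; ring
  refine ⟨?_, ?_, ?_, rfl, h1, h2, hf.nn, hf.n1, ?_, hf.n2, ?_, hf.e11, hf.e22, hf.e12, ?_, rfl,
    rfl⟩
  · rw [hY, hf.nn, mul_one]
  · rw [hY, dp_comm, hf.n1, mul_zero]
  · rw [hY, dp_comm, hf.n2, mul_zero]
  · exact (dp_comm _ _).trans hf.n1
  · exact (dp_comm _ _).trans hf.n2
  · exact (dp_comm _ _).trans hf.e12

/-- The scalar curvature at a point where `G` has no tangential derivative. -/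
theorem Scal_formula (H : Cls g R₀ φ G) (hx : x ∈ Ext R₀) (hf : Frame x n e₁ e₂)
    (hP : 0 < φ (‖x‖ ^ 2)) (hW : 0 < φ (‖x‖ ^ 2) + G x * ‖x‖ ^ 2)
    (h1 : (dat φ G x).A e₁ = 0) (h2 : (dat φ G x).A e₂ = 0) :
    Scal g x = 2 * ((φ (‖x‖ ^ 2) + G x * ‖x‖ ^ 2)⁻¹ * (φ (‖x‖ ^ 2))⁻¹ *
      (Kne (dat φ G x) ‖x‖ ((dat φ G x).A n) ((dat φ G x).B e₁ e₁) (φ (‖x‖ ^ 2))
          (φ (‖x‖ ^ 2) + G x * ‖x‖ ^ 2)
        + Kne (dat φ G x) ‖x‖ ((dat φ G x).A n) ((dat φ G x).B e₂ e₂) (φ (‖x‖ ^ 2))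
          (φ (‖x‖ ^ 2) + G x * ‖x‖ ^ 2))
      + (φ (‖x‖ ^ 2))⁻¹ * (φ (‖x‖ ^ 2))⁻¹ *
        Kee (dat φ G x) ‖x‖ (φ (‖x‖ ^ 2) + G x * ‖x‖ ^ 2)) := by
  rw [H.Scal_eq hx (ginv_fr H hx hf hP hW)]
  exact scal_val (vals_of hf h1 h2) hP hW

end

end

end Run7.h204.Pen
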