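import Pool.Agent.Run7.h204.PenMomVal

/-! The first and second derivative tests for a function on a sphere. -/

namespace Run7.h204.Pen

open scoped BigOperators ContDiff Topology Matrix
open MeasureTheory Filter Metric
open Pool.Agent.H498R3.GB

noncomputable section

/-- a real function with a local minimum has nonnegative second derivative -/
lemma second_deriv_nonneg {f f' : ℝ → ℝ} {f'' : ℝ} (h1 : ∀ᶠ t in 𝓝 (0 : ℝ), HasDerivAt f (f' t) t)
    (h2 : HasDerivAt f' f'' 0) (hm : IsLocalMin f 0) : 0 ≤ f'' := by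
  by_contra hneg
  push Not at hneg
  have e1 : deriv f =ᶠ[𝓝 0] f' := by
    filter_upwards [h1] with t ht
    exact ht.deriv
  have e2 : deriv (deriv f) 0 = f'' := by
    rw [e1.deriv_eq]; exact h2.deriv
  have e3 : deriv f 0 = 0 := hm.deriv_eq_zero
  have hc : ContinuousAt f 0 := (h1.self_of_nhds).continuousAt
  have hM : IsLocalMax f 0 := isLocalMax_of_deriv_deriv_neg (by rw [e2]; exact hneg) e3 hc
  have e4 : f =ᶠ[𝓝 0] fun _ => f 0 := by
    filter_upwards [hm, hM] with t a b
    exact le_antisymm b a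
  have e5 : deriv f =ᶠ[𝓝 0] fun _ => 0 := by
    have := e4.eventuallyEq_nhds
    filter_upwards [this] with t ht
    rw [ht.deriv_eq]; simp
  have e6 : deriv (deriv f) 0 = 0 := by
    rw [e5.deriv_eq]; simp
  rw [e2] at e6
  linarith

lemma fderiv_eq_sum (f : E3 → ℝ) (x v : E3) : fderiv ℝ f x v = ∑ i, v i * pd i f x := by
  have hv : v = ∑ i, v i • (EuclideanSpace.single i (1 : ℝ) : E3) := by
    ext j
    simp [Pi.single_apply]
  conv_lhs => rw [hv]
  rw [map_sum]
  refine Finset.sum_congr rfl fun i _ => ?_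
  rw [map_smul]
  rfl

/-- a vector as a point of `E3` -/
def toE (v : V3) : E3 := WithLp.toLp 2 v

@[simp] lemma toE_apply (v : V3) (i : Fin 3) : toE v i = v i := rfl

lemma norm_sq_eq_dp (x : E3) : ‖x‖ ^ 2 = dp x.ofLp x.ofLp := by
  rw [← inner_eq_dp, real_inner_self_eq_norm_sq]

section
variable {R₀ : ℝ} {φ : ℝ → ℝ} {G : E3 → ℝ} {g : Field} {x : E3} {n e₁ e₂ : V3}

/-- the great circle -/
def circ (x : E3) (e : V3) (t : ℝ) : E3 := Real.cos t • x + (‖x‖ * Real.sin t) • toE e

def circ' (x : E3) (e : V3) (t : ℝ) : E3 := (-Real.sin t) • x + (‖x‖ * Real.cos t) • toE e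

lemma circ_norm {e : V3} (he : dp e e = 1) (hx : dp x.ofLp e = 0) (t : ℝ) :
    ‖circ x e t‖ = ‖x‖ := by
  have h1 : ‖circ x e t‖ ^ 2 = ‖x‖ ^ 2 := by
    have a : inner ℝ x (toE e) = 0 := by rw [inner_eq_dp]; exact hx
    have b : ‖toE e‖ ^ 2 = 1 := by rw [norm_sq_eq_dp]; exact he
    unfold circ
    rw [norm_add_sq_real, inner_smul_left, inner_smul_right, a, norm_smul, norm_smul, mul_pow,
      mul_pow, b, Real.norm_eq_abs, Real.norm_eq_abs, sq_abs, sq_abs]
    simp only [mul_zero, add_zero]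
    have := Real.sin_sq_add_cos_sq t
    linear_combination ‖x‖ ^ 2 * this
  have h2 := norm_nonneg (circ x e t)
  have h3 := norm_nonneg x
  rw [← Real.sqrt_sq h2, h1, Real.sqrt_sq h3]

lemma circ_deriv (x : E3) (e : V3) (t : ℝ) : HasDerivAt (circ x e) (circ' x e t) t := by
  unfold circ circ'
  exact ((Real.hasDerivAt_cos t).smul_const x).add
    (((Real.hasDerivAt_sin t).const_mul ‖x‖).smul_const (toE e))

lemma circ_zero (x : E3) (e : V3) : circ x e 0 = x := by simp [circ]

lemma circ'_deriv (x : E3) (e : V3) (i : Fin 3) :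
    HasDerivAt (fun t => circ' x e t i) (-(x i)) 0 := by
  have h : ∀ t, circ' x e t i = (-Real.sin t) * x i + (‖x‖ * Real.cos t) * e i := by
    intro t; simp [circ']
  simp only [h]
  have h1 := (((Real.hasDerivAt_sin 0).fun_neg).mul_const (x i)).fun_add
    (((Real.hasDerivAt_cos 0).const_mul ‖x‖).mul_const (e i))
  have e1 : -Real.cos 0 * x i + ‖x‖ * -Real.sin 0 * e i = -(x i) := by simp
  rw [e1] at h1
  exact h1

/-- first and second derivative tests on the sphere -/
lemma sphere_test (H : Cls g R₀ φ G) (hx : x ∈ Ext R₀) (hf : Frame x n e₁ e₂)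
    (hm : ∀ z : E3, ‖z‖ = ‖x‖ → G x ≤ G z) {e : V3} (he : dp e e = 1) (hne : dp n e = 0) :
    (dat φ G x).A e = 0 ∧ (dat φ G x).A n / ‖x‖ ≤ (dat φ G x).B e e := by
  have hr := ne_zero H.nn hx
  have hxe : dp x.ofLp e = 0 := by
    have : dp x.ofLp e = ‖x‖ * dp n e := by
      unfold dp; rw [Finset.mul_sum]
      refine Finset.sum_congr rfl fun i _ => ?_
      rw [hf.x_eq i]; ring
    rw [this, hne, mul_zero]
  have hcn := circ_norm he hxe
  have hmem : ∀ t, circ x e t ∈ Ext R₀ := by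
    intro t
    show R₀ < ‖circ x e t‖
    rw [hcn]; exact hx
  let f : ℝ → ℝ := fun t => G (circ x e t)
  let f' : ℝ → ℝ := fun t => ∑ i, circ' x e t i * pd i G (circ x e t)
  have h1 : ∀ t, HasDerivAt f (f' t) t := by
    intro t
    have := (H.G_d (hmem t)).hasFDerivAt.comp_hasDerivAt t (circ_deriv x e t)
    rw [fderiv_eq_sum] at this
    exact this
  have hmin : IsLocalMin f 0 := by
    refine Filter.Eventually.of_forall fun t => ?_
    show G (circ x e 0) ≤ G (circ x e t)
    rw [circ_zero]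
    exact hm _ (hcn t)
  have h10 : f' 0 = 0 := hmin.hasDerivAt_eq_zero (h1 0)
  have c0 : ∀ i, circ' x e 0 i = ‖x‖ * e i := by intro i; simp [circ']
  have hA : f' 0 = ‖x‖ * (dat φ G x).A e := by
    show ∑ i, circ' x e 0 i * pd i G (circ x e 0) = _
    rw [circ_zero, dat_A, Finset.mul_sum]
    refine Finset.sum_congr rfl fun i _ => ?_
    rw [c0]; ring
  have hA0 : (dat φ G x).A e = 0 := by
    rw [hA] at h10
    exact (mul_eq_zero.1 h10).resolve_left hr.ne'
  refine ⟨hA0, ?_⟩
  have h2 : HasDerivAt f' (∑ i, (-(x i) * pd i G x +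
      ‖x‖ * e i * ∑ j, ‖x‖ * e j * pd j (pd i G) x)) 0 := by
    have hi : ∀ i ∈ Finset.univ, HasDerivAt (fun t => circ' x e t i * pd i G (circ x e t))
        (-(x i) * pd i G x + ‖x‖ * e i * ∑ j, ‖x‖ * e j * pd j (pd i G) x) 0 := by
      intro i _
      have hd : HasDerivAt (fun t => pd i G (circ x e t))
          (∑ j, ‖x‖ * e j * pd j (pd i G) x) 0 := by
        have hdd := H.pdG_d (hmem 0) i
        have := hdd.hasFDerivAt.comp_hasDerivAt 0 (circ_deriv x e 0)
        rw [fderiv_eq_sum] at this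
        simp only [c0, circ_zero] at this
        exact this
      have := (circ'_deriv x e i).mul hd
      simp only [c0, circ_zero] at this
      exact this
    have := HasDerivAt.fun_sum hi
    exact this
  have h3 := second_deriv_nonneg (Filter.Eventually.of_forall h1) h2 hmin
  have h4 : ∑ i, (-(x i) * pd i G x + ‖x‖ * e i * ∑ j, ‖x‖ * e j * pd j (pd i G) x) =
      ‖x‖ ^ 2 * (dat φ G x).B e e - ‖x‖ * (dat φ G x).A n := by
    rw [dat_A, dat_B, Finset.sum_add_distrib, Finset.mul_sum, Finset.mul_sum]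
    have a1 : ∑ i, -(x i) * pd i G x = - ∑ i, ‖x‖ * (n i * pd i G x) := by
      rw [← Finset.sum_neg_distrib]
      refine Finset.sum_congr rfl fun i _ => ?_
      rw [hf.x_eq i]; ring
    have a2 : ∑ i, ‖x‖ * e i * ∑ j, ‖x‖ * e j * pd j (pd i G) x =
        ∑ i, ‖x‖ ^ 2 * ∑ j, e i * pd i (pd j G) x * e j := by
      have b1 : ∀ i, ‖x‖ * e i * ∑ j, ‖x‖ * e j * pd j (pd i G) x =
          ∑ j, ‖x‖ ^ 2 * (e j * pd j (pd i G) x * e i) := by
        intro i
        rw [Finset.mul_sum]
        refine Finset.sum_congr rfl fun j _ => by ring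
      simp only [b1, Finset.mul_sum]
      rw [Finset.sum_comm]
    rw [a1, a2]; ring
  rw [h4] at h3
  rw [div_le_iff₀ hr]
  have : 0 ≤ ‖x‖ * (‖x‖ * (dat φ G x).B e e - (dat φ G x).A n) := by
    calc 0 ≤ _ := h3
      _ = _ := by ring
  have := nonneg_of_mul_nonneg_right this hr
  linarith

end

end

end Run7.h204.Pen
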