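import Mathlib

/-!
# Tropicalized Gaussians over `ℚ_p`: definitions
-/

open MeasureTheory

namespace Run7.h204.Trg

/-- The lattice `L = A O_K^d` of `K^d`, for `K = ℚ_p` and `A ∈ GL_d(K)`. -/
def lattice (p : ℕ) [Fact p.Prime] {d : ℕ} (A : GL (Fin d) ℚ_[p]) : Set (Fin d → ℚ_[p]) :=
  {x | ∃ y : Fin d → ℤ_[p],
    x = Matrix.mulVec (A : Matrix (Fin d) (Fin d) ℚ_[p]) (fun i => ((y i : ℤ_[p]) : ℚ_[p]))}

/-- The event `V ≥ v`, where `V = (val(X_1), ..., val(X_d))` is the tropicalization: the set of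
`x ∈ K^d` with `val(x_i) ≥ v_i` for every `i`, where `val(0) = +∞`. -/
def tailSet (p : ℕ) [Fact p.Prime] {d : ℕ} (v : Fin d → ℤ) : Set (Fin d → ℚ_[p]) :=
  {x | ∀ i, ((v i : ℤ) : WithTop ℤ) ≤ Padic.addValuation (x i)}

/-- The tail function `φ_L(v) = -log_q P(V ≥ v)`, where the law of `X` is the normalised Haar
measure on `L`, that is, a Haar measure of `K^d` restricted to `L` and divided by its mass
(`ProbabilityTheory.cond`). Here `K = ℚ_p`, so `q = p`. -/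
noncomputable def tail (p : ℕ) [Fact p.Prime] {d : ℕ} [MeasurableSpace (Fin d → ℚ_[p])]
    [BorelSpace (Fin d → ℚ_[p])] (L : Set (Fin d → ℚ_[p])) (v : Fin d → ℤ) : ℝ :=
  -Real.logb p
    (ProbabilityTheory.cond (Measure.addHaar : Measure (Fin d → ℚ_[p])) L (tailSet p v)).toReal

/-- Integer supermodular coefficients `(c_I)`, with `c_∅ = 0`. -/
def Supermodular {d : ℕ} (c : Finset (Fin d) → ℤ) : Prop :=
  c ∅ = 0 ∧ ∀ I J : Finset (Fin d), c I + c J ≤ c (I ∪ J) + c (I ∩ J)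

/-- The tropical polynomial `P(v) = max_I (∑_{i ∈ I} v_i - c_I)` on `ℝ^d`. -/
noncomputable def tropPoly {d : ℕ} (c : Finset (Fin d) → ℤ) (v : Fin d → ℝ) : ℝ :=
  (Finset.univ : Finset (Finset (Fin d))).sup' Finset.univ_nonempty
    (fun I => (∑ i ∈ I, v i) - (c I : ℝ))

/-- The assertion of Q1 for `K = ℚ_p` and the dimension `d`. -/
def Q1For (p d : ℕ) [Fact p.Prime] [MeasurableSpace (Fin d → ℚ_[p])]
    [BorelSpace (Fin d → ℚ_[p])] : Prop :=
  ∀ φ : (Fin d → ℤ) → ℝ,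
    (∃ A : GL (Fin d) ℚ_[p], ∀ v, φ v = tail p (lattice p A) v) ↔
      (∃ c : Finset (Fin d) → ℤ, Supermodular c ∧
        ∀ v : Fin d → ℤ, φ v = tropPoly c (fun i => (v i : ℝ)))

end Run7.h204.Trg
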