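import Pool.Agent.Run7.h204.TrgDefs

open MeasureTheory

namespace Run7.h204.Trg

variable {p : ℕ} [Fact p.Prime] {d : ℕ}

lemma val_le_iff (x : ℚ_[p]) (n : ℤ) :
    ((n : ℤ) : WithTop ℤ) ≤ Padic.addValuation x ↔ ‖x‖ ≤ (p : ℝ) ^ (-n) := by
  by_cases hx : x = 0
  · subst hx
    have hp : (0 : ℝ) ≤ (p : ℝ) ^ n := by positivity
    simp [hp]
  · rw [Padic.addValuation.apply hx, Padic.norm_eq_zpow_neg_valuation hx]
    have h1 : (1 : ℝ) < p := by exact_mod_cast (Fact.out : p.Prime).one_lt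
    rw [zpow_le_zpow_iff_right₀ h1]
    rw [WithTop.coe_le_coe]
    constructor <;> intro h <;> linarith

/-- the event as a subgroup -/
def tailSub (p : ℕ) [Fact p.Prime] {d : ℕ} (v : Fin d → ℤ) : AddSubgroup (Fin d → ℚ_[p]) where
  carrier := {x | ∀ i, ‖x i‖ ≤ (p : ℝ) ^ (-(v i))}
  zero_mem' := by
    intro i
    have hp : (0 : ℝ) ≤ (p : ℝ) ^ (-(v i)) := by positivity
    simpa using hp
  add_mem' := by
    intro a b ha hb i
    exact (Padic.nonarchimedean (a i) (b i)).trans (max_le (ha i) (hb i))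
  neg_mem' := by
    intro a ha i
    simpa using ha i

lemma tailSet_eq (v : Fin d → ℤ) :
    tailSet p v = (tailSub p v : Set (Fin d → ℚ_[p])) := by
  ext x
  simp only [tailSet, Set.mem_setOf_eq, val_le_iff]
  rfl

/-- the lattice as a subgroup -/
def latSub (p : ℕ) [Fact p.Prime] {d : ℕ} (A : GL (Fin d) ℚ_[p]) :
    AddSubgroup (Fin d → ℚ_[p]) where
  carrier := lattice p A
  zero_mem' := ⟨fun _ => 0, by simp [Matrix.mulVec_zero, funext_iff, Matrix.mulVec, dotProduct]⟩
  add_mem' := by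
    rintro a b ⟨y, rfl⟩ ⟨z, rfl⟩
    refine ⟨fun i => y i + z i, ?_⟩
    rw [← Matrix.mulVec_add]
    congr 1
  neg_mem' := by
    rintro a ⟨y, rfl⟩
    refine ⟨fun i => - y i, ?_⟩
    rw [← Matrix.mulVec_neg]
    congr 1

lemma isOpen_tailSub (v : Fin d → ℤ) : IsOpen (tailSub p v : Set (Fin d → ℚ_[p])) := by
  have : (tailSub p v : Set (Fin d → ℚ_[p])) =
      Set.pi Set.univ (fun i => Metric.closedBall (0 : ℚ_[p]) ((p : ℝ) ^ (-(v i)))) := by
    ext x
    simp only [Set.mem_pi, Set.mem_univ, true_implies, Metric.mem_closedBall, dist_zero_right]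
    rfl
  rw [this]
  refine isOpen_set_pi Set.finite_univ (fun i _ => ?_)
  refine IsUltrametricDist.isOpen_closedBall _ ?_
  have : (0 : ℝ) < p := by exact_mod_cast (Fact.out : p.Prime).pos
  positivity

lemma mem_lattice_iff (A : GL (Fin d) ℚ_[p]) (x : Fin d → ℚ_[p]) :
    x ∈ lattice p A ↔
      Matrix.mulVec ((A⁻¹ : GL (Fin d) ℚ_[p]) : Matrix (Fin d) (Fin d) ℚ_[p]) x
        ∈ (tailSub p (fun _ : Fin d => (0 : ℤ)) : Set (Fin d → ℚ_[p])) := by
  constructor
  · rintro ⟨y, rfl⟩
    rw [Matrix.mulVec_mulVec]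
    have : ((A⁻¹ : GL (Fin d) ℚ_[p]) : Matrix (Fin d) (Fin d) ℚ_[p]) *
        (A : Matrix (Fin d) (Fin d) ℚ_[p]) = 1 := by
      rw [← Units.val_mul]; simp
    rw [this, Matrix.one_mulVec]
    intro i
    simpa using PadicInt.norm_le_one (y i)
  · intro h
    refine ⟨fun i => ⟨Matrix.mulVec
      ((A⁻¹ : GL (Fin d) ℚ_[p]) : Matrix (Fin d) (Fin d) ℚ_[p]) x i, by simpa using h i⟩, ?_⟩
    have : (A : Matrix (Fin d) (Fin d) ℚ_[p]) *
        ((A⁻¹ : GL (Fin d) ℚ_[p]) : Matrix (Fin d) (Fin d) ℚ_[p]) = 1 := by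
      rw [← Units.val_mul]; simp
    change x = Matrix.mulVec (A : Matrix (Fin d) (Fin d) ℚ_[p]) (Matrix.mulVec
      ((A⁻¹ : GL (Fin d) ℚ_[p]) : Matrix (Fin d) (Fin d) ℚ_[p]) x)
    rw [Matrix.mulVec_mulVec, this, Matrix.one_mulVec]

lemma continuous_mulVec' (M : Matrix (Fin d) (Fin d) ℚ_[p]) :
    Continuous (fun x : Fin d → ℚ_[p] => Matrix.mulVec M x) := by
  fun_prop

lemma isOpen_lattice (A : GL (Fin d) ℚ_[p]) : IsOpen (lattice p A) := by
  have : lattice p A = (fun x : Fin d → ℚ_[p] => Matrix.mulVec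
      ((A⁻¹ : GL (Fin d) ℚ_[p]) : Matrix (Fin d) (Fin d) ℚ_[p]) x) ⁻¹'
      (tailSub p (fun _ : Fin d => (0 : ℤ)) : Set (Fin d → ℚ_[p])) := by
    ext x
    exact mem_lattice_iff A x
  rw [this]
  exact (isOpen_tailSub _).preimage (continuous_mulVec' _)

lemma isCompact_lattice (A : GL (Fin d) ℚ_[p]) : IsCompact (lattice p A) := by
  have h1 : IsCompact (tailSub p (fun _ : Fin d => (0 : ℤ)) : Set (Fin d → ℚ_[p])) := by
    have : (tailSub p (fun _ : Fin d => (0 : ℤ)) : Set (Fin d → ℚ_[p])) =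
        Set.pi Set.univ (fun i => Metric.closedBall (0 : ℚ_[p]) ((p : ℝ) ^ (-(0 : ℤ)))) := by
      ext x
      simp only [Set.mem_pi, Set.mem_univ, true_implies, Metric.mem_closedBall, dist_zero_right]
      rfl
    rw [this]
    exact isCompact_univ_pi (fun i => isCompact_closedBall _ _)
  have h2 : lattice p A = (fun x : Fin d → ℚ_[p] => Matrix.mulVec
      (A : Matrix (Fin d) (Fin d) ℚ_[p]) x) ''
      (tailSub p (fun _ : Fin d => (0 : ℤ)) : Set (Fin d → ℚ_[p])) := by
    ext x
    constructor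
    · rintro ⟨y, rfl⟩
      exact ⟨_, fun i => by simpa using PadicInt.norm_le_one (y i), rfl⟩
    · rintro ⟨z, hz, rfl⟩
      exact ⟨fun i => ⟨z i, by simpa using hz i⟩, rfl⟩
  rw [h2]
  exact h1.image (continuous_mulVec' _)

section meas

variable [MeasurableSpace (Fin d → ℚ_[p])] [BorelSpace (Fin d → ℚ_[p])]

/-- Two nested open subgroups of the same finite Haar measure agree. -/
lemma eq_of_measure_eq (H H' : AddSubgroup (Fin d → ℚ_[p])) (hle : H ≤ H')
    (ho : IsOpen (H : Set (Fin d → ℚ_[p])))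
    (hfin : (Measure.addHaar : Measure (Fin d → ℚ_[p])) H' ≠ ⊤)
    (heq : (Measure.addHaar : Measure (Fin d → ℚ_[p])) H
      = (Measure.addHaar : Measure (Fin d → ℚ_[p])) H') :
    H' ≤ H := by
  intro x hx
  by_contra hxH
  set μ : Measure (Fin d → ℚ_[p]) := Measure.addHaar with hμ
  have hpos : 0 < μ H := ho.measure_pos μ ⟨0, H.zero_mem⟩
  have hdis : Disjoint (H : Set (Fin d → ℚ_[p])) ((fun y => x + y) '' (H : Set (Fin d → ℚ_[p]))) := by
    rw [Set.disjoint_left]
    rintro y hy ⟨z, hz, rfl⟩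
    apply hxH
    have := H.sub_mem hy hz
    simpa using this
  have hsub : (H : Set (Fin d → ℚ_[p])) ∪ ((fun y => x + y) '' (H : Set (Fin d → ℚ_[p])))
      ⊆ (H' : Set (Fin d → ℚ_[p])) := by
    rintro y (hy | ⟨z, hz, rfl⟩)
    · exact hle hy
    · exact H'.add_mem hx (hle hz)
  have hopen2 : IsOpen ((fun y => x + y) '' (H : Set (Fin d → ℚ_[p]))) :=
    (Homeomorph.addLeft x).isOpenMap _ ho
  have h1 : μ ((H : Set (Fin d → ℚ_[p])) ∪ ((fun y => x + y) '' (H : Set (Fin d → ℚ_[p]))))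
      = μ H + μ H := by
    rw [measure_union hdis hopen2.measurableSet]
    congr 1
    have := measure_preimage_add μ (-x) (H : Set (Fin d → ℚ_[p]))
    rw [← this]
    congr 1
    ext y
    simp only [Set.mem_image, Set.mem_preimage]
    constructor
    · rintro ⟨z, hz, rfl⟩
      simpa using hz
    · intro hy
      exact ⟨-x + y, hy, by abel⟩
  have h2 := measure_mono (μ := μ) hsub
  rw [h1, ← heq] at h2
  have h3 : μ H ≠ ⊤ := by rw [heq]; exact hfin
  have h4 : μ H + 0 < μ H + μ H := by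
    rw [ENNReal.add_lt_add_iff_left h3]
    exact hpos
  rw [add_zero] at h4
  exact absurd h2 (not_le.mpr h4)

/-- `φ_L` determines the measures of the subgroups `L ∩ {V ≥ v}`. -/
lemma measure_eq_of_tail_eq (A : GL (Fin d) ℚ_[p]) (v w : Fin d → ℤ)
    (h : tail p (lattice p A) v = tail p (lattice p A) w) :
    (Measure.addHaar : Measure (Fin d → ℚ_[p])) (latSub p A ⊓ tailSub p v : AddSubgroup _)
     = (Measure.addHaar : Measure (Fin d → ℚ_[p])) (latSub p A ⊓ tailSub p w : AddSubgroup _) := by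
  set μ : Measure (Fin d → ℚ_[p]) := Measure.addHaar with hμ
  have hfin : μ (lattice p A) ≠ ⊤ := (isCompact_lattice A).measure_lt_top.ne
  have hpos : μ (lattice p A) ≠ 0 :=
    ((isOpen_lattice A).measure_pos μ ⟨0, (latSub p A).zero_mem⟩).ne'
  have key : ∀ u : Fin d → ℤ, ProbabilityTheory.cond μ (lattice p A) (tailSet p u)
      = (μ (lattice p A))⁻¹ * μ (latSub p A ⊓ tailSub p u : AddSubgroup _) := by
    intro u
    rw [ProbabilityTheory.cond_apply (isOpen_lattice A).measurableSet, tailSet_eq]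
    rfl
  have key2 : ∀ u : Fin d → ℤ, 0 < (ProbabilityTheory.cond μ (lattice p A) (tailSet p u)).toReal := by
    intro u
    have h1 : IsOpen ((latSub p A ⊓ tailSub p u : AddSubgroup _) : Set (Fin d → ℚ_[p])) :=
      (isOpen_lattice A).inter (isOpen_tailSub u)
    have h2 : 0 < μ (latSub p A ⊓ tailSub p u : AddSubgroup _) :=
      h1.measure_pos μ ⟨0, AddSubgroup.zero_mem _⟩
    have h3 : μ (latSub p A ⊓ tailSub p u : AddSubgroup _) ≠ ⊤ :=
      ((measure_mono (μ := μ) (show ((latSub p A ⊓ tailSub p u : AddSubgroup _) :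
        Set (Fin d → ℚ_[p])) ⊆ lattice p A from fun x hx => hx.1)).trans_lt
        (lt_top_iff_ne_top.mpr hfin)).ne
    rw [key]
    apply ENNReal.toReal_pos
    · exact mul_ne_zero (ENNReal.inv_ne_zero.mpr hfin) h2.ne'
    · exact ENNReal.mul_ne_top (ENNReal.inv_ne_top.mpr hpos) h3
  have h1p : (1 : ℝ) < p := by exact_mod_cast (Fact.out : p.Prime).one_lt
  have h5 : (ProbabilityTheory.cond μ (lattice p A) (tailSet p v)).toReal
      = (ProbabilityTheory.cond μ (lattice p A) (tailSet p w)).toReal := by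
    apply Real.logb_injOn_pos h1p (key2 v) (key2 w)
    have := h
    unfold tail at this
    simpa using this
  have h6 : ProbabilityTheory.cond μ (lattice p A) (tailSet p v)
      = ProbabilityTheory.cond μ (lattice p A) (tailSet p w) := by
    rw [← ENNReal.toReal_eq_toReal_iff' _ _]
    · exact h5
    · intro h
      have := key2 v
      rw [h] at this
      simp at this
    · intro h
      have := key2 w
      rw [h] at this
      simp at this
  rw [key, key] at h6
  exact (ENNReal.mul_right_inj (ENNReal.inv_ne_zero.mpr hfin) (ENNReal.inv_ne_top.mpr hpos)).mp h6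

/-- if `φ_L(v) = 0` then `L ⊆ {V ≥ v}`. -/
lemma lattice_le_of_tail_eq_zero (A : GL (Fin d) ℚ_[p]) (v : Fin d → ℤ)
    (h : tail p (lattice p A) v = 0) : latSub p A ≤ tailSub p v := by
  set μ : Measure (Fin d → ℚ_[p]) := Measure.addHaar with hμ
  have hfin : μ (lattice p A) ≠ ⊤ := (isCompact_lattice A).measure_lt_top.ne
  have hpos : μ (lattice p A) ≠ 0 :=
    ((isOpen_lattice A).measure_pos μ ⟨0, (latSub p A).zero_mem⟩).ne'
  have key : ProbabilityTheory.cond μ (lattice p A) (tailSet p v)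
      = (μ (lattice p A))⁻¹ * μ (latSub p A ⊓ tailSub p v : AddSubgroup _) := by
    rw [ProbabilityTheory.cond_apply (isOpen_lattice A).measurableSet, tailSet_eq]
    rfl
  have h1 : IsOpen ((latSub p A ⊓ tailSub p v : AddSubgroup _) : Set (Fin d → ℚ_[p])) :=
    (isOpen_lattice A).inter (isOpen_tailSub v)
  have h2 : 0 < μ (latSub p A ⊓ tailSub p v : AddSubgroup _) :=
    h1.measure_pos μ ⟨0, AddSubgroup.zero_mem _⟩
  have h3 : μ (latSub p A ⊓ tailSub p v : AddSubgroup _) ≠ ⊤ :=
    ((measure_mono (μ := μ) (show ((latSub p A ⊓ tailSub p v : AddSubgroup _) :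
      Set (Fin d → ℚ_[p])) ⊆ lattice p A from fun x hx => hx.1)).trans_lt
      (lt_top_iff_ne_top.mpr hfin)).ne
  have h1p : (1 : ℝ) < p := by exact_mod_cast (Fact.out : p.Prime).one_lt
  have h4 : 0 < (ProbabilityTheory.cond μ (lattice p A) (tailSet p v)).toReal := by
    rw [key]
    apply ENNReal.toReal_pos
    · exact mul_ne_zero (ENNReal.inv_ne_zero.mpr hfin) h2.ne'
    · exact ENNReal.mul_ne_top (ENNReal.inv_ne_top.mpr hpos) h3
  have h5 : (ProbabilityTheory.cond μ (lattice p A) (tailSet p v)).toReal = 1 := by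
    apply Real.logb_injOn_pos h1p h4 (show (0 : ℝ) < 1 by norm_num)
    have := h
    unfold tail at this
    rw [neg_eq_zero] at this
    rw [this, Real.logb_one]
  have h6 : ProbabilityTheory.cond μ (lattice p A) (tailSet p v) = 1 := by
    rw [← ENNReal.toReal_eq_one_iff]
    exact h5
  rw [key] at h6
  have h7 : μ (latSub p A ⊓ tailSub p v : AddSubgroup _) = μ (latSub p A : AddSubgroup _) := by
    have : μ (lattice p A) * ((μ (lattice p A))⁻¹ * μ (latSub p A ⊓ tailSub p v : AddSubgroup _))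
        = μ (lattice p A) * 1 := by rw [h6]
    rw [← mul_assoc, ENNReal.mul_inv_cancel hpos hfin, one_mul, mul_one] at this
    exact this
  have h8 := eq_of_measure_eq (latSub p A ⊓ tailSub p v) (latSub p A) inf_le_left h1 hfin h7
  exact h8.trans inf_le_right

end meas

/-- the coefficients `c_I = max(0, |I| - 2)` -/
def cU (d : ℕ) (I : Finset (Fin d)) : ℤ := max 0 ((I.card : ℤ) - 2)

lemma supermodular_cU : Supermodular (cU d) := by
  refine ⟨by simp [cU], fun I J => ?_⟩
  have h1 := Finset.card_union_add_card_inter I J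
  have h2 : (I ∩ J).card ≤ I.card := Finset.card_le_card Finset.inter_subset_left
  have h3 : (I ∩ J).card ≤ J.card := Finset.card_le_card Finset.inter_subset_right
  unfold cU
  omega

/-- the indicator of `I` as an integer vector -/
def ind (I : Finset (Fin d)) : Fin d → ℤ := fun i => if i ∈ I then 1 else 0

lemma tropPoly_ind (I : Finset (Fin d)) :
    tropPoly (cU d) (fun i => ((ind I i : ℤ) : ℝ)) = ((min I.card 2 : ℕ) : ℝ) := by
  have hval : ∀ J : Finset (Fin d), (∑ i ∈ J, ((ind I i : ℤ) : ℝ)) - ((cU d J : ℤ) : ℝ)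
      = (((J ∩ I).card : ℤ) - max 0 ((J.card : ℤ) - 2) : ℤ) := by
    intro J
    have : (∑ i ∈ J, ((ind I i : ℤ) : ℝ)) = (((J ∩ I).card : ℤ) : ℝ) := by
      simp only [ind]
      push_cast
      rw [← Finset.sum_filter_add_sum_filter_not J (fun i => i ∈ I)]
      rw [Finset.sum_congr rfl (g := fun _ => (1 : ℝ)) (fun i hi => by
        rw [if_pos (Finset.mem_filter.mp hi).2])]
      rw [Finset.sum_congr (s₁ := J.filter (fun i => i ∉ I)) rfl (g := fun _ => (0 : ℝ))
        (fun i hi => by rw [if_neg (Finset.mem_filter.mp hi).2])]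
      rw [Finset.sum_const_zero, add_zero, Finset.sum_const, nsmul_eq_mul, mul_one]
      congr 2
    rw [this]
    unfold cU
    push_cast
    ring
  unfold tropPoly
  apply le_antisymm
  · apply Finset.sup'_le
    intro J _
    rw [hval]
    have h1 : (J ∩ I).card ≤ I.card := Finset.card_le_card Finset.inter_subset_right
    have h2 : (J ∩ I).card ≤ J.card := Finset.card_le_card Finset.inter_subset_left
    have h3 : (((J ∩ I).card : ℤ) - max 0 ((J.card : ℤ) - 2) : ℤ) ≤ ((min I.card 2 : ℕ) : ℤ) := by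
      push_cast
      omega
    exact_mod_cast h3
  · obtain ⟨J, hJI, hJ⟩ := Finset.exists_subset_card_eq (show min I.card 2 ≤ I.card from min_le_left _ _)
    refine le_trans ?_ (Finset.le_sup' _ (Finset.mem_univ J))
    rw [hval]
    have h1 : J ∩ I = J := Finset.inter_eq_left.mpr hJI
    rw [h1]
    have h3 : ((min I.card 2 : ℕ) : ℤ) ≤ ((J.card : ℤ) - max 0 ((J.card : ℤ) - 2) : ℤ) := by
      rw [hJ]
      push_cast
      omega
    exact_mod_cast h3

lemma norm_lt_one_of_tailSub {x : Fin d → ℚ_[p]} {I : Finset (Fin d)}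
    (hx : x ∈ tailSub p (ind I)) {i : Fin d} (hi : i ∈ I) : ‖x i‖ < 1 := by
  have h := hx i
  simp only [ind, if_pos hi] at h
  have h1p : (1 : ℝ) < p := by exact_mod_cast (Fact.out : p.Prime).one_lt
  refine lt_of_le_of_lt h ?_
  rw [zpow_neg, zpow_one]
  exact inv_lt_one_of_one_lt₀ h1p

lemma tailSub_ind_of {x : Fin d → ℚ_[p]} {I : Finset (Fin d)} (hx : ∀ i, ‖x i‖ ≤ 1)
    (h : ∀ i ∈ I, ‖x i‖ < 1) : x ∈ tailSub p (ind I) := by
  intro i
  simp only [ind]
  split_ifs with hi
  · rw [Padic.norm_le_pow_iff_norm_lt_pow_add_one]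
    simpa using h i hi
  · simpa using hx i

/-- No `L` has the properties given by the tropical polynomial: there are only `p + 1` lines in
`𝔽_p²`. -/
lemma no_lattice (hd : p + 2 ≤ d) (L : AddSubgroup (Fin d → ℚ_[p]))
    (h0 : ∀ x ∈ L, ∀ i, ‖x i‖ ≤ 1)
    (h2 : ∀ I : Finset (Fin d), 2 ≤ I.card → ∀ x ∈ L, (∀ i ∈ I, ‖x i‖ < 1) → ∀ i, ‖x i‖ < 1)
    (h1 : ∀ a : Fin d, ∃ x ∈ L, ‖x a‖ < 1 ∧ ∃ j, ¬ ‖x j‖ < 1)
    (h3 : ∀ a : Fin d, ∃ x ∈ L, ¬ ‖x a‖ < 1) : False := by
  have hd0 : 0 < d := by omega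
  set a : Fin d := ⟨0, hd0⟩ with ha
  obtain ⟨s, hsL, hsa, j0, hj0⟩ := h1 a
  obtain ⟨t, htL, hta⟩ := h3 a
  have hs : ∀ j, j ≠ a → ¬ ‖s j‖ < 1 := by
    intro j hj hlt
    have := h2 {a, j} (by rw [Finset.card_pair hj.symm]) s hsL (by
      intro i hi
      rcases Finset.mem_insert.mp hi with rfl | hi
      · exact hsa
      · rw [Finset.mem_singleton.mp hi]; exact hlt) j0
    exact hj0 this
  -- residues
  let zs : Fin d → ℤ_[p] := fun j => ⟨s j, h0 s hsL j⟩
  let zt : Fin d → ℤ_[p] := fun j => ⟨t j, h0 t htL j⟩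
  let rs : Fin d → ZMod p := fun j => PadicInt.toZMod (zs j)
  let rt : Fin d → ZMod p := fun j => PadicInt.toZMod (zt j)
  have hker : ∀ z : ℤ_[p], PadicInt.toZMod z = 0 ↔ ‖(z : ℚ_[p])‖ < 1 := by
    intro z
    rw [← RingHom.mem_ker, PadicInt.ker_toZMod, IsLocalRing.mem_maximalIdeal,
      PadicInt.mem_nonunits]
    rfl
  have hrs : ∀ j, j ≠ a → rs j ≠ 0 := by
    intro j hj h
    exact hs j hj ((hker _).mp h)
  -- pigeonhole
  have hcard : Fintype.card (ZMod p) < (Finset.univ.erase a : Finset (Fin d)).card := by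
    rw [ZMod.card, Finset.card_erase_of_mem (Finset.mem_univ a), Finset.card_univ, Fintype.card_fin]
    omega
  obtain ⟨j, hj, k, hk, hjk, hr⟩ := Finset.exists_ne_map_eq_of_card_lt_of_maps_to
    (s := (Finset.univ.erase a : Finset (Fin d))) (t := (Finset.univ : Finset (ZMod p)))
    (f := fun j => rt j / rs j) (by rw [Finset.card_univ]; exact hcard)
    (fun _ _ => Finset.mem_univ _)
  have hja : j ≠ a := Finset.ne_of_mem_erase hj
  have hka : k ≠ a := Finset.ne_of_mem_erase hk
  set l : ZMod p := rt j / rs j with hl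
  have hl2 : rt k / rs k = l := hr.symm
  set n : ℕ := l.val with hn
  have hnl : ((n : ℕ) : ZMod p) = l := by rw [hn, ZMod.natCast_val, ZMod.cast_id]
  have hw : t - n • s ∈ L := L.sub_mem htL (L.nsmul_mem hsL n)
  have hres : ∀ i, rt i = l * rs i → ‖(t - n • s) i‖ < 1 := by
    intro i hi
    have h5 := (hker (zt i - (n : ℤ_[p]) * zs i)).mp (by
      rw [map_sub, map_mul, map_natCast, hnl]
      change rt i - l * rs i = 0
      rw [hi, sub_self])
    have h6 : ((zt i - (n : ℤ_[p]) * zs i : ℤ_[p]) : ℚ_[p]) = (t - n • s) i := by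
      push_cast
      simp [nsmul_eq_mul, zt, zs]
    rw [← h6]
    exact h5
  have hall := h2 {j, k} (by rw [Finset.card_pair hjk]) (t - n • s) hw (by
    intro i hi
    rcases Finset.mem_insert.mp hi with rfl | hi
    · apply hres
      rw [hl, div_mul_cancel₀ _ (hrs _ hja)]
    · rw [Finset.mem_singleton.mp hi]
      apply hres
      rw [← hl2, div_mul_cancel₀ _ (hrs _ hka)]) a
  -- then `t a` has norm < 1
  apply hta
  have h6 : t a = (t - n • s) a + (n : ℚ_[p]) * s a := by
    simp [nsmul_eq_mul]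
  rw [h6]
  refine lt_of_le_of_lt (Padic.nonarchimedean _ _) (max_lt hall ?_)
  rw [norm_mul]
  have h7 : ‖(n : ℚ_[p])‖ ≤ 1 := by
    have := PadicInt.norm_le_one (n : ℤ_[p])
    rw [PadicInt.norm_def] at this
    simpa using this
  calc ‖(n : ℚ_[p])‖ * ‖s a‖ ≤ 1 * ‖s a‖ := by
        apply mul_le_mul_of_nonneg_right h7 (norm_nonneg _)
    _ < 1 := by rw [one_mul]; exact hsa

variable [MeasurableSpace (Fin d → ℚ_[p])] [BorelSpace (Fin d → ℚ_[p])]

theorem no_tail (hd : p + 2 ≤ d) (A : GL (Fin d) ℚ_[p])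
    (h : ∀ v : Fin d → ℤ, tail p (lattice p A) v = tropPoly (cU d) (fun i => (v i : ℝ))) :
    False := by
  have hT : ∀ I : Finset (Fin d), tail p (lattice p A) (ind I) = ((min I.card 2 : ℕ) : ℝ) :=
    fun I => (h _).trans (tropPoly_ind I)
  have hp2 := (Fact.out : p.Prime).two_le
  have hsub : ∀ I J : Finset (Fin d), I ⊆ J → tailSub p (ind J) ≤ tailSub p (ind I) := by
    intro I J hIJ x hx i
    refine (hx i).trans ?_
    have h1p : (1 : ℝ) ≤ p := by exact_mod_cast (Fact.out : p.Prime).one_lt.le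
    apply zpow_le_zpow_right₀ h1p
    simp only [ind]
    by_cases h1 : i ∈ I
    · rw [if_pos h1, if_pos (hIJ h1)]
    · rw [if_neg h1]
      split_ifs <;> simp
  have hL0 : latSub p A ≤ tailSub p (ind (∅ : Finset (Fin d))) := by
    apply lattice_le_of_tail_eq_zero
    rw [hT]
    simp
  have h0 : ∀ x ∈ latSub p A, ∀ i, ‖x i‖ ≤ 1 := by
    intro x hx i
    have := hL0 hx i
    simpa [ind] using this
  have hmeq : ∀ I J : Finset (Fin d), I ⊆ J → min I.card 2 = min J.card 2 →
      latSub p A ⊓ tailSub p (ind I) ≤ latSub p A ⊓ tailSub p (ind J) := by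
    intro I J hIJ hc
    have h1 := measure_eq_of_tail_eq A (ind J) (ind I) (by rw [hT, hT, hc])
    refine eq_of_measure_eq _ _ (inf_le_inf_left _ (hsub I J hIJ))
      ((isOpen_lattice A).inter (isOpen_tailSub _)) ?_ h1
    exact ((measure_mono (μ := (Measure.addHaar : Measure (Fin d → ℚ_[p])))
      (show ((latSub p A ⊓ tailSub p (ind I) : AddSubgroup _) :
      Set (Fin d → ℚ_[p])) ⊆ lattice p A from fun x hx => hx.1)).trans_lt
      (isCompact_lattice A).measure_lt_top).ne
  refine no_lattice hd (latSub p A) h0 ?_ ?_ ?_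
  · intro I hI x hx hxI i
    have h1 : x ∈ latSub p A ⊓ tailSub p (ind I) := ⟨hx, tailSub_ind_of (h0 x hx) hxI⟩
    have h2 := hmeq I Finset.univ (Finset.subset_univ I) (by
      rw [Finset.card_univ, Fintype.card_fin]
      omega) h1
    exact norm_lt_one_of_tailSub h2.2 (Finset.mem_univ i)
  · intro a
    by_contra hcon
    push Not at hcon
    have h1 : latSub p A ⊓ tailSub p (ind {a}) = latSub p A ⊓ tailSub p (ind Finset.univ) := by
      apply le_antisymm
      · intro x hx
        refine ⟨hx.1, tailSub_ind_of (h0 x hx.1) ?_⟩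
        intro i _
        exact hcon x hx.1 (norm_lt_one_of_tailSub hx.2 (Finset.mem_singleton_self a)) i
      · exact inf_le_inf_left _ (hsub _ _ (Finset.subset_univ _))
    have h2 : tail p (lattice p A) (ind {a}) = tail p (lattice p A) (ind Finset.univ) := by
      unfold tail
      rw [ProbabilityTheory.cond_apply (isOpen_lattice A).measurableSet,
        ProbabilityTheory.cond_apply (isOpen_lattice A).measurableSet, tailSet_eq, tailSet_eq]
      have : (lattice p A ∩ (tailSub p (ind {a}) : Set (Fin d → ℚ_[p])))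
          = (lattice p A ∩ (tailSub p (ind (Finset.univ : Finset (Fin d))) :
            Set (Fin d → ℚ_[p]))) :=
        congrArg (fun H : AddSubgroup (Fin d → ℚ_[p]) => (H : Set (Fin d → ℚ_[p]))) h1
      rw [this]
    rw [hT, hT, Finset.card_univ, Fintype.card_fin, Finset.card_singleton] at h2
    have h3 : min 1 2 = min d 2 := by exact_mod_cast h2
    omega
  · intro a
    by_contra hcon
    push Not at hcon
    have h1 : latSub p A ⊓ tailSub p (ind {a}) = latSub p A ⊓ tailSub p (ind ∅) := by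
      apply le_antisymm
      · exact inf_le_inf_left _ (hsub _ _ (Finset.empty_subset _))
      · intro x hx
        refine ⟨hx.1, tailSub_ind_of (h0 x hx.1) ?_⟩
        intro i hi
        rw [Finset.mem_singleton.mp hi]
        exact hcon x hx.1
    have h2 : tail p (lattice p A) (ind {a}) = tail p (lattice p A) (ind ∅) := by
      unfold tail
      rw [ProbabilityTheory.cond_apply (isOpen_lattice A).measurableSet,
        ProbabilityTheory.cond_apply (isOpen_lattice A).measurableSet, tailSet_eq, tailSet_eq]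
      have : (lattice p A ∩ (tailSub p (ind {a}) : Set (Fin d → ℚ_[p])))
          = (lattice p A ∩ (tailSub p (ind (∅ : Finset (Fin d))) : Set (Fin d → ℚ_[p]))) :=
        congrArg (fun H : AddSubgroup (Fin d → ℚ_[p]) => (H : Set (Fin d → ℚ_[p]))) h1
      rw [this]
    rw [hT, hT, Finset.card_singleton, Finset.card_empty] at h2
    norm_num at h2

end Run7.h204.Trg
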