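import Mathlib

/-!
# Determinants with rows that are sums of two network rows

`IsNet v`: at most one entry `1`, at most one entry `-1`, all other entries `0`.  A square matrix whose rows
are of this kind has determinant `0, 1, -1`; so a determinant of order `m` whose rows are sums of two such
rows is at most `2 ^ m` in absolute value.
-/

set_option autoImplicit false

namespace Run7.h204.Tysz

/-- At most one entry `1`, at most one entry `-1`, all other entries `0`. -/
def IsNet {ι : Type} (v : ι → ℤ) : Prop :=
  (∀ j, v j = 0 ∨ v j = 1 ∨ v j = -1) ∧
    (∀ j k, v j = 1 → v k = 1 → j = k) ∧ (∀ j k, v j = -1 → v k = -1 → j = k)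

theorem IsNet.comp {ι κ : Type} {v : ι → ℤ} (h : IsNet v) {f : κ → ι} (hf : Function.Injective f) :
    IsNet (v ∘ f) :=
  ⟨fun j => h.1 _, fun j k hj hk => hf (h.2.1 _ _ hj hk), fun j k hj hk => hf (h.2.2 _ _ hj hk)⟩

theorem det_net (m : ℕ) : ∀ A : Matrix (Fin m) (Fin m) ℤ, (∀ r, IsNet (A r)) → |A.det| ≤ 1 := by
  induction m with
  | zero => intro A _; simp
  | succ m ih =>
    intro A hA
    by_cases h : ∃ r, (∀ j, A r j ≠ 1) ∨ (∀ j, A r j ≠ -1)
    · obtain ⟨r, hr⟩ := h
      have hc : ∃ c, ∀ j, j ≠ c → A r j = 0 := by
        by_cases h0 : ∃ c, A r c ≠ 0
        · obtain ⟨c, hc⟩ := h0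
          refine ⟨c, fun j hj => ?_⟩
          obtain ⟨h1, h2, h3⟩ := hA r
          by_contra hne
          rcases hr with hr | hr
          · have e1 : A r j = -1 := by
              rcases h1 j with h | h | h
              · exact absurd h hne
              · exact absurd h (hr j)
              · exact h
            have e2 : A r c = -1 := by
              rcases h1 c with h | h | h
              · exact absurd h hc
              · exact absurd h (hr c)
              · exact h
            exact hj (h3 j c e1 e2)
          · have e1 : A r j = 1 := by
              rcases h1 j with h | h | h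
              · exact absurd h hne
              · exact h
              · exact absurd h (hr j)
            have e2 : A r c = 1 := by
              rcases h1 c with h | h | h
              · exact absurd h hc
              · exact h
              · exact absurd h (hr c)
            exact hj (h2 j c e1 e2)
        · push Not at h0
          exact ⟨0, fun j _ => h0 j⟩
      obtain ⟨c, hc⟩ := hc
      rw [Matrix.det_succ_row A r, Finset.sum_eq_single c]
      · have hm : |(A.submatrix r.succAbove c.succAbove).det| ≤ 1 := by
          apply ih
          intro s
          obtain ⟨h1, h2, h3⟩ := hA (r.succAbove s)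
          refine ⟨fun j => h1 _, fun j k hj hk => ?_, fun j k hj hk => ?_⟩
          · exact Fin.succAbove_right_injective (h2 _ _ hj hk)
          · exact Fin.succAbove_right_injective (h3 _ _ hj hk)
        have hrc : |A r c| ≤ 1 := by
          rcases (hA r).1 c with h | h | h <;> rw [h] <;> norm_num
        rw [abs_mul, abs_mul, abs_pow, abs_neg, abs_one, one_pow, one_mul]
        calc |A r c| * |(A.submatrix r.succAbove c.succAbove).det| ≤ 1 * 1 :=
              mul_le_mul hrc hm (abs_nonneg _) zero_le_one
          _ = 1 := by norm_num
      · intro j _ hj
        rw [hc j hj]; simp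
      · intro hn; exact absurd (Finset.mem_univ c) hn
    · push Not at h
      have hz : A.det = 0 := by
        rw [← Matrix.exists_mulVec_eq_zero_iff]
        refine ⟨fun _ => 1, ?_, ?_⟩
        · intro h0
          have := congrFun h0 0
          simp at this
        · funext r
          obtain ⟨⟨a, ha⟩, ⟨b, hb⟩⟩ := h r
          have hab : a ≠ b := by
            intro hab; rw [hab, hb] at ha; norm_num at ha
          have : (A.mulVec fun _ => 1) r = ∑ j, A r j := by
            simp [Matrix.mulVec, dotProduct]
          rw [this, Finset.sum_eq_add a b hab, ha, hb]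
          · simp
          · intro c _ hc
            rcases (hA r).1 c with h | h | h
            · exact h
            · exact absurd ((hA r).2.1 c a h ha) hc.1
            · exact absurd ((hA r).2.2 c b h hb) hc.2
          · intro hn; exact absurd (Finset.mem_univ a) hn
          · intro hn; exact absurd (Finset.mem_univ b) hn
      rw [hz]; simp

/-- A sum of two network rows. -/
def IsRow {ι : Type} (w : ι → ℤ) : Prop := ∃ u v : ι → ℤ, IsNet u ∧ IsNet v ∧ w = u + v

theorem IsRow.comp {ι κ : Type} {v : ι → ℤ} (h : IsRow v) {f : κ → ι} (hf : Function.Injective f) :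
    IsRow (v ∘ f) := by
  obtain ⟨a, b, ha, hb, rfl⟩ := h
  exact ⟨a ∘ f, b ∘ f, ha.comp hf, hb.comp hf, rfl⟩

theorem det_row_le {m : ℕ} (A : Matrix (Fin m) (Fin m) ℤ) (hA : ∀ r, IsRow (A r)) :
    |A.det| ≤ 2 ^ m := by
  choose u v hu hv huv using hA
  have hAuv : A = Matrix.of (u + v) := by
    ext r j
    rw [huv r]
    rfl
  have hexp : (Matrix.of (u + v)).det
      = ∑ s : Finset (Fin m), (Matrix.of (s.piecewise u v)).det := by
    have := (Matrix.detRowAlternating (n := Fin m) (R := ℤ)).toMultilinearMap.map_add_univ u v
    exact this
  rw [hAuv, hexp]
  calc |∑ s : Finset (Fin m), (Matrix.of (s.piecewise u v)).det|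
      ≤ ∑ s : Finset (Fin m), |(Matrix.of (s.piecewise u v)).det| := Finset.abs_sum_le_sum_abs _ _
    _ ≤ ∑ s : Finset (Fin m), (1 : ℤ) := by
        apply Finset.sum_le_sum
        intro s _
        apply det_net
        intro r
        by_cases hr : r ∈ s
        · have : (Matrix.of (s.piecewise u v)) r = u r := by
            funext j; simp [Finset.piecewise_eq_of_mem _ _ _ hr]
          rw [this]; exact hu r
        · have : (Matrix.of (s.piecewise u v)) r = v r := by
            funext j; simp [Finset.piecewise_eq_of_notMem _ _ _ hr]
          rw [this]; exact hv r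
    _ = 2 ^ m := by simp

theorem isNet_zero {ι : Type} : IsNet (0 : ι → ℤ) :=
  ⟨fun _ => Or.inl rfl, fun _ _ h => by simp at h, fun _ _ h => by simp at h⟩

theorem isNet_single {n : ℕ} (i : Fin n) : IsNet (Pi.single i 1 : Fin n → ℤ) := by
  refine ⟨fun j => ?_, fun j k hj hk => ?_, fun j k hj hk => ?_⟩
  · by_cases h : j = i
    · subst h; simp
    · simp [h]
  · by_cases h : j = i
    · by_cases h' : k = i
      · rw [h, h']
      · simp [h'] at hk
    · simp [h] at hj
  · by_cases h : j = i
    · subst h; simp at hj
    · simp [h] at hj

theorem isNet_sub {n : ℕ} (i k : Fin n) :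
    IsNet (Pi.single i 1 - Pi.single k 1 : Fin n → ℤ) := by
  by_cases hik : i = k
  · subst hik; simpa using isNet_zero
  refine ⟨fun j => ?_, fun j l hj hl => ?_, fun j l hj hl => ?_⟩
  · by_cases h : j = i
    · subst h; simp [hik]
    · by_cases h' : j = k
      · subst h'; simp [h]
      · simp [h, h']
  · have key : ∀ j, (Pi.single i 1 - Pi.single k 1 : Fin n → ℤ) j = 1 → j = i := by
      intro j hj
      by_contra h
      by_cases h' : j = k
      · subst h'; simp [h] at hj
      · simp [h, h'] at hj
    rw [key j hj, key l hl]
  · have key : ∀ j, (Pi.single i 1 - Pi.single k 1 : Fin n → ℤ) j = -1 → j = k := by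
      intro j hj
      by_contra h
      by_cases h' : j = i
      · subst h'; simp [h] at hj
      · simp [h, h'] at hj
    rw [key j hj, key l hl]

/-- A shorter word with the same sum: in a finite group words of length less than the order suffice. -/
theorem short_word {α G : Type} [AddCommGroup G] [Finite G] (f : α → G) :
    ∀ (k : ℕ) (l : List α), l.length = k → ∃ l' : List α, l'.length < Nat.card G ∧ (∀ a ∈ l', a ∈ l) ∧
      (l'.map f).sum = (l.map f).sum := by
  intro k
  induction k using Nat.strong_induction_on with
  | _ k ih =>
    intro l hl
    by_cases h : l.length < Nat.card G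
    · exact ⟨l, h, fun a ha => ha, rfl⟩
    · push Not at h
      let g : Fin (l.length + 1) → G := fun i => ((l.take i).map f).sum
      have hni : ¬ Function.Injective g := by
        intro hinj
        have := Nat.card_le_card_of_injective g hinj
        simp at this
        omega
      obtain ⟨i, j, hij, hne⟩ : ∃ i j, g i = g j ∧ i ≠ j := by
        simp only [Function.Injective] at hni
        push Not at hni
        obtain ⟨i, j, h1, h2⟩ := hni
        exact ⟨i, j, h1, h2⟩
      wlog hlt : i < j generalizing i j
      · exact this j i hij.symm hne.symm (lt_of_le_of_ne (not_lt.mp hlt) hne.symm)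
      let l'' := l.take i ++ l.drop j
      have hlen : l''.length < k := by
        simp only [l'', List.length_append, List.length_take, List.length_drop]
        have := j.2
        have h3 : (i : ℕ) < j := hlt
        omega
      obtain ⟨l', h1, h2, h3⟩ := ih l''.length hlen l'' rfl
      refine ⟨l', h1, fun a ha => ?_, ?_⟩
      · have := h2 a ha
        simp only [l'', List.mem_append] at this
        rcases this with h | h
        · exact List.mem_of_mem_take h
        · exact List.mem_of_mem_drop h
      · rw [h3]
        have e1 : (l''.map f).sum = ((l.take i).map f).sum + ((l.drop j).map f).sum := by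
          simp [l'']
        have e2 : (l.map f).sum = ((l.take j).map f).sum + ((l.drop j).map f).sum := by
          rw [← List.sum_append, ← List.map_append, List.take_append_drop]
        rw [e1, e2]
        have : ((l.take i).map f).sum = ((l.take j).map f).sum := hij
        rw [this]

end Run7.h204.Tysz
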