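import Pool.Agent.Run7.h204.TyA

/-!
# A full set of row relations of a tuple, with a nonzero minor that avoids a given column
-/

set_option autoImplicit false

namespace Run7.h204.Tysz

open Module

theorem core {n : ℕ} (x : Fin n → ℂ) (i0 : Fin n) (hx : x i0 = 1) :
    ∃ (m : ℕ) (W : Matrix (Fin m) (Fin n) ℤ) (J : Fin m → Fin n),
      (∀ r, IsRow (W r)) ∧ (∀ r, ∑ j, (W r j : ℂ) * x j = 0) ∧
      (∀ w : Fin n → ℤ, IsRow w → ∑ j, (w j : ℂ) * x j = 0 →
        ∀ z : Fin n → ℚ, (∀ r, ∑ j, (W r j : ℚ) * z j = 0) → ∑ j, (w j : ℚ) * z j = 0) ∧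
      (∀ r, J r ≠ i0) ∧ (W.submatrix id J).det ≠ 0 := by
  classical
  let T : Type := {w : Fin n → ℤ // IsRow w ∧ ∑ j, (w j : ℂ) * x j = 0}
  let v : T → (Fin n → ℚ) := fun w j => (w.1 j : ℚ)
  obtain ⟨κ, a, -, hspan, hli⟩ := exists_linearIndependent' ℚ v
  have hfin : Finite κ := hli.finite
  have : Fintype κ := Fintype.ofFinite κ
  let m := Fintype.card κ
  let e : Fin m ≃ κ := (Fintype.equivFin κ).symm
  let W : Matrix (Fin m) (Fin n) ℤ := Matrix.of fun r => (a (e r)).1
  have hW : ∀ r, W r = (a (e r)).1 := fun r => rfl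
  have hWx : ∀ r, ∑ j, (W r j : ℂ) * x j = 0 := fun r => (a (e r)).2.2
  have hWli : LinearIndependent ℚ (fun r : Fin m => v (a (e r))) := hli.comp e e.injective
  -- columns
  let c : {j : Fin n // j ≠ i0} → (Fin m → ℚ) := fun j r => (W r j.1 : ℚ)
  have hc : Submodule.span ℚ (Set.range c) = ⊤ := by
    by_contra hne
    obtain ⟨f, hf0, hf⟩ := Submodule.exists_le_ker_of_lt_top _ (lt_top_iff_ne_top.mpr hne)
    let y : Fin m → ℚ := fun j => f (Pi.single j 1)
    have hfy : ∀ w : Fin m → ℚ, f w = ∑ j, w j * y j := by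
      intro w
      have : w = ∑ j, w j • (Pi.single j (1 : ℚ) : Fin m → ℚ) := by
        funext l
        simp [Finset.sum_apply, Pi.single_apply]
      conv_lhs => rw [this]
      simp [y, smul_eq_mul]
    have hcol : ∀ j, j ≠ i0 → ∑ r, (W r j : ℚ) * y r = 0 := by
      intro j hj
      have h1 : c ⟨j, hj⟩ ∈ LinearMap.ker f := hf (Submodule.subset_span ⟨_, rfl⟩)
      rw [LinearMap.mem_ker, hfy] at h1
      exact h1
    have ht : ∑ r, (W r i0 : ℚ) * y r = 0 := by
      have h1 : ∑ j, ((∑ r, (W r j : ℚ) * y r : ℚ) : ℂ) * x j = 0 := by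
        have h2 : ∀ j, ((∑ r, (W r j : ℚ) * y r : ℚ) : ℂ) * x j =
            ∑ r, (y r : ℂ) * ((W r j : ℂ) * x j) := by
          intro j
          push_cast
          rw [Finset.sum_mul]
          refine Finset.sum_congr rfl fun r _ => by ring
        rw [Finset.sum_congr rfl fun j _ => h2 j, Finset.sum_comm]
        refine Finset.sum_eq_zero fun r _ => ?_
        rw [← Finset.mul_sum, hWx r, mul_zero]
      rw [Finset.sum_eq_single i0] at h1
      · rw [hx, mul_one] at h1
        exact_mod_cast h1
      · intro j _ hj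
        rw [hcol j hj]
        simp
      · intro h
        exact absurd (Finset.mem_univ _) h
    have hall : ∀ j, ∑ r, (W r j : ℚ) * y r = 0 := by
      intro j
      by_cases hj : j = i0
      · rw [hj]; exact ht
      · exact hcol j hj
    have hy0 : ∀ r, y r = 0 := by
      have h1 := Fintype.linearIndependent_iff.mp hWli y
      apply h1
      funext j
      have := hall j
      simp only [Finset.sum_apply, Pi.smul_apply, smul_eq_mul, Pi.zero_apply]
      rw [← this]
      refine Finset.sum_congr rfl fun r _ => ?_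
      rw [mul_comm]
      rfl
    apply hf0
    refine LinearMap.ext fun w => ?_
    rw [hfy]
    simp [hy0]
  obtain ⟨κ', a', ha', hspan', hli'⟩ := exists_linearIndependent' ℚ c
  have hfin' : Finite κ' := hli'.finite
  have : Fintype κ' := Fintype.ofFinite κ'
  let B : Basis κ' ℚ (Fin m → ℚ) := Basis.mk hli' (by rw [hspan', hc])
  have hcard : Fintype.card κ' = m := by
    rw [← Module.finrank_eq_card_basis B]; simp
  let e' : Fin m ≃ κ' := (Fintype.equivFinOfCardEq hcard).symm
  refine ⟨m, W, fun r => (a' (e' r)).1, fun r => (a (e r)).2.1, hWx, ?_, fun r => (a' (e' r)).2, ?_⟩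
  · intro w hw hwx z hz
    let S : Submodule ℚ (Fin n → ℚ) :=
      { carrier := {u | ∑ j, u j * z j = 0}
        add_mem' := by
          intro p q hp hq
          simp only [Set.mem_ofPred_eq] at *
          simp only [Pi.add_apply, add_mul, Finset.sum_add_distrib]
          rw [hp, hq, add_zero]
        zero_mem' := by simp
        smul_mem' := by
          intro t p hp
          simp only [Set.mem_ofPred_eq] at *
          simp only [Pi.smul_apply, smul_eq_mul, mul_assoc]
          rw [← Finset.mul_sum, hp, mul_zero] }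
    have h1 : Submodule.span ℚ (Set.range (v ∘ a)) ≤ S := by
      rw [Submodule.span_le]
      rintro _ ⟨k, rfl⟩
      have := hz (e.symm k)
      show ∑ j, (v (a k)) j * z j = 0
      rw [← this]
      refine Finset.sum_congr rfl fun j _ => ?_
      simp [W, v]
    have h2 : v ⟨w, hw, hwx⟩ ∈ S := by
      apply h1
      rw [hspan]
      exact Submodule.subset_span ⟨_, rfl⟩
    exact h2
  · have h1 : LinearIndependent ℚ (fun r : Fin m => c (a' (e' r))) := hli'.comp e' e'.injective
    let M : Matrix (Fin m) (Fin m) ℚ := (W.submatrix id fun r => (a' (e' r)).1).map (Int.castRingHom ℚ)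
    have h2 : LinearIndependent ℚ M.col := h1
    have h3 : IsUnit M := Matrix.linearIndependent_cols_iff_isUnit.mp h2
    have h4 : M.det ≠ 0 := ((Matrix.isUnit_iff_isUnit_det M).mp h3).ne_zero
    have h5 : M.det = (Int.castRingHom ℚ) (W.submatrix id fun r => (a' (e' r)).1).det := by
      rw [RingHom.map_det]
      rfl
    intro h6
    apply h4
    rw [h5, h6, map_zero]

end Run7.h204.Tysz
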