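import Pool.Agent.Run7.h204.TyB

/-!
# Small rational and small integer solutions of unit and addition equations
-/

set_option autoImplicit false

namespace Run7.h204.Tysz

open Matrix

/-- Cramer's rule for the columns chosen by `J`. -/
lemma cram {R : Type} [CommRing R] {m n : ℕ} (W : Matrix (Fin m) (Fin n) R) (J : Fin m → Fin n)
    (q : Fin m → R) (z : Fin n → R) (h : (W.submatrix id J).mulVec q = W.mulVec z) (r : Fin m) :
    (W.submatrix id J).det * q r = ∑ j, z j * (W.submatrix id (Function.update J r j)).det := by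
  have h1 : (W.submatrix id J).adjugate.mulVec ((W.submatrix id J).mulVec q) =
      (W.submatrix id J).det • q := by
    rw [Matrix.mulVec_mulVec, Matrix.adjugate_mul, Matrix.smul_mulVec, Matrix.one_mulVec]
  have h2 := congrFun h1 r
  rw [h] at h2
  rw [Pi.smul_apply, smul_eq_mul] at h2
  rw [← h2]
  have h3 : W.mulVec z = ∑ j, z j • W.col j := by
    funext s
    simp [Matrix.mulVec, dotProduct, Finset.sum_apply, mul_comm]
  rw [h3, Matrix.mulVec_sum, Finset.sum_apply]
  refine Finset.sum_congr rfl fun j _ => ?_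
  rw [Matrix.mulVec_smul, Pi.smul_apply, smul_eq_mul, ← Matrix.cramer_eq_adjugate_mulVec,
    Matrix.cramer_apply]
  congr 2
  ext s t
  by_cases ht : t = r
  · subst ht
    simp [Matrix.col]
  · simp [Matrix.updateCol_ne ht, Function.update_of_ne ht]

lemma det_sub_eq_zero {R : Type} [CommRing R] {m n : ℕ} (W : Matrix (Fin m) (Fin n) R)
    (J : Fin m → Fin n) (h : ¬ Function.Injective J) : (W.submatrix id J).det = 0 := by
  simp only [Function.Injective] at h
  push Not at h
  obtain ⟨a, b, hab, hne⟩ := h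
  exact Matrix.det_zero_of_column_eq hne fun r => by simp [hab]

lemma inj_of_det {R : Type} [CommRing R] {m n : ℕ} (W : Matrix (Fin m) (Fin n) R)
    (J : Fin m → Fin n) (h : (W.submatrix id J).det ≠ 0) : Function.Injective J := by
  by_contra hn
  exact h (det_sub_eq_zero W J hn)

lemma det_le_two_pow {m n : ℕ} (W : Matrix (Fin m) (Fin n) ℤ) (hW : ∀ r, IsRow (W r))
    (J : Fin m → Fin n) : |(W.submatrix id J).det| ≤ 2 ^ m := by
  by_cases h : Function.Injective J
  · exact det_row_le _ fun r => (hW r).comp h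
  · rw [det_sub_eq_zero W J h]
    simp

lemma card_le {m n : ℕ} (i0 : Fin n) (J : Fin m → Fin n) (hJ : Function.Injective J)
    (h0 : ∀ r, J r ≠ i0) : m ≤ n - 1 := by
  have h1 : Fintype.card (Fin m) ≤ Fintype.card {j : Fin n // j ≠ i0} :=
    Fintype.card_le_of_injective (fun r => (⟨J r, h0 r⟩ : {j : Fin n // j ≠ i0})) fun a b hab =>
      hJ (congrArg Subtype.val hab)
  simpa using h1

lemma rel {m n : ℕ} (x : Fin n → ℂ) (i0 : Fin n) (hx : x i0 = 1) (W : Matrix (Fin m) (Fin n) ℤ)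
    (h3 : ∀ w : Fin n → ℤ, IsRow w → ∑ j, (w j : ℂ) * x j = 0 →
        ∀ z : Fin n → ℚ, (∀ r, ∑ j, (W r j : ℚ) * z j = 0) → ∑ j, (w j : ℚ) * z j = 0)
    (y : Fin n → ℚ) (hy0 : y i0 = 1) (hy : ∀ r, ∑ j, (W r j : ℚ) * y j = 0) :
    (∀ i, x i = 1 → y i = 1) ∧ ∀ i j k, x i + x j = x k → y i + y j = y k := by
  constructor
  · intro i hi
    have := h3 (0 + (Pi.single i 1 - Pi.single i0 1)) ⟨_, _, isNet_zero, isNet_sub i i0, rfl⟩ (by
      simp [sub_mul, Finset.sum_sub_distrib, Pi.single_apply, hi, hx]) y hy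
    simp [sub_mul, Finset.sum_sub_distrib, Pi.single_apply, hy0] at this
    linarith
  · intro i j k h
    have := h3 (Pi.single i 1 + (Pi.single j 1 - Pi.single k 1))
      ⟨_, _, isNet_single i, isNet_sub j k, rfl⟩ (by
      simp [add_mul, sub_mul, Finset.sum_add_distrib, Finset.sum_sub_distrib, Pi.single_apply]
      linear_combination h) y hy
    simp [add_mul, sub_mul, Finset.sum_add_distrib, Finset.sum_sub_distrib, Pi.single_apply] at this
    linarith

theorem rat_sol {n : ℕ} (x : Fin n → ℂ) : ∃ y : Fin n → ℚ, (∀ i, |y i| ≤ 2 ^ (n - 1)) ∧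
    (∀ i, x i = 1 → y i = 1) ∧ ∀ i j k, x i + x j = x k → y i + y j = y k := by
  classical
  by_cases hex : ∃ i0, x i0 = 1
  swap
  · refine ⟨0, fun i => by simp, fun i hi => absurd ⟨i, hi⟩ hex, fun i j k _ => by simp⟩
  obtain ⟨i0, hi0⟩ := hex
  obtain ⟨m, W, J, hrow, -, hrel, hJ0, hdet⟩ := core x i0 hi0
  have hJ : Function.Injective J := inj_of_det W J hdet
  have hm : m ≤ n - 1 := card_le i0 J hJ hJ0
  let Wq : Matrix (Fin m) (Fin n) ℚ := W.map (Int.castRingHom ℚ)
  let A : Matrix (Fin m) (Fin m) ℚ := Wq.submatrix id J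
  have hdetJ : ∀ J' : Fin m → Fin n, (Wq.submatrix id J').det = ((W.submatrix id J').det : ℚ) := by
    intro J'
    have : Wq.submatrix id J' = (Int.castRingHom ℚ).mapMatrix (W.submatrix id J') := rfl
    rw [this, ← RingHom.map_det]
    rfl
  have hA : A.det = ((W.submatrix id J).det : ℚ) := hdetJ J
  have hA0 : A.det ≠ 0 := by rw [hA]; exact_mod_cast hdet
  have hA1 : 1 ≤ |A.det| := by
    rw [hA]
    have : (1 : ℤ) ≤ |(W.submatrix id J).det| := Int.one_le_abs hdet
    exact_mod_cast this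
  let q : Fin m → ℚ := A⁻¹.mulVec (Wq.mulVec (Pi.single i0 1))
  have hq : A.mulVec q = Wq.mulVec (Pi.single i0 1) := by
    show A.mulVec (A⁻¹.mulVec (Wq.mulVec (Pi.single i0 1))) = _
    rw [Matrix.mulVec_mulVec, Matrix.mul_nonsing_inv A (isUnit_iff_ne_zero.mpr hA0), Matrix.one_mulVec]
  have hqb : ∀ r, |q r| ≤ 2 ^ (n - 1) := by
    intro r
    have h1 := cram Wq J q (Pi.single i0 1) hq r
    rw [Finset.sum_eq_single i0 (by intro j _ hj; simp [hj]) (by simp)] at h1
    rw [Pi.single_eq_same, one_mul, hdetJ (Function.update J r i0)] at h1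
    have h2 : |(Wq.submatrix id J).det| * |q r| ≤ 2 ^ m := by
      rw [← abs_mul, h1]
      exact_mod_cast det_le_two_pow W hrow (Function.update J r i0)
    have h3 : |q r| ≤ |(Wq.submatrix id J).det| * |q r| :=
      le_mul_of_one_le_left (abs_nonneg _) hA1
    calc |q r| ≤ 2 ^ m := h3.trans h2
      _ ≤ 2 ^ (n - 1) := pow_le_pow_right₀ (by norm_num) hm
  let y : Fin n → ℚ := Pi.single i0 1 - ∑ r, q r • Pi.single (J r) 1
  have hyW : Wq.mulVec y = 0 := by
    show Wq.mulVec (Pi.single i0 1 - ∑ r, q r • Pi.single (J r) 1) = 0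
    rw [Matrix.mulVec_sub, ← hq, Matrix.mulVec_sum, sub_eq_zero]
    funext s
    simp [Matrix.mulVec_smul, A, Matrix.mulVec, dotProduct, Finset.sum_apply, mul_comm]
  have hyJ : ∀ r, y (J r) = - q r := by
    intro r
    have h1 : (Pi.single i0 1 : Fin n → ℚ) (J r) = 0 := Pi.single_eq_of_ne (hJ0 r) _
    have h2 : (∑ s, q s • Pi.single (J s) 1 : Fin n → ℚ) (J r) = q r := by
      rw [Finset.sum_apply, Finset.sum_eq_single r]
      · simp
      · intro s _ hs
        have : J r ≠ J s := fun h => hs (hJ h).symm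
        simp [Pi.single_eq_of_ne this]
      · simp
    show (Pi.single i0 1 : Fin n → ℚ) (J r) - (∑ s, q s • Pi.single (J s) 1 : Fin n → ℚ) (J r) = _
    rw [h1, h2, zero_sub]
  have hyn : ∀ j, (∀ r, J r ≠ j) → y j = (Pi.single i0 1 : Fin n → ℚ) j := by
    intro j hj
    have h2 : (∑ s, q s • Pi.single (J s) 1 : Fin n → ℚ) j = 0 := by
      rw [Finset.sum_apply]
      refine Finset.sum_eq_zero fun s _ => ?_
      simp [Pi.single_eq_of_ne (hj s).symm]
    show (Pi.single i0 1 : Fin n → ℚ) j - (∑ s, q s • Pi.single (J s) 1 : Fin n → ℚ) j = _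
    rw [h2, sub_zero]
  have hy0 : y i0 = 1 := by rw [hyn i0 hJ0]; simp
  obtain ⟨h1, h2⟩ := rel x i0 hi0 W hrel y hy0 (fun r => by
    have := congrFun hyW r
    simpa [Matrix.mulVec, dotProduct, Wq] using this)
  refine ⟨y, fun j => ?_, h1, h2⟩
  by_cases hj : ∃ r, J r = j
  · obtain ⟨r, rfl⟩ := hj
    rw [hyJ, abs_neg]
    exact hqb r
  · push Not at hj
    rw [hyn j hj]
    by_cases h : j = i0
    · subst h
      simp only [Pi.single_eq_same, abs_one]
      exact one_le_pow₀ (by norm_num)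
    · simp [Pi.single_eq_of_ne h]

end Run7.h204.Tysz
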