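import Pool.Agent.Run7.h204.TyC

/-!
# Small integer solutions of unit and addition equations
-/

set_option autoImplicit false

namespace Run7.h204.Tysz

open Matrix

lemma card_quot {m : ℕ} (A : Matrix (Fin m) (Fin m) ℤ) (hA : A.det ≠ 0) :
    Nat.card ((Fin m → ℤ) ⧸ LinearMap.range A.mulVecLin) = A.det.natAbs := by
  have hinj : Function.Injective A.mulVecLin := by
    rw [← LinearMap.ker_eq_bot, LinearMap.ker_eq_bot']
    intro v hv
    exact Matrix.eq_zero_of_mulVec_eq_zero hA hv
  let e : (Fin m → ℤ) ≃ₗ[ℤ] LinearMap.range A.mulVecLin := LinearEquiv.ofInjective A.mulVecLin hinj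
  rw [← Submodule.natAbs_det_equiv (LinearMap.range A.mulVecLin) e]
  congr 1
  have : (LinearMap.range A.mulVecLin).subtype ∘ₗ
      AddMonoidHom.toIntLinearMap (e : (Fin m → ℤ) →+ LinearMap.range A.mulVecLin) = Matrix.toLin' A := by
    ext1 i
    rfl
  rw [this, LinearMap.det_toLin']

lemma exists_steps {n : ℕ} (a : Fin n → ℤ) : ∃ l : List (Fin n → ℤ), l.sum = a ∧
    ∀ v ∈ l, (∑ j, |v j| ≤ 1) ∧ ∀ j, a j = 0 → v j = 0 := by
  classical
  refine ⟨Finset.univ.toList.flatMap fun j => List.replicate (a j).natAbs (Pi.single j (a j).sign),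
    ?_, ?_⟩
  · rw [List.flatMap_def, List.sum_flatten, List.map_map]
    have h1 : (Finset.univ.toList.map (List.sum ∘ fun j : Fin n =>
        (List.replicate (a j).natAbs (Pi.single j (a j).sign : Fin n → ℤ)))).sum =
        ∑ j, (List.replicate (a j).natAbs (Pi.single j (a j).sign : Fin n → ℤ)).sum := by
      rw [Finset.sum_map_toList]
      rfl
    rw [h1]
    funext i
    rw [Finset.sum_apply, Finset.sum_eq_single i]
    · rw [List.sum_replicate, Pi.smul_apply, Pi.single_eq_same, nsmul_eq_mul]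
      rw [Int.natCast_natAbs]
      rw [mul_comm]
      exact Int.sign_mul_abs (a i)
    · intro j _ hj
      rw [List.sum_replicate, Pi.smul_apply, Pi.single_eq_of_ne hj.symm, smul_zero]
    · simp
  · intro v hv
    rw [List.mem_flatMap] at hv
    obtain ⟨j, -, hv⟩ := hv
    rw [List.mem_replicate] at hv
    obtain ⟨h1, rfl⟩ := hv
    constructor
    · rw [Finset.sum_eq_single j]
      · rw [Pi.single_eq_same]
        rcases lt_trichotomy (a j) 0 with h | h | h
        · rw [Int.sign_eq_neg_one_of_neg h]; norm_num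
        · rw [h]; norm_num
        · rw [Int.sign_eq_one_of_pos h]; norm_num
      · intro i _ hi
        rw [Pi.single_eq_of_ne hi, abs_zero]
      · simp
    · intro i hi
      by_cases hij : i = j
      · subst hij
        exact absurd (by rw [hi]; rfl) h1
      · rw [Pi.single_eq_of_ne hij]

lemma sum_abs_list {n : ℕ} (l : List (Fin n → ℤ)) (h : ∀ v ∈ l, ∑ j, |v j| ≤ 1) :
    ∑ j, |l.sum j| ≤ l.length := by
  induction l with
  | nil => simp
  | cons v l ih =>
    have h1 := h v (by simp)
    have h2 := ih fun w hw => h w (by simp [hw])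
    rw [List.sum_cons]
    calc ∑ j, |(v + l.sum) j| ≤ ∑ j, (|v j| + |l.sum j|) :=
          Finset.sum_le_sum fun j _ => abs_add_le _ _
      _ = ∑ j, |v j| + ∑ j, |l.sum j| := Finset.sum_add_distrib
      _ ≤ 1 + l.length := add_le_add h1 h2
      _ = ((v :: l).length : ℤ) := by rw [List.length_cons]; push_cast; ring

lemma sum_zero_list {n : ℕ} (l : List (Fin n → ℤ)) (j : Fin n) (h : ∀ v ∈ l, v j = 0) :
    l.sum j = 0 := by
  induction l with
  | nil => simp
  | cons v l ih =>
    rw [List.sum_cons, Pi.add_apply, h v (by simp), ih fun w hw => h w (by simp [hw]), add_zero]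

theorem int_sol {n : ℕ} (x : Fin n → ℤ) : ∃ y : Fin n → ℤ, (∀ i, |y i| ≤ 2 ^ (n - 1)) ∧
    (∀ i, x i = 1 → y i = 1) ∧ ∀ i j k, x i + x j = x k → y i + y j = y k := by
  classical
  by_cases hex : ∃ i0, x i0 = 1
  swap
  · refine ⟨0, fun i => by simp, fun i hi => absurd ⟨i, hi⟩ hex, fun i j k _ => by simp⟩
  obtain ⟨i0, hi0⟩ := hex
  obtain ⟨m, W, J0, hrow, hWx, hrel, hJ00, hdet0⟩ := core (fun i => (x i : ℂ)) i0 (by simp [hi0])
  let F : Finset (Fin m → Fin n) := Finset.univ.filter fun J => ∀ r, J r ≠ i0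
  obtain ⟨J, hJF, hmax⟩ := F.exists_max_image (fun J => |(W.submatrix id J).det|)
    ⟨J0, by simp only [F, Finset.mem_filter, Finset.mem_univ, true_and]; exact hJ00⟩
  have hJ0 : ∀ r, J r ≠ i0 := by
    simpa only [F, Finset.mem_filter, Finset.mem_univ, true_and] using hJF
  have hmax' : ∀ J' : Fin m → Fin n, (∀ r, J' r ≠ i0) →
      |(W.submatrix id J').det| ≤ |(W.submatrix id J).det| := by
    intro J' hJ'
    exact hmax J' (by simp only [F, Finset.mem_filter, Finset.mem_univ, true_and]; exact hJ')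
  have hdet : (W.submatrix id J).det ≠ 0 := by
    intro h
    have := hmax' J0 hJ00
    rw [h, abs_zero] at this
    exact hdet0 (abs_nonpos_iff.mp this)
  have hJ : Function.Injective J := inj_of_det W J hdet
  have hm : m ≤ n - 1 := card_le i0 J hJ hJ0
  set A := W.submatrix id J with hAdef
  let N : Submodule ℤ (Fin m → ℤ) := LinearMap.range A.mulVecLin
  have hcard : Nat.card ((Fin m → ℤ) ⧸ N) = A.det.natAbs := card_quot A hdet
  have hfin : Finite ((Fin m → ℤ) ⧸ N) := Nat.finite_of_card_ne_zero (by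
    rw [hcard]
    exact Int.natAbs_ne_zero.mpr hdet)
  let f : (Fin n → ℤ) →ₗ[ℤ] ((Fin m → ℤ) ⧸ N) := N.mkQ ∘ₗ W.mulVecLin
  have hcolJ : ∀ r, W.mulVec (Pi.single (J r) 1) = A.mulVec (Pi.single r 1) := by
    intro r
    funext s
    simp [A]
  have hfJ : ∀ r, f (Pi.single (J r) 1) = 0 := by
    intro r
    show N.mkQ (W.mulVec (Pi.single (J r) 1)) = 0
    rw [hcolJ, Submodule.mkQ_apply, Submodule.Quotient.mk_eq_zero]
    exact ⟨Pi.single r 1, rfl⟩
  have hfx : f x = 0 := by
    have : W.mulVec x = 0 := by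
      funext r
      have := hWx r
      simp only [Matrix.mulVec, dotProduct, Pi.zero_apply]
      exact_mod_cast this
    show N.mkQ (W.mulVec x) = 0
    rw [this, map_zero]
  let a : Fin n → ℤ := fun j => if (∃ r, J r = j) ∨ j = i0 then 0 else x j
  have hxa : x = a + Pi.single i0 1 + ∑ r, x (J r) • Pi.single (J r) 1 := by
    funext j
    simp only [Pi.add_apply, Finset.sum_apply]
    by_cases hj : ∃ r, J r = j
    · obtain ⟨r, rfl⟩ := hj
      rw [Finset.sum_eq_single r]
      · have h1 : a (J r) = 0 := if_pos (Or.inl ⟨r, rfl⟩)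
        have h2 : (Pi.single i0 1 : Fin n → ℤ) (J r) = 0 := Pi.single_eq_of_ne (hJ0 r) _
        rw [h1, h2]
        simp
      · intro s _ hs
        have : J r ≠ J s := fun h => hs (hJ h).symm
        simp [Pi.single_eq_of_ne this]
      · simp
    · have h3 : (∑ r, (x (J r) • (Pi.single (J r) 1 : Fin n → ℤ)) j) = 0 := by
        refine Finset.sum_eq_zero fun s _ => ?_
        have : j ≠ J s := fun h => hj ⟨s, h.symm⟩
        simp [Pi.single_eq_of_ne this]
      rw [h3, add_zero]
      by_cases h : j = i0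
      · subst h
        have h1 : a j = 0 := if_pos (Or.inr rfl)
        rw [h1, hi0]
        simp
      · have h1 : a j = x j := if_neg (by push Not; exact ⟨fun r hr => hj ⟨r, hr⟩, h⟩)
        rw [h1, Pi.single_eq_of_ne h, add_zero]
  have hfa : f (a + Pi.single i0 1) = 0 := by
    have h1 : f x = f (a + Pi.single i0 1) + ∑ r, x (J r) • f (Pi.single (J r) 1) := by
      conv_lhs => rw [hxa]
      rw [map_add, map_sum]
      congr 1
      refine Finset.sum_congr rfl fun r _ => ?_
      rw [map_smul]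
    rw [hfx] at h1
    simpa [hfJ] using h1.symm
  obtain ⟨l, hl, hlv⟩ := exists_steps a
  obtain ⟨l', h1, h2, h3⟩ := short_word (fun v => f v) l.length l rfl
  set a' := l'.sum with ha'
  have hsum : ∀ t : List (Fin n → ℤ), (t.map fun v => f v).sum = f t.sum := by
    intro t
    rw [map_list_sum]
  rw [hsum, hsum, hl] at h3
  have hfa' : f (a' + Pi.single i0 1) = 0 := by
    rw [map_add, h3, ← map_add]
    exact hfa
  obtain ⟨q, hq⟩ : ∃ q, A.mulVec q = W.mulVec (a' + Pi.single i0 1) := by
    have h4 : N.mkQ (W.mulVec (a' + Pi.single i0 1)) = 0 := hfa'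
    rw [Submodule.mkQ_apply, Submodule.Quotient.mk_eq_zero] at h4
    obtain ⟨q, hq⟩ := h4
    exact ⟨q, hq⟩
  have hbad : ∀ j, ((∃ r, J r = j) ∨ j = i0) → a' j = 0 := by
    intro j hj
    apply sum_zero_list
    intro v hv
    exact (hlv v (h2 v hv)).2 j (if_pos hj)
  have hS : ∑ j, |a' j| ≤ |A.det| - 1 := by
    have h4 := sum_abs_list l' fun v hv => (hlv v (h2 v hv)).1
    rw [hcard] at h1
    have h5 : (l'.length : ℤ) < |A.det| := by
      rw [Int.abs_eq_natAbs]
      exact_mod_cast h1
    linarith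
  have hD1 : 1 ≤ |A.det| := Int.one_le_abs hdet
  have hDm : |A.det| ≤ 2 ^ m := det_le_two_pow W hrow J
  have hmn : (2 : ℤ) ^ m ≤ 2 ^ (n - 1) := pow_le_pow_right₀ (by norm_num) hm
  have hqb : ∀ r, |q r| ≤ 2 ^ (n - 1) := by
    intro r
    have h4 := cram W J q (a' + Pi.single i0 1) hq r
    let d : Fin n → ℤ := fun j => (W.submatrix id (Function.update J r j)).det
    have h5 : A.det * q r = ∑ j, a' j * d j + d i0 := by
      rw [h4]
      have : ∀ j, (a' + Pi.single i0 1 : Fin n → ℤ) j * (W.submatrix id (Function.update J r j)).det =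
          a' j * d j + (Pi.single i0 1 : Fin n → ℤ) j * d j := by
        intro j
        rw [Pi.add_apply, add_mul]
      rw [Finset.sum_congr rfl fun j _ => this j, Finset.sum_add_distrib]
      congr 1
      rw [Finset.sum_eq_single i0]
      · simp
      · intro j _ hj
        rw [Pi.single_eq_of_ne hj, zero_mul]
      · simp
    have h6 : |∑ j, a' j * d j| ≤ (|A.det| - 1) * |A.det| := by
      calc |∑ j, a' j * d j| ≤ ∑ j, |a' j * d j| := Finset.abs_sum_le_sum_abs _ _
        _ ≤ ∑ j, |a' j| * |A.det| := by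
            refine Finset.sum_le_sum fun j _ => ?_
            rw [abs_mul]
            by_cases hj : j = i0
            · rw [hbad j (Or.inr hj)]
              simp
            · refine mul_le_mul_of_nonneg_left ?_ (abs_nonneg _)
              apply hmax'
              intro s
              by_cases hs : s = r
              · subst hs
                simpa using hj
              · simpa [Function.update_of_ne hs] using hJ0 s
        _ = (∑ j, |a' j|) * |A.det| := by rw [Finset.sum_mul]
        _ ≤ (|A.det| - 1) * |A.det| := mul_le_mul_of_nonneg_right hS (abs_nonneg _)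
    have h7 : |d i0| ≤ 2 ^ m := det_le_two_pow W hrow _
    have h8 : |A.det| * |q r| ≤ (|A.det| - 1) * |A.det| + 2 ^ m := by
      rw [← abs_mul, h5]
      exact (abs_add_le _ _).trans (add_le_add h6 h7)
    by_contra hcon
    push Not at hcon
    have h9 : (2 : ℤ) ^ (n - 1) + 1 ≤ |q r| := hcon
    nlinarith [mul_le_mul_of_nonneg_left h9 (abs_nonneg A.det),
      mul_le_mul_of_nonneg_left (hDm.trans hmn) (sub_nonneg.mpr hD1)]
  let y : Fin n → ℤ := a' + Pi.single i0 1 - ∑ r, q r • Pi.single (J r) 1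
  have hyW : W.mulVec y = 0 := by
    show W.mulVec (a' + Pi.single i0 1 - ∑ r, q r • Pi.single (J r) 1) = 0
    rw [Matrix.mulVec_sub, ← hq, Matrix.mulVec_sum, sub_eq_zero]
    have h4 : ∀ r, W.mulVec (q r • Pi.single (J r) 1) = q r • A.mulVec (Pi.single r 1) := by
      intro r
      rw [Matrix.mulVec_smul, hcolJ]
    rw [Finset.sum_congr rfl fun r _ => h4 r]
    funext s
    simp [Matrix.mulVec, dotProduct, Finset.sum_apply, Pi.single_apply, mul_comm]
  have hyJ : ∀ r, y (J r) = - q r := by
    intro r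
    have h1 : (Pi.single i0 1 : Fin n → ℤ) (J r) = 0 := Pi.single_eq_of_ne (hJ0 r) _
    have h2 : (∑ s, q s • Pi.single (J s) 1 : Fin n → ℤ) (J r) = q r := by
      rw [Finset.sum_apply, Finset.sum_eq_single r]
      · simp
      · intro s _ hs
        have : J r ≠ J s := fun h => hs (hJ h).symm
        simp [Pi.single_eq_of_ne this]
      · simp
    show a' (J r) + (Pi.single i0 1 : Fin n → ℤ) (J r) -
      (∑ s, q s • Pi.single (J s) 1 : Fin n → ℤ) (J r) = _
    rw [h1, h2, hbad _ (Or.inl ⟨r, rfl⟩)]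
    ring
  have hyn : ∀ j, (∀ r, J r ≠ j) → y j = a' j + (Pi.single i0 1 : Fin n → ℤ) j := by
    intro j hj
    have h2 : (∑ s, q s • Pi.single (J s) 1 : Fin n → ℤ) j = 0 := by
      rw [Finset.sum_apply]
      refine Finset.sum_eq_zero fun s _ => ?_
      simp [Pi.single_eq_of_ne (hj s).symm]
    show a' j + (Pi.single i0 1 : Fin n → ℤ) j - (∑ s, q s • Pi.single (J s) 1 : Fin n → ℤ) j = _
    rw [h2, sub_zero]
  have hy0 : y i0 = 1 := by rw [hyn i0 hJ0, hbad i0 (Or.inr rfl)]; simp
  obtain ⟨h4, h5⟩ := rel (fun i => (x i : ℂ)) i0 (by simp [hi0]) W hrel (fun j => (y j : ℚ))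
    (by simp [hy0]) (fun r => by
      have := congrFun hyW r
      simp only [Matrix.mulVec, dotProduct, Pi.zero_apply] at this
      exact_mod_cast this)
  refine ⟨y, fun j => ?_, fun i hi => ?_, fun i j k h => ?_⟩
  · by_cases hj : ∃ r, J r = j
    · obtain ⟨r, rfl⟩ := hj
      rw [hyJ, abs_neg]
      exact hqb r
    · push Not at hj
      rw [hyn j hj]
      by_cases h : j = i0
      · subst h
        rw [hbad j (Or.inr rfl)]
        simp only [Pi.single_eq_same, zero_add, abs_one]
        exact one_le_pow₀ (by norm_num)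
      · rw [Pi.single_eq_of_ne h, add_zero]
        have h6 : |a' j| ≤ ∑ j, |a' j| :=
          Finset.single_le_sum (f := fun j => |a' j|) (fun j _ => abs_nonneg _) (Finset.mem_univ j)
        linarith
  · have := h4 i (by simp [hi])
    exact_mod_cast this
  · have := h5 i j k (by rw [← h]; push_cast; ring)
    exact_mod_cast this

end Run7.h204.Tysz
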