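import Mathlib

/-!
# The v-number and the depth of a squarefree monomial ideal: definitions
-/

open MvPolynomial

namespace Run7.h204.Vn

/-- `I` is a squarefree monomial ideal: a proper ideal generated by squarefree monomials
`∏_{i ∈ s} x_i`. -/
def IsSquarefreeMonomialIdeal {σ K : Type} [Field K] (I : Ideal (MvPolynomial σ K)) : Prop :=
  I ≠ ⊤ ∧ ∃ F : Set (Finset σ),
    I = Ideal.span ((fun s : Finset σ => ∏ i ∈ s, (X i : MvPolynomial σ K)) '' F)

/-- The v-number of `I`: the least `d` such that there are a homogeneous `f` of degree `d` and an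
associated prime `p` of `R/I` with `(I : f) = p`. -/
noncomputable def vNumber {σ K : Type} [Field K] (I : Ideal (MvPolynomial σ K)) : ℕ∞ :=
  sInf {d : ℕ∞ | ∃ (k : ℕ) (f : MvPolynomial σ K) (p : Ideal (MvPolynomial σ K)), d = k ∧
    f.IsHomogeneous k ∧ p ∈ associatedPrimes (MvPolynomial σ K) (MvPolynomial σ K ⧸ I) ∧
    ∀ g, g ∈ p ↔ g * f ∈ I}

/-- The depth of `R/I` with respect to the homogeneous maximal ideal: the supremum of the lengths
of the `R/I`-regular sequences of elements of that ideal. -/
noncomputable def depthQuot {σ K : Type} [Field K] (I : Ideal (MvPolynomial σ K)) : ℕ∞ :=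
  sSup {d : ℕ∞ | ∃ rs : List (MvPolynomial σ K), d = rs.length ∧
    (∀ r ∈ rs, r ∈ Ideal.span (Set.range (X : σ → MvPolynomial σ K))) ∧
    RingTheory.Sequence.IsRegular (MvPolynomial σ K ⧸ I) rs}

end Run7.h204.Vn
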