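import Pool.Agent.Run7.h204.VnDefs

open MvPolynomial

namespace Run7.h204.Vn

section general

variable {σ K : Type} [Field K]

lemma mem_span_prod_iff (F : Set (Finset σ)) (g : MvPolynomial σ K) :
    g ∈ Ideal.span ((fun s : Finset σ => ∏ i ∈ s, (X i : MvPolynomial σ K)) '' F) ↔
      ∀ m ∈ g.support, ∃ s ∈ F, ∀ i ∈ s, m i ≠ 0 := by
  classical
  have h1 : (fun s : Finset σ => ∏ i ∈ s, (X i : MvPolynomial σ K)) '' F =
      (fun s : σ →₀ ℕ => monomial s (1 : K)) ''
        ((fun s : Finset σ => ∑ i ∈ s, Finsupp.single i 1) '' F) := by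
    rw [Set.image_image]
    apply Set.image_congr
    intro s _
    rw [monomial_sum_one]
    rfl
  rw [h1, mem_ideal_span_monomial_image]
  constructor
  · intro h m hm
    obtain ⟨_, ⟨s, hs, rfl⟩, hle⟩ := h m hm
    refine ⟨s, hs, fun i hi => ?_⟩
    have h2 := hle i
    simp only at h2
    rw [Finsupp.finset_sum_apply] at h2
    have h3 : ∑ j ∈ s, (Finsupp.single j 1 : σ →₀ ℕ) i = 1 := by
      rw [Finset.sum_eq_single i]
      · simp
      · intro j _ hji
        simp [hji]
      · intro h; exact absurd hi h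
    omega
  · intro h m hm
    obtain ⟨s, hs, hle⟩ := h m hm
    refine ⟨_, ⟨s, hs, rfl⟩, fun i => ?_⟩
    simp only
    rw [Finsupp.finset_sum_apply]
    by_cases hi : i ∈ s
    · have h3 : ∑ j ∈ s, (Finsupp.single j 1 : σ →₀ ℕ) i = 1 := by
        rw [Finset.sum_eq_single i]
        · simp
        · intro j _ hji
          simp [hji]
        · intro h; exact absurd hi h
      have := hle i hi
      omega
    · have h3 : ∑ j ∈ s, (Finsupp.single j 1 : σ →₀ ℕ) i = 0 := by
        apply Finset.sum_eq_zero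
        intro j hj
        have : j ≠ i := by rintro rfl; exact hi hj
        simp [this]
      omega

/-- the homomorphism that sends the variables in `U` to `0` -/
noncomputable def kill (U : Set σ) [DecidablePred (· ∈ U)] : MvPolynomial σ K →+* MvPolynomial σ K :=
  eval₂Hom C (fun i => if i ∈ U then 0 else X i)

lemma sub_kill_mem (U : Set σ) [DecidablePred (· ∈ U)] (f : MvPolynomial σ K) :
    f - kill U f ∈ Ideal.span (X '' U : Set (MvPolynomial σ K)) := by
  have h : (Ideal.Quotient.mk (Ideal.span (X '' U : Set (MvPolynomial σ K)))) =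
      (Ideal.Quotient.mk (Ideal.span (X '' U : Set (MvPolynomial σ K)))).comp (kill U) := by
    apply MvPolynomial.ringHom_ext
    · intro r
      simp [kill]
    · intro i
      by_cases hi : i ∈ U
      · have h1 : (X i : MvPolynomial σ K) ∈ Ideal.span (X '' U : Set (MvPolynomial σ K)) :=
          Ideal.subset_span ⟨i, hi, rfl⟩
        simp [kill, hi, Ideal.Quotient.eq_zero_iff_mem.mpr h1]
      · simp [kill, hi]
  rw [← Ideal.Quotient.eq_zero_iff_mem, map_sub, sub_eq_zero]
  exact congrArg (fun φ => φ f) h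

lemma ker_kill (U : Set σ) [DecidablePred (· ∈ U)] :
    RingHom.ker (kill (K := K) U) = Ideal.span (X '' U : Set (MvPolynomial σ K)) := by
  apply le_antisymm
  · intro f hf
    have h := sub_kill_mem U f
    rw [RingHom.mem_ker] at hf
    rwa [hf, sub_zero] at h
  · rw [Ideal.span_le]
    rintro _ ⟨i, hi, rfl⟩
    change kill U (X i) = 0
    simp [kill, hi]

lemma isPrime_span_X (U : Set σ) : (Ideal.span (X '' U : Set (MvPolynomial σ K))).IsPrime := by
  classical
  rw [← ker_kill]
  exact RingHom.ker_isPrime _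

lemma mem_assoc {I p : Ideal (MvPolynomial σ K)} (hp : p.IsPrime) {f : MvPolynomial σ K}
    (h : ∀ g, g ∈ p ↔ g * f ∈ I) :
    p ∈ associatedPrimes (MvPolynomial σ K) (MvPolynomial σ K ⧸ I) := by
  refine (Submodule.isAssociatedPrime_def).mpr ⟨hp, Ideal.Quotient.mk I f, ?_⟩
  have h1 : Submodule.colon (⊥ : Submodule (MvPolynomial σ K) (MvPolynomial σ K ⧸ I))
      {Ideal.Quotient.mk I f} = p := by
    ext g
    rw [Submodule.mem_colon_singleton, h, Submodule.mem_bot]
    exact Ideal.Quotient.eq_zero_iff_mem (a := g * f)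
  rw [h1, hp.radical]

end general

variable (K : Type) [Field K] (k : ℕ)

/-- the index set of the variables `x_0, ..., x_k, y_0, ..., y_k` -/
abbrev Idx : Type := Fin (k + 1) ⊕ Fin (k + 1)

/-- the generators: `x_0 ⋯ x_k`, `y_0 ⋯ y_k` and all `x_i y_j` -/
def gens : Set (Finset (Idx k)) :=
  {s | s = Finset.univ.map ⟨Sum.inl, Sum.inl_injective⟩ ∨
    s = Finset.univ.map ⟨Sum.inr, Sum.inr_injective⟩ ∨ ∃ i j, s = {Sum.inl i, Sum.inr j}}

/-- the ideal -/
noncomputable def ideal : Ideal (MvPolynomial (Idx k) K) :=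
  Ideal.span ((fun s : Finset (Idx k) => ∏ i ∈ s, (X i : MvPolynomial (Idx k) K)) '' gens k)

/-- the exponents of the monomials of the ideal -/
def Bad (m : Idx k →₀ ℕ) : Prop :=
  (∀ i, m (Sum.inl i) ≠ 0) ∨ (∀ i, m (Sum.inr i) ≠ 0) ∨
    ∃ i j, m (Sum.inl i) ≠ 0 ∧ m (Sum.inr j) ≠ 0

lemma mem_ideal_iff (g : MvPolynomial (Idx k) K) :
    g ∈ ideal K k ↔ ∀ m ∈ g.support, Bad k m := by
  unfold ideal
  rw [mem_span_prod_iff]
  refine forall₂_congr fun m _ => ?_
  constructor
  · rintro ⟨s, hs | hs | ⟨i, j, hs⟩, h⟩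
    · left
      intro i
      exact h _ (by rw [hs]; simp)
    · right; left
      intro i
      exact h _ (by rw [hs]; simp)
    · right; right
      exact ⟨i, j, h _ (by rw [hs]; simp), h _ (by rw [hs]; simp)⟩
  · rintro (h | h | ⟨i, j, h1, h2⟩)
    · refine ⟨_, Or.inl rfl, ?_⟩
      intro i hi
      simp only [Finset.mem_map, Finset.mem_univ, Function.Embedding.coeFn_mk, true_and] at hi
      obtain ⟨a, rfl⟩ := hi
      exact h a
    · refine ⟨_, Or.inr (Or.inl rfl), ?_⟩
      intro i hi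
      simp only [Finset.mem_map, Finset.mem_univ, Function.Embedding.coeFn_mk, true_and] at hi
      obtain ⟨a, rfl⟩ := hi
      exact h a
    · refine ⟨_, Or.inr (Or.inr ⟨i, j, rfl⟩), ?_⟩
      intro a ha
      rcases Finset.mem_insert.mp ha with rfl | ha
      · exact h1
      · rw [Finset.mem_singleton.mp ha]; exact h2

variable {K k}

lemma mixed_mem (i j : Fin (k + 1)) :
    (X (Sum.inl i) * X (Sum.inr j) : MvPolynomial (Idx k) K) ∈ ideal K k := by
  apply Ideal.subset_span
  refine ⟨{Sum.inl i, Sum.inr j}, Or.inr (Or.inr ⟨i, j, rfl⟩), ?_⟩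
  simp

lemma card_le_degree_inl (m : Idx k →₀ ℕ) (h : ∀ i, m (Sum.inl i) ≠ 0) : k + 1 ≤ m.degree := by
  rw [Finsupp.degree_eq_sum, Fintype.sum_sum_type]
  have h1 : ∑ _i : Fin (k + 1), 1 ≤ ∑ i : Fin (k + 1), m (Sum.inl i) :=
    Finset.sum_le_sum (fun i _ => Nat.one_le_iff_ne_zero.mpr (h i))
  simp at h1
  omega

lemma card_le_degree_inr (m : Idx k →₀ ℕ) (h : ∀ i, m (Sum.inr i) ≠ 0) : k + 1 ≤ m.degree := by
  rw [Finsupp.degree_eq_sum, Fintype.sum_sum_type]
  have h1 : ∑ _i : Fin (k + 1), 1 ≤ ∑ i : Fin (k + 1), m (Sum.inr i) :=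
    Finset.sum_le_sum (fun i _ => Nat.one_le_iff_ne_zero.mpr (h i))
  simp at h1
  omega

lemma degree_of_hom {σ : Type} {f : MvPolynomial σ K} {d : ℕ} (hf : f.IsHomogeneous d)
    {m : σ →₀ ℕ} (hm : m ∈ f.support) : m.degree = d := by
  have := hf (mem_support_iff.mp hm)
  rw [Finsupp.degree_eq_weight_one]
  exact this

/-- lower bound for the v-number -/
lemma le_of_colon {d : ℕ} {f : MvPolynomial (Idx k) K} (hf : f.IsHomogeneous d)
    {p : Ideal (MvPolynomial (Idx k) K)} (hp : p.IsPrime) (h : ∀ g, g ∈ p ↔ g * f ∈ ideal K k) :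
    k ≤ d := by
  by_contra hcon
  rw [not_le] at hcon
  have hIp : ∀ g, g ∈ ideal K k → g ∈ p := fun g hg => (h g).mpr (Ideal.mul_mem_right _ _ hg)
  -- some `x_a` is in `p`
  have hx : ∃ a, (X (Sum.inl a) : MvPolynomial (Idx k) K) ∈ p := by
    have h1 : (∏ i ∈ (Finset.univ.map ⟨Sum.inl, Sum.inl_injective⟩ : Finset (Idx k)),
        (X i : MvPolynomial (Idx k) K)) ∈ p :=
      hIp _ (Ideal.subset_span ⟨_, Or.inl rfl, rfl⟩)
    obtain ⟨i, hi, hip⟩ := (hp.prod_mem_iff).mp h1
    simp only [Finset.mem_map, Finset.mem_univ, Function.Embedding.coeFn_mk, true_and] at hi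
    obtain ⟨a, rfl⟩ := hi
    exact ⟨a, hip⟩
  have hy : ∃ a, (X (Sum.inr a) : MvPolynomial (Idx k) K) ∈ p := by
    have h1 : (∏ i ∈ (Finset.univ.map ⟨Sum.inr, Sum.inr_injective⟩ : Finset (Idx k)),
        (X i : MvPolynomial (Idx k) K)) ∈ p :=
      hIp _ (Ideal.subset_span ⟨_, Or.inr (Or.inl rfl), rfl⟩)
    obtain ⟨i, hi, hip⟩ := (hp.prod_mem_iff).mp h1
    simp only [Finset.mem_map, Finset.mem_univ, Function.Embedding.coeFn_mk, true_and] at hi
    obtain ⟨a, rfl⟩ := hi
    exact ⟨a, hip⟩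
  obtain ⟨a, ha⟩ := hx
  obtain ⟨b, hb⟩ := hy
  rw [h] at ha hb
  rw [mem_ideal_iff] at ha hb
  -- hence `f` is in the ideal
  have hfI : f ∈ ideal K k := by
    rw [mem_ideal_iff]
    intro m hm
    have hdeg := degree_of_hom hf hm
    have h1 : Bad k (Finsupp.single (Sum.inl a) 1 + m) := by
      apply ha
      rw [mem_support_iff, coeff_X_mul]
      exact mem_support_iff.mp hm
    have h2 : Bad k (Finsupp.single (Sum.inr b) 1 + m) := by
      apply hb
      rw [mem_support_iff, coeff_X_mul]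
      exact mem_support_iff.mp hm
    have hd1 : (Finsupp.single (Sum.inl a) 1 + m : Idx k →₀ ℕ).degree = 1 + d := by
      rw [map_add, Finsupp.degree_single, hdeg]
    have hd2 : (Finsupp.single (Sum.inr b) 1 + m : Idx k →₀ ℕ).degree = 1 + d := by
      rw [map_add, Finsupp.degree_single, hdeg]
    -- `m` involves some `y`
    have hyy : ∃ j, m (Sum.inr j) ≠ 0 := by
      rcases h1 with h1 | h1 | ⟨i, j, _, h1⟩
      · have := card_le_degree_inl _ h1
        omega
      · have := card_le_degree_inr _ h1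
        omega
      · refine ⟨j, ?_⟩
        simpa using h1
    have hxx : ∃ i, m (Sum.inl i) ≠ 0 := by
      rcases h2 with h2 | h2 | ⟨i, j, h2, _⟩
      · have := card_le_degree_inl _ h2
        omega
      · have := card_le_degree_inr _ h2
        omega
      · refine ⟨i, ?_⟩
        simpa using h2
    obtain ⟨j, hj⟩ := hyy
    obtain ⟨i, hi⟩ := hxx
    exact Or.inr (Or.inr ⟨i, j, hi, hj⟩)
  have h1p : (1 : MvPolynomial (Idx k) K) ∈ p := (h 1).mpr (by rwa [one_mul])
  exact hp.ne_top ((Ideal.eq_top_iff_one _).mpr h1p)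

/-- the set of variables of the facet prime of `{x_0, ..., x_{k-1}}` -/
def facetL (a : Fin (k + 1)) : Set (Idx k) := {v | v = Sum.inl a ∨ ∃ j, v = Sum.inr j}

def facetR (a : Fin (k + 1)) : Set (Idx k) := {v | v = Sum.inr a ∨ ∃ j, v = Sum.inl j}

lemma colon_eq (g : MvPolynomial (Idx k) K) :
    g ∈ Ideal.span (X '' facetL (Fin.last k) : Set (MvPolynomial (Idx k) K)) ↔
      g * (∏ i : Fin k, X (Sum.inl i.castSucc)) ∈ ideal K k := by
  classical
  set e : Idx k →₀ ℕ := ∑ i : Fin k, Finsupp.single (Sum.inl i.castSucc) 1 with he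
  have hprod : (∏ i : Fin k, (X (Sum.inl i.castSucc) : MvPolynomial (Idx k) K))
      = monomial e 1 := by
    rw [he, monomial_sum_one]
    rfl
  have he1 : ∀ i : Fin k, e (Sum.inl i.castSucc) ≠ 0 := by
    intro i
    rw [he, Finsupp.finset_sum_apply]
    have : (Finsupp.single (Sum.inl i.castSucc) 1 : Idx k →₀ ℕ) (Sum.inl i.castSucc)
        ≤ ∑ j : Fin k, (Finsupp.single (Sum.inl j.castSucc) 1 : Idx k →₀ ℕ) (Sum.inl i.castSucc) :=
      Finset.single_le_sum (f := fun j : Fin k =>
        (Finsupp.single (Sum.inl j.castSucc) 1 : Idx k →₀ ℕ) (Sum.inl i.castSucc))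
        (fun _ _ => Nat.zero_le _) (Finset.mem_univ i)
    rw [Finsupp.single_eq_same] at this
    omega
  have he2 : e (Sum.inl (Fin.last k)) = 0 := by
    rw [he, Finsupp.finset_sum_apply]
    apply Finset.sum_eq_zero
    intro j _
    have : (Sum.inl j.castSucc : Idx k) ≠ Sum.inl (Fin.last k) := by
      intro h
      exact (Fin.castSucc_lt_last j).ne (Sum.inl_injective h)
    simp [this]
  have he3 : ∀ j, e (Sum.inr j) = 0 := by
    intro j
    rw [he, Finsupp.finset_sum_apply]
    apply Finset.sum_eq_zero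
    intro i _
    simp
  rw [hprod, mem_ideal_span_X_image, mem_ideal_iff]
  constructor
  · intro h m hm
    rw [mem_support_iff, coeff_mul_monomial'] at hm
    split_ifs at hm with hle
    · rw [mul_one] at hm
      obtain ⟨v, hv, hmv⟩ := h _ (mem_support_iff.mpr hm)
      rcases hv with rfl | ⟨j, rfl⟩
      · left
        intro i
        refine Fin.lastCases ?_ (fun i => ?_) i
        · rw [Finsupp.tsub_apply, he2] at hmv
          simpa using hmv
        · have h1 := hle (Sum.inl i.castSucc)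
          have h2 := he1 i
          omega
      · by_cases hk : k = 0
        · subst hk
          right; left
          intro i
          have : i = j := Fin.ext (by omega)
          subst this
          rw [Finsupp.tsub_apply, he3] at hmv
          simpa using hmv
        · right; right
          refine ⟨(⟨0, Nat.pos_of_ne_zero hk⟩ : Fin k).castSucc, j, ?_, ?_⟩
          · have h1 := hle (Sum.inl (⟨0, Nat.pos_of_ne_zero hk⟩ : Fin k).castSucc)
            have h2 := he1 ⟨0, Nat.pos_of_ne_zero hk⟩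
            omega
          · rw [Finsupp.tsub_apply, he3] at hmv
            simpa using hmv
    · exact absurd rfl hm
  · intro h m hm
    have h1 := h (m + e) (by
      rw [mem_support_iff, coeff_mul_monomial, mul_one]
      exact mem_support_iff.mp hm)
    rcases h1 with h1 | h1 | ⟨i, j, h1, h2⟩
    · refine ⟨Sum.inl (Fin.last k), Or.inl rfl, ?_⟩
      have := h1 (Fin.last k)
      rw [Finsupp.add_apply, he2] at this
      simpa using this
    · refine ⟨Sum.inr 0, Or.inr ⟨0, rfl⟩, ?_⟩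
      have := h1 0
      rw [Finsupp.add_apply, he3] at this
      simpa using this
    · refine ⟨Sum.inr j, Or.inr ⟨j, rfl⟩, ?_⟩
      rw [Finsupp.add_apply, he3] at h2
      simpa using h2

theorem vNumber_eq : vNumber (ideal K k) = k := by
  apply le_antisymm
  · apply sInf_le
    refine ⟨k, ∏ i : Fin k, X (Sum.inl i.castSucc),
      Ideal.span (X '' facetL (Fin.last k) : Set (MvPolynomial (Idx k) K)), rfl, ?_,
      mem_assoc (isPrime_span_X _) colon_eq, colon_eq⟩
    have := MvPolynomial.IsHomogeneous.prod (Finset.univ : Finset (Fin k))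
      (fun i => (X (Sum.inl i.castSucc) : MvPolynomial (Idx k) K)) (fun _ => 1)
      (fun i _ => isHomogeneous_X K _)
    simpa using this
  · apply le_sInf
    rintro _ ⟨d, f, p, rfl, hf, hp, h⟩
    have := le_of_colon hf hp.1 h
    exact_mod_cast this


/-! ## Depth -/

lemma smul_mk_eq_zero_iff {σ : Type} {I : Ideal (MvPolynomial σ K)} (g h : MvPolynomial σ K) :
    g • (Ideal.Quotient.mk I h) = 0 ↔ g * h ∈ I :=
  Ideal.Quotient.eq_zero_iff_mem (a := g * h)

lemma regular_iff {σ : Type} {I : Ideal (MvPolynomial σ K)} (f : MvPolynomial σ K) :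
    IsSMulRegular (MvPolynomial σ K ⧸ I) f ↔ ∀ h, f * h ∈ I → h ∈ I := by
  rw [isSMulRegular_iff_right_eq_zero_of_smul]
  constructor
  · intro H h hh
    rw [← Ideal.Quotient.eq_zero_iff_mem]
    exact H _ ((smul_mk_eq_zero_iff f h).mpr hh)
  · intro H x hx
    obtain ⟨h, rfl⟩ := Ideal.Quotient.mk_surjective x
    exact Ideal.Quotient.eq_zero_iff_mem.mpr (H h ((smul_mk_eq_zero_iff f h).mp hx))

/-- the two sets of variables -/
def setL : Set (Idx k) := Set.range Sum.inl
def setR : Set (Idx k) := Set.range Sum.inr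

lemma mul_mem_of_LR {a b : MvPolynomial (Idx k) K}
    (ha : a ∈ Ideal.span (X '' (setL : Set (Idx k)) : Set (MvPolynomial (Idx k) K)))
    (hb : b ∈ Ideal.span (X '' (setR : Set (Idx k)) : Set (MvPolynomial (Idx k) K))) :
    a * b ∈ ideal K k := by
  have h1 : Ideal.span (X '' (setL : Set (Idx k)) : Set (MvPolynomial (Idx k) K)) *
      Ideal.span (X '' (setR : Set (Idx k)) : Set (MvPolynomial (Idx k) K)) ≤ ideal K k := by
    rw [Ideal.span_mul_span', Ideal.span_le]
    rintro _ ⟨_, ⟨_, ⟨i, rfl⟩, rfl⟩, _, ⟨_, ⟨j, rfl⟩, rfl⟩, rfl⟩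
    exact mixed_mem i j
  exact h1 (Ideal.mul_mem_mul ha hb)

lemma coeff_single_one_mul_X {σ : Type} (v : σ) (s : MvPolynomial σ K) :
    coeff (Finsupp.single v 1) (s * X v) = constantCoeff s := by
  have := coeff_mul_X (0 : σ →₀ ℕ) v s
  rw [zero_add] at this
  rw [this]
  rfl

lemma not_bad_inl (hk : 1 ≤ k) : ¬ Bad k (Finsupp.single (Sum.inl 0) 1) := by
  rintro (h | h | ⟨i, j, _, h⟩)
  · have := h (Fin.last k)
    rw [Finsupp.single_apply, if_neg] at this
    · exact this rfl
    · intro h0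
      have := Sum.inl_injective h0
      have := congrArg Fin.val this
      simp at this
      omega
  · have := h 0
    simp at this
  · simp at h

lemma not_bad_inr (hk : 1 ≤ k) : ¬ Bad k (Finsupp.single (Sum.inr 0) 1) := by
  rintro (h | h | ⟨i, j, h, _⟩)
  · have := h 0
    simp at this
  · have := h (Fin.last k)
    rw [Finsupp.single_apply, if_neg] at this
    · exact this rfl
    · intro h0
      have := Sum.inr_injective h0
      have := congrArg Fin.val this
      simp at this
      omega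
  · simp at h

lemma mul_X_mem_inl (hk : 1 ≤ k) {s : MvPolynomial (Idx k) K}
    (h : s * X (Sum.inl 0) ∈ ideal K k) : constantCoeff s = 0 := by
  by_contra hne
  rw [mem_ideal_iff] at h
  refine not_bad_inl hk (h _ ?_)
  rw [mem_support_iff, coeff_single_one_mul_X]
  exact hne

lemma mul_X_mem_inr (hk : 1 ≤ k) {s : MvPolynomial (Idx k) K}
    (h : s * X (Sum.inr 0) ∈ ideal K k) : constantCoeff s = 0 := by
  by_contra hne
  rw [mem_ideal_iff] at h
  refine not_bad_inr hk (h _ ?_)
  rw [mem_support_iff, coeff_single_one_mul_X]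
  exact hne

lemma kill_mem_L {f : MvPolynomial (Idx k) K} [DecidablePred (· ∈ (setR : Set (Idx k)))]
    (hf : f ∈ Ideal.span (Set.range (X : Idx k → MvPolynomial (Idx k) K))) :
    kill setR f ∈ Ideal.span (X '' (setL : Set (Idx k)) : Set (MvPolynomial (Idx k) K)) := by
  have h1 : Ideal.span (Set.range (X : Idx k → MvPolynomial (Idx k) K)) ≤
      (Ideal.span (X '' (setL : Set (Idx k)) : Set (MvPolynomial (Idx k) K))).comap
        (kill setR) := by
    rw [Ideal.span_le]
    rintro _ ⟨v, rfl⟩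
    change kill setR (X v : MvPolynomial (Idx k) K) ∈
      Ideal.span (X '' (setL : Set (Idx k)) : Set (MvPolynomial (Idx k) K))
    rcases v with i | j
    · have h2 : (Sum.inl i : Idx k) ∉ (setR : Set (Idx k)) := by
        rintro ⟨j, hj⟩
        simp at hj
      have h3 : kill setR (X (Sum.inl i) : MvPolynomial (Idx k) K) = X (Sum.inl i) := by
        simp [kill, h2]
      rw [h3]
      exact Ideal.subset_span ⟨_, ⟨i, rfl⟩, rfl⟩
    · have h2 : (Sum.inr j : Idx k) ∈ (setR : Set (Idx k)) := ⟨j, rfl⟩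
      have h3 : kill setR (X (Sum.inr j) : MvPolynomial (Idx k) K) = 0 := by
        simp [kill, h2]
      rw [h3]
      exact Ideal.zero_mem _
  exact h1 hf

/-- no regular sequence of length two -/
lemma no_two (hk : 1 ≤ k) {f g : MvPolynomial (Idx k) K}
    (hf : f ∈ Ideal.span (Set.range (X : Idx k → MvPolynomial (Idx k) K)))
    (hg : g ∈ Ideal.span (Set.range (X : Idx k → MvPolynomial (Idx k) K)))
    (hreg : ∀ h, f * h ∈ ideal K k → h ∈ ideal K k)
    (hreg2 : ∀ h, (∃ t, g * h - f * t ∈ ideal K k) → ∃ t, h - f * t ∈ ideal K k) : False := by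
  classical
  set h := kill setR f with hh
  have hL := kill_mem_L hf
  have hR := sub_kill_mem (setR : Set (Idx k)) f
  rw [← hh] at hL hR
  -- `m * h ⊆ (f) + I`
  have h1 : Ideal.span (Set.range (X : Idx k → MvPolynomial (Idx k) K)) ≤
      (Ideal.span {f} ⊔ ideal K k).colon ({h} : Set (MvPolynomial (Idx k) K)) := by
    rw [Ideal.span_le]
    rintro _ ⟨v, rfl⟩
    rw [SetLike.mem_coe, Submodule.mem_colon_singleton, smul_eq_mul]
    rcases v with i | j
    · have h2 : (X (Sum.inl i) : MvPolynomial (Idx k) K) * (f - h) ∈ ideal K k :=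
        mul_mem_of_LR (Ideal.subset_span ⟨_, ⟨i, rfl⟩, rfl⟩) hR
      have h3 : (X (Sum.inl i) : MvPolynomial (Idx k) K) * h
          = X (Sum.inl i) * f - X (Sum.inl i) * (f - h) := by ring
      rw [h3]
      exact Ideal.sub_mem _ (Ideal.mem_sup_left (Ideal.mul_mem_left _ _
        (Ideal.mem_span_singleton_self f))) (Ideal.mem_sup_right h2)
    · have h2 : h * (X (Sum.inr j) : MvPolynomial (Idx k) K) ∈ ideal K k :=
        mul_mem_of_LR hL (Ideal.subset_span ⟨_, ⟨j, rfl⟩, rfl⟩)
      rw [mul_comm]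
      exact Ideal.mem_sup_right h2
  have h2 : ∃ t, g * h - f * t ∈ ideal K k := by
    have h3 := h1 hg
    rw [Submodule.mem_colon_singleton, smul_eq_mul, Submodule.mem_sup] at h3
    obtain ⟨a, ha, b, hb, hab⟩ := h3
    obtain ⟨t, rfl⟩ := Ideal.mem_span_singleton'.mp ha
    refine ⟨t, ?_⟩
    have : g * h - f * t = b := by rw [← hab]; ring
    rw [this]
    exact hb
  obtain ⟨s, hs⟩ := hreg2 h h2
  -- multiply by `y_0`
  have h3 : s * X (Sum.inr 0) ∈ ideal K k := by
    apply hreg
    have h4 : h * (X (Sum.inr 0) : MvPolynomial (Idx k) K) ∈ ideal K k :=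
      mul_mem_of_LR hL (Ideal.subset_span ⟨_, ⟨0, rfl⟩, rfl⟩)
    have h5 : f * (s * X (Sum.inr 0)) = h * X (Sum.inr 0) - (h - f * s) * X (Sum.inr 0) := by ring
    rw [h5]
    exact Ideal.sub_mem _ h4 (Ideal.mul_mem_right _ _ hs)
  have h6 : (s - 1) * X (Sum.inl 0) ∈ ideal K k := by
    apply hreg
    have h4 : (X (Sum.inl 0) : MvPolynomial (Idx k) K) * (f - h) ∈ ideal K k :=
      mul_mem_of_LR (Ideal.subset_span ⟨_, ⟨0, rfl⟩, rfl⟩) hR
    have h5 : f * ((s - 1) * X (Sum.inl 0))
        = -((h - f * s) * X (Sum.inl 0)) - X (Sum.inl 0) * (f - h) := by ring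
    rw [h5]
    exact Ideal.sub_mem _ (neg_mem (Ideal.mul_mem_right _ _ hs)) h4
  have h7 := mul_X_mem_inr hk h3
  have h8 := mul_X_mem_inl hk h6
  rw [map_sub, h7, map_one] at h8
  norm_num at h8

lemma ideal_le_m (hk : 1 ≤ k) :
    ideal K k ≤ Ideal.span (Set.range (X : Idx k → MvPolynomial (Idx k) K)) := by
  unfold ideal
  rw [Ideal.span_le]
  rintro _ ⟨s, hs, rfl⟩
  have : s.Nonempty := by
    rcases hs with rfl | rfl | ⟨i, j, rfl⟩ <;> simp
  obtain ⟨v, hv⟩ := this
  exact Ideal.mem_of_dvd _ (Finset.dvd_prod_of_mem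
    (fun i => (X i : MvPolynomial (Idx k) K)) hv) (Ideal.subset_span ⟨v, rfl⟩)

lemma one_notMem_m : (1 : MvPolynomial (Idx k) K) ∉
    Ideal.span (Set.range (X : Idx k → MvPolynomial (Idx k) K)) := by
  intro h
  have h1 : Ideal.span (Set.range (X : Idx k → MvPolynomial (Idx k) K)) ≤
      RingHom.ker (constantCoeff : MvPolynomial (Idx k) K →+* K) := by
    rw [Ideal.span_le]
    rintro _ ⟨v, rfl⟩
    change constantCoeff (X v) = 0
    simp
  have h2 := h1 h
  rw [RingHom.mem_ker] at h2
  simp at h2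

theorem depth_le (hk : 1 ≤ k) : depthQuot (ideal K k) ≤ 1 := by
  apply sSup_le
  rintro _ ⟨rs, rfl, hm, hreg⟩
  rcases rs with _ | ⟨f, _ | ⟨g, rs⟩⟩
  · simp
  · simp
  · exfalso
    have h1 := hreg.toIsWeaklyRegular
    rw [RingTheory.Sequence.isWeaklyRegular_cons_iff,
      RingTheory.Sequence.isWeaklyRegular_cons_iff] at h1
    obtain ⟨hf, hg, _⟩ := h1
    rw [regular_iff] at hf
    refine no_two hk (hm f (by simp)) (hm g (by simp)) hf ?_
    intro h ⟨t, ht⟩
    rw [isSMulRegular_iff_right_eq_zero_of_smul] at hg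
    have h2 : g • (Submodule.Quotient.mk (Ideal.Quotient.mk (ideal K k) h) :
        QuotSMulTop f (MvPolynomial (Idx k) K ⧸ ideal K k)) = 0 := by
      rw [← Submodule.Quotient.mk_smul, Submodule.Quotient.mk_eq_zero,
        Submodule.mem_smul_pointwise_iff_exists]
      refine ⟨Ideal.Quotient.mk (ideal K k) t, trivial, ?_⟩
      have h3 : Ideal.Quotient.mk (ideal K k) (f * t) = Ideal.Quotient.mk (ideal K k) (g * h) := by
        rw [eq_comm, ← sub_eq_zero, ← map_sub, Ideal.Quotient.eq_zero_iff_mem]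
        exact ht
      exact h3
    have h4 := hg _ h2
    rw [Submodule.Quotient.mk_eq_zero, Submodule.mem_smul_pointwise_iff_exists] at h4
    obtain ⟨x, _, hx⟩ := h4
    obtain ⟨s, rfl⟩ := Ideal.Quotient.mk_surjective x
    refine ⟨s, ?_⟩
    rw [← Ideal.Quotient.eq_zero_iff_mem, map_sub, sub_eq_zero]
    exact hx.symm

/-- the regular element -/
noncomputable def reg (K : Type) [Field K] (k : ℕ) : MvPolynomial (Idx k) K :=
  X (Sum.inl 0) + X (Sum.inl (Fin.last k)) + X (Sum.inr 0) + X (Sum.inr (Fin.last k))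

lemma ideal_iff_facets (h : MvPolynomial (Idx k) K) :
    h ∈ ideal K k ↔ ∀ a, h ∈ Ideal.span (X '' facetL a : Set (MvPolynomial (Idx k) K)) ∧
      h ∈ Ideal.span (X '' facetR a : Set (MvPolynomial (Idx k) K)) := by
  simp only [mem_ideal_iff, mem_ideal_span_X_image]
  constructor
  · intro H a
    constructor
    · intro m hm
      rcases H m hm with h1 | h1 | ⟨i, j, h1, h2⟩
      · exact ⟨_, Or.inl rfl, h1 a⟩
      · exact ⟨Sum.inr a, Or.inr ⟨a, rfl⟩, h1 a⟩
      · exact ⟨Sum.inr j, Or.inr ⟨j, rfl⟩, h2⟩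
    · intro m hm
      rcases H m hm with h1 | h1 | ⟨i, j, h1, h2⟩
      · exact ⟨Sum.inl a, Or.inr ⟨a, rfl⟩, h1 a⟩
      · exact ⟨_, Or.inl rfl, h1 a⟩
      · exact ⟨Sum.inl i, Or.inr ⟨i, rfl⟩, h1⟩
  · intro H m hm
    by_cases h1 : ∃ j, m (Sum.inr j) ≠ 0
    · by_cases h2 : ∃ i, m (Sum.inl i) ≠ 0
      · obtain ⟨j, hj⟩ := h1
        obtain ⟨i, hi⟩ := h2
        exact Or.inr (Or.inr ⟨i, j, hi, hj⟩)
      · right; left
        intro a
        obtain ⟨v, hv, hmv⟩ := (H a).2 m hm
        rcases hv with rfl | ⟨j, rfl⟩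
        · exact hmv
        · exact absurd ⟨j, hmv⟩ h2
    · left
      intro a
      obtain ⟨v, hv, hmv⟩ := (H a).1 m hm
      rcases hv with rfl | ⟨j, rfl⟩
      · exact hmv
      · exact absurd ⟨j, hmv⟩ h1


lemma coeff_reg_ne (hk : 1 ≤ k) (v : Idx k)
    (hv : v = Sum.inl 0 ∨ v = Sum.inl (Fin.last k) ∨ v = Sum.inr 0 ∨ v = Sum.inr (Fin.last k)) :
    coeff (Finsupp.single v 1) (reg K k) = 1 := by
  classical
  have h0 : (0 : Fin (k + 1)) ≠ Fin.last k := by
    intro h
    have := congrArg Fin.val h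
    simp at this
    omega
  have hX : ∀ w : Idx k, coeff (Finsupp.single v 1) (X w : MvPolynomial (Idx k) K)
      = if w = v then 1 else 0 := by
    intro w
    rw [coeff_X']
    by_cases h : w = v
    · subst h; simp
    · rw [if_neg h, if_neg]
      intro h2
      exact h (Finsupp.single_left_injective one_ne_zero h2)
  unfold reg
  simp only [coeff_add, hX]
  rcases hv with rfl | rfl | rfl | rfl <;> simp [h0, h0.symm]

lemma reg_notMem_facetL (hk : 1 ≤ k) (a : Fin (k + 1)) :
    reg K k ∉ Ideal.span (X '' facetL a : Set (MvPolynomial (Idx k) K)) := by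
  intro h
  rw [mem_ideal_span_X_image] at h
  have key : ∀ c : Fin (k + 1), (c = 0 ∨ c = Fin.last k) → c ≠ a → False := by
    intro c hc hca
    obtain ⟨v, hv, hmv⟩ := h (Finsupp.single (Sum.inl c) 1) (by
      rw [mem_support_iff, coeff_reg_ne hk _ (by rcases hc with rfl | rfl <;> simp)]
      exact one_ne_zero)
    rcases hv with rfl | ⟨j, rfl⟩
    · rw [Finsupp.single_apply, if_neg (fun h => hca (Sum.inl_injective h))] at hmv
      exact hmv rfl
    · simp at hmv
  by_cases ha : a = 0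
  · subst ha
    refine key (Fin.last k) (Or.inr rfl) ?_
    intro h
    have := congrArg Fin.val h
    simp at this
    omega
  · exact key 0 (Or.inl rfl) (Ne.symm ha)

lemma reg_notMem_facetR (hk : 1 ≤ k) (a : Fin (k + 1)) :
    reg K k ∉ Ideal.span (X '' facetR a : Set (MvPolynomial (Idx k) K)) := by
  intro h
  rw [mem_ideal_span_X_image] at h
  have key : ∀ c : Fin (k + 1), (c = 0 ∨ c = Fin.last k) → c ≠ a → False := by
    intro c hc hca
    obtain ⟨v, hv, hmv⟩ := h (Finsupp.single (Sum.inr c) 1) (by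
      rw [mem_support_iff, coeff_reg_ne hk _ (by rcases hc with rfl | rfl <;> simp)]
      exact one_ne_zero)
    rcases hv with rfl | ⟨j, rfl⟩
    · rw [Finsupp.single_apply, if_neg (fun h => hca (Sum.inr_injective h))] at hmv
      exact hmv rfl
    · simp at hmv
  by_cases ha : a = 0
  · subst ha
    refine key (Fin.last k) (Or.inr rfl) ?_
    intro h
    have := congrArg Fin.val h
    simp at this
    omega
  · exact key 0 (Or.inl rfl) (Ne.symm ha)

lemma reg_mem_m : reg K k ∈ Ideal.span (Set.range (X : Idx k → MvPolynomial (Idx k) K)) := by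
  unfold reg
  refine Ideal.add_mem _ (Ideal.add_mem _ (Ideal.add_mem _ ?_ ?_) ?_) ?_ <;>
  exact Ideal.subset_span ⟨_, rfl⟩

theorem one_le_depth (hk : 1 ≤ k) : 1 ≤ depthQuot (ideal K k) := by
  apply le_sSup
  refine ⟨[reg K k], by simp, ?_, ?_, ?_⟩
  · intro r hr
    rw [List.mem_singleton] at hr
    subst hr
    exact reg_mem_m
  · rw [RingTheory.Sequence.isWeaklyRegular_singleton_iff, regular_iff]
    intro h hh
    rw [ideal_iff_facets] at hh ⊢
    intro a
    refine ⟨?_, ?_⟩
    · exact ((isPrime_span_X _).mem_or_mem (hh a).1).resolve_left (reg_notMem_facetL hk a)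
    · exact ((isPrime_span_X _).mem_or_mem (hh a).2).resolve_left (reg_notMem_facetR hk a)
  · intro htop
    have h1 : (Ideal.Quotient.mk (ideal K k) 1) ∈
        (Ideal.ofList [reg K k] • ⊤ :
          Submodule (MvPolynomial (Idx k) K) (MvPolynomial (Idx k) K ⧸ ideal K k)) := by
      rw [← htop]; trivial
    rw [Ideal.ofList_singleton, Submodule.ideal_span_singleton_smul,
      Submodule.mem_smul_pointwise_iff_exists] at h1
    obtain ⟨x, _, hx⟩ := h1
    obtain ⟨s, rfl⟩ := Ideal.Quotient.mk_surjective x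
    have h2 : 1 - reg K k * s ∈ ideal K k := by
      rw [← Ideal.Quotient.eq_zero_iff_mem, map_sub, sub_eq_zero]
      exact hx.symm
    have h3 : (1 : MvPolynomial (Idx k) K) = (1 - reg K k * s) + reg K k * s := by ring
    apply one_notMem_m (K := K) (k := k)
    rw [h3]
    exact Ideal.add_mem _ (ideal_le_m hk h2) (Ideal.mul_mem_right _ _ reg_mem_m)

theorem depth_eq (hk : 1 ≤ k) : depthQuot (ideal K k) = 1 :=
  le_antisymm (depth_le hk) (one_le_depth hk)

theorem isSqfree (hk : 1 ≤ k) : IsSquarefreeMonomialIdeal (ideal K k) := by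
  refine ⟨?_, gens k, rfl⟩
  intro h
  apply one_notMem_m (K := K) (k := k)
  apply ideal_le_m hk
  rw [h]
  trivial

end Run7.h204.Vn
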