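import Mathlib

namespace Run7.h204.Wpr

/-- The families of `m` vectors of `ℝⁿ` that are frames. -/
def frames (n m : ℕ) : Set (Fin m → Fin n → ℝ) :=
  {X | ∃ A B : ℝ, 0 < A ∧ A ≤ B ∧ ∀ v : Fin n → ℝ,
    A * (v ⬝ᵥ v) ≤ ∑ i, |v ⬝ᵥ X i| ^ 2 ∧ ∑ i, |v ⬝ᵥ X i| ^ 2 ≤ B * (v ⬝ᵥ v)}

/-- `x` and `y` weakly have the same phase. -/
def WeakSamePhase {n : ℕ} (x y : Fin n → ℝ) : Prop :=
  ∃ θ : ℝ, (θ = 1 ∨ θ = -1) ∧ ∀ k, x k * y k ≠ 0 → Real.sign (x k) = θ * Real.sign (y k)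

/-- The family `X` does weak phase retrieval. -/
def WeakPhaseRetrieval {n m : ℕ} (X : Fin m → Fin n → ℝ) : Prop :=
  ∀ x y : Fin n → ℝ, (∀ i, |x ⬝ᵥ X i| = |y ⬝ᵥ X i|) → WeakSamePhase x y

/-- The frames of `2 n - 2` vectors of `ℝⁿ` that do weak phase retrieval. -/
def W (n : ℕ) : Set (Fin (2 * n - 2) → Fin n → ℝ) :=
  {X | X ∈ frames n (2 * n - 2) ∧ WeakPhaseRetrieval X}

end Run7.h204.Wpr
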