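import Pool.Agent.Run7.h204.WprDefs

namespace Run7.h204.Wpr

open Matrix

/-- the vector of signed maximal minors of `N` vectors of `ℝ^{N+1}` -/
noncomputable def cross {N : ℕ} (R : Fin N → Fin (N + 1) → ℝ) : Fin (N + 1) → ℝ :=
  fun j => (-1) ^ (j : ℕ) * ((Matrix.of R).submatrix id j.succAbove).det

theorem dot_cross {N : ℕ} (R : Fin N → Fin (N + 1) → ℝ) (v : Fin (N + 1) → ℝ) :
    v ⬝ᵥ cross R = (Matrix.of (Fin.cons v R : Fin (N + 1) → Fin (N + 1) → ℝ)).det := by
  rw [Matrix.det_succ_row_zero]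
  unfold cross dotProduct
  refine Finset.sum_congr rfl fun j _ => ?_
  have h : (Matrix.of (Fin.cons v R : Fin (N + 1) → Fin (N + 1) → ℝ)).submatrix Fin.succ
      j.succAbove = (Matrix.of R).submatrix id j.succAbove := by
    ext a b
    simp
  rw [h]
  simp only [Matrix.of_apply, Fin.cons_zero]
  ring

theorem row_dot_cross {N : ℕ} (R : Fin N → Fin (N + 1) → ℝ) (i : Fin N) :
    R i ⬝ᵥ cross R = 0 := by
  rw [dot_cross]
  apply Matrix.det_zero_of_row_eq (i := 0) (j := i.succ) (Fin.succ_ne_zero i).symm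
  ext k
  simp

theorem continuous_cross {N : ℕ} (j : Fin (N + 1)) :
    Continuous fun R : Fin N → Fin (N + 1) → ℝ => cross R j := by
  unfold cross
  apply Continuous.const_mul
  apply Continuous.matrix_det
  exact continuous_id.matrix_submatrix _ _

/-- the unit vectors other than `e_c` -/
noncomputable def units {N : ℕ} (c : Fin (N + 1)) : Fin N → Fin (N + 1) → ℝ :=
  fun i => Pi.single (c.succAbove i) 1

theorem cross_units_self {N : ℕ} (c : Fin (N + 1)) : cross (units c) c ^ 2 = 1 := by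
  have h : (Matrix.of (units c)).submatrix id c.succAbove = 1 := by
    ext a b
    simp only [Matrix.submatrix_apply, Matrix.of_apply, units, id]
    by_cases hab : a = b
    · subst hab; simp
    · rw [Matrix.one_apply_ne hab, Pi.single_eq_of_ne]
      exact fun h => hab (Fin.succAbove_right_injective h).symm
  unfold cross
  rw [h, Matrix.det_one, mul_one, ← pow_mul, mul_comm, pow_mul]
  norm_num

theorem cross_units_ne {N : ℕ} (c c' : Fin (N + 1)) (h : c' ≠ c) : cross (units c) c' = 0 := by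
  obtain ⟨i, hi⟩ := Fin.exists_succAbove_eq h
  unfold cross
  rw [Matrix.det_eq_zero_of_row_eq_zero i, mul_zero]
  intro j
  simp only [Matrix.submatrix_apply, Matrix.of_apply, units, id, hi]
  rw [Pi.single_eq_of_ne]
  exact Fin.succAbove_ne c' j

section
variable {N : ℕ}

/-- the first `N` vectors -/
def fst (X : Fin (2 * (N + 1) - 2) → Fin (N + 1) → ℝ) : Fin N → Fin (N + 1) → ℝ :=
  fun i => X ⟨i, by have := i.2; omega⟩

/-- the last `N` vectors -/
def snd (X : Fin (2 * (N + 1) - 2) → Fin (N + 1) → ℝ) : Fin N → Fin (N + 1) → ℝ :=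
  fun i => X ⟨N + i, by have := i.2; omega⟩

theorem continuous_fst : Continuous (fst (N := N)) := by
  unfold fst; fun_prop

theorem continuous_snd : Continuous (snd (N := N)) := by
  unfold snd; fun_prop

/-- the example -/
noncomputable def ex (c : Fin (N + 1)) : Fin (2 * (N + 1) - 2) → Fin (N + 1) → ℝ :=
  fun i => if h : (i : ℕ) < N then units 0 ⟨i, h⟩
    else units c ⟨i - N, by have := i.2; omega⟩

theorem fst_ex (c : Fin (N + 1)) : fst (ex c) = units 0 := by
  funext i
  unfold fst ex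
  simp

theorem snd_ex (c : Fin (N + 1)) : snd (ex c) = units c := by
  funext i
  unfold snd ex
  simp

theorem ex_single (c : Fin (N + 1)) (i : Fin (2 * (N + 1) - 2)) :
    ∃ k, ex c i = Pi.single k 1 := by
  unfold ex
  split_ifs with h
  · exact ⟨_, rfl⟩
  · exact ⟨_, rfl⟩

theorem single_mem_ex (c : Fin (N + 1)) (hc : c ≠ 0) (k : Fin (N + 1)) :
    ∃ i, ex c i = Pi.single k 1 := by
  by_cases hk : k = 0
  · obtain ⟨j, hj⟩ := Fin.exists_succAbove_eq (x := k) (y := c) (by rw [hk]; exact hc.symm)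
    refine ⟨⟨N + j, by have := j.2; omega⟩, ?_⟩
    have := congrFun (snd_ex c) j
    unfold snd at this
    rw [this]
    unfold units
    rw [hj]
  · obtain ⟨j, hj⟩ := Fin.exists_succAbove_eq (x := k) (y := 0) hk
    refine ⟨⟨j, by have := j.2; omega⟩, ?_⟩
    have := congrFun (fst_ex c) j
    unfold fst at this
    rw [this]
    unfold units
    rw [hj]

theorem ex_frame (c : Fin (N + 1)) (hc : c ≠ 0) : ex c ∈ frames (N + 1) (2 * (N + 1) - 2) := by
  classical
  refine ⟨1, 2 * N + 1, one_pos, by have : (0 : ℝ) ≤ N := Nat.cast_nonneg N; linarith, ?_⟩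
  intro v
  have hv : v ⬝ᵥ v = ∑ k, v k ^ 2 := by
    unfold dotProduct
    exact Finset.sum_congr rfl fun k _ => by ring
  constructor
  · choose idx hidx using single_mem_ex c hc
    have hinj : Function.Injective idx := by
      intro a b hab
      have h1 := hidx a
      rw [hab, hidx b] at h1
      by_contra hne
      have := congrFun h1 a
      rw [Pi.single_eq_same, Pi.single_eq_of_ne hne] at this
      norm_num at this
    have h1 : ∑ k, v k ^ 2 = ∑ k, |v ⬝ᵥ ex c (idx k)| ^ 2 := by
      refine Finset.sum_congr rfl fun k _ => ?_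
      rw [hidx, dotProduct_single, mul_one, sq_abs]
    rw [one_mul, hv, h1, ← Finset.sum_image (s := Finset.univ) (g := idx)
      (f := fun i => |v ⬝ᵥ ex c i| ^ 2) (fun a _ b _ h => hinj h)]
    exact Finset.sum_le_sum_of_subset_of_nonneg (Finset.subset_univ _) fun i _ _ => by positivity
  · have h1 : ∀ i, |v ⬝ᵥ ex c i| ^ 2 ≤ v ⬝ᵥ v := by
      intro i
      obtain ⟨k, hk⟩ := ex_single c i
      rw [hk, dotProduct_single, mul_one, sq_abs, hv]
      exact Finset.single_le_sum (f := fun k => v k ^ 2) (fun k _ => sq_nonneg _)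
        (Finset.mem_univ k)
    have h2 : 0 ≤ v ⬝ᵥ v := by rw [hv]; positivity
    calc ∑ i, |v ⬝ᵥ ex c i| ^ 2 ≤ ∑ _i : Fin (2 * (N + 1) - 2), v ⬝ᵥ v :=
          Finset.sum_le_sum fun i _ => h1 i
      _ = (2 * N : ℕ) * (v ⬝ᵥ v) := by
          rw [Finset.sum_const, Finset.card_univ, Fintype.card_fin, nsmul_eq_mul,
            show 2 * (N + 1) - 2 = 2 * N by omega]
      _ ≤ _ := by push_cast; nlinarith

theorem key (c : Fin (N + 1)) (X : Fin (2 * (N + 1) - 2) → Fin (N + 1) → ℝ)
    (hX : WeakPhaseRetrieval X)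
    (hP : 0 < (cross (fst X) 0 * cross (snd X) c) ^ 2 - (cross (fst X) c * cross (snd X) 0) ^ 2) :
    False := by
  set u := cross (fst X) with hu
  set v := cross (snd X) with hv
  set l : ℝ := Real.sqrt (v 0 ^ 2 + v c ^ 2) with hl
  set m : ℝ := Real.sqrt (u 0 ^ 2 + u c ^ 2) with hm
  have hl2 : l ^ 2 = v 0 ^ 2 + v c ^ 2 := Real.sq_sqrt (by positivity)
  have hm2 : m ^ 2 = u 0 ^ 2 + u c ^ 2 := Real.sq_sqrt (by positivity)
  have h := hX (l • u + m • v) (l • u - m • v) (by
    intro i
    rw [add_dotProduct, sub_dotProduct, smul_dotProduct, smul_dotProduct]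
    by_cases hi : (i : ℕ) < N
    · have h1 : u ⬝ᵥ X i = 0 := by
        rw [dotProduct_comm]
        exact row_dot_cross (fst X) ⟨i, hi⟩
      rw [h1, smul_zero, zero_add, zero_sub, abs_neg]
    · have h1 : v ⬝ᵥ X i = 0 := by
        rw [dotProduct_comm]
        have h2 := row_dot_cross (snd X) ⟨i - N, by have := i.2; omega⟩
        have h3 : snd X ⟨i - N, by have := i.2; omega⟩ = X i := by
          unfold snd
          congr 1
          apply Fin.ext
          simp only
          omega
        rwa [h3] at h2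
      rw [h1, smul_zero, add_zero, sub_zero])
  obtain ⟨θ, hθ, hk⟩ := h
  have e0 : (l • u + m • v) 0 * (l • u - m • v) 0 = (u 0 * v c) ^ 2 - (u c * v 0) ^ 2 := by
    simp only [Pi.add_apply, Pi.sub_apply, Pi.smul_apply, smul_eq_mul]
    linear_combination (u 0 ^ 2) * hl2 - (v 0 ^ 2) * hm2
  have e1 : (l • u + m • v) c * (l • u - m • v) c = -((u 0 * v c) ^ 2 - (u c * v 0) ^ 2) := by
    simp only [Pi.add_apply, Pi.sub_apply, Pi.smul_apply, smul_eq_mul]
    linear_combination (u c ^ 2) * hl2 - (v c ^ 2) * hm2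
  have k0 := hk 0 (by rw [e0]; exact hP.ne')
  have k1 := hk c (by rw [e1]; exact (neg_lt_zero.2 hP).ne)
  have p0 : 0 < (l • u + m • v) 0 * (l • u - m • v) 0 := by rw [e0]; exact hP
  have p1 : (l • u + m • v) c * (l • u - m • v) c < 0 := by rw [e1]; exact neg_lt_zero.2 hP
  rcases hθ with rfl | rfl
  · rcases mul_neg_iff.1 p1 with ⟨a, b⟩ | ⟨a, b⟩
    · rw [Real.sign_of_pos a, Real.sign_of_neg b] at k1; norm_num at k1
    · rw [Real.sign_of_neg a, Real.sign_of_pos b] at k1; norm_num at k1
  · rcases mul_pos_iff.1 p0 with ⟨a, b⟩ | ⟨a, b⟩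
    · rw [Real.sign_of_pos a, Real.sign_of_pos b] at k0; norm_num at k0
    · rw [Real.sign_of_neg a, Real.sign_of_neg b] at k0; norm_num at k0

end

theorem not_dense (n : ℕ) (hn : 2 ≤ n) : ¬ (frames n (2 * n - 2) ⊆ closure (W n)) := by
  obtain ⟨N, rfl⟩ : ∃ N, n = N + 1 := ⟨n - 1, by omega⟩
  intro hsub
  set c : Fin (N + 1) := ⟨1, by omega⟩ with hc
  have hc0 : c ≠ 0 := by
    intro h
    have := congrArg Fin.val h
    simp [hc] at this
  have h1 := hsub (ex_frame c hc0)
  set P : (Fin (2 * (N + 1) - 2) → Fin (N + 1) → ℝ) → ℝ := fun X =>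
    (cross (fst X) 0 * cross (snd X) c) ^ 2 - (cross (fst X) c * cross (snd X) 0) ^ 2 with hP
  have hcont : Continuous P := by
    have a1 := (continuous_cross (N := N) 0).comp (continuous_fst (N := N))
    have a2 := (continuous_cross (N := N) c).comp (continuous_snd (N := N))
    have a3 := (continuous_cross (N := N) c).comp (continuous_fst (N := N))
    have a4 := (continuous_cross (N := N) 0).comp (continuous_snd (N := N))
    exact ((a1.mul a2).pow 2).sub ((a3.mul a4).pow 2)
  have hval : P (ex c) = 1 := by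
    simp only [hP]
    rw [fst_ex, snd_ex, cross_units_ne 0 c hc0, mul_pow, cross_units_self, cross_units_self]
    ring
  have hopen : IsOpen {X | 0 < P X} := isOpen_lt continuous_const hcont
  obtain ⟨X, hX1, hX2⟩ := mem_closure_iff.1 h1 _ hopen (by
    show 0 < P (ex c)
    rw [hval]; exact one_pos)
  exact key c X hX2.2 hX1

end Run7.h204.Wpr
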